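import Pool.Agent.LG.Stmts

/-!
# COL: exchange of adjacent unlinked columns
-/

namespace LG

open Equiv Finset Function

namespace COL

section lex

variable {β : Type} [LinearOrder β]

/-- the positions of the circles -/
def e (x : β) : β ×ₗ Bool := toLex (x, false)

/-- the position immediately above -/
def e' (x : β) : β ×ₗ Bool := toLex (x, true)

theorem lt1 {x y : β} : e x < e y ↔ x < y := by
  simp [e, Prod.Lex.toLex_lt_toLex]

theorem lt2 {x y : β} : e x < e' y ↔ x ≤ y := by
  simp [e, e', Prod.Lex.toLex_lt_toLex, le_iff_lt_or_eq]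

theorem lt3 {x y : β} : e' x < e y ↔ x < y := by
  simp [e, e', Prod.Lex.toLex_lt_toLex]

omit [LinearOrder β] in
theorem eq1 {x y : β} : e x = e y ↔ x = y := by
  simp [e]

omit [LinearOrder β] in
theorem ne1 {x y : β} : e x ≠ e' y := by
  simp [e, e']

theorem cyc_e {x y z : β} : cyc (e x) (e y) (e z) ↔ cyc x y z := by
  simp only [cyc, lt1]

theorem ico_e {x y z : β} : ico (e x) (e y) (e z) ↔ ico x y z := by
  simp only [ico, eq1, cyc_e]

/-- the height -/
theorem height (A B C D : β) (hU : Unl A B C D) (hAB : A ≠ B) (hCD : C ≠ D) : ∃ t : β,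
    cyc (e A) (e' t) (e C) ∧ ¬ ico (e A) (e C) (e' t) ∧ ¬ ico (e A) (e D) (e' t) ∧
      ¬ cyc (e' t) (e A) (e C) ∧ ¬ cyc (e' t) (e B) (e C) := by
  by_cases h : cyc A C B
  · refine ⟨A, ?_⟩
    have hne : e C ≠ e' A := ne1
    have hne2 : e D ≠ e' A := ne1
    simp only [cyc, ico, lt1, lt2, lt3, eq1]
    unfold Unl cyc at *
    refine ⟨?_, ?_, ?_, ?_, ?_⟩ <;> grind
  · refine ⟨B, ?_⟩
    have hne : e C ≠ e' B := ne1
    have hne2 : e D ≠ e' B := ne1
    simp only [cyc, ico, lt1, lt2, lt3, eq1]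
    unfold Unl cyc at *
    refine ⟨?_, ?_, ?_, ?_, ?_⟩ <;> grind

end lex

section main

variable {ι κ α β : Type} [Fintype ι] [DecidableEq ι] [Fintype κ] [LinearOrder α] [LinearOrder β]

theorem Wt_e (c : ι → α) (r : ι → β) (a : κ → α) (b : κ → β) (x : Perm ι) (i l : ι) :
    Wt (gm c (e ∘ r) a (e ∘ b)) x i l = Wt (gm c r a b) x i l := by
  unfold Wt
  refine if_congr ?_ ?_ rfl
  · simp only [Emp, gm, comp_apply, cyc_e]
  · refine Finset.prod_congr rfl fun m _ => if_congr ?_ rfl rfl
    cases m with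
    | inl m => simp only [Ins, gm, comp_apply, Sum.elim_inl, ico_e]
    | inr m => simp only [Ins, gm, comp_apply, Sum.elim_inr, ico_e]

theorem del_e (c : ι → α) (r : ι → β) (a : κ → α) (b : κ → β) (f : Perm ι → ZMod 2) :
    del (gm c (e ∘ r) a (e ∘ b)) f = del (gm c r a b) f := by
  funext y
  unfold del
  simp only [Wt_e]

/-- the next circle -/
theorem exists_succ (c : ι → α) (hc : Injective c) {j k : ι} (hjk : j ≠ k) :
    ∃ i, i ≠ k ∧ ∀ l, ¬ cyc (c k) (c l) (c i) := by
  by_cases h : ∃ l, c k < c l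
  · obtain ⟨l0, hl0⟩ := h
    obtain ⟨i, hi, hmin⟩ := Finset.exists_min_image (univ.filter fun l => c k < c l) c
      ⟨l0, by simpa using hl0⟩
    have hi' : c k < c i := by simpa using hi
    refine ⟨i, fun h => by rw [h] at hi'; exact lt_irrefl _ hi', ?_⟩
    intro l hl
    have h1 : c k < c l → c i ≤ c l := fun h => hmin l (by simpa using h)
    unfold cyc at hl
    grind
  · push Not at h
    obtain ⟨i, hi, hmin⟩ := Finset.exists_min_image (univ.filter fun l => l ≠ k) c
      ⟨j, by simpa using hjk⟩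
    have hi' : i ≠ k := by simpa using hi
    refine ⟨i, hi', ?_⟩
    intro l hl
    have h1 : l ≠ k → c i ≤ c l := fun h => hmin l (by simpa using h)
    have h2 : l = k → c l = c k := fun h => by rw [h]
    have h3 := h i
    have h4 := h l
    have h5 : c i ≠ c k := fun h => hi' (hc h)
    unfold cyc at hl
    grind

/-- the data of the exchange -/
def mkD (c : ι → α) (r : ι → β) (a : κ → α) (b : κ → β) (hac : ∀ m, ∃ k, a m = c k) (j k i2 : ι)
    (hjk : j ≠ k) (hi2 : i2 ≠ k) (hc : Injective c) (hadj : ∀ i, ¬ cyc (c j) (c i) (c k))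
    (hadj2 : ∀ i, ¬ cyc (c k) (c i) (c i2)) (t : β) : PD (gm c (e ∘ r) a (e ∘ b)) where
  i0 := k
  i1 := j
  i2 := i2
  n1 := hjk
  n2 := hi2
  adj1 := hadj
  adj2 := hadj2
  a := e' t
  av := fun l => ne1
  aq := fun m => by
    cases m with
    | inl m => exact ne1
    | inr m => exact ne1
  L := fun m => Sum.elim c a m = c j
  K := fun m => Sum.elim c a m = c k
  decL := fun _ => inferInstance
  decK := fun _ => inferInstance
  p' := fun m => Equiv.swap (c j) (c k) (Sum.elim c a m)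
  hL := fun m => by
    have hp : ∃ i, Sum.elim c a m = c i := by
      cases m with
      | inl m => exact ⟨m, rfl⟩
      | inr m => exact hac m
    obtain ⟨i, hi⟩ := hp
    have h1 := hadj i
    show Sum.elim c a m = c j ↔ ico (c j) (Sum.elim c a m) (c k)
    rw [hi]
    unfold ico
    tauto
  hK := fun m => by
    have hp : ∃ i, Sum.elim c a m = c i := by
      cases m with
      | inl m => exact ⟨m, rfl⟩
      | inr m => exact hac m
    obtain ⟨i, hi⟩ := hp
    have h1 := hadj2 i
    show Sum.elim c a m = c k ↔ ico (c k) (Sum.elim c a m) (c i2)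
    rw [hi]
    unfold ico
    tauto
  disj := fun m h => hjk (hc (h.1.symm.trans h.2))
  mL := fun m h => by
    show ico (c k) (Equiv.swap (c j) (c k) (Sum.elim c a m)) (c i2)
    rw [h, Equiv.swap_apply_left]
    exact Or.inl rfl
  mK := fun m h => by
    show ico (c j) (Equiv.swap (c j) (c k) (Sum.elim c a m)) (c k)
    rw [h, Equiv.swap_apply_right]
    exact Or.inl rfl
  mO := fun m h1 h2 => by
    show Equiv.swap (c j) (c k) (Sum.elim c a m) = Sum.elim c a m
    exact Equiv.swap_apply_of_ne_of_ne h1 h2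

theorem Pw_one (c : ι → α) (r : ι → β) (a : κ → α) (b : κ → β) (hG : Gd c r a b) (j k i2 : ι)
    (hjk : j ≠ k) (hi2 : i2 ≠ k) (hadj : ∀ i, ¬ cyc (c j) (c i) (c k))
    (hadj2 : ∀ i, ¬ cyc (c k) (c i) (c i2)) (t : β) (m n : κ) (hm : a m = c j) (hn : a n = c k)
    (h1 : cyc (e (r j)) (e' t) (e (r k))) (h2 : ¬ ico (e (r j)) (e (r k)) (e' t))
    (h3 : ¬ ico (e (r j)) (e (b n)) (e' t)) (h4 : ¬ cyc (e' t) (e (r j)) (e (r k)))
    (h5 : ¬ cyc (e' t) (e (b m)) (e (r k))) (i l : ι) :
    Pw (mkD c r a b hG.ac j k i2 hjk hi2 hG.ci hadj hadj2 t) 1 i l =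
      if i = j ∧ l = k then 1 else 0 := by
  set D := mkD c r a b hG.ac j k i2 hjk hi2 hG.ci hadj hadj2 t with hD
  by_cases hil : i = j ∧ l = k
  · obtain ⟨rfl, rfl⟩ := hil
    rw [if_pos ⟨rfl, rfl⟩]
    unfold Pw
    have hcond : i ≠ l ∧ (i = D.i0 ∨ l = D.i0) ∧ Emp (gm c (e ∘ r) a (e ∘ b)) 1 i l ∧
        cyc ((gm c (e ∘ r) a (e ∘ b)).v ((1 : Perm ι) i)) D.a
          ((gm c (e ∘ r) a (e ∘ b)).v ((1 : Perm ι) l)) :=
      ⟨hjk, Or.inr rfl, fun q hq => hadj q hq.1, h1⟩
    rw [if_pos hcond]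
    apply Finset.prod_eq_one
    intro μ _
    rw [if_neg]
    unfold PIns
    by_cases hK : D.K μ
    · rw [if_pos hK]
      have hK' : Sum.elim c a μ = c l := hK
      cases μ with
      | inl q =>
        have : q = l := hG.ci hK'
        subst this
        exact h2
      | inr q =>
        have : q = n := hG.ai (hK'.trans hn.symm)
        subst this
        exact h3
    · rw [if_neg hK]
      by_cases hL : D.L μ
      · rw [if_pos hL]
        have hL' : Sum.elim c a μ = c i := hL
        cases μ with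
        | inl q =>
          have : q = i := hG.ci hL'
          subst this
          exact h4
        | inr q =>
          have : q = m := hG.ai (hL'.trans hm.symm)
          subst this
          exact h5
      · rw [if_neg hL]
        intro hI
        exact hL ((D.hL μ).2 hI.1)
  · rw [if_neg hil]
    unfold Pw
    by_cases hcond : i ≠ l ∧ (i = D.i0 ∨ l = D.i0) ∧ Emp (gm c (e ∘ r) a (e ∘ b)) 1 i l ∧
        cyc ((gm c (e ∘ r) a (e ∘ b)).v ((1 : Perm ι) i)) D.a
          ((gm c (e ∘ r) a (e ∘ b)).v ((1 : Perm ι) l))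
    · rw [if_pos hcond]
      have hi0 : D.i0 = k := rfl
      obtain ⟨hne, hor, -, -⟩ := hcond
      rw [hi0] at hor
      apply Finset.prod_eq_zero (Finset.mem_univ (Sum.inl i))
      rw [if_pos]
      · rfl
      · unfold PIns
        by_cases hK : D.K (Sum.inl i)
        · rw [if_pos hK]
          exact Or.inl rfl
        · rw [if_neg hK]
          have hik : i ≠ k := by
            rintro rfl
            exact hK rfl
          have hlk : l = k := hor.resolve_left hik
          have hij : i ≠ j := fun h => hil ⟨h, hlk⟩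
          have hL : ¬ D.L (Sum.inl i) := by
            intro hL
            exact hij (hG.ci hL)
          rw [if_neg hL]
          exact ⟨Or.inl rfl, Or.inl rfl⟩
    · rw [if_neg hcond]

theorem pent_one (c : ι → α) (r : ι → β) (a : κ → α) (b : κ → β) (D : PD (gm c (e ∘ r) a (e ∘ b)))
    (j k : ι) (h : ∀ i l, Pw D 1 i l = if i = j ∧ l = k then 1 else 0) :
    pent D (Pi.single 1 1) = Pi.single (Equiv.swap j k) 1 := by
  funext y
  unfold pent
  have h1 : ∀ i l, (Pi.single (1 : Perm ι) (1 : ZMod 2) : Perm ι → ZMod 2) (y * Equiv.swap i l) *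
      Pw D (y * Equiv.swap i l) i l = if i = j ∧ l = k then (if y * Equiv.swap i l = 1 then 1 else 0) else 0 := by
    intro i l
    rw [Pi.single_apply]
    by_cases h2 : y * Equiv.swap i l = 1
    · rw [if_pos h2, h2, h i l, one_mul]
    · rw [if_neg h2, zero_mul]
      split_ifs <;> rfl
  simp only [h1]
  rw [Finset.sum_eq_single j, Finset.sum_eq_single k]
  · rw [if_pos ⟨rfl, rfl⟩, Pi.single_apply]
    refine if_congr ?_ rfl rfl
    rw [mul_eq_one_iff_eq_inv, Equiv.swap_inv]
  · intro l _ hl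
    rw [if_neg]
    exact fun h => hl h.2
  · intro h
    exact absurd (Finset.mem_univ _) h
  · intro i _ hi
    apply Finset.sum_eq_zero
    intro l _
    rw [if_neg]
    exact fun h => hi h.1
  · intro h
    exact absurd (Finset.mem_univ _) h

/-- relabelling of the vertical circles -/
theorem Wt_relabel {M R : Type} [Fintype M] [CommRing R] (u u' : ι → α) (v : ι → β) (p : M → α)
    (q : M → β) (w : M → R) (s : Perm ι) (hs : s * s = 1) (hu : ∀ i, u' i = u (s i)) (x : Perm ι)
    (i l : ι) : Wt (⟨u', v, p, q, w⟩ : MG ι M α β R) x i l =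
      Wt (⟨u, v, p, q, w⟩ : MG ι M α β R) (x * s) (s i) (s l) := by
  have hss : ∀ i, s (s i) = i := fun i => by
    rw [← Perm.mul_apply, hs, Perm.one_apply]
  have hx : ∀ i, (x * s) (s i) = x i := fun i => by rw [Perm.mul_apply, hss]
  unfold Wt
  refine if_congr ?_ ?_ rfl
  · refine and_congr (by simp) ?_
    unfold Emp
    simp only [hu, hx]
    constructor
    · intro h k'
      have := h (s k')
      rw [hss, ← hx (s k'), hss] at this
      exact this
    · intro h k'
      have := h (s k')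
      rw [hx k'] at this
      exact this
  · refine Finset.prod_congr rfl fun m _ => if_congr ?_ rfl rfl
    unfold Ins
    simp only [hu, hx]

theorem fwd (hPC : P_PC) (c : ι → α) (r : ι → β) (a : κ → α) (b : κ → β) (hG : Gd c r a b)
    (j k : ι) (m n : κ) (hjk : j ≠ k) (hadj : ∀ i, ¬ cyc (c j) (c i) (c k)) (hm : a m = c j)
    (hn : a n = c k) (hU : Unl (r j) (b m) (r k) (b n)) (hV : V c r a b) :
    V (Equiv.swap (c j) (c k) ∘ c) r (Equiv.swap (c j) (c k) ∘ a) b := by
  obtain ⟨f, hf⟩ := hV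
  obtain ⟨i2, hi2, hadj2⟩ := exists_succ c hG.ci hjk
  obtain ⟨t, h1, h2, h3, h4, h5⟩ := height (r j) (b m) (r k) (b n) hU
    (fun h => hG.ne j m ⟨hm.symm, h⟩) (fun h => hG.ne k n ⟨hn.symm, h⟩)
  set D := mkD c r a b hG.ac j k i2 hjk hi2 hG.ci hadj hadj2 t with hD
  have hcu : Injective (gm c (e ∘ r) a (e ∘ b)).u := hG.ci
  have hcv : Injective (gm c (e ∘ r) a (e ∘ b)).v := fun x y hxy => hG.ri (eq1.1 hxy)
  have key := hPC ι (ι ⊕ κ) α (β ×ₗ Bool) (ZMod 2) (gm c (e ∘ r) a (e ∘ b)) D rfl hcu hcv f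
  have hf' : del (gm c (e ∘ r) a (e ∘ b)) f = Pi.single 1 1 := by
    rw [del_e]
    exact hf
  rw [hf', pent_one c r a b D j k (Pw_one c r a b hG j k i2 hjk hi2 hadj hadj2 t m n hm hn h1 h2
    h3 h4 h5)] at key
  set s : Perm ι := Equiv.swap j k with hs
  have hss : s * s = 1 := Equiv.swap_mul_self j k
  refine ⟨fun x => pent D f (x * s), ?_⟩
  have hc' : ∀ i, Equiv.swap (c j) (c k) (c i) = c (s i) := by
    intro i
    by_cases hij : i = j
    · rw [hij, Equiv.swap_apply_left, hs, Equiv.swap_apply_left]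
    · by_cases hik : i = k
      · rw [hik, Equiv.swap_apply_right, hs, Equiv.swap_apply_right]
      · rw [hs, Equiv.swap_apply_of_ne_of_ne hij hik, Equiv.swap_apply_of_ne_of_ne
          (fun h => hij (hG.ci h)) (fun h => hik (hG.ci h))]
  have hW : ∀ (x : Perm ι) (i l : ι),
      Wt (gm (Equiv.swap (c j) (c k) ∘ c) r (Equiv.swap (c j) (c k) ∘ a) b) x i l =
        Wt D.G' (x * s) (s i) (s l) := by
    intro x i l
    rw [← Wt_e]
    have e1 : gm (Equiv.swap (c j) (c k) ∘ c) (e ∘ r) (Equiv.swap (c j) (c k) ∘ a) (e ∘ b) =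
        (⟨Equiv.swap (c j) (c k) ∘ c, e ∘ r, fun m => Equiv.swap (c j) (c k) (Sum.elim c a m),
          Sum.elim (e ∘ r) (e ∘ b), fun _ => 0⟩ : MG ι (ι ⊕ κ) α (β ×ₗ Bool) (ZMod 2)) := by
      unfold gm
      have e2 : Sum.elim (Equiv.swap (c j) (c k) ∘ c) (Equiv.swap (c j) (c k) ∘ a) =
          fun m => Equiv.swap (c j) (c k) (Sum.elim c a m) := by
        funext m
        cases m <;> rfl
      rw [e2]
    rw [e1]
    exact Wt_relabel c (Equiv.swap (c j) (c k) ∘ c) (e ∘ r) _ _ _ s hss hc' x i l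
  funext y
  have hkey := congrFun key (y * s)
  unfold bd del
  unfold del at hkey
  simp only [hW]
  have hmul : ∀ i l : ι, y * Equiv.swap i l * s = y * s * Equiv.swap (s i) (s l) := by
    intro i l
    have h6 : Equiv.swap i l * s = s * Equiv.swap (s i) (s l) := by
      have h7 : s⁻¹ = s := by rw [hs, Equiv.swap_inv]
      have h8 := Equiv.swap_mul_eq_mul_swap s i l
      rw [h7] at h8
      exact h8
    rw [mul_assoc, h6, mul_assoc]
  simp only [hmul]
  set F : ι → ι → ZMod 2 := fun i l => pent D f (y * s * Equiv.swap i l) *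
    Wt D.G' (y * s * Equiv.swap i l) i l with hF
  have hre : ∑ i, ∑ l, F (s i) (s l) = ∑ i, ∑ l, F i l := by
    calc ∑ i, ∑ l, F (s i) (s l) = ∑ i, ∑ l, F (s i) l :=
          Finset.sum_congr rfl fun i _ => Equiv.sum_comp s (F (s i))
      _ = ∑ i, ∑ l, F i l := Equiv.sum_comp s fun i => ∑ l, F i l
  refine (hre.trans hkey).trans ?_
  rw [Pi.single_apply, Pi.single_apply]
  refine if_congr ?_ rfl rfl
  constructor
  · intro h
    have := mul_right_cancel (h.trans (one_mul s).symm)
    exact this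
  · intro h
    rw [h, one_mul]

end main

end COL

open COL in
theorem t_COL : Stmt_COL := by
  intro hPC ι κ α β _ _ _ _ _ c r a b hG j k m n hjk hadj hm hn hU
  refine ⟨fwd hPC c r a b hG j k m n hjk hadj hm hn hU, fun hV => ?_⟩
  set σ : Perm α := Equiv.swap (c j) (c k) with hσ
  have hσσ : ∀ x, σ (σ x) = x := fun x => by
    rw [hσ, ← Perm.mul_apply, Equiv.swap_mul_self, Perm.one_apply]
  have hcj : (σ ∘ c) j = c k := Equiv.swap_apply_left _ _
  have hck : (σ ∘ c) k = c j := Equiv.swap_apply_right _ _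
  have hr : ∀ i, ∃ l, (σ ∘ c) i = c l := by
    intro i
    by_cases hij : c i = c j
    · exact ⟨k, by rw [comp_apply, hij, hσ, Equiv.swap_apply_left]⟩
    · by_cases hik : c i = c k
      · exact ⟨j, by rw [comp_apply, hik, hσ, Equiv.swap_apply_right]⟩
      · exact ⟨i, by rw [comp_apply, hσ, Equiv.swap_apply_of_ne_of_ne hij hik]⟩
  have hG' : Gd (σ ∘ c) r (σ ∘ a) b := by
    refine ⟨σ.injective.comp hG.ci, hG.ri, σ.injective.comp hG.ai, hG.bi, ?_, ?_, hG.br, hG.rb, ?_⟩
    · intro q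
      obtain ⟨l, hl⟩ := hG.ac q
      exact ⟨l, by rw [comp_apply, comp_apply, hl]⟩
    · intro q
      obtain ⟨l, hl⟩ := hG.ca q
      exact ⟨l, by rw [comp_apply, comp_apply, hl]⟩
    · rintro q l ⟨h1, h2⟩
      exact hG.ne q l ⟨σ.injective h1, h2⟩
  have hadj' : ∀ i, ¬ cyc ((σ ∘ c) k) ((σ ∘ c) i) ((σ ∘ c) j) := by
    intro i
    obtain ⟨l, hl⟩ := hr i
    rw [hcj, hck, hl]
    exact hadj l
  have hU' : Unl (r k) (b n) (r j) (b m) := by
    have h1 : r j ≠ b m := fun h => hG.ne j m ⟨hm.symm, h⟩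
    have h2 : r k ≠ b n := fun h => hG.ne k n ⟨hn.symm, h⟩
    unfold Unl cyc at *
    grind
  have := fwd hPC (σ ∘ c) r (σ ∘ a) b hG' k j n m hjk.symm hadj'
    (by rw [comp_apply, hn, hck, hσ, Equiv.swap_apply_right])
    (by rw [comp_apply, hm, hcj, hσ, Equiv.swap_apply_left]) hU' hV
  rw [hcj, hck] at this
  have e1 : Equiv.swap (c j) (c k) ∘ σ ∘ c = c := by
    funext i
    exact hσσ (c i)
  have e2 : Equiv.swap (c j) (c k) ∘ σ ∘ a = a := by
    funext i
    exact hσσ (a i)
  rw [e1, e2] at this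
  exact this

end LG
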