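import Pool.Agent.LG.Stmts

/-!
# DD: the square of the differential vanishes
-/

namespace LG.DD

open Equiv Finset Function

section Sums

variable {ι R : Type} [Fintype ι] [DecidableEq ι] [CommRing R]

theorem a1 (A : ι → ι → ι → R) :
    ∑ k, ∑ l, ∑ i, ∑ j, (if i = k then A i j l else 0) = ∑ p, ∑ q, ∑ r, A p q r := by
  refine Finset.sum_congr rfl fun k _ => ?_
  rw [Finset.sum_comm (f := fun q r => A k q r)]
  refine Finset.sum_congr rfl fun l _ => ?_
  rw [Finset.sum_eq_single k]
  · simp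
  · intro b _ hb
    simp [hb]
  · simp

theorem a2 (A : ι → ι → ι → R) :
    ∑ k, ∑ l, ∑ i, ∑ j, (if i = l then A i j k else 0) = ∑ p, ∑ q, ∑ r, A p q r := by
  rw [Finset.sum_comm, ← a1 A]

theorem a3 (A : ι → ι → ι → R) :
    ∑ k, ∑ l, ∑ i, ∑ j, (if j = k then A j i l else 0) = ∑ p, ∑ q, ∑ r, A p q r := by
  rw [← a1 A]
  refine Finset.sum_congr rfl fun k _ => Finset.sum_congr rfl fun l _ => ?_
  rw [Finset.sum_comm]

theorem a4 (A : ι → ι → ι → R) :
    ∑ k, ∑ l, ∑ i, ∑ j, (if j = l then A j i k else 0) = ∑ p, ∑ q, ∑ r, A p q r := by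
  rw [Finset.sum_comm, ← a3 A]

theorem a5 (A : ι → ι → R) :
    ∑ k, ∑ l, ∑ i, ∑ j, (if i = k ∧ j = l then A i j else 0) = ∑ p, ∑ q, A p q := by
  refine Finset.sum_congr rfl fun k _ => Finset.sum_congr rfl fun l _ => ?_
  rw [Finset.sum_eq_single k]
  · rw [Finset.sum_eq_single l]
    · simp
    · intro b _ hb
      simp [hb]
    · simp
  · intro b _ hb
    simp [hb]
  · simp

theorem a6 (A : ι → ι → R) :
    ∑ k, ∑ l, ∑ i, ∑ j, (if i = l ∧ j = k then A i j else 0) = ∑ p, ∑ q, A p q := by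
  rw [Finset.sum_comm, ← a5 A]

theorem pt (T : ι → ι → ι → ι → R) (h1 : ∀ i k l, T i i k l = 0) (h2 : ∀ i j k, T i j k k = 0)
    (i j k l : ι) :
    T i j k l = (if i ≠ k ∧ i ≠ l ∧ j ≠ k ∧ j ≠ l then T i j k l else 0) +
      ((if i = k then (if j ≠ l then T i j i l else 0) else 0) +
      (if i = l then (if j ≠ k then T i j k i else 0) else 0) +
      (if j = k then (if i ≠ l then T i j j l else 0) else 0) +
      (if j = l then (if i ≠ k then T i j k j else 0) else 0)) +
      ((if i = k ∧ j = l then T i j i j else 0) + (if i = l ∧ j = k then T i j j i else 0)) := by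
  by_cases hij : i = j
  · subst hij
    simp [h1]
  by_cases hkl : k = l
  · subst hkl
    rw [h2]
    by_cases hik : i = k
    · subst hik
      have : ¬ j = i := fun h => hij h.symm
      simp [h2, this]
    · by_cases hjk : j = k
      · subst hjk
        simp [h2, hij]
      · simp [hik, hjk]
  by_cases hik : i = k
  · subst hik
    have h3 : ¬ j = i := fun h => hij h.symm
    by_cases hjl : j = l
    · subst hjl
      simp [hkl, h3]
    · simp [hkl, hjl, h3]
  by_cases hil : i = l
  · subst hil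
    have h3 : ¬ j = i := fun h => hij h.symm
    by_cases hjk : j = k
    · subst hjk
      simp [hik, h3]
    · simp [hik, hjk, h3]
  by_cases hjk : j = k
  · subst hjk
    simp [hij, hil, hkl]
  by_cases hjl : j = l
  · subst hjl
    simp [hij, hik, hjk]
  simp [hik, hil, hjk, hjl]

theorem split (T : ι → ι → ι → ι → R) (h1 : ∀ i k l, T i i k l = 0) (h2 : ∀ i j k, T i j k k = 0) :
    ∑ k, ∑ l, ∑ i, ∑ j, T i j k l =
      (∑ k, ∑ l, ∑ i, ∑ j, if i ≠ k ∧ i ≠ l ∧ j ≠ k ∧ j ≠ l then T i j k l else 0) +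
      (∑ p, ∑ q, ∑ r, if q ≠ r then T p q p r + T p q r p + T q p p r + T q p r p else 0) +
      ∑ p, ∑ q, (T p q p q + T p q q p) := by
  have e : ∀ k l i j, T i j k l = _ := fun k l i j => pt T h1 h2 i j k l
  have e1 := a1 fun p q r => if q ≠ r then T p q p r else 0
  have e2 := a2 fun p q r => if q ≠ r then T p q r p else 0
  have e3 := a3 fun p q r => if q ≠ r then T q p p r else 0
  have e4 := a4 fun p q r => if q ≠ r then T q p r p else 0
  have e5 := a5 fun p q => T p q p q
  have e6 := a6 fun p q => T p q q p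
  calc ∑ k, ∑ l, ∑ i, ∑ j, T i j k l
      = ∑ k, ∑ l, ∑ i, ∑ j, ((if i ≠ k ∧ i ≠ l ∧ j ≠ k ∧ j ≠ l then T i j k l else 0) +
      ((if i = k then (if j ≠ l then T i j i l else 0) else 0) +
      (if i = l then (if j ≠ k then T i j k i else 0) else 0) +
      (if j = k then (if i ≠ l then T i j j l else 0) else 0) +
      (if j = l then (if i ≠ k then T i j k j else 0) else 0)) +
      ((if i = k ∧ j = l then T i j i j else 0) + (if i = l ∧ j = k then T i j j i else 0))) :=
        Finset.sum_congr rfl fun k _ => Finset.sum_congr rfl fun l _ =>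
          Finset.sum_congr rfl fun i _ => Finset.sum_congr rfl fun j _ => pt T h1 h2 i j k l
    _ = _ := by
      simp only [Finset.sum_add_distrib]
      rw [e1, e2, e3, e4, e5, e6]
      have : ∀ p q r : ι, (if q ≠ r then T p q p r + T p q r p + T q p p r + T q p r p else 0) =
        (if q ≠ r then T p q p r else 0) + (if q ≠ r then T p q r p else 0) +
          (if q ≠ r then T q p p r else 0) + (if q ≠ r then T q p r p else 0) := by
        intro p q r
        split_ifs <;> ring
      simp only [this, Finset.sum_add_distrib]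

theorem disj (h2 : (2 : R) = 0) (T : ι → ι → ι → ι → R)
    (h : ∀ i j k l, i ≠ k → i ≠ l → j ≠ k → j ≠ l → T i j k l = T k l i j) :
    (∑ k, ∑ l, ∑ i, ∑ j, if i ≠ k ∧ i ≠ l ∧ j ≠ k ∧ j ≠ l then T i j k l else 0) = 0 := by
  have e : (∑ k, ∑ l, ∑ i, ∑ j, if i ≠ k ∧ i ≠ l ∧ j ≠ k ∧ j ≠ l then T i j k l else 0) =
      ∑ a : (ι × ι) × (ι × ι), if a.2.1 ≠ a.1.1 ∧ a.2.1 ≠ a.1.2 ∧ a.2.2 ≠ a.1.1 ∧ a.2.2 ≠ a.1.2
        then T a.2.1 a.2.2 a.1.1 a.1.2 else 0 := by
    simp only [Fintype.sum_prod_type]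
  rw [e]
  refine Finset.sum_involution (fun a _ => (a.2, a.1)) ?_ ?_ ?_ ?_
  · rintro ⟨⟨k, l⟩, ⟨i, j⟩⟩ _
    by_cases hc : i ≠ k ∧ i ≠ l ∧ j ≠ k ∧ j ≠ l
    · obtain ⟨c1, c2, c3, c4⟩ := hc
      simp only [ne_eq, c1, c2, c3, c4, c1.symm, c2.symm, c3.symm, c4.symm, not_false_eq_true,
        and_self, if_true]
      rw [h i j k l c1 c2 c3 c4]
      linear_combination (T k l i j) * h2
    · have hc' : ¬ (k ≠ i ∧ k ≠ j ∧ l ≠ i ∧ l ≠ j) := fun hh =>
        hc ⟨hh.1.symm, hh.2.2.1.symm, hh.2.1.symm, hh.2.2.2.symm⟩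
      simp only [hc, hc', if_false, add_zero]
  · rintro ⟨⟨k, l⟩, ⟨i, j⟩⟩ _ hne heq
    simp only [Prod.mk.injEq] at heq
    apply hne
    rw [if_neg]
    intro hc
    exact hc.1 heq.1.1
  · intro a _
    exact Finset.mem_univ _
  · intro a _
    rfl

theorem cycl (F : ι → ι → ι → R) :
    ∑ p, ∑ q, ∑ r, F q r p = ∑ p, ∑ q, ∑ r, F p q r := by
  rw [Finset.sum_comm]
  refine Finset.sum_congr rfl fun q _ => ?_
  rw [Finset.sum_comm]

theorem trip (h2 : (2 : R) = 0) (K : ι → ι → ι → R)
    (h0 : ∀ p q r, p = q ∨ p = r → K p q r = 0)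
    (h : ∀ p q r, p ≠ q → q ≠ r → p ≠ r → K p q r + K q r p + K r p q = 0) :
    (∑ p, ∑ q, ∑ r, if q ≠ r then K p q r else 0) = 0 := by
  have c1 := cycl fun p q r => if q ≠ r then K p q r else 0
  have c2 := cycl fun p q r => if p ≠ q then K r p q else 0
  have e : (∑ p, ∑ q, ∑ r, ((if q ≠ r then K p q r else 0) + (if r ≠ p then K q r p else 0) +
      (if p ≠ q then K r p q else 0))) = 0 := by
    refine Finset.sum_eq_zero fun p _ => Finset.sum_eq_zero fun q _ =>
      Finset.sum_eq_zero fun r _ => ?_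
    by_cases hpq : p = q
    · subst hpq
      by_cases hpr : p = r
      · subst hpr
        simp
      · simp [h0 p p r (Or.inl rfl), h0 p r p (Or.inr rfl)]
    · by_cases hqr : q = r
      · subst hqr
        simp [h0 q q p (Or.inl rfl), h0 q p q (Or.inr rfl)]
      · by_cases hpr : p = r
        · subst hpr
          simp [h0 p q p (Or.inr rfl), h0 p p q (Or.inl rfl)]
        · have hrp : r ≠ p := fun hh => hpr hh.symm
          simp only [ne_eq, hpq, hqr, hrp, not_false_eq_true, if_true]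
          exact h p q r hpq hqr hpr
  simp only [Finset.sum_add_distrib] at e
  rw [c1, ← c2] at e
  linear_combination e - (∑ p, ∑ q, ∑ r, if q ≠ r then K p q r else 0) * h2

end Sums

theorem wt_self {ι M α β R : Type} [Fintype ι] [DecidableEq ι] [Fintype M] [LinearOrder α]
    [LinearOrder β] [CommRing R] (G : MG ι M α β R) (x : Perm ι) (i : ι) : Wt G x i i = 0 := by
  unfold Wt
  rw [if_neg]
  exact fun h => h.1 rfl

theorem sw1 {ι : Type} [DecidableEq ι] (p q r : ι) (h1 : p ≠ q) (h2 : q ≠ r) (h3 : p ≠ r) :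
    swap p r * swap p q = swap q p * swap q r := by
  ext a
  simp only [Perm.mul_apply, swap_apply_def]
  split_ifs <;> simp_all

end LG.DD

theorem LG.DD.swc {ι : Type} [DecidableEq ι] (i j k l : ι) (a : i ≠ k) (b : i ≠ l) (c : j ≠ k)
    (d : j ≠ l) : Equiv.swap k l * Equiv.swap i j = Equiv.swap i j * Equiv.swap k l := by
  ext t
  simp only [Equiv.Perm.mul_apply, Equiv.swap_apply_def]
  split_ifs <;> simp_all

theorem LG.t_DD : LG.Stmt_DD := by
  intro w0 w1 w2 ι M α β R _ _ _ _ _ _ G h2 hu hv hc hr f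
  funext z
  set T : ι → ι → ι → ι → R := fun i j k l =>
    f (z * Equiv.swap k l * Equiv.swap i j) *
      LG.Wt G (z * Equiv.swap k l * Equiv.swap i j) i j * LG.Wt G (z * Equiv.swap k l) k l with hT
  have e : LG.del G (LG.del G f) z = ∑ k, ∑ l, ∑ i, ∑ j, T i j k l := by
    simp only [LG.del, hT, Finset.sum_mul]
  have key : ∀ (x : Equiv.Perm ι) (i j : ι), x * Equiv.swap i j * Equiv.swap i j = x := by
    intro x i j
    rw [mul_assoc, Equiv.swap_mul_self, mul_one]
  have h1 : ∀ i k l, T i i k l = 0 := by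
    intro i k l
    simp only [hT, LG.DD.wt_self, mul_zero, zero_mul]
  have h3 : ∀ i j k, T i j k k = 0 := by
    intro i j k
    simp only [hT, LG.DD.wt_self, mul_zero]
  rw [e, LG.DD.split T h1 h3]
  have s0 := LG.DD.disj h2 T (by
    intro i j k l a b c d
    have hcm := LG.DD.swc i j k l a b c d
    have hx : z * Equiv.swap k l * Equiv.swap i j = z * Equiv.swap i j * Equiv.swap k l := by
      rw [mul_assoc, hcm, ← mul_assoc]
    have hw := w0 ι M α β R G hu hv (z * Equiv.swap k l * Equiv.swap i j) i j k l a b c d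
    rw [key] at hw
    have hw2 : z * Equiv.swap k l * Equiv.swap i j * Equiv.swap k l = z * Equiv.swap i j := by
      rw [hx, key]
    rw [hw2] at hw
    simp only [hT]
    rw [← hx]
    linear_combination f (z * Equiv.swap k l * Equiv.swap i j) * hw)
  have s2 : ∑ p, ∑ q, (T p q p q + T p q q p) = 0 := by
    refine Finset.sum_eq_zero fun p _ => Finset.sum_eq_zero fun q _ => ?_
    have hx := w2 ι M α β R G hu hv hc hr z p q
    simp only [hT, Equiv.swap_comm q p, key]
    rw [mul_assoc, hx.1, mul_assoc, hx.2]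
    simp
  have hK : ∀ p q r, T p q p r + T p q r p + T q p p r + T q p r p =
      f (z * (Equiv.swap p r * Equiv.swap p q)) *
        (LG.W2 G (z * (Equiv.swap p r * Equiv.swap p q)) p q *
        LG.W2 G (z * (Equiv.swap p r * Equiv.swap p q) * Equiv.swap p q) p r) := by
    intro p q r
    have e1 : z * (Equiv.swap p r * Equiv.swap p q) = z * Equiv.swap p r * Equiv.swap p q := by
      rw [mul_assoc]
    rw [e1, key]
    simp only [hT, LG.W2, Equiv.swap_comm q p, Equiv.swap_comm r p]
    ring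
  have s1 := LG.DD.trip h2 (fun p q r => T p q p r + T p q r p + T q p p r + T q p r p)
    (by
      rintro p q r (rfl | rfl)
      · simp only [h1, add_zero]
      · simp only [h3, add_zero])
    (by
      intro p q r a b c
      have w := w1 ι M α β R G h2 hu hv (z * (Equiv.swap p r * Equiv.swap p q)) p q r a b c
      simp only [hK]
      have g1 := LG.DD.sw1 p q r a b c
      have g2 := LG.DD.sw1 q r p b c.symm a.symm
      rw [← g2, ← g1]
      rw [← mul_add, ← mul_add, w, mul_zero])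
  rw [s0, s1, s2]
  simp
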