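import Pool.Agent.LG.Stmts

/-!
# EPS: commutation with the map through one mark, by dual numbers
-/

namespace LG

open Equiv Finset Function

namespace EPS

section

set_option linter.unusedSectionVars false

variable {ι κ α β : Type} [Fintype ι] [DecidableEq ι] [Fintype κ] [DecidableEq κ]
  [LinearOrder α] [LinearOrder β]

/-- The indicator of the rectangles whose set of marks is exactly `S`. -/
def E (c : ι → α) (r : ι → β) (a : κ → α) (b : κ → β) (S : Finset (ι ⊕ κ)) (x : Perm ι)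
    (i j : ι) : ZMod 2 :=
  if i ≠ j ∧ Emp (gm c r a b) x i j ∧
    (univ.filter fun m => Ins (gm c r a b) x i j m) = S then 1 else 0

theorem bdS_eq (c : ι → α) (r : ι → β) (a : κ → α) (b : κ → β) (S : Finset (ι ⊕ κ))
    (f : Perm ι → ZMod 2) (y : Perm ι) :
    bdS c r a b S f y = ∑ i, ∑ j, f (y * Equiv.swap i j) * E c r a b S (y * Equiv.swap i j) i j := rfl

/-- The weighted grid with the weight `ε` at the mark `m`. -/
def G1 (c : ι → α) (r : ι → β) (a : κ → α) (b : κ → β) (m : ι ⊕ κ) :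
    MG ι (ι ⊕ κ) α β (DualNumber (ZMod 2)) where
  u := c
  v := r
  p := Sum.elim c a
  q := Sum.elim r b
  w := fun m' => if m' = m then DualNumber.eps else 0

theorem emp_iff (c : ι → α) (r : ι → β) (a : κ → α) (b : κ → β) (m : ι ⊕ κ) (x : Perm ι)
    (i j : ι) : Emp (G1 c r a b m) x i j ↔ Emp (gm c r a b) x i j := Iff.rfl

theorem ins_iff (c : ι → α) (r : ι → β) (a : κ → α) (b : κ → β) (m : ι ⊕ κ) (x : Perm ι)
    (i j : ι) (m' : ι ⊕ κ) : Ins (G1 c r a b m) x i j m' ↔ Ins (gm c r a b) x i j m' := Iff.rfl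

theorem wt_eq (c : ι → α) (r : ι → β) (a : κ → α) (b : κ → β) (m : ι ⊕ κ) (x : Perm ι)
    (i j : ι) : Wt (G1 c r a b m) x i j =
      TrivSqZeroExt.inl (E c r a b ∅ x i j) + TrivSqZeroExt.inr (E c r a b {m} x i j) := by
  unfold Wt E
  simp only [emp_iff, ins_iff]
  by_cases h : i ≠ j ∧ Emp (gm c r a b) x i j
  · rw [if_pos h, ← Finset.prod_filter]
    by_cases h0 : (univ.filter fun m' => Ins (gm c r a b) x i j m') = ∅
    · have h1 : ¬ (univ.filter fun m' => Ins (gm c r a b) x i j m') = {m} := by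
        rw [h0]; exact (Finset.singleton_ne_empty m).symm
      rw [if_pos ⟨h.1, h.2, h0⟩, if_neg (fun hh => h1 hh.2.2), h0, Finset.prod_empty]
      ext <;> simp
    · rw [if_neg (fun hh => h0 hh.2.2)]
      by_cases h1 : (univ.filter fun m' => Ins (gm c r a b) x i j m') = {m}
      · rw [if_pos ⟨h.1, h.2, h1⟩, h1, Finset.prod_singleton]
        ext <;> simp [G1]
      · rw [if_neg (fun hh => h1 hh.2.2)]
        have h2 : ∃ m' ∈ (univ.filter fun m' => Ins (gm c r a b) x i j m'), m' ≠ m := by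
          by_contra hc
          push Not at hc
          apply h1
          obtain ⟨m₀, hm₀⟩ := Finset.nonempty_iff_ne_empty.mpr h0
          apply Finset.eq_singleton_iff_unique_mem.mpr
          refine ⟨?_, hc⟩
          have := hc m₀ hm₀
          rwa [this] at hm₀
        obtain ⟨m', hm', hne⟩ := h2
        rw [Finset.prod_eq_zero hm' (by simp [G1, hne])]
        ext <;> simp
  · rw [if_neg h, if_neg (fun hh => h ⟨hh.1, hh.2.1⟩), if_neg (fun hh => h ⟨hh.1, hh.2.1⟩)]
    ext <;> simp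

theorem fst_sum {s : Type} (t : Finset s) (f : s → DualNumber (ZMod 2)) :
    TrivSqZeroExt.fst (∑ i ∈ t, f i) = ∑ i ∈ t, TrivSqZeroExt.fst (f i) := by
  classical
  induction t using Finset.induction_on with
  | empty => simp
  | insert a t ha ih => rw [Finset.sum_insert ha, Finset.sum_insert ha, TrivSqZeroExt.fst_add, ih]

theorem snd_sum {s : Type} (t : Finset s) (f : s → DualNumber (ZMod 2)) :
    TrivSqZeroExt.snd (∑ i ∈ t, f i) = ∑ i ∈ t, TrivSqZeroExt.snd (f i) := by
  classical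
  induction t using Finset.induction_on with
  | empty => simp
  | insert a t ha ih => rw [Finset.sum_insert ha, Finset.sum_insert ha, TrivSqZeroExt.snd_add, ih]

theorem fst_del (c : ι → α) (r : ι → β) (a : κ → α) (b : κ → β) (m : ι ⊕ κ)
    (F : Perm ι → DualNumber (ZMod 2)) (y : Perm ι) :
    TrivSqZeroExt.fst (del (G1 c r a b m) F y) =
      bdS c r a b ∅ (fun x => TrivSqZeroExt.fst (F x)) y := by
  rw [bdS_eq]
  unfold del
  rw [fst_sum]
  refine Finset.sum_congr rfl fun i _ => ?_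
  rw [fst_sum]
  refine Finset.sum_congr rfl fun j _ => ?_
  rw [wt_eq, TrivSqZeroExt.fst_mul]
  simp

theorem snd_del (c : ι → α) (r : ι → β) (a : κ → α) (b : κ → β) (m : ι ⊕ κ)
    (F : Perm ι → DualNumber (ZMod 2)) (y : Perm ι) :
    TrivSqZeroExt.snd (del (G1 c r a b m) F y) =
      bdS c r a b {m} (fun x => TrivSqZeroExt.fst (F x)) y +
        bdS c r a b ∅ (fun x => TrivSqZeroExt.snd (F x)) y := by
  rw [bdS_eq, bdS_eq]
  unfold del
  rw [snd_sum, ← Finset.sum_add_distrib]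
  refine Finset.sum_congr rfl fun i _ => ?_
  rw [snd_sum, ← Finset.sum_add_distrib]
  refine Finset.sum_congr rfl fun j _ => ?_
  rw [wt_eq, TrivSqZeroExt.snd_mul]
  simp [mul_comm]

theorem bdS_zero (c : ι → α) (r : ι → β) (a : κ → α) (b : κ → β) (S : Finset (ι ⊕ κ)) :
    bdS c r a b S (fun _ => 0) = fun _ => 0 := by
  funext y
  rw [bdS_eq]
  simp

theorem colZero (c : ι → α) (r : ι → β) (a : κ → α) (b : κ → β) (h : Gd c r a b) (m : ι ⊕ κ) :
    ColZero (G1 c r a b m) := by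
  intro i j _ _
  by_cases hm : m = Sum.inl i
  · obtain ⟨n, hn⟩ := h.ca i
    refine Finset.prod_eq_zero (Finset.mem_univ (Sum.inr n : ι ⊕ κ)) ?_
    have h1 : ico ((G1 c r a b m).u i) ((G1 c r a b m).p (Sum.inr n)) ((G1 c r a b m).u j) :=
      Or.inl hn.symm
    rw [if_pos h1]
    subst hm
    simp [G1]
  · refine Finset.prod_eq_zero (Finset.mem_univ (Sum.inl i : ι ⊕ κ)) ?_
    have h1 : ico ((G1 c r a b m).u i) ((G1 c r a b m).p (Sum.inl i)) ((G1 c r a b m).u j) :=
      Or.inl rfl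
    rw [if_pos h1]
    have h2 : (Sum.inl i : ι ⊕ κ) ≠ m := fun e => hm e.symm
    simp [G1, h2]

theorem rowZero (c : ι → α) (r : ι → β) (a : κ → α) (b : κ → β) (h : Gd c r a b) (m : ι ⊕ κ) :
    RowZero (G1 c r a b m) := by
  intro i j _ _
  by_cases hm : m = Sum.inl i
  · obtain ⟨n, hn⟩ := h.rb i
    refine Finset.prod_eq_zero (Finset.mem_univ (Sum.inr n : ι ⊕ κ)) ?_
    have h1 : ico ((G1 c r a b m).v i) ((G1 c r a b m).q (Sum.inr n)) ((G1 c r a b m).v j) :=
      Or.inl hn.symm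
    rw [if_pos h1]
    subst hm
    simp [G1]
  · refine Finset.prod_eq_zero (Finset.mem_univ (Sum.inl i : ι ⊕ κ)) ?_
    have h1 : ico ((G1 c r a b m).v i) ((G1 c r a b m).q (Sum.inl i)) ((G1 c r a b m).v j) :=
      Or.inl rfl
    rw [if_pos h1]
    have h2 : (Sum.inl i : ι ⊕ κ) ≠ m := fun e => hm e.symm
    simp [G1, h2]

theorem two_eq_zero : (2 : DualNumber (ZMod 2)) = 0 := by
  have h : (1 : ZMod 2) + 1 = 0 := by decide
  have h' : (2 : DualNumber (ZMod 2)) = 1 + 1 := one_add_one_eq_two.symm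
  refine h'.trans ?_
  ext
  · rw [TrivSqZeroExt.fst_add, TrivSqZeroExt.fst_one, TrivSqZeroExt.fst_zero]; exact h
  · simp

theorem eq_of_add_eq_zero {x y : ZMod 2} (h : x + y = 0) : x = y := by
  revert x y; decide

theorem comm (hDD : P_DD) (c : ι → α) (r : ι → β) (a : κ → α) (b : κ → β) (h : Gd c r a b)
    (m : ι ⊕ κ) (f : Perm ι → ZMod 2) :
    bdS c r a b {m} (bdS c r a b ∅ f) = bdS c r a b ∅ (bdS c r a b {m} f) := by
  have h0 := hDD ι (ι ⊕ κ) α β (DualNumber (ZMod 2)) (G1 c r a b m) two_eq_zero h.ci h.ri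
    (colZero c r a b h m) (rowZero c r a b h m) (fun x => TrivSqZeroExt.inl (f x))
  funext y
  have h1 := congrArg TrivSqZeroExt.snd (congrFun h0 y)
  rw [snd_del] at h1
  have h2 : (fun x => TrivSqZeroExt.fst
      (del (G1 c r a b m) (fun x => (TrivSqZeroExt.inl (f x) : DualNumber (ZMod 2))) x)) =
      bdS c r a b ∅ f := by
    funext x
    rw [fst_del]
    simp only [TrivSqZeroExt.fst_inl]
  have h3 : (fun x => TrivSqZeroExt.snd
      (del (G1 c r a b m) (fun x => (TrivSqZeroExt.inl (f x) : DualNumber (ZMod 2))) x)) =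
      bdS c r a b {m} f := by
    funext x
    rw [snd_del]
    simp only [TrivSqZeroExt.fst_inl, TrivSqZeroExt.snd_inl]
    rw [bdS_zero, add_zero]
  rw [h2, h3] at h1
  exact eq_of_add_eq_zero h1

theorem bdS_empty (c : ι → α) (r : ι → β) (a : κ → α) (b : κ → β) (f : Perm ι → ZMod 2) :
    bdS c r a b ∅ f = bd c r a b f := by
  funext y
  rw [bdS_eq]
  unfold bd del
  refine Finset.sum_congr rfl fun i _ => Finset.sum_congr rfl fun j _ => ?_
  have h1 : E c r a b ∅ (y * Equiv.swap i j) i j = Wt (gm c r a b) (y * Equiv.swap i j) i j := by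
    unfold E Wt
    by_cases h : i ≠ j ∧ Emp (gm c r a b) (y * Equiv.swap i j) i j
    · rw [if_pos h, ← Finset.prod_filter]
      by_cases h0 : (univ.filter fun m' => Ins (gm c r a b) (y * Equiv.swap i j) i j m') = ∅
      · rw [if_pos ⟨h.1, h.2, h0⟩, h0, Finset.prod_empty]
      · rw [if_neg (fun hh => h0 hh.2.2)]
        obtain ⟨m₀, hm₀⟩ := Finset.nonempty_iff_ne_empty.mpr h0
        rw [Finset.prod_eq_zero hm₀ rfl]
    · rw [if_neg h, if_neg (fun hh => h ⟨hh.1, hh.2.1⟩)]
  rw [h1]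

end

end EPS

theorem t_EPS : Stmt_EPS := by
  intro hDD ι κ α β _ _ _ _ _ _ c r a b h m f
  exact ⟨EPS.comm hDD c r a b h m f, EPS.bdS_empty c r a b f⟩

end LG
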