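import Pool.Agent.LG.Stmts

/-! LG_LCOL: the column move for lists. -/

namespace LG

open Equiv Finset Function

namespace LCOL

theorem unl_symm {a b c d : ℝ} (hab : a ≠ b) (hcd : c ≠ d) (h : Unl a b c d) : Unl b a d c := by
  unfold Unl cyc at *; grind

theorem unl_swap {a b c d : ℝ} (hab : a ≠ b) (hcd : c ≠ d) (h : Unl a b c d) : Unl d c b a := by
  unfold Unl cyc at *; grind

/-- order isomorphic column families. -/
theorem iso (hR : Stmt_REL) {ι : Type} [Fintype ι] [DecidableEq ι] (σ : ι → ι)
    (C C' R : ι → ℝ) (h : ∀ i j, C i < C j ↔ C' i < C' j) :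
    V C R (fun i => C (σ i)) R ↔ V C' R (fun i => C' (σ i)) R := by
  have key : ∀ (D : ι → ℝ) (x : ι ⊕ ι),
      Sum.elim D (fun i => D (σ i)) x = D (Sum.elim id σ x) := by
    intro D x
    cases x <;> rfl
  apply hR ι ι ι ι ℝ ℝ ℝ ℝ C R (fun i => C (σ i)) R C' R (fun i => C' (σ i)) R
    (Equiv.refl ι) (Equiv.refl ι)
  · intro x y z
    simp only [Equiv.sumCongr_refl, Equiv.coe_refl, id_eq, key]
    unfold cyc
    simp only [h]
  · intro x y
    simp only [Equiv.sumCongr_refl, Equiv.coe_refl, id_eq, key]
    have h1 := h (Sum.elim id σ x) (Sum.elim id σ y)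
    have h2 := h (Sum.elim id σ y) (Sum.elim id σ x)
    constructor
    · intro he
      have n1 : ¬ C (Sum.elim id σ x) < C (Sum.elim id σ y) := by rw [he]; exact lt_irrefl _
      have n2 : ¬ C (Sum.elim id σ y) < C (Sum.elim id σ x) := by rw [he]; exact lt_irrefl _
      rw [h1] at n1
      rw [h2] at n2
      exact le_antisymm (not_lt.mp n2) (not_lt.mp n1)
    · intro he
      have n1 : ¬ C' (Sum.elim id σ x) < C' (Sum.elim id σ y) := by rw [he]; exact lt_irrefl _
      have n2 : ¬ C' (Sum.elim id σ y) < C' (Sum.elim id σ x) := by rw [he]; exact lt_irrefl _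
      rw [← h1] at n1
      rw [← h2] at n2
      exact le_antisymm (not_lt.mp n2) (not_lt.mp n1)
  · intro x y z
    simp only [Equiv.sumCongr_refl, Equiv.coe_refl, id_eq]
  · intro x y
    simp only [Equiv.sumCongr_refl, Equiv.coe_refl, id_eq]

/-- `x` is strictly between `a` and `b`. -/
def bw (a x b : ℝ) : Prop := a < x ∧ x < b ∨ b < x ∧ x < a

noncomputable instance (a x b : ℝ) : Decidable (bw a x b) := by unfold bw; infer_instance

theorem gd {ι : Type} [Fintype ι] (σ : ι → ι) (hσ : Injective σ) (hf : ∀ i, σ i ≠ i)
    (C R : ι → ℝ) (hC : Injective C) (hRi : Injective R) :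
    Gd C R (fun i => C (σ i)) R where
  ci := hC
  ri := hRi
  ai := hC.comp hσ
  bi := hRi
  ac := fun m => ⟨σ m, rfl⟩
  ca := fun k => by
    obtain ⟨m, hm⟩ := (Finite.injective_iff_surjective.mp hσ) k
    exact ⟨m, by rw [hm]⟩
  br := fun m => ⟨m, rfl⟩
  rb := fun m => ⟨m, rfl⟩
  ne := fun k m h => by
    have h1 := hC h.1
    have h2 := hRi h.2
    subst h2
    exact hf k h1.symm

/-- exchange of two neighbouring columns. -/
theorem exch (hP : P_COL) {ι : Type} [Fintype ι] [DecidableEq ι] (σ : ι → ι)
    (hσ : Injective σ) (hf : ∀ i, σ i ≠ i) (C R : ι → ℝ) (hC : Injective C) (hRi : Injective R)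
    (i0 k m0 m : ι) (hk : k ≠ i0) (hm0 : σ m0 = i0) (hm : σ m = k)
    (hn : ∀ i, ¬ bw (C i0) (C i) (C k)) (hu : Unl (R m0) (R i0) (R m) (R k)) :
    V C R (fun i => C (σ i)) R ↔
      V (fun i => swap (C i0) (C k) (C i)) R (fun i => swap (C i0) (C k) (C (σ i))) R := by
  have hne : C k ≠ C i0 := fun h => hk (hC h)
  have n1 : R m0 ≠ R i0 := fun h => hf m0 (by rw [hm0]; exact (hRi h).symm)
  have n2 : R m ≠ R k := fun h => hf m (by rw [hm]; exact (hRi h).symm)
  have hg := gd σ hσ hf C R hC hRi
  rcases lt_or_gt_of_ne hne with h | h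
  · have h1 := hP ι ι ℝ ℝ C R (fun i => C (σ i)) R hg k i0 m m0 hk
      (by
        intro i hi
        apply hn i
        unfold cyc at hi
        unfold bw
        rcases hi with hi | hi | hi
        · right; exact hi
        · exact absurd (lt_trans hi.2 h) (lt_irrefl _)
        · exact absurd (lt_trans hi.1 h) (lt_irrefl _))
      (by simp only [hm]) (by simp only [hm0])
      (unl_swap n1 n2 hu)
    rw [h1, swap_comm (C k) (C i0)]
    rfl
  · have h1 := hP ι ι ℝ ℝ C R (fun i => C (σ i)) R hg i0 k m0 m (Ne.symm hk)
      (by
        intro i hi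
        apply hn i
        unfold cyc at hi
        unfold bw
        rcases hi with hi | hi | hi
        · left; exact hi
        · exact absurd (lt_trans hi.2 h) (lt_irrefl _)
        · exact absurd (lt_trans hi.1 h) (lt_irrefl _))
      (by simp only [hm0]) (by simp only [hm])
      (unl_symm n1 n2 hu)
    rw [h1]
    rfl

/-- the move for families. -/
theorem fam (hP : P_COL) (hR : Stmt_REL) {ι : Type} [Fintype ι] [DecidableEq ι] (σ : ι → ι)
    (hσ : Injective σ) (hf : ∀ i, σ i ≠ i) (R : ι → ℝ) (hRi : Injective R)
    (i0 m0 : ι) (hm0 : σ m0 = i0) (t : ℝ) (N : ℕ) :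
    ∀ C : ι → ℝ, Injective C → (∀ i, C i ≠ t) →
      (∀ m, bw (C i0) (C (σ m)) t → Unl (R m0) (R i0) (R m) (R (σ m))) →
      (univ.filter fun i => bw (C i0) (C i) t).card = N →
      (V C R (fun i => C (σ i)) R ↔
        V (update C i0 t) R (fun i => update C i0 t (σ i)) R) := by
  induction N with
  | zero =>
    intro C hC ht _ hc
    have hno : ∀ i, ¬ bw (C i0) (C i) t := by
      intro i hi
      have : i ∈ (univ.filter fun i => bw (C i0) (C i) t) := by simp [hi]
      rw [Finset.card_eq_zero] at hc
      rw [hc] at this
      simp at this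
    apply iso hR σ
    intro i j
    by_cases hi : i = i0
    · subst hi
      by_cases hj : j = i
      · subst hj; simp
      · rw [update_self, update_of_ne hj]
        have h1 := hno j
        have h2 := ht j
        have h3 : C j ≠ C i := fun h => hj (hC h)
        unfold bw at h1
        grind
    · by_cases hj : j = i0
      · subst hj
        rw [update_self, update_of_ne hi]
        have h1 := hno i
        have h2 := ht i
        have h3 : C i ≠ C j := fun h => hi (hC h)
        unfold bw at h1
        grind
      · rw [update_of_ne hi, update_of_ne hj]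
  | succ N ih =>
    intro C hC ht hu hc
    set S := univ.filter fun i => bw (C i0) (C i) t with hS
    have hSn : S.Nonempty := by
      rw [← Finset.card_pos, hc]; exact Nat.succ_pos N
    obtain ⟨k, hkS, hkmin⟩ := Finset.exists_min_image S (fun i => |C i - C i0|) hSn
    have hkb : bw (C i0) (C k) t := by
      rw [hS, Finset.mem_filter] at hkS; exact hkS.2
    have hk : k ≠ i0 := by
      rintro rfl
      unfold bw at hkb
      grind
    obtain ⟨m, hm⟩ := (Finite.injective_iff_surjective.mp hσ) k
    have hn : ∀ i, ¬ bw (C i0) (C i) (C k) := by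
      intro i hi
      have hiS : i ∈ S := by
        rw [hS, Finset.mem_filter]
        refine ⟨Finset.mem_univ _, ?_⟩
        unfold bw at *
        grind
      have h1 := hkmin i hiS
      unfold bw at hi
      rcases hi with hi | hi
      · rw [abs_of_pos (by linarith), abs_of_pos (by linarith)] at h1
        linarith
      · rw [abs_of_neg (by linarith), abs_of_neg (by linarith)] at h1
        linarith
    have hum := hu m (by rw [hm]; exact hkb)
    rw [hm] at hum
    rw [exch hP σ hσ hf C R hC hRi i0 k m0 m hk hm0 hm hn hum]
    set C' : ι → ℝ := fun i => swap (C i0) (C k) (C i) with hC'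
    have hC'i : Injective C' := (swap (C i0) (C k)).injective.comp hC
    have e0 : C' i0 = C k := by simp [hC']
    have e1 : C' k = C i0 := by simp [hC']
    have e2 : ∀ i, i ≠ i0 → i ≠ k → C' i = C i := by
      intro i h1 h2
      simp only [hC']
      exact swap_apply_of_ne_of_ne (fun h => h1 (hC h)) (fun h => h2 (hC h))
    have ht' : ∀ i, C' i ≠ t := by
      intro i
      by_cases h1 : i = i0
      · rw [h1, e0]; exact ht k
      · by_cases h2 : i = k
        · rw [h2, e1]; exact ht i0
        · rw [e2 i h1 h2]; exact ht i
    have hsub : ∀ i, bw (C' i0) (C' i) t → i ≠ i0 ∧ i ≠ k ∧ bw (C i0) (C i) t := by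
      intro i hi
      have a1 : i ≠ i0 := by
        rintro rfl
        unfold bw at hi
        grind
      have a2 : i ≠ k := by
        rintro rfl
        rw [e0, e1] at hi
        unfold bw at *
        grind
      refine ⟨a1, a2, ?_⟩
      rw [e0, e2 i a1 a2] at hi
      unfold bw at *
      grind
    have hfil : (univ.filter fun i => bw (C' i0) (C' i) t) = S.erase k := by
      ext i
      simp only [Finset.mem_filter, Finset.mem_univ, true_and, Finset.mem_erase, hS]
      constructor
      · intro hi
        obtain ⟨_, b, c⟩ := hsub i hi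
        exact ⟨b, c⟩
      · rintro ⟨b, d⟩
        have a1 : i ≠ i0 := by
          rintro rfl
          unfold bw at d
          grind
        have hne : C i ≠ C k := fun h => b (hC h)
        have hn' := hn i
        rw [e0, e2 i a1 b]
        unfold bw at *
        grind
    have hcard : (univ.filter fun i => bw (C' i0) (C' i) t).card = N := by
      rw [hfil, Finset.card_erase_of_mem hkS, hc]; rfl
    have hih := ih C' hC'i ht'
      (by
        intro m' hm'
        obtain ⟨_, _, c⟩ := hsub _ hm'
        exact hu m' c)
      hcard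
    have hshow : V C' R (fun i => C' (σ i)) R ↔
        V (update C' i0 t) R (fun i => update C' i0 t (σ i)) R := hih
    refine Iff.trans hshow ?_
    apply iso hR σ
    have f : ∀ i, i ≠ i0 → i ≠ k → (C' i = C i ∧ C i ≠ C k ∧ C i ≠ C i0 ∧
        ¬ bw (C i0) (C i) (C k)) := by
      intro i h1 h2
      exact ⟨e2 i h1 h2, fun h => h2 (hC h), fun h => h1 (hC h), hn i⟩
    intro i j
    by_cases hi : i = i0
    · rw [hi, update_self, update_self]
      by_cases hj : j = i0
      · rw [hj, update_self, update_self]
      · rw [update_of_ne hj, update_of_ne hj]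
        by_cases hj' : j = k
        · rw [hj', e1]
          unfold bw at hkb
          grind
        · rw [e2 j hj hj']
    · rw [update_of_ne hi, update_of_ne hi]
      by_cases hi' : i = k
      · rw [hi', e1]
        by_cases hj : j = i0
        · rw [hj, update_self, update_self]
          unfold bw at hkb
          grind
        · rw [update_of_ne hj, update_of_ne hj]
          by_cases hj' : j = k
          · rw [hj', e1]
            simp
          · obtain ⟨q1, q2, q3, q4⟩ := f j hj hj'
            rw [q1]
            unfold bw at q4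
            grind
      · obtain ⟨p1, p2, p3, p4⟩ := f i hi hi'
        rw [p1]
        by_cases hj : j = i0
        · rw [hj, update_self, update_self]
        · rw [update_of_ne hj, update_of_ne hj]
          by_cases hj' : j = k
          · rw [hj', e1]
            unfold bw at p4
            grind
          · rw [e2 j hj hj']

/-- positions of a list with a given first column. -/
theorem get_cons (c r : ℝ) (T : List (ℝ × ℝ)) :
    (fun i : Fin (T.length + 1) => (((c, r) :: T).get i).1) =
      update (fun i : Fin (T.length + 1) => (((0, r) :: T).get i).1) 0 c := by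
  funext i
  refine Fin.cases ?_ (fun j => ?_) i
  · rw [update_self]; rfl
  · rw [update_of_ne (Fin.succ_ne_zero j)]; rfl

end LCOL

open LCOL in
theorem t_LCOL : Stmt_LCOL := by
  intro hP hR c r t B z hnd ht hu
  set T : List (ℝ × ℝ) := B ++ [z] with hT
  have hTl : T.length = B.length + 1 := by rw [hT]; simp
  unfold Inv VL
  set σ : Fin (T.length + 1) → Fin (T.length + 1) := fun i => nx ((c, r) :: T) i with hσd
  have hσv : ∀ i : Fin (T.length + 1), (σ i).1 = (i.1 + 1) % (T.length + 1) := fun i => rfl
  have hσ : Injective σ := by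
    intro i j hij
    have h1 : (i.1 + 1) % (T.length + 1) = (j.1 + 1) % (T.length + 1) := by
      rw [← hσv, ← hσv, hij]
    apply Fin.ext
    have hi := i.2
    have hj := j.2
    by_cases a : i.1 + 1 < T.length + 1
    · by_cases b : j.1 + 1 < T.length + 1
      · rw [Nat.mod_eq_of_lt a, Nat.mod_eq_of_lt b] at h1
        omega
      · have b' : j.1 + 1 = T.length + 1 := by omega
        rw [Nat.mod_eq_of_lt a, b', Nat.mod_self] at h1
        omega
    · have a' : i.1 + 1 = T.length + 1 := by omega
      by_cases b : j.1 + 1 < T.length + 1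
      · rw [Nat.mod_eq_of_lt b, a', Nat.mod_self] at h1
        omega
      · omega
  have hf : ∀ i, σ i ≠ i := by
    intro i hi
    have h1 : (i.1 + 1) % (T.length + 1) = i.1 := by rw [← hσv, hi]
    have hi2 := i.2
    by_cases a : i.1 + 1 < T.length + 1
    · rw [Nat.mod_eq_of_lt a] at h1
      omega
    · have a' : i.1 + 1 = T.length + 1 := by omega
      rw [a', Nat.mod_self] at h1
      omega
  set C : Fin (T.length + 1) → ℝ := fun i => (((c, r) :: T).get i).1 with hC
  set R : Fin (T.length + 1) → ℝ := fun i => (((c, r) :: T).get i).2 with hRd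
  have hCi : Injective C := by
    have h1 := hnd.1
    intro i j hij
    have h2 := (List.nodup_iff_injective_get.mp h1)
    have h3 : (⟨i.1, by rw [List.length_map]; exact i.2⟩ : Fin (((c, r) :: T).map Prod.fst).length)
        = ⟨j.1, by rw [List.length_map]; exact j.2⟩ := by
      apply h2
      simp only [List.get_eq_getElem, List.getElem_map]
      exact hij
    exact Fin.ext (Fin.mk.inj_iff.mp h3)
  have hRi : Injective R := by
    have h1 := hnd.2
    intro i j hij
    have h2 := (List.nodup_iff_injective_get.mp h1)
    have h3 : (⟨i.1, by rw [List.length_map]; exact i.2⟩ : Fin (((c, r) :: T).map Prod.snd).length)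
        = ⟨j.1, by rw [List.length_map]; exact j.2⟩ := by
      apply h2
      simp only [List.get_eq_getElem, List.getElem_map]
      exact hij
    exact Fin.ext (Fin.mk.inj_iff.mp h3)
  have hCt : ∀ i, C i ≠ t := by
    intro i hi
    apply ht
    rw [← hi, List.mem_map]
    exact ⟨((c, r) :: T).get i, List.get_mem _ _, rfl⟩
  have hupd : update C 0 t = fun i : Fin (T.length + 1) => (((t, r) :: T).get i).1 := by
    funext i
    refine Fin.cases ?_ (fun j => ?_) i
    · rw [update_self]; rfl
    · rw [update_of_ne (Fin.succ_ne_zero j)]; rfl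
  have hR' : (fun i : Fin (T.length + 1) => (((t, r) :: T).get i).2) = R := by
    funext i
    refine Fin.cases ?_ (fun j => ?_) i
    · rfl
    · rfl
  have main := fam hP hR σ hσ hf R hRi 0 ⟨T.length, Nat.lt_succ_self _⟩
    (Fin.ext (by rw [hσv]; exact Nat.mod_self _)) t _ C hCi hCt
    (by
      intro m hm
      have hC0 : C 0 = c := rfl
      have hR0 : R 0 = r := rfl
      have hRl : R ⟨T.length, Nat.lt_succ_self _⟩ = z.2 := by
        simp only [hRd, List.get_eq_getElem]
        have : ((c, r) :: T)[T.length]'(Nat.lt_succ_self _) = z := by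
          have h9 : (c, r) :: T = ((c, r) :: B) ++ [z] := by rw [hT]; rfl
          have h10 : T.length = ((c, r) :: B).length := by rw [hTl]; rfl
          simp [hT, List.getElem_cons, List.getElem_append]
        rw [this]
      rw [hRl, hR0]
      have hmlt : m.1 + 1 < T.length + 1 := by
        by_contra hcon
        have h1 : m.1 + 1 = T.length + 1 := by
          have := m.2
          omega
        have h2 : σ m = 0 := by
          apply Fin.ext
          rw [hσv, h1]
          exact Nat.mod_self _
        rw [h2] at hm
        unfold bw at hm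
        grind
      have hσm : σ m = ⟨m.1 + 1, hmlt⟩ := by
        apply Fin.ext
        rw [hσv]
        exact Nat.mod_eq_of_lt hmlt
      have hdec : (c, r) :: T = ((c, r) :: T).take m.1 ++
          ((c, r) :: T).get m :: ((c, r) :: T).get ⟨m.1 + 1, hmlt⟩ ::
            ((c, r) :: T).drop (m.1 + 2) := by
        conv_lhs => rw [← List.take_append_drop m.1 ((c, r) :: T)]
        congr 1
        rw [List.drop_eq_getElem_cons (i := m.1) (by exact m.2)]
        congr 1
        rw [List.drop_eq_getElem_cons (l := (c, r) :: T) (i := m.1 + 1) hmlt]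
        rfl
      rw [hσm] at hm ⊢
      exact hu _ _ _ _ hdec hm) rfl
  rw [hupd] at main
  refine Iff.trans main ?_
  rw [← hR']
  rfl

end LG
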