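import Pool.Agent.LG.Stmts

/-!
# Legendrian equivalence preserves the vanishing of the two classes
-/

namespace LG

open Equiv Finset Function

theorem t_LEQ : Stmt_LEQ := by
  intro hmv hneg L L' h
  induction h with
  | rel x y hxy => exact ⟨hmv x y hxy, hmv _ _ (hneg x y hxy)⟩
  | refl x => exact ⟨Iff.rfl, Iff.rfl⟩
  | symm x y _ ih => exact ⟨ih.1.symm, ih.2.symm⟩
  | trans x y z _ _ ih1 ih2 => exact ⟨ih1.1.trans ih2.1, ih1.2.trans ih2.2⟩

end LG
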