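import Pool.Agent.LG.Stmts

/-!
# LISO: cyclic order isomorphism of lists
-/

namespace LG

open Equiv Finset Function

namespace LISO

theorem nx_cast (L L' : List (ℝ × ℝ)) (h : L.length = L'.length) (i : Fin L.length) :
    nx L' (i.cast h) = (nx L i).cast h := by
  apply Fin.ext
  simp only [nx, Fin.val_cast, h]

theorem fst_inj {L : List (ℝ × ℝ)} (hL : Nd L) {i j : Fin L.length} :
    (L.get i).1 = (L.get j).1 ↔ i = j := by
  constructor
  · intro hij
    have h1 := List.nodup_iff_injective_get.1 hL.1
    have h2 : (L.map Prod.fst).get (i.cast (List.length_map Prod.fst).symm) =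
        (L.map Prod.fst).get (j.cast (List.length_map Prod.fst).symm) := by
      simpa using hij
    have h3 := h1 h2
    apply Fin.ext
    have h4 := congrArg Fin.val h3
    simpa using h4
  · rintro rfl; rfl

theorem snd_inj {L : List (ℝ × ℝ)} (hL : Nd L) {i j : Fin L.length} :
    (L.get i).2 = (L.get j).2 ↔ i = j := by
  constructor
  · intro hij
    have h1 := List.nodup_iff_injective_get.1 hL.2
    have h2 : (L.map Prod.snd).get (i.cast (List.length_map Prod.snd).symm) =
        (L.map Prod.snd).get (j.cast (List.length_map Prod.snd).symm) := by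
      simpa using hij
    have h3 := h1 h2
    apply Fin.ext
    have h4 := congrArg Fin.val h3
    simpa using h4
  · rintro rfl; rfl

/-- The entry whose first coordinate is the position of a column. -/
def gc (L : List (ℝ × ℝ)) : Fin L.length ⊕ Fin L.length → Fin L.length := Sum.elim id (nx L)

/-- The entry whose second coordinate is the position of a row. -/
def gr (L : List (ℝ × ℝ)) : Fin L.length ⊕ Fin L.length → Fin L.length := Sum.elim id id

theorem col_eq (L : List (ℝ × ℝ)) (x : Fin L.length ⊕ Fin L.length) :
    Sum.elim (fun i : Fin L.length => (L.get i).1) (fun i : Fin L.length => (L.get (nx L i)).1) x =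
      (L.get (gc L x)).1 := by
  rcases x with i | i <;> rfl

theorem row_eq (L : List (ℝ × ℝ)) (x : Fin L.length ⊕ Fin L.length) :
    Sum.elim (fun i : Fin L.length => (L.get i).2) (fun i : Fin L.length => (L.get i).2) x =
      (L.get (gr L x)).2 := by
  rcases x with i | i <;> rfl

theorem gc_cast (L L' : List (ℝ × ℝ)) (h : L.length = L'.length)
    (x : Fin L.length ⊕ Fin L.length) :
    gc L' (Equiv.sumCongr (finCongr h) (finCongr h) x) = (gc L x).cast h := by
  rcases x with i | i
  · rfl
  · exact nx_cast L L' h i

theorem gr_cast (L L' : List (ℝ × ℝ)) (h : L.length = L'.length)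
    (x : Fin L.length ⊕ Fin L.length) :
    gr L' (Equiv.sumCongr (finCongr h) (finCongr h) x) = (gr L x).cast h := by
  rcases x with i | i <;> rfl

theorem fcast_inj {a b : ℕ} (h : a = b) {i j : Fin a} : i.cast h = j.cast h ↔ i = j := by
  subst h; rfl

end LISO

open LISO in
theorem t_LISO : Stmt_LISO := by
  intro hREL L L' hL hL' h h1 h2
  refine hREL (Fin L.length) (Fin L.length) (Fin L'.length) (Fin L'.length) ℝ ℝ ℝ ℝ _ _ _ _
    (fun i : Fin L'.length => (L'.get i).1) (fun i => (L'.get i).2)
    (fun i : Fin L'.length => (L'.get (nx L' i)).1) (fun i => (L'.get i).2)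
    (finCongr h) (finCongr h) ?_ ?_ ?_ ?_
  · intro x y z
    rw [col_eq, col_eq, col_eq, col_eq, col_eq, col_eq, gc_cast, gc_cast, gc_cast]
    exact h1 _ _ _
  · intro x y
    rw [col_eq, col_eq, col_eq, col_eq, gc_cast, gc_cast, fst_inj hL, fst_inj hL', fcast_inj]
  · intro x y z
    rw [row_eq, row_eq, row_eq, row_eq, row_eq, row_eq, gr_cast, gr_cast, gr_cast]
    exact h2 _ _ _
  · intro x y
    rw [row_eq, row_eq, row_eq, row_eq, gr_cast, gr_cast, snd_inj hL, snd_inj hL', fcast_inj]

end LG
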