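import Pool.Agent.LG.Stmts

/-!
# The list moves are compatible with the rotation by the angle `π`
-/

namespace LG

open Equiv Finset Function

namespace LNEG

/-- The rotation of one pair. -/
def ng (p : ℝ × ℝ) : ℝ × ℝ := (-p.1, -p.2)

lemma neg_eq (L : List (ℝ × ℝ)) : neg L = L.map ng := rfl

lemma ng_ng (p : ℝ × ℝ) : ng (ng p) = p := by
  simp [ng]

lemma map_map_ng (L : List (ℝ × ℝ)) : (L.map ng).map ng = L := by
  rw [List.map_map]
  have h : (ng ∘ ng) = id := by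
    funext p
    exact ng_ng p
  rw [h, List.map_id]

lemma nodup_neg (l : List ℝ) (h : l.Nodup) : (l.map fun x => -x).Nodup :=
  h.map neg_injective

lemma nd_neg (L : List (ℝ × ℝ)) (h : Nd L) : Nd (L.map ng) := by
  obtain ⟨h1, h2⟩ := h
  constructor
  · rw [List.map_map]
    have h3 : (Prod.fst ∘ ng) = (fun x : ℝ => -x) ∘ (Prod.fst : ℝ × ℝ → ℝ) := rfl
    rw [h3, ← List.map_map]
    exact nodup_neg _ h1
  · rw [List.map_map]
    have h3 : (Prod.snd ∘ ng) = (fun x : ℝ => -x) ∘ (Prod.snd : ℝ × ℝ → ℝ) := rfl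
    rw [h3, ← List.map_map]
    exact nodup_neg _ h2

lemma cyc_neg (a b c : ℝ) : cyc (-a) (-b) (-c) ↔ cyc c b a := by
  unfold cyc
  simp only [neg_lt_neg_iff]
  tauto

lemma unl_neg (a b c d : ℝ) (h : Unl a b c d) : Unl (-a) (-b) (-c) (-d) := by
  unfold Unl at *
  rw [cyc_neg, cyc_neg]
  simp only [ne_eq, neg_inj]
  unfold cyc at *
  grind

lemma mem_fst_neg (L : List (ℝ × ℝ)) (t : ℝ) :
    -t ∈ (L.map ng).map Prod.fst ↔ t ∈ L.map Prod.fst := by
  simp only [List.mem_map]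
  constructor
  · rintro ⟨p, ⟨q, hq, rfl⟩, h⟩
    exact ⟨q, hq, neg_injective h⟩
  · rintro ⟨q, hq, rfl⟩
    exact ⟨ng q, ⟨q, hq, rfl⟩, rfl⟩

lemma mem_snd_neg (L : List (ℝ × ℝ)) (t : ℝ) :
    -t ∈ (L.map ng).map Prod.snd ↔ t ∈ L.map Prod.snd := by
  simp only [List.mem_map]
  constructor
  · rintro ⟨p, ⟨q, hq, rfl⟩, h⟩
    exact ⟨q, hq, neg_injective h⟩
  · rintro ⟨q, hq, rfl⟩
    exact ⟨ng q, ⟨q, hq, rfl⟩, rfl⟩

lemma all_fst_neg (L : List (ℝ × ℝ)) (a b : ℝ) (h : ∀ d ∈ L.map Prod.fst, ¬ cyc a d b) :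
    ∀ d ∈ (L.map ng).map Prod.fst, ¬ cyc (-b) d (-a) := by
  intro d hd hc
  have h1 : -d ∈ L.map Prod.fst := by
    rw [← mem_fst_neg, neg_neg]
    exact hd
  apply h (-d) h1
  rw [← cyc_neg, neg_neg]
  exact hc

lemma all_snd_neg (L : List (ℝ × ℝ)) (a b : ℝ) (h : ∀ d ∈ L.map Prod.snd, ¬ cyc a d b) :
    ∀ d ∈ (L.map ng).map Prod.snd, ¬ cyc (-b) d (-a) := by
  intro d hd hc
  have h1 : -d ∈ L.map Prod.snd := by
    rw [← mem_snd_neg, neg_neg]
    exact hd
  apply h (-d) h1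
  rw [← cyc_neg, neg_neg]
  exact hc

lemma split_neg (L B₁ B₂ : List (ℝ × ℝ)) (x y : ℝ × ℝ) (h : L.map ng = B₁ ++ x :: y :: B₂) :
    L = B₁.map ng ++ ng x :: ng y :: B₂.map ng := by
  have h1 := congrArg (List.map ng) h
  rw [map_map_ng] at h1
  rw [h1]
  simp

end LNEG

open LNEG in
/-- The moves are compatible with the rotation by the angle `π`. -/
theorem t_LNEG : Stmt_LNEG := by
  intro L L' h
  rw [neg_eq, neg_eq]
  cases h with
  | rot A B =>
    rw [List.map_append, List.map_append]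
    exact Mv.rot _ _
  | iso L f g h hf hg =>
    have h1 : (L.map fun p => (f p.1, g p.2)).map ng =
        (L.map ng).map fun p => (-f (-p.1), -g (-p.2)) := by
      rw [List.map_map, List.map_map]
      apply List.map_congr_left
      intro p _
      simp [ng]
    rw [h1]
    refine Mv.iso (L.map ng) (fun x => -f (-x)) (fun x => -g (-x)) (nd_neg L h) ?_ ?_
    · intro p hp q hq hpq
      obtain ⟨p0, hp0, rfl⟩ := List.mem_map.1 hp
      obtain ⟨q0, hq0, rfl⟩ := List.mem_map.1 hq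
      have h2 : q0.1 < p0.1 := by
        change -p0.1 < -q0.1 at hpq
        linarith
      have h3 := hf q0 hq0 p0 hp0 h2
      change -f (- -p0.1) < -f (- -q0.1)
      rw [neg_neg, neg_neg]
      linarith
    · intro p hp q hq hpq
      obtain ⟨p0, hp0, rfl⟩ := List.mem_map.1 hp
      obtain ⟨q0, hq0, rfl⟩ := List.mem_map.1 hq
      have h2 : q0.2 < p0.2 := by
        change -p0.2 < -q0.2 at hpq
        linarith
      have h3 := hg q0 hq0 p0 hp0 h2
      change -g (- -p0.2) < -g (- -q0.2)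
      rw [neg_neg, neg_neg]
      linarith
  | col c r t B z h ht hu =>
    have e1 : ((c, r) :: (B ++ [z])).map ng = (-c, -r) :: (B.map ng ++ [ng z]) := by
      rw [List.map_cons, List.map_append]
      rfl
    have e2 : ((t, r) :: (B ++ [z])).map ng = (-t, -r) :: (B.map ng ++ [ng z]) := by
      rw [List.map_cons, List.map_append]
      rfl
    rw [e2]
    have hnd := nd_neg _ h
    have ht' : -t ∉ (((c, r) :: (B ++ [z])).map ng).map Prod.fst := by
      rw [mem_fst_neg]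
      exact ht
    rw [e1] at hnd ht' ⊢
    refine Mv.col (-c) (-r) (-t) (B.map ng) (ng z) hnd ht' ?_
    intro B₁ B₂ y x hd hx
    rw [← e1] at hd
    have hd' := split_neg _ _ _ _ _ hd
    have h1 := hu _ _ _ _ hd' (by
      change c < -x.1 ∧ -x.1 < t ∨ t < -x.1 ∧ -x.1 < c
      rcases hx with ⟨h1, h2⟩ | ⟨h1, h2⟩
      · right
        constructor <;> linarith
      · left
        constructor <;> linarith)
    have h2 := unl_neg _ _ _ _ h1
    change Unl (-z.2) (-r) y.2 x.2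
    change Unl (-z.2) (-r) (- -y.2) (- -x.2) at h2
    rwa [neg_neg, neg_neg] at h2
  | row c r t z B h ht hu =>
    have e1 : ((c, r) :: z :: B).map ng = (-c, -r) :: ng z :: B.map ng := rfl
    have e2 : ((c, t) :: z :: B).map ng = (-c, -t) :: ng z :: B.map ng := rfl
    have e3 : ((c, r) :: z :: B ++ [(c, r)]).map ng =
        (-c, -r) :: ng z :: B.map ng ++ [(-c, -r)] := by
      rw [List.map_append]
      rfl
    rw [e2]
    have hnd := nd_neg _ h
    have ht' : -t ∉ (((c, r) :: z :: B).map ng).map Prod.snd := by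
      rw [mem_snd_neg]
      exact ht
    rw [e1] at hnd ht' ⊢
    refine Mv.row (-c) (-r) (-t) (ng z) (B.map ng) hnd ht' ?_
    intro B₁ B₂ x y hd hx
    rw [← e3] at hd
    have hd' := split_neg _ _ _ _ _ hd
    have h1 := hu _ _ _ _ hd' (by
      change r < -x.2 ∧ -x.2 < t ∨ t < -x.2 ∧ -x.2 < r
      rcases hx with ⟨h1, h2⟩ | ⟨h1, h2⟩
      · right
        constructor <;> linarith
      · left
        constructor <;> linarith)
    have h2 := unl_neg _ _ _ _ h1
    change Unl (-c) (-z.1) x.1 y.1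
    change Unl (-c) (-z.1) (- -x.1) (- -y.1) at h2
    rwa [neg_neg, neg_neg] at h2
  | srow c₁ r₁ c₂ r₂ B z h ha =>
    have e1 : ((c₁, r₁) :: (c₂, r₂) :: (B ++ [z])).map ng =
        (-c₁, -r₁) :: (-c₂, -r₂) :: (B.map ng ++ [ng z]) := by
      rw [List.map_cons, List.map_cons, List.map_append]
      rfl
    have e2 : ((c₂, r₂) :: (B ++ [z])).map ng = (-c₂, -r₂) :: (B.map ng ++ [ng z]) := by
      rw [List.map_cons, List.map_append]
      rfl
    have hnd := nd_neg _ h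
    have key : (∀ d ∈ (((c₁, r₁) :: (c₂, r₂) :: (B ++ [z])).map ng).map Prod.fst,
          ¬ cyc (-c₁) d (-c₂)) ∧ cyc (-r₁) (-r₂) (-z.2) ∨
        (∀ d ∈ (((c₁, r₁) :: (c₂, r₂) :: (B ++ [z])).map ng).map Prod.fst,
          ¬ cyc (-c₂) d (-c₁)) ∧ cyc (-z.2) (-r₂) (-r₁) := by
      rcases ha with ⟨h1, h2⟩ | ⟨h1, h2⟩
      · right
        refine ⟨all_fst_neg _ _ _ h1, ?_⟩
        rw [cyc_neg]
        exact h2
      · left
        refine ⟨all_fst_neg _ _ _ h1, ?_⟩
        rw [cyc_neg]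
        exact h2
    rw [e1] at hnd key ⊢
    rw [e2]
    exact Mv.srow (-c₁) (-r₁) (-c₂) (-r₂) (B.map ng) (ng z) hnd key
  | scol c₁ r₁ c₂ r₂ z B h ha =>
    have e1 : ((c₁, r₁) :: (c₂, r₂) :: z :: B).map ng =
        (-c₁, -r₁) :: (-c₂, -r₂) :: ng z :: B.map ng := rfl
    have e2 : ((c₁, r₁) :: z :: B).map ng = (-c₁, -r₁) :: ng z :: B.map ng := rfl
    have hnd := nd_neg _ h
    have key : (∀ d ∈ (((c₁, r₁) :: (c₂, r₂) :: z :: B).map ng).map Prod.snd,
          ¬ cyc (-r₁) d (-r₂)) ∧ cyc (-z.1) (-c₁) (-c₂) ∨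
        (∀ d ∈ (((c₁, r₁) :: (c₂, r₂) :: z :: B).map ng).map Prod.snd,
          ¬ cyc (-r₂) d (-r₁)) ∧ cyc (-c₂) (-c₁) (-z.1) := by
      rcases ha with ⟨h1, h2⟩ | ⟨h1, h2⟩
      · right
        refine ⟨all_snd_neg _ _ _ h1, ?_⟩
        rw [cyc_neg]
        exact h2
      · left
        refine ⟨all_snd_neg _ _ _ h1, ?_⟩
        rw [cyc_neg]
        exact h2
    rw [e1] at hnd key ⊢
    rw [e2]
    exact Mv.scol (-c₁) (-r₁) (-c₂) (-r₂) (ng z) (B.map ng) hnd key

end LG
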