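import Pool.Agent.LG.Stmts

/-!
# LROT: rotation of lists
-/

namespace LG

open Equiv Finset Function

namespace LROT

/-- The positions of the entries after the rotation. -/
def rotEquiv (A B : List (ℝ × ℝ)) : Fin (A ++ B).length ≃ Fin (B ++ A).length where
  toFun i := ⟨(i.1 + B.length) % (B ++ A).length, Nat.mod_lt _ (by
    have := i.2; simp only [List.length_append] at *; omega)⟩
  invFun j := ⟨(j.1 + A.length) % (A ++ B).length, Nat.mod_lt _ (by
    have := j.2; simp only [List.length_append] at *; omega)⟩
  left_inv i := by
    apply Fin.ext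
    have h := i.2
    simp only [List.length_append] at *
    rw [Nat.add_comm B.length A.length, Nat.mod_add_mod,
      show i.1 + B.length + A.length = i.1 + (A.length + B.length) by omega, Nat.add_mod_right,
      Nat.mod_eq_of_lt h]
  right_inv j := by
    apply Fin.ext
    have h := j.2
    simp only [List.length_append] at *
    rw [Nat.add_comm A.length B.length, Nat.mod_add_mod,
      show j.1 + A.length + B.length = j.1 + (B.length + A.length) by omega, Nat.add_mod_right,
      Nat.mod_eq_of_lt h]

theorem get_left (B A : List (ℝ × ℝ)) (k j : ℕ) (h : j < (B ++ A).length) (hk : j = k)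
    (hk' : k < B.length) : (B ++ A)[j] = B[k] := by
  subst hk
  exact List.getElem_append_left hk'

theorem get_right (B A : List (ℝ × ℝ)) (k j : ℕ) (h : j < (B ++ A).length)
    (hk : j = B.length + k) (hk' : k < A.length) : (B ++ A)[j] = A[k] := by
  subst hk
  rw [List.getElem_append_right (by omega)]
  congr 1
  omega

theorem get_rot (A B : List (ℝ × ℝ)) (i : Fin (A ++ B).length) :
    (B ++ A).get (rotEquiv A B i) = (A ++ B).get i := by
  have h := i.2
  simp only [List.get_eq_getElem]
  by_cases h1 : i.1 < A.length
  · have h2 : (rotEquiv A B i).1 = B.length + i.1 := by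
      show (i.1 + B.length) % (B ++ A).length = _
      simp only [List.length_append] at *
      rw [Nat.mod_eq_of_lt (by omega)]
      omega
    rw [get_right B A i.1 _ _ h2 h1, get_left A B i.1 _ _ rfl h1]
  · have h2 : (rotEquiv A B i).1 = i.1 - A.length := by
      show (i.1 + B.length) % (B ++ A).length = _
      simp only [List.length_append] at *
      rw [show i.1 + B.length = (i.1 - A.length) + (B.length + A.length) by omega,
        Nat.add_mod_right]
      exact Nat.mod_eq_of_lt (by omega)
    have h3 : i.1 - A.length < B.length := by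
      simp only [List.length_append] at *
      omega
    rw [get_left B A (i.1 - A.length) _ _ h2 h3,
      get_right A B (i.1 - A.length) _ _ (by omega) h3]

theorem nx_rot (A B : List (ℝ × ℝ)) (i : Fin (A ++ B).length) :
    nx (B ++ A) (rotEquiv A B i) = rotEquiv A B (nx (A ++ B) i) := by
  apply Fin.ext
  show ((i.1 + B.length) % (B ++ A).length + 1) % (B ++ A).length =
    ((i.1 + 1) % (A ++ B).length + B.length) % (B ++ A).length
  simp only [List.length_append]
  rw [Nat.add_comm A.length B.length, Nat.mod_add_mod, Nat.mod_add_mod]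
  congr 1
  omega

theorem VL_iff (hR : Stmt_REL) (L L' : List (ℝ × ℝ)) (e : Fin L.length ≃ Fin L'.length)
    (h1 : ∀ i, L'.get (e i) = L.get i) (h2 : ∀ i, nx L' (e i) = e (nx L i)) :
    VL L ↔ VL L' := by
  unfold VL
  have hc : ∀ x : Fin L.length ⊕ Fin L.length,
      Sum.elim (fun i : Fin L'.length => (L'.get i).1)
        (fun i : Fin L'.length => (L'.get (nx L' i)).1) (Equiv.sumCongr e e x) =
      Sum.elim (fun i : Fin L.length => (L.get i).1)
        (fun i : Fin L.length => (L.get (nx L i)).1) x := by
    rintro (i | i)
    · show (L'.get (e i)).1 = (L.get i).1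
      rw [h1]
    · show (L'.get (nx L' (e i))).1 = (L.get (nx L i)).1
      rw [h2, h1]
  have hr : ∀ x : Fin L.length ⊕ Fin L.length,
      Sum.elim (fun i : Fin L'.length => (L'.get i).2)
        (fun i : Fin L'.length => (L'.get i).2) (Equiv.sumCongr e e x) =
      Sum.elim (fun i : Fin L.length => (L.get i).2)
        (fun i : Fin L.length => (L.get i).2) x := by
    rintro (i | i)
    · show (L'.get (e i)).2 = (L.get i).2
      rw [h1]
    · show (L'.get (e i)).2 = (L.get i).2
      rw [h1]
  refine hR _ _ _ _ _ _ _ _ _ _ _ _ _ _ _ _ e e ?_ ?_ ?_ ?_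
  · intro x y z
    rw [hc, hc, hc]
  · intro x y
    rw [hc, hc]
  · intro x y z
    rw [hr, hr, hr]
  · intro x y
    rw [hr, hr]

end LROT

theorem t_LROT : Stmt_LROT := by
  intro hR A B
  exact LROT.VL_iff hR _ _ (LROT.rotEquiv A B) (LROT.get_rot A B) (LROT.nx_rot A B)

end LG
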