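import Pool.Agent.LG.Stmts

/-!
# The row move from the column move
-/

namespace LG

open Equiv Finset Function

namespace LROW

lemma unl_symm {a b c d : ℝ} (h : Unl a b c d) : Unl b a d c := by
  unfold Unl cyc at *
  grind

/-- transposition and reversal -/
def tr (L : List (ℝ × ℝ)) : List (ℝ × ℝ) := (L.map Prod.swap).reverse

lemma tr_tr (L : List (ℝ × ℝ)) : tr (tr L) = L := by
  unfold tr
  rw [List.map_reverse, List.reverse_reverse, List.map_map]
  simp

lemma tr_append (A B : List (ℝ × ℝ)) : tr (A ++ B) = tr B ++ tr A := by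
  unfold tr
  simp

lemma tr_cons (x : ℝ × ℝ) (B : List (ℝ × ℝ)) : tr (x :: B) = tr B ++ [x.swap] := by
  unfold tr
  simp

lemma mem_tr_fst (L : List (ℝ × ℝ)) (t : ℝ) : t ∈ (tr L).map Prod.fst ↔ t ∈ L.map Prod.snd := by
  unfold tr
  simp

lemma key (hT : Stmt_TRN → Stmt_REL → ∀ L : List (ℝ × ℝ), VL L ↔ VL (L.map Prod.swap).reverse)
    (hR : Stmt_REL → ∀ A B : List (ℝ × ℝ), VL (A ++ B) ↔ VL (B ++ A)) (h1 : Stmt_TRN)
    (h2 : Stmt_REL) (c r : ℝ) (z : ℝ × ℝ) (B : List (ℝ × ℝ)) :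
    VL ((c, r) :: z :: B) ↔ VL ((r, c) :: (tr B ++ [z.swap])) := by
  rw [hT h1 h2]
  have e1 : (((c, r) :: z :: B).map Prod.swap).reverse = (tr B ++ [z.swap]) ++ [(r, c)] := by
    unfold tr
    simp
  rw [e1, hR h2]
  rfl

lemma nd_perm {L L' : List (ℝ × ℝ)} (h : L.Perm L') (hL : Nd L) : Nd L' :=
  ⟨(List.Perm.nodup_iff (h.map _)).1 hL.1, (List.Perm.nodup_iff (h.map _)).1 hL.2⟩

lemma nd_tr {L : List (ℝ × ℝ)} (h : Nd L) : Nd (tr L) := by
  unfold Nd tr at *
  refine ⟨?_, ?_⟩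
  · rw [List.map_reverse, List.nodup_reverse, List.map_map]
    exact h.2
  · rw [List.map_reverse, List.nodup_reverse, List.map_map]
    exact h.1

end LROW

open LROW in
theorem t_LROW : Stmt_LROW := by
  intro hC hP hrel htrn hT hR c r t z B hnd ht hu
  unfold Inv
  rw [key hT hR htrn hrel c r z B, key hT hR htrn hrel c t z B]
  have e1 : (tr B ++ [z.swap]) ++ [(r, c)] = tr ((c, r) :: z :: B) := by
    rw [tr_cons, tr_cons]
    rfl
  have hperm : (tr ((c, r) :: z :: B)).Perm ((r, c) :: (tr B ++ [z.swap])) := by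
    rw [← e1]
    exact List.perm_append_comm
  refine hC hP hrel r c t (tr B) z.swap (nd_perm hperm (nd_tr hnd)) ?_ ?_
  · intro h
    apply ht
    rw [← mem_tr_fst]
    exact ((hperm.map Prod.fst).mem_iff).2 h
  · intro B₁ B₂ y x he hx
    have e2 : (c, r) :: z :: B ++ [(c, r)] =
        tr (B₂ ++ [(r, c)]) ++ x.swap :: y.swap :: tr B₁ := by
      have e3 : tr ((c, r) :: z :: B ++ [(c, r)]) = ((r, c) :: (tr B ++ [z.swap])) ++ [(r, c)] := by
        rw [tr_append, ← e1]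
        simp [tr]
      have e4 : (c, r) :: z :: B ++ [(c, r)] = tr (((r, c) :: (tr B ++ [z.swap])) ++ [(r, c)]) := by
        rw [← e3, tr_tr]
      rw [e4, he]
      have e5 : B₁ ++ y :: x :: B₂ ++ [(r, c)] = B₁ ++ (y :: x :: (B₂ ++ [(r, c)])) := by simp
      rw [e5, tr_append, tr_cons, tr_cons]
      simp
    exact unl_symm (hu _ _ _ _ e2 hx)

end LG
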