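import Pool.Agent.LG.Stmts

/-!
# LSC: short column for lists
-/

namespace LG

open Equiv Finset Function

namespace LSC

/-- The rotated transposed list. -/
theorem rev_eq (c₁ r₁ c₂ r₂ : ℝ) (z : ℝ × ℝ) (B : List (ℝ × ℝ)) :
    (((c₁, r₁) :: (c₂, r₂) :: z :: B).map Prod.swap).reverse =
      ((B.map Prod.swap).reverse ++ [z.swap]) ++ [(r₂, c₂), (r₁, c₁)] := by
  simp

theorem rev_eq' (c₁ r₁ : ℝ) (z : ℝ × ℝ) (B : List (ℝ × ℝ)) :
    (((c₁, r₁) :: z :: B).map Prod.swap).reverse =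
      ((B.map Prod.swap).reverse ++ [z.swap]) ++ [(r₁, c₁)] := by
  simp

theorem mem_fst (c₁ r₁ c₂ r₂ : ℝ) (z : ℝ × ℝ) (B : List (ℝ × ℝ)) (d : ℝ)
    (h : d ∈ ((r₂, c₂) :: (r₁, c₁) :: ((B.map Prod.swap).reverse ++ [z.swap])).map Prod.fst) :
    d ∈ ((c₁, r₁) :: (c₂, r₂) :: z :: B).map Prod.snd := by
  simp only [List.map_cons, List.map_append, List.map_reverse, List.mem_cons, List.mem_append,
    List.mem_reverse, List.map_nil, List.not_mem_nil, or_false, List.map_map, Prod.fst_swap] at h ⊢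
  have h1 : (Prod.fst ∘ Prod.swap : ℝ × ℝ → ℝ) = Prod.snd := rfl
  rw [h1] at h
  tauto

theorem nd_swap (c₁ r₁ c₂ r₂ : ℝ) (z : ℝ × ℝ) (B : List (ℝ × ℝ))
    (h : Nd ((c₁, r₁) :: (c₂, r₂) :: z :: B)) :
    Nd ((r₂, c₂) :: (r₁, c₁) :: ((B.map Prod.swap).reverse ++ [z.swap])) := by
  have hp : ((r₂, c₂) :: (r₁, c₁) :: ((B.map Prod.swap).reverse ++ [z.swap])).Perm
      (((c₁, r₁) :: (c₂, r₂) :: z :: B).map Prod.swap) := by
    have h1 : (((c₁, r₁) :: (c₂, r₂) :: z :: B).map Prod.swap).Perm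
        ((((c₁, r₁) :: (c₂, r₂) :: z :: B).map Prod.swap).reverse) :=
      (List.reverse_perm _).symm
    rw [rev_eq] at h1
    exact (List.perm_append_comm (l₁ := [(r₂, c₂), (r₁, c₁)])
      (l₂ := (B.map Prod.swap).reverse ++ [z.swap])).trans h1.symm
  have e1 : (((c₁, r₁) :: (c₂, r₂) :: z :: B).map Prod.swap).map Prod.fst =
      ((c₁, r₁) :: (c₂, r₂) :: z :: B).map Prod.snd := by
    rw [List.map_map]; rfl
  have e2 : (((c₁, r₁) :: (c₂, r₂) :: z :: B).map Prod.swap).map Prod.snd =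
      ((c₁, r₁) :: (c₂, r₂) :: z :: B).map Prod.fst := by
    rw [List.map_map]; rfl
  constructor
  · rw [(hp.map Prod.fst).nodup_iff, e1]
    exact h.2
  · rw [(hp.map Prod.snd).nodup_iff, e2]
    exact h.1

end LSC

/-- LSC: the move `Mv.scol`. -/
theorem t_LSC : Stmt_LSC := by
  intro hLSR hSR hREL hTRN hLTRN hLROT c₁ r₁ c₂ r₂ z B h ha
  have h1 : VL ((c₁, r₁) :: (c₂, r₂) :: z :: B) ↔
      VL ((r₂, c₂) :: (r₁, c₁) :: ((B.map Prod.swap).reverse ++ [z.swap])) := by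
    rw [hLTRN hTRN hREL, LSC.rev_eq]
    exact hLROT hREL _ _
  have h2 : VL ((c₁, r₁) :: z :: B) ↔
      VL ((r₁, c₁) :: ((B.map Prod.swap).reverse ++ [z.swap])) := by
    rw [hLTRN hTRN hREL, LSC.rev_eq']
    exact hLROT hREL _ _
  have h3 := hLSR hSR hREL r₂ c₂ r₁ c₁ (B.map Prod.swap).reverse z.swap
    (LSC.nd_swap c₁ r₁ c₂ r₂ z B h) (by
      rcases ha with ⟨ha, hb⟩ | ⟨ha, hb⟩
      · exact Or.inr ⟨fun d hd => ha d (LSC.mem_fst c₁ r₁ c₂ r₂ z B d hd), hb⟩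
      · exact Or.inl ⟨fun d hd => ha d (LSC.mem_fst c₁ r₁ c₂ r₂ z B d hd), hb⟩)
  exact h1.trans (h3.trans h2.symm)

end LG
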