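import Pool.Agent.LG.Stmts

/-!
# LSR: the move `Mv.srow`
-/

namespace LG

open Equiv Finset Function

namespace LSR

lemma inj_fst {L : List (ℝ × ℝ)} (h : (L.map Prod.fst).Nodup) :
    Injective (fun i : Fin L.length => (L.get i).1) := by
  intro i j hij
  have hi : i.1 < (L.map Prod.fst).length := by simp
  have hj : j.1 < (L.map Prod.fst).length := by simp
  have h1 : (L.map Prod.fst)[i.1] = (L.map Prod.fst)[j.1] := by
    simpa using hij
  exact Fin.ext ((List.Nodup.getElem_inj_iff h).1 h1)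

lemma inj_snd {L : List (ℝ × ℝ)} (h : (L.map Prod.snd).Nodup) :
    Injective (fun i : Fin L.length => (L.get i).2) := by
  intro i j hij
  have hi : i.1 < (L.map Prod.snd).length := by simp
  have hj : j.1 < (L.map Prod.snd).length := by simp
  have h1 : (L.map Prod.snd)[i.1] = (L.map Prod.snd)[j.1] := by
    simpa using hij
  exact Fin.ext ((List.Nodup.getElem_inj_iff h).1 h1)

lemma nx_val (L : List (ℝ × ℝ)) (i : Fin L.length) :
    ((nx L i).1 = i.1 + 1 ∧ i.1 + 1 < L.length) ∨ ((nx L i).1 = 0 ∧ i.1 + 1 = L.length) := by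
  have hi := i.2
  have h : (nx L i).1 = (i.1 + 1) % L.length := rfl
  rcases Nat.lt_or_ge (i.1 + 1) L.length with h1 | h1
  · left
    rw [h, Nat.mod_eq_of_lt h1]
    exact ⟨rfl, h1⟩
  · right
    have h2 : i.1 + 1 = L.length := by omega
    rw [h, h2, Nat.mod_self]
    exact ⟨rfl, rfl⟩

lemma nx_inj (L : List (ℝ × ℝ)) : Injective (nx L) := by
  intro i j hij
  have h : (nx L i).1 = (nx L j).1 := by rw [hij]
  have hi := nx_val L i
  have hj := nx_val L j
  apply Fin.ext
  omega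

lemma gd_list (L : List (ℝ × ℝ)) (h : Nd L) (hl : 2 ≤ L.length) :
    Gd (fun i : Fin L.length => (L.get i).1) (fun i => (L.get i).2)
      (fun i : Fin L.length => (L.get (nx L i)).1) (fun i => (L.get i).2) where
  ci := inj_fst h.1
  ri := inj_snd h.2
  ai := (inj_fst h.1).comp (nx_inj L)
  bi := inj_snd h.2
  ac := fun m => ⟨nx L m, rfl⟩
  ca := fun k => by
    obtain ⟨m, hm⟩ := (Finite.injective_iff_surjective.1 (nx_inj L)) k
    exact ⟨m, by rw [hm]⟩
  br := fun m => ⟨m, rfl⟩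
  rb := fun k => ⟨k, rfl⟩
  ne := by
    rintro k m ⟨h1, h2⟩
    have h3 : k = m := inj_snd h.2 h2
    subst h3
    have h4 : k = nx L k := inj_fst h.1 h1
    have h5 : k.1 = (nx L k).1 := congrArg Fin.val h4
    have h6 := nx_val L k
    omega

/-- The same positions. -/
lemma rel_eq (hR : Stmt_REL) {ι κ ι' κ' : Type} [Fintype ι] [DecidableEq ι] [Fintype κ]
    [Fintype ι'] [DecidableEq ι'] [Fintype κ'] (c : ι → ℝ) (r : ι → ℝ) (a : κ → ℝ) (b : κ → ℝ)
    (c' : ι' → ℝ) (r' : ι' → ℝ) (a' : κ' → ℝ) (b' : κ' → ℝ) (e : ι ≃ ι') (e' : κ ≃ κ')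
    (hc : ∀ i, c i = c' (e i)) (hr : ∀ i, r i = r' (e i)) (ha : ∀ i, a i = a' (e' i))
    (hb : ∀ i, b i = b' (e' i)) : V c r a b ↔ V c' r' a' b' := by
  have h1 : ∀ x : ι ⊕ κ, Sum.elim c a x = Sum.elim c' a' (Equiv.sumCongr e e' x) := by
    rintro (x | x)
    · exact hc x
    · exact ha x
  have h2 : ∀ x : ι ⊕ κ, Sum.elim r b x = Sum.elim r' b' (Equiv.sumCongr e e' x) := by
    rintro (x | x)
    · exact hr x
    · exact hb x
  refine hR ι κ ι' κ' ℝ ℝ ℝ ℝ c r a b c' r' a' b' e e' ?_ ?_ ?_ ?_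
  · intro x y z
    rw [h1, h1, h1]
  · intro x y
    rw [h1, h1]
  · intro x y z
    rw [h2, h2, h2]
  · intro x y
    rw [h2, h2]

/-- The indices of the tail. -/
def tailEquiv (p : ℝ × ℝ) (L : List (ℝ × ℝ)) :
    Fin L.length ≃ {i : Fin (p :: L).length // i ≠ ⟨0, Nat.succ_pos _⟩} where
  toFun j := ⟨⟨j.1 + 1, Nat.succ_lt_succ j.2⟩, by
    intro h
    have h1 : j.1 + 1 = 0 := congrArg Fin.val h
    omega⟩
  invFun i := ⟨i.1.1 - 1, by
    have h1 := i.1.2
    have h2 : i.1.1 ≠ 0 := fun h => i.2 (Fin.ext h)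
    have h3 : (p :: L).length = L.length + 1 := rfl
    omega⟩
  left_inv j := by
    apply Fin.ext
    show j.1 + 1 - 1 = j.1
    omega
  right_inv i := by
    apply Subtype.ext
    apply Fin.ext
    have h2 : i.1.1 ≠ 0 := fun h => i.2 (Fin.ext h)
    show i.1.1 - 1 + 1 = i.1.1
    omega

lemma get_tail (p : ℝ × ℝ) (L : List (ℝ × ℝ)) (j : Fin L.length) :
    (p :: L).get (tailEquiv p L j).1 = L.get j := rfl

/-- The tail, all in terms of a list `p :: L`. -/
lemma main (hP : P_SR) (hR : Stmt_REL) (p : ℝ × ℝ) (L : List (ℝ × ℝ)) (hn : Nd (p :: L))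
    (hl : 2 ≤ L.length)
    (ha : (∀ d ∈ (p :: L).map Prod.fst,
        ¬ cyc p.1 d (L.get ⟨0, by omega⟩).1) ∧
          cyc p.2 (L.get ⟨0, by omega⟩).2 (L.get ⟨L.length - 1, by omega⟩).2 ∨
      (∀ d ∈ (p :: L).map Prod.fst,
        ¬ cyc (L.get ⟨0, by omega⟩).1 d p.1) ∧
          cyc (L.get ⟨L.length - 1, by omega⟩).2 (L.get ⟨0, by omega⟩).2 p.2) :
    Inv (p :: L) L := by
  have hlen : (p :: L).length = L.length + 1 := rfl
  have hgd := gd_list (p :: L) hn (by omega)
  let l : Fin (p :: L).length := ⟨0, Nat.succ_pos _⟩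
  let k : Fin (p :: L).length := ⟨1, by omega⟩
  let n : Fin (p :: L).length := ⟨L.length, by omega⟩
  have hnl : nx (p :: L) l = k := by
    apply Fin.ext
    rcases nx_val (p :: L) l with ⟨h1, -⟩ | ⟨-, h2⟩
    · exact h1
    · have : l.1 = 0 := rfl
      omega
  have hnn : nx (p :: L) n = l := by
    apply Fin.ext
    rcases nx_val (p :: L) n with ⟨-, h2⟩ | ⟨h1, -⟩
    · have : n.1 = L.length := rfl
      omega
    · exact h1
  have hlk : l ≠ k := by
    intro h
    have : (0 : ℕ) = 1 := congrArg Fin.val h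
    omega
  have hs : Srt (fun i : Fin (p :: L).length => ((p :: L).get i).1) (fun i => ((p :: L).get i).2)
      (fun i : Fin (p :: L).length => ((p :: L).get (nx (p :: L) i)).1)
      (fun i => ((p :: L).get i).2) l k l n := by
    refine ⟨hgd, hlk, ?_, rfl, ?_⟩
    · show ((p :: L).get (nx (p :: L) l)).1 = _
      rw [hnl]
    · show ((p :: L).get (nx (p :: L) n)).1 = _
      rw [hnn]
  have gn : (p :: L).get n = L.get ⟨L.length - 1, by omega⟩ := by
    have h1 : n = (⟨L.length - 1 + 1, by omega⟩ : Fin (p :: L).length) := by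
      apply Fin.ext
      show L.length = L.length - 1 + 1
      omega
    rw [h1]
    rfl
  have hmem : ∀ i : Fin (p :: L).length, ((p :: L).get i).1 ∈ (p :: L).map Prod.fst := by
    intro i
    exact List.mem_map.2 ⟨(p :: L).get i, List.get_mem _ _, rfl⟩
  have hcond : (∀ i : Fin (p :: L).length, ¬ cyc ((p :: L).get l).1 ((p :: L).get i).1
        ((p :: L).get k).1) ∧ cyc ((p :: L).get l).2 ((p :: L).get k).2 ((p :: L).get n).2 ∨
      (∀ i : Fin (p :: L).length, ¬ cyc ((p :: L).get k).1 ((p :: L).get i).1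
        ((p :: L).get l).1) ∧ cyc ((p :: L).get n).2 ((p :: L).get k).2 ((p :: L).get l).2 := by
    rw [gn]
    rcases ha with ⟨h1, h2⟩ | ⟨h1, h2⟩
    · exact Or.inl ⟨fun i => h1 _ (hmem i), h2⟩
    · exact Or.inr ⟨fun i => h1 _ (hmem i), h2⟩
  have h1 := hP _ _ ℝ ℝ _ _ _ _ l k l n hs hcond
  have h2 := rel_eq hR (fun i : Fin L.length => (L.get i).1) (fun i => (L.get i).2)
    (fun i : Fin L.length => (L.get (nx L i)).1) (fun i => (L.get i).2)
    (fun i : {i : Fin (p :: L).length // i ≠ l} => ((p :: L).get i).1)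
    (fun i : {i : Fin (p :: L).length // i ≠ l} => ((p :: L).get i).2)
    (fun n' : {n' : Fin (p :: L).length // n' ≠ l} =>
      if ((p :: L).get (nx (p :: L) n')).1 = ((p :: L).get l).1 then ((p :: L).get k).1 else
        ((p :: L).get (nx (p :: L) n')).1)
    (fun n' : {n' : Fin (p :: L).length // n' ≠ l} => ((p :: L).get n').2)
    (tailEquiv p L) (tailEquiv p L) (fun i => rfl) (fun i => rfl) (fun i => ?_) (fun i => rfl)
  · exact h1.trans h2.symm
  · show (L.get (nx L i)).1 = if ((p :: L).get (nx (p :: L) (tailEquiv p L i).1)).1 =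
      ((p :: L).get l).1 then ((p :: L).get k).1 else
        ((p :: L).get (nx (p :: L) (tailEquiv p L i).1)).1
    have hi := i.2
    have ht : (tailEquiv p L i).1.1 = i.1 + 1 := rfl
    rcases nx_val (p :: L) (tailEquiv p L i).1 with ⟨g1, g2⟩ | ⟨g1, g2⟩
    · have g3 : nx (p :: L) (tailEquiv p L i).1 ≠ l := by
        intro h
        have : (nx (p :: L) (tailEquiv p L i).1).1 = 0 := congrArg Fin.val h
        omega
      have g4 : ((p :: L).get (nx (p :: L) (tailEquiv p L i).1)).1 ≠ ((p :: L).get l).1 :=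
        fun h => g3 (inj_fst hn.1 h)
      rw [if_neg g4]
      have g5 : nx (p :: L) (tailEquiv p L i).1 = (tailEquiv p L (nx L i)).1 := by
        apply Fin.ext
        have ht' : (tailEquiv p L (nx L i)).1.1 = (nx L i).1 + 1 := rfl
        rcases nx_val L i with ⟨k1, k2⟩ | ⟨k1, k2⟩ <;> omega
      rw [g5, get_tail]
    · have g3 : nx (p :: L) (tailEquiv p L i).1 = l := Fin.ext g1
      rw [g3, if_pos rfl]
      have g5 : k = (tailEquiv p L (nx L i)).1 := by
        apply Fin.ext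
        have ht' : (tailEquiv p L (nx L i)).1.1 = (nx L i).1 + 1 := rfl
        have hk : k.1 = 1 := rfl
        rcases nx_val L i with ⟨k1, k2⟩ | ⟨k1, k2⟩ <;> omega
      rw [g5, get_tail]

end LSR

/-- LSR -/
theorem t_LSR : Stmt_LSR := by
  intro hP hR c₁ r₁ c₂ r₂ B z hn ha
  have hl : ((c₂, r₂) :: (B ++ [z])).length = B.length + 2 := by simp
  have hlast : ((c₂, r₂) :: (B ++ [z])).get ⟨((c₂, r₂) :: (B ++ [z])).length - 1, by omega⟩ = z := by
    rw [List.get_eq_getElem]
    simp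
  apply LSR.main hP hR (c₁, r₁) ((c₂, r₂) :: (B ++ [z])) hn (by omega)
  rw [hlast]
  exact ha

end LG
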