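import Pool.Agent.LG.Stmts

/-!
# LTRN: transposition of lists
-/

namespace LG

open Equiv Finset Function

namespace LTRN

/-- The transposed list. -/
def tr (L : List (ℝ × ℝ)) : List (ℝ × ℝ) := (L.map Prod.swap).reverse

theorem tr_length (L : List (ℝ × ℝ)) : (tr L).length = L.length := by
  simp [tr]

/-- The reversal of the indices. -/
def rv (L : List (ℝ × ℝ)) : Fin L.length ≃ Fin (tr L).length where
  toFun i := ⟨L.length - 1 - i.1, by rw [tr_length]; omega⟩
  invFun j := ⟨L.length - 1 - j.1, by have h := tr_length L; have hj := j.2; omega⟩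
  left_inv i := by
    apply Fin.ext
    have h := i.2
    simp only
    omega
  right_inv j := by
    apply Fin.ext
    have h := tr_length L
    have hj := j.2
    simp only
    omega

theorem nx_val (L : List (ℝ × ℝ)) (i : Fin L.length) :
    (nx L i).1 = if i.1 + 1 = L.length then 0 else i.1 + 1 := by
  have hi := i.2
  unfold nx
  simp only
  split_ifs with h
  · rw [h, Nat.mod_self]
  · exact Nat.mod_eq_of_lt (by omega)

/-- The renaming of the `O` marks. -/
def rw' (L : List (ℝ × ℝ)) : Fin L.length ≃ Fin (tr L).length where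
  toFun i := rv L (nx L i)
  invFun j := (rv L).symm (nx (tr L) j)
  left_inv i := by
    apply Fin.ext
    have h := tr_length L
    have hi := i.2
    have h1 := nx_val L i
    have h2 := nx_val (tr L) (rv L (nx L i))
    simp only [rv, Equiv.coe_fn_mk, Equiv.coe_fn_symm_mk] at h2 ⊢
    rw [h2, h1]
    split_ifs <;> omega
  right_inv j := by
    apply Fin.ext
    have h := tr_length L
    have hj := j.2
    have h1 := nx_val (tr L) j
    have h2 := nx_val L ((rv L).symm (nx (tr L) j))
    simp only [rv, Equiv.coe_fn_mk, Equiv.coe_fn_symm_mk] at h2 ⊢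
    rw [h2, h1]
    split_ifs <;> omega

theorem rv_val (L : List (ℝ × ℝ)) (i : Fin L.length) : (rv L i).1 = L.length - 1 - i.1 := rfl

theorem tr_getElem (L : List (ℝ × ℝ)) (j : ℕ) (hj : j < (tr L).length)
    (hj' : L.length - 1 - j < L.length) : (tr L)[j] = (L[L.length - 1 - j]).swap := by
  simp only [tr, List.getElem_reverse, List.getElem_map, List.length_map]

theorem tr_get (L : List (ℝ × ℝ)) (i : Fin L.length) :
    (tr L).get (rv L i) = (L.get i).swap := by
  have hi := i.2
  have h := tr_length L
  have h3 := rv_val L i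
  have h4 : L.length - 1 - (rv L i).1 = i.1 := by omega
  rw [List.get_eq_getElem, List.get_eq_getElem, tr_getElem L _ _ (by omega)]
  simp only [h4]

theorem tr_get' (L : List (ℝ × ℝ)) (i : Fin L.length) :
    (tr L).get (nx (tr L) (rw' L i)) = (L.get i).swap := by
  have h : (rv L).symm (nx (tr L) (rw' L i)) = i := (rw' L).symm_apply_apply i
  have h2 : nx (tr L) (rw' L i) = rv L i := by rw [← h, Equiv.apply_symm_apply, h]
  rw [h2, tr_get]

end LTRN

open LTRN in
/-- Transposition of lists. -/
theorem t_LTRN : Stmt_LTRN := by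
  intro hT hR L
  change VL L ↔ VL (tr L)
  unfold VL
  rw [hT]
  have hc : ∀ x : Fin L.length ⊕ Fin L.length,
      Sum.elim (fun i : Fin L.length => (L.get i).2) (fun i : Fin L.length => (L.get i).2) x =
        Sum.elim (fun i : Fin (tr L).length => ((tr L).get i).1)
          (fun i : Fin (tr L).length => ((tr L).get (nx (tr L) i)).1)
          (Equiv.sumCongr (rv L) (rw' L) x) := by
    rintro (i | i)
    · simp only [Equiv.sumCongr_apply, Sum.map_inl, Sum.elim_inl]
      rw [tr_get]
      rfl
    · simp only [Equiv.sumCongr_apply, Sum.map_inr, Sum.elim_inr]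
      rw [tr_get']
      rfl
  have hr : ∀ x : Fin L.length ⊕ Fin L.length,
      Sum.elim (fun i : Fin L.length => (L.get i).1)
        (fun i : Fin L.length => (L.get (nx L i)).1) x =
        Sum.elim (fun i : Fin (tr L).length => ((tr L).get i).2)
          (fun i : Fin (tr L).length => ((tr L).get i).2)
          (Equiv.sumCongr (rv L) (rw' L) x) := by
    rintro (i | i)
    · simp only [Equiv.sumCongr_apply, Sum.map_inl, Sum.elim_inl]
      rw [tr_get]
      rfl
    · simp only [Equiv.sumCongr_apply, Sum.map_inr, Sum.elim_inr]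
      change _ = ((tr L).get (rv L (nx L i))).2
      rw [tr_get]
      rfl
  refine hR _ _ _ _ _ _ _ _ _ _ _ _ _ _ _ _ (rv L) (rw' L) ?_ ?_ ?_ ?_
  · intro x y z
    rw [hc x, hc y, hc z]
  · intro x y
    rw [hc x, hc y]
  · intro x y z
    rw [hr x, hr y, hr z]
  · intro x y
    rw [hr x, hr y]

end LG
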