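import Pool.Agent.LG.Stmts

/-!
# Module LWR: a list with a short row of the wrong type
-/

set_option autoImplicit false

namespace LG

open Equiv Finset Function

namespace LWR

theorem fst_inj {L : List (ℝ × ℝ)} (h : (L.map Prod.fst).Nodup) :
    Injective (fun i : Fin L.length => (L.get i).1) := by
  intro i j hij
  have h1 : L.Nodup := List.Nodup.of_map _ h
  have h2 : L.get i = L.get j := List.inj_on_of_nodup_map h (L.get_mem i) (L.get_mem j) hij
  exact (List.nodup_iff_injective_get.1 h1) h2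

theorem snd_inj {L : List (ℝ × ℝ)} (h : (L.map Prod.snd).Nodup) :
    Injective (fun i : Fin L.length => (L.get i).2) := by
  intro i j hij
  have h1 : L.Nodup := List.Nodup.of_map _ h
  have h2 : L.get i = L.get j := List.inj_on_of_nodup_map h (L.get_mem i) (L.get_mem j) hij
  exact (List.nodup_iff_injective_get.1 h1) h2

theorem nx_inj (L : List (ℝ × ℝ)) : Injective (nx L) := by
  intro i j h
  have h1 : ((i : ℕ) + 1) % L.length = ((j : ℕ) + 1) % L.length := congrArg Fin.val h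
  have h2 : (i : ℕ) ≡ j [MOD L.length] := Nat.ModEq.add_right_cancel' 1 h1
  exact Fin.ext (Nat.ModEq.eq_of_lt_of_lt h2 i.2 j.2)

theorem nx_surj (L : List (ℝ × ℝ)) : Surjective (nx L) :=
  Finite.injective_iff_surjective.1 (nx_inj L)

theorem nx_ne (L : List (ℝ × ℝ)) (h : 2 ≤ L.length) (i : Fin L.length) : nx L i ≠ i := by
  intro h1
  have h2 : ((i : ℕ) + 1) % L.length = (i : ℕ) := congrArg Fin.val h1
  have hi := i.2
  rcases Nat.lt_or_ge ((i : ℕ) + 1) L.length with h3 | h3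
  · rw [Nat.mod_eq_of_lt h3] at h2
    omega
  · have h4 : (i : ℕ) + 1 = L.length := by omega
    rw [h4, Nat.mod_self] at h2
    omega

theorem gd {L : List (ℝ × ℝ)} (h : Nd L) (h2 : 2 ≤ L.length) :
    Gd (fun i : Fin L.length => (L.get i).1) (fun i => (L.get i).2)
      (fun i : Fin L.length => (L.get (nx L i)).1) (fun i => (L.get i).2) where
  ci := fst_inj h.1
  ri := snd_inj h.2
  ai := (fst_inj h.1).comp (nx_inj L)
  bi := snd_inj h.2
  ac := fun m => ⟨nx L m, rfl⟩
  ca := fun k => by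
    obtain ⟨m, hm⟩ := nx_surj L k
    exact ⟨m, by rw [hm]⟩
  br := fun m => ⟨m, rfl⟩
  rb := fun m => ⟨m, rfl⟩
  ne := by
    rintro k m ⟨h3, h4⟩
    have h5 : k = nx L m := fst_inj h.1 h3
    have h6 : k = m := snd_inj h.2 h4
    exact nx_ne L h2 m (h5.symm.trans h6)

end LWR

theorem t_LWR : Stmt_LWR := by
  intro hWR c₁ r₁ c₂ r₂ B z hN hc hcyc
  set L : List (ℝ × ℝ) := (c₁, r₁) :: (c₂, r₂) :: (B ++ [z]) with hL
  have hlen : L.length = B.length + 3 := by
    rw [hL]
    simp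
  have hG := LWR.gd hN (by omega)
  have i0 : 0 < L.length := by omega
  have i1 : 1 < L.length := by omega
  have i2 : B.length + 2 < L.length := by omega
  have e0 : L.get ⟨0, i0⟩ = (c₁, r₁) := rfl
  have e1 : L.get ⟨1, i1⟩ = (c₂, r₂) := rfl
  have e2 : L.get ⟨B.length + 2, i2⟩ = z := by
    simp [hL]
  have n0 : nx L ⟨0, i0⟩ = ⟨1, i1⟩ := by
    apply Fin.ext
    show (0 + 1) % L.length = 1
    exact Nat.mod_eq_of_lt i1
  have n2 : nx L ⟨B.length + 2, i2⟩ = ⟨0, i0⟩ := by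
    apply Fin.ext
    show (B.length + 2 + 1) % L.length = 0
    have h3 : B.length + 2 + 1 = L.length := by omega
    rw [h3, Nat.mod_self]
  have hS : Srt (fun i : Fin L.length => (L.get i).1) (fun i => (L.get i).2)
      (fun i : Fin L.length => (L.get (nx L i)).1) (fun i => (L.get i).2)
      ⟨0, i0⟩ ⟨1, i1⟩ ⟨0, i0⟩ ⟨B.length + 2, i2⟩ := by
    refine ⟨hG, ?_, ?_, rfl, ?_⟩
    · intro h
      have := congrArg Fin.val h
      simp at this
    · show (L.get (nx L ⟨0, i0⟩)).1 = (L.get ⟨1, i1⟩).1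
      rw [n0]
    · show (L.get (nx L ⟨B.length + 2, i2⟩)).1 = (L.get ⟨0, i0⟩).1
      rw [n2]
  refine hWR _ _ _ _ _ _ _ _ _ _ _ _ hS ?_ ?_
  · intro i
    exact hc _ (List.mem_map.2 ⟨L.get i, L.get_mem i, rfl⟩)
  · show cyc (L.get ⟨0, i0⟩).2 (L.get ⟨B.length + 2, i2⟩).2 (L.get ⟨1, i1⟩).2
    rw [e0, e1, e2]
    exact hcyc

end LG
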