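import Pool.Agent.LG.Stmts

/-!
# PC: the pentagon map is a chain map (assembly)
-/

namespace LG

open Equiv Finset Function

namespace PC

variable {ι M α β R : Type} [Fintype ι] [DecidableEq ι] [Fintype M] [LinearOrder α]
  [LinearOrder β] [CommRing R]

omit [Fintype ι] in
theorem sum_pair (E : Finset ι) (p : ι) (hp : p ∈ E) (g : ι → ι → R) :
    ∑ i ∈ E, ∑ j ∈ E, g i j = g p p + ∑ q ∈ E.erase p, (g p q + g q p) +
      ∑ k ∈ E.erase p, ∑ l ∈ E.erase p, g k l := by
  have h1 : ∀ h : ι → R, ∑ i ∈ E, h i = h p + ∑ i ∈ E.erase p, h i :=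
    fun h => (Finset.add_sum_erase E h hp).symm
  rw [h1, h1 (fun j => g p j)]
  have h2 : ∀ k, ∑ j ∈ E, g k j = g k p + ∑ l ∈ E.erase p, g k l := fun k => h1 _
  simp only [h2]
  rw [Finset.sum_add_distrib, Finset.sum_add_distrib]
  ring

omit [Fintype ι] in
theorem sum_diag (E : Finset ι) (g : ι → ι → R) :
    ∑ q ∈ E, ∑ r ∈ E, g q r = ∑ q ∈ E, g q q + ∑ q ∈ E, ∑ r ∈ E.erase q, g q r := by
  rw [← Finset.sum_add_distrib]
  refine Finset.sum_congr rfl fun q hq => ?_
  exact (Finset.add_sum_erase E (g q) hq).symm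

omit [Fintype ι] in
theorem sum_symm (E : Finset ι) (H : ι → ι → R) :
    ∑ q ∈ E, ∑ r ∈ E.erase q, H q r = ∑ q ∈ E, ∑ r ∈ E.erase q, H r q := by
  rw [Finset.sum_comm' (t' := E) (s' := fun r => E.erase r)]
  intro x y
  simp only [Finset.mem_erase]
  tauto

theorem Wt_self (G : MG ι M α β R) (x : Perm ι) (i : ι) : Wt G x i i = 0 := by
  simp [Wt]

theorem Pw_self {G : MG ι M α β R} (D : PD G) (x : Perm ι) (i : ι) : Pw D x i i = 0 := by
  simp [Pw]

theorem Pw_off {G : MG ι M α β R} (D : PD G) (x : Perm ι) (i j : ι) (hi : i ≠ D.i0)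
    (hj : j ≠ D.i0) : Pw D x i j = 0 := by
  simp [Pw, hi, hj]

theorem del_eq (G : MG ι M α β R) (p : ι) (f : Perm ι → R) (y : Perm ι) :
    del G f y = ∑ r ∈ univ.erase p, f (y * swap p r) * W2 G (y * swap p r) p r +
      ∑ k ∈ univ.erase p, ∑ l ∈ univ.erase p,
        f (y * swap k l) * Wt G (y * swap k l) k l := by
  unfold del
  rw [sum_pair univ p (mem_univ p) (fun i j => f (y * swap i j) * Wt G (y * swap i j) i j)]
  simp only [Wt_self, mul_zero, zero_add]
  congr 1
  refine Finset.sum_congr rfl fun q _ => ?_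
  rw [swap_comm q p, W2]
  ring

theorem pent_eq {G : MG ι M α β R} (D : PD G) (f : Perm ι → R) (y : Perm ι) :
    pent D f y = ∑ q ∈ univ.erase D.i0,
      f (y * swap D.i0 q) * P2 D (y * swap D.i0 q) D.i0 q := by
  unfold pent
  rw [sum_pair univ D.i0 (mem_univ _) (fun i j => f (y * swap i j) * Pw D (y * swap i j) i j)]
  simp only [Pw_self, mul_zero, zero_add]
  rw [Finset.sum_eq_zero (s := univ.erase D.i0)
    (f := fun k => ∑ l ∈ univ.erase D.i0, f (y * swap k l) * Pw D (y * swap k l) k l), add_zero]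
  · refine Finset.sum_congr rfl fun q _ => ?_
    rw [swap_comm q D.i0, P2]
    ring
  · intro k hk
    refine Finset.sum_eq_zero fun l hl => ?_
    rw [Pw_off D _ k l (Finset.ne_of_mem_erase hk) (Finset.ne_of_mem_erase hl), mul_zero]

omit [Fintype ι] in
theorem swap_disj {p q k l : ι} (hkp : k ≠ p) (hlp : l ≠ p) (hkq : k ≠ q) (hlq : l ≠ q) :
    swap k l * swap p q = swap p q * swap k l := by
  rw [mul_swap_eq_swap_mul, swap_apply_of_ne_of_ne hkp.symm hlp.symm,
    swap_apply_of_ne_of_ne hkq.symm hlq.symm]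

omit [Fintype ι] in
theorem swap_t1 {p q r : ι} (hqr : r ≠ q) (hpr : r ≠ p) :
    swap p q * swap q r = swap p r * swap p q := by
  rw [mul_swap_eq_swap_mul, swap_apply_right, swap_apply_of_ne_of_ne hpr hqr]

omit [Fintype ι] in
theorem swap_t2 {p q r : ι} (hqp : q ≠ p) (hqr : r ≠ q) (hpr : r ≠ p) :
    swap r q * swap p r = swap p r * swap p q := by
  rw [mul_swap_eq_swap_mul, swap_apply_left, swap_apply_of_ne_of_ne hpr.symm hqp.symm,
    swap_comm r q, swap_t1 hqr hpr]

end PC

theorem t_PC : Stmt_PC := by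
  intro hP0 hP1 hP2 ι M α β R _ _ _ _ _ _ G D h2 hu hv f
  funext z
  set p := D.i0 with hp
  set E : Finset ι := univ.erase p with hE
  -- expansions
  have T1 : del D.G' (pent D f) z =
      ∑ r ∈ E, ∑ q ∈ E, f (z * swap p r * swap p q) * P2 D (z * swap p r * swap p q) p q *
        W2 D.G' (z * swap p r) p r +
      ∑ k ∈ E, ∑ l ∈ E, ∑ q ∈ E, f (z * swap k l * swap p q) *
        P2 D (z * swap k l * swap p q) p q * Wt D.G' (z * swap k l) k l := by
    rw [PC.del_eq D.G' p]
    congr 1
    · refine Finset.sum_congr rfl fun r _ => ?_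
      rw [PC.pent_eq, Finset.sum_mul]
    · refine Finset.sum_congr rfl fun k _ => Finset.sum_congr rfl fun l _ => ?_
      rw [PC.pent_eq, Finset.sum_mul]
  have T2 : pent D (del G f) z =
      ∑ q ∈ E, ∑ r ∈ E, f (z * swap p q * swap p r) * W2 G (z * swap p q * swap p r) p r *
        P2 D (z * swap p q) p q +
      ∑ q ∈ E, ∑ k ∈ E, ∑ l ∈ E, f (z * swap p q * swap k l) *
        Wt G (z * swap p q * swap k l) k l * P2 D (z * swap p q) p q := by
    rw [PC.pent_eq, ← Finset.sum_add_distrib]
    refine Finset.sum_congr rfl fun q _ => ?_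
    rw [PC.del_eq G p, add_mul, Finset.sum_mul, Finset.sum_mul]
    congr 1
    refine Finset.sum_congr rfl fun k _ => ?_
    rw [Finset.sum_mul]
  -- rearrangement of the second sums
  have B1 : ∑ k ∈ E, ∑ l ∈ E, ∑ q ∈ E, f (z * swap k l * swap p q) *
        P2 D (z * swap k l * swap p q) p q * Wt D.G' (z * swap k l) k l =
      ∑ q ∈ E, ∑ r ∈ E.erase q, f (z * swap q r * swap p q) *
        P2 D (z * swap q r * swap p q) p q * W2 D.G' (z * swap q r) q r +
      ∑ q ∈ E, ∑ k ∈ E.erase q, ∑ l ∈ E.erase q, f (z * swap k l * swap p q) *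
        P2 D (z * swap k l * swap p q) p q * Wt D.G' (z * swap k l) k l := by
    have e1 : ∑ k ∈ E, ∑ l ∈ E, ∑ q ∈ E, f (z * swap k l * swap p q) *
        P2 D (z * swap k l * swap p q) p q * Wt D.G' (z * swap k l) k l =
        ∑ q ∈ E, ∑ k ∈ E, ∑ l ∈ E, f (z * swap k l * swap p q) *
        P2 D (z * swap k l * swap p q) p q * Wt D.G' (z * swap k l) k l := by
      have : ∀ k ∈ E, ∑ l ∈ E, ∑ q ∈ E, f (z * swap k l * swap p q) *
        P2 D (z * swap k l * swap p q) p q * Wt D.G' (z * swap k l) k l =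
        ∑ q ∈ E, ∑ l ∈ E, f (z * swap k l * swap p q) *
        P2 D (z * swap k l * swap p q) p q * Wt D.G' (z * swap k l) k l :=
        fun k _ => Finset.sum_comm
      rw [Finset.sum_congr rfl this, Finset.sum_comm]
    rw [e1, ← Finset.sum_add_distrib]
    refine Finset.sum_congr rfl fun q hq => ?_
    rw [PC.sum_pair E q hq (fun k l => f (z * swap k l * swap p q) *
        P2 D (z * swap k l * swap p q) p q * Wt D.G' (z * swap k l) k l)]
    simp only [PC.Wt_self, mul_zero, zero_add]
    congr 1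
    refine Finset.sum_congr rfl fun r _ => ?_
    rw [swap_comm r q, W2]
    ring
  have B2 : ∑ q ∈ E, ∑ k ∈ E, ∑ l ∈ E, f (z * swap p q * swap k l) *
        Wt G (z * swap p q * swap k l) k l * P2 D (z * swap p q) p q =
      ∑ q ∈ E, ∑ r ∈ E.erase q, f (z * swap p q * swap q r) *
        W2 G (z * swap p q * swap q r) q r * P2 D (z * swap p q) p q +
      ∑ q ∈ E, ∑ k ∈ E.erase q, ∑ l ∈ E.erase q, f (z * swap p q * swap k l) *
        Wt G (z * swap p q * swap k l) k l * P2 D (z * swap p q) p q := by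
    rw [← Finset.sum_add_distrib]
    refine Finset.sum_congr rfl fun q hq => ?_
    rw [PC.sum_pair E q hq (fun k l => f (z * swap p q * swap k l) *
        Wt G (z * swap p q * swap k l) k l * P2 D (z * swap p q) p q)]
    simp only [PC.Wt_self, mul_zero, zero_add, zero_mul]
    congr 1
    refine Finset.sum_congr rfl fun r _ => ?_
    rw [swap_comm r q, W2]
    ring
  -- disjoint pairs
  have B3 : ∑ q ∈ E, ∑ k ∈ E.erase q, ∑ l ∈ E.erase q, f (z * swap k l * swap p q) *
        P2 D (z * swap k l * swap p q) p q * Wt D.G' (z * swap k l) k l =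
      ∑ q ∈ E, ∑ k ∈ E.erase q, ∑ l ∈ E.erase q, f (z * swap p q * swap k l) *
        Wt G (z * swap p q * swap k l) k l * P2 D (z * swap p q) p q := by
    refine Finset.sum_congr rfl fun q hq => Finset.sum_congr rfl fun k hk =>
      Finset.sum_congr rfl fun l hl => ?_
    have hqp : q ≠ p := Finset.ne_of_mem_erase hq
    have hkq : k ≠ q := Finset.ne_of_mem_erase hk
    have hkp : k ≠ p := Finset.ne_of_mem_erase (Finset.mem_of_mem_erase hk)
    have hlq : l ≠ q := Finset.ne_of_mem_erase hl
    have hlp : l ≠ p := Finset.ne_of_mem_erase (Finset.mem_of_mem_erase hl)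
    have hc : z * swap k l * swap p q = z * swap p q * swap k l := by
      rw [mul_assoc, mul_assoc, PC.swap_disj hkp hlp hkq hlq]
    set x := z * swap k l * swap p q with hx
    have x1 : z * swap k l = x * swap p q := by rw [hx, mul_assoc _ (swap p q), swap_mul_self, mul_one]
    have x2 : z * swap p q = x * swap k l := by rw [hc, mul_assoc _ (swap k l), swap_mul_self, mul_one]
    rw [← hc, x1, x2]
    have e1 := hP0 ι M α β R G D hu hv x p q k l hkp.symm hlp.symm hkq.symm hlq.symm
    have e2 := hP0 ι M α β R G D hu hv x q p k l hkq.symm hlq.symm hkp.symm hlp.symm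
    rw [swap_comm q p] at e2
    have e3 : P2 D x p q * Wt D.G' (x * swap p q) k l = Wt G x k l * P2 D (x * swap k l) p q := by
      rw [P2, P2, add_mul, mul_add, e1, e2]
    rw [mul_assoc (f x), mul_assoc (f x), e3]
  -- first sums
  have A1 : ∑ r ∈ E, ∑ q ∈ E, f (z * swap p r * swap p q) * P2 D (z * swap p r * swap p q) p q *
        W2 D.G' (z * swap p r) p r =
      ∑ q ∈ E, f z * (P2 D z p q * W2 D.G' (z * swap p q) p q) +
      ∑ q ∈ E, ∑ r ∈ E.erase q, f (z * swap p r * swap p q) *
        P2 D (z * swap p r * swap p q) p q * W2 D.G' (z * swap p r) p r := by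
    rw [Finset.sum_comm, PC.sum_diag]
    congr 1
    refine Finset.sum_congr rfl fun q _ => ?_
    rw [mul_assoc z, swap_mul_self, mul_one, mul_assoc]
  have A2 : ∑ q ∈ E, ∑ r ∈ E, f (z * swap p q * swap p r) * W2 G (z * swap p q * swap p r) p r *
        P2 D (z * swap p q) p q =
      ∑ q ∈ E, f z * (W2 G z p q * P2 D (z * swap p q) p q) +
      ∑ q ∈ E, ∑ r ∈ E.erase q, f (z * swap p r * swap p q) *
        W2 G (z * swap p r * swap p q) p q * P2 D (z * swap p r) p r := by
    rw [Finset.sum_comm, PC.sum_diag]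
    congr 1
    refine Finset.sum_congr rfl fun q _ => ?_
    rw [mul_assoc z, swap_mul_self, mul_one, mul_assoc]
  have D0 : ∑ q ∈ E, f z * (P2 D z p q * W2 D.G' (z * swap p q) p q) +
      ∑ q ∈ E, f z * (W2 G z p q * P2 D (z * swap p q) p q) = 0 := by
    rw [← Finset.sum_add_distrib]
    have := hP2 ι M α β R G D h2 hu hv z
    rw [← hp, ← hE] at this
    calc _ = f z * ∑ q ∈ E, (P2 D z p q * W2 D.G' (z * swap p q) p q +
          W2 G z p q * P2 D (z * swap p q) p q) := by
          rw [Finset.mul_sum]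
          exact Finset.sum_congr rfl fun q _ => by ring
      _ = 0 := by rw [this, mul_zero]
  -- the triples
  have S4 : ∑ q ∈ E, ∑ r ∈ E.erase q, f (z * swap q r * swap p q) *
        P2 D (z * swap q r * swap p q) p q * W2 D.G' (z * swap q r) q r =
      ∑ q ∈ E, ∑ r ∈ E.erase q, f (z * swap r q * swap p r) *
        P2 D (z * swap r q * swap p r) p r * W2 D.G' (z * swap r q) r q :=
    PC.sum_symm E (fun q r => f (z * swap q r * swap p q) *
        P2 D (z * swap q r * swap p q) p q * W2 D.G' (z * swap q r) q r)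
  have D1 : ∑ q ∈ E, ∑ r ∈ E.erase q, f (z * swap p r * swap p q) *
        P2 D (z * swap p r * swap p q) p q * W2 D.G' (z * swap p r) p r +
      ∑ q ∈ E, ∑ r ∈ E.erase q, f (z * swap p r * swap p q) *
        W2 G (z * swap p r * swap p q) p q * P2 D (z * swap p r) p r +
      ∑ q ∈ E, ∑ r ∈ E.erase q, f (z * swap p q * swap q r) *
        W2 G (z * swap p q * swap q r) q r * P2 D (z * swap p q) p q +
      ∑ q ∈ E, ∑ r ∈ E.erase q, f (z * swap r q * swap p r) *
        P2 D (z * swap r q * swap p r) p r * W2 D.G' (z * swap r q) r q = 0 := by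
    rw [← Finset.sum_add_distrib, ← Finset.sum_add_distrib, ← Finset.sum_add_distrib]
    refine Finset.sum_eq_zero fun q hq => ?_
    rw [← Finset.sum_add_distrib, ← Finset.sum_add_distrib, ← Finset.sum_add_distrib]
    refine Finset.sum_eq_zero fun r hr => ?_
    have hqp : q ≠ p := Finset.ne_of_mem_erase hq
    have hrq : r ≠ q := Finset.ne_of_mem_erase hr
    have hrp : r ≠ p := Finset.ne_of_mem_erase (Finset.mem_of_mem_erase hr)
    have c1 : z * swap p q * swap q r = z * swap p r * swap p q := by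
      rw [mul_assoc, mul_assoc, PC.swap_t1 hrq hrp]
    have c2 : z * swap r q * swap p r = z * swap p r * swap p q := by
      rw [mul_assoc, mul_assoc, PC.swap_t2 hqp hrq hrp]
    rw [c1, c2]
    set x := z * swap p r * swap p q with hx
    have x1 : z * swap p r = x * swap p q := by rw [hx, mul_assoc _ (swap p q), swap_mul_self, mul_one]
    have x2 : z * swap p q = x * swap q r := by rw [← c1, mul_assoc _ (swap q r), swap_mul_self, mul_one]
    have x3 : z * swap r q = x * swap r p := by
      rw [← c2, swap_comm r p, mul_assoc _ (swap p r), swap_mul_self, mul_one]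
    have e := hP1 ι M α β R G D h2 hu hv x p q r hp hqp.symm hrq.symm hrp.symm
    have s1 : ∀ y a b, P2 D y a b = P2 D y b a := fun y a b => add_comm _ _
    rw [s1 _ q p, s1 _ r p] at e
    rw [x1, x2, x3]
    calc _ = f x * (P2 D x p q * W2 D.G' (x * swap p q) p r + W2 G x p q * P2 D (x * swap p q) p r +
        W2 G x q r * P2 D (x * swap q r) p q + P2 D x p r * W2 D.G' (x * swap r p) r q) := by ring
      _ = 0 := by rw [e, mul_zero]
  have key : del D.G' (pent D f) z + pent D (del G f) z = 0 := by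
    rw [T1, T2, A1, A2, B1, B2, B3, S4]
    linear_combination D0 + D1 + (∑ q ∈ E, ∑ k ∈ E.erase q, ∑ l ∈ E.erase q,
      f (z * swap p q * swap k l) * Wt G (z * swap p q * swap k l) k l *
        P2 D (z * swap p q) p q) * h2
  linear_combination key - pent D (del G f) z * h2

end LG
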