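import Pool.Agent.LG.Stmts

/-!
# Part D: a pentagon and a rectangle without common vertical circles
-/

set_option linter.unusedVariables false
set_option linter.unusedSectionVars false

namespace LG

open Equiv Finset Function

namespace PT0

section Four

variable {α β : Type} [LinearOrder α] [LinearOrder β]

lemma key1 {i j k l : α} {a b c d : β} (h1 : i ≠ j) (h2 : k ≠ l) (h3 : i ≠ k) (h4 : i ≠ l)
    (h5 : j ≠ k) (h6 : j ≠ l) (g1 : a ≠ b) (g2 : c ≠ d) (g3 : a ≠ c) (g4 : a ≠ d)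
    (g5 : b ≠ c) (g6 : b ≠ d)
    (e1 : ¬ (cyc i k j ∧ cyc a c b)) (e2 : ¬ (cyc i l j ∧ cyc a d b))
    (e3 : ¬ (cyc k i l ∧ cyc c b d)) (e4 : ¬ (cyc k j l ∧ cyc c a d)) :
    ¬ (cyc k i l ∧ cyc c a d) := by
  unfold cyc at *
  grind

lemma key2 {i j k l : α} {a b c d : β} (h1 : i ≠ j) (h2 : k ≠ l) (h3 : i ≠ k) (h4 : i ≠ l)
    (h5 : j ≠ k) (h6 : j ≠ l) (g1 : a ≠ b) (g2 : c ≠ d) (g3 : a ≠ c) (g4 : a ≠ d)
    (g5 : b ≠ c) (g6 : b ≠ d)
    (e1 : ¬ (cyc i k j ∧ cyc a c b)) (e2 : ¬ (cyc i l j ∧ cyc a d b))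
    (e3 : ¬ (cyc k i l ∧ cyc c b d)) (e4 : ¬ (cyc k j l ∧ cyc c a d)) :
    ¬ (cyc k j l ∧ cyc c b d) := by
  unfold cyc at *
  grind

lemma key3 {i j k l : α} {a b c d : β} (h1 : i ≠ j) (h2 : k ≠ l) (h3 : i ≠ k) (h4 : i ≠ l)
    (h5 : j ≠ k) (h6 : j ≠ l) (g1 : a ≠ b) (g2 : c ≠ d) (g3 : a ≠ c) (g4 : a ≠ d)
    (g5 : b ≠ c) (g6 : b ≠ d)
    (e1 : ¬ (cyc i k j ∧ cyc a c b)) (e2 : ¬ (cyc i l j ∧ cyc a d b))
    (e3 : ¬ (cyc k i l ∧ cyc c b d)) (e4 : ¬ (cyc k j l ∧ cyc c a d)) :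
    ¬ (cyc i k j ∧ cyc a d b) := by
  unfold cyc at *
  grind

lemma key4 {i j k l : α} {a b c d : β} (h1 : i ≠ j) (h2 : k ≠ l) (h3 : i ≠ k) (h4 : i ≠ l)
    (h5 : j ≠ k) (h6 : j ≠ l) (g1 : a ≠ b) (g2 : c ≠ d) (g3 : a ≠ c) (g4 : a ≠ d)
    (g5 : b ≠ c) (g6 : b ≠ d)
    (e1 : ¬ (cyc i k j ∧ cyc a c b)) (e2 : ¬ (cyc i l j ∧ cyc a d b))
    (e3 : ¬ (cyc k i l ∧ cyc c b d)) (e4 : ¬ (cyc k j l ∧ cyc c a d)) :
    ¬ (cyc i l j ∧ cyc a c b) := by
  unfold cyc at *
  grind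

/-- The marks of the columns adjacent to `z`: `y` before, `t` after. -/
lemma cols {y z t k l p q : α} (h1 : y ≠ z) (h2 : t ≠ z) (h3 : k ≠ z) (h4 : l ≠ z) (h5 : k ≠ l)
    (a1 : ¬ cyc y k z) (a2 : ¬ cyc y l z) (a3 : ¬ cyc z k t) (a4 : ¬ cyc z l t)
    (hp : ico y p z) (hq : ico z q t) : ico k p l ↔ ico k q l := by
  unfold ico cyc at *
  grind

end Four

section Grid

variable {ι M α β R : Type} [Fintype ι] [DecidableEq ι] [Fintype M] [LinearOrder α]
  [LinearOrder β] [CommRing R]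

lemma emp_of (G : MG ι M α β R) (hu : Injective G.u) (hv : Injective G.v) (x : Perm ι)
    (i j k l : ι) (h1 : i ≠ j) (h2 : k ≠ l) (h3 : i ≠ k) (h4 : i ≠ l) (h5 : j ≠ k) (h6 : j ≠ l)
    (e : Emp G x i j) (e' : Emp G (x * swap i j) k l) :
    Emp G x k l ∧ Emp G (x * swap k l) i j := by
  have U : ∀ {s t : ι}, s ≠ t → G.u s ≠ G.u t := fun h h' => h (hu h')
  have V : ∀ {s t : ι}, s ≠ t → G.v (x s) ≠ G.v (x t) := fun h h' => h (x.injective (hv h'))
  have xk : (x * swap i j) k = x k := by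
    rw [Perm.mul_apply, swap_apply_of_ne_of_ne h3.symm h5.symm]
  have xl : (x * swap i j) l = x l := by
    rw [Perm.mul_apply, swap_apply_of_ne_of_ne h4.symm h6.symm]
  have xi : (x * swap i j) i = x j := by rw [Perm.mul_apply, swap_apply_left]
  have xj : (x * swap i j) j = x i := by rw [Perm.mul_apply, swap_apply_right]
  have yi : (x * swap k l) i = x i := by rw [Perm.mul_apply, swap_apply_of_ne_of_ne h3 h4]
  have yj : (x * swap k l) j = x j := by rw [Perm.mul_apply, swap_apply_of_ne_of_ne h5 h6]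
  have yk : (x * swap k l) k = x l := by rw [Perm.mul_apply, swap_apply_left]
  have yl : (x * swap k l) l = x k := by rw [Perm.mul_apply, swap_apply_right]
  have e1 := e k
  have e2 := e l
  have e3 := e' i
  have e4 := e' j
  rw [xk, xl, xi] at e3
  rw [xk, xl, xj] at e4
  have f1 := key1 (U h1) (U h2) (U h3) (U h4) (U h5) (U h6) (V h1) (V h2) (V h3) (V h4) (V h5)
    (V h6) e1 e2 e3 e4
  have f2 := key2 (U h1) (U h2) (U h3) (U h4) (U h5) (U h6) (V h1) (V h2) (V h3) (V h4) (V h5)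
    (V h6) e1 e2 e3 e4
  have f3 := key3 (U h1) (U h2) (U h3) (U h4) (U h5) (U h6) (V h1) (V h2) (V h3) (V h4) (V h5)
    (V h6) e1 e2 e3 e4
  have f4 := key4 (U h1) (U h2) (U h3) (U h4) (U h5) (U h6) (V h1) (V h2) (V h3) (V h4) (V h5)
    (V h6) e1 e2 e3 e4
  constructor
  · intro t
    by_cases ti : t = i
    · rw [ti]
      exact f1
    · by_cases tj : t = j
      · rw [tj]
        exact f2
      · have h := e' t
        rw [xk, xl, Perm.mul_apply, swap_apply_of_ne_of_ne ti tj] at h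
        exact h
  · intro t
    rw [yi, yj]
    by_cases tk : t = k
    · rw [tk, yk]
      exact f3
    · by_cases tl : t = l
      · rw [tl, yl]
        exact f4
      · rw [Perm.mul_apply, swap_apply_of_ne_of_ne tk tl]
        exact e t

lemma ins_iff (G : MG ι M α β R) (D : PD G) (hu : Injective G.u) (x : Perm ι) (i j k l : ι)
    (h : i = D.i0 ∨ j = D.i0) (h2 : k ≠ l) (h3 : i ≠ k) (h4 : i ≠ l) (h5 : j ≠ k)
    (h6 : j ≠ l) (m : M) : Ins D.G' (x * swap i j) k l m ↔ Ins G x k l m := by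
  have U : ∀ {s t : ι}, s ≠ t → G.u s ≠ G.u t := fun h h' => h (hu h')
  have xk : (x * swap i j) k = x k := by
    rw [Perm.mul_apply, swap_apply_of_ne_of_ne h3.symm h5.symm]
  have xl : (x * swap i j) l = x l := by
    rw [Perm.mul_apply, swap_apply_of_ne_of_ne h4.symm h6.symm]
  have k0 : k ≠ D.i0 := by
    rcases h with h | h
    · rw [← h]
      exact h3.symm
    · rw [← h]
      exact h5.symm
  have l0 : l ≠ D.i0 := by
    rcases h with h | h
    · rw [← h]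
      exact h4.symm
    · rw [← h]
      exact h6.symm
  have hcol : ico (G.u k) (D.p' m) (G.u l) ↔ ico (G.u k) (G.p m) (G.u l) := by
    by_cases hL : D.L m
    · exact (cols (U D.n1) (U D.n2) (U k0) (U l0) (U h2) (D.adj1 k) (D.adj1 l) (D.adj2 k)
        (D.adj2 l) ((D.hL m).1 hL) (D.mL m hL)).symm
    · by_cases hK : D.K m
      · exact cols (U D.n1) (U D.n2) (U k0) (U l0) (U h2) (D.adj1 k) (D.adj1 l) (D.adj2 k)
          (D.adj2 l) (D.mK m hK) ((D.hK m).1 hK)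
      · rw [D.mO m hL hK]
  unfold Ins
  rw [xk, xl]
  exact and_congr hcol Iff.rfl

lemma pins_iff (G : MG ι M α β R) (D : PD G) (x : Perm ι) (i j k l : ι)
    (h3 : i ≠ k) (h4 : i ≠ l) (h5 : j ≠ k) (h6 : j ≠ l) (m : M) :
    PIns D (x * swap k l) i j m ↔ PIns D x i j m := by
  have yi : (x * swap k l) i = x i := by rw [Perm.mul_apply, swap_apply_of_ne_of_ne h3 h4]
  have yj : (x * swap k l) j = x j := by rw [Perm.mul_apply, swap_apply_of_ne_of_ne h5 h6]
  unfold PIns Ins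
  rw [yi, yj]

end Grid

end PT0

theorem t_PT0 : Stmt_PT0 := by
  intro ι M α β R _ _ _ _ _ _ G D hu hv x i j k l h3 h4 h5 h6
  have yi : (x * Equiv.swap k l) i = x i := by rw [Perm.mul_apply, swap_apply_of_ne_of_ne h3 h4]
  have yj : (x * Equiv.swap k l) j = x j := by rw [Perm.mul_apply, swap_apply_of_ne_of_ne h5 h6]
  by_cases h1 : i = j
  · have z1 : ∀ y : Perm ι, Pw D y i j = 0 := fun y => if_neg fun h => h.1 h1
    rw [z1, z1, zero_mul, mul_zero]
  by_cases h2 : k = l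
  · have z1 : Wt D.G' (x * Equiv.swap i j) k l = 0 := if_neg fun h => h.1 h2
    have z2 : Wt G x k l = 0 := if_neg fun h => h.1 h2
    rw [z1, z2, zero_mul, mul_zero]
  by_cases h0 : i = D.i0 ∨ j = D.i0
  swap
  · have z1 : ∀ y : Perm ι, Pw D y i j = 0 := fun y => if_neg fun h => h0 h.2.1
    rw [z1, z1, zero_mul, mul_zero]
  by_cases hc : cyc (G.v (x i)) D.a (G.v (x j))
  swap
  · have z1 : Pw D x i j = 0 := if_neg fun h => hc h.2.2.2
    have z2 : Pw D (x * Equiv.swap k l) i j = 0 := if_neg fun h => hc (by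
      have := h.2.2.2
      rwa [yi, yj] at this)
    rw [z1, z2, zero_mul, mul_zero]
  have hE : (Emp G x i j ∧ Emp G (x * Equiv.swap i j) k l) ↔
      (Emp G x k l ∧ Emp G (x * Equiv.swap k l) i j) :=
    ⟨fun h => PT0.emp_of G hu hv x i j k l h1 h2 h3 h4 h5 h6 h.1 h.2,
      fun h => PT0.emp_of G hu hv x k l i j h2 h1 h3.symm h5.symm h4.symm h6.symm h.1 h.2⟩
  by_cases e : Emp G x i j ∧ Emp G (x * Equiv.swap i j) k l
  · have e' := hE.1 e
    have w1 : Pw D x i j = ∏ m, (if PIns D x i j m then G.w m else 1) :=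
      if_pos ⟨h1, h0, e.1, hc⟩
    have w2 : Wt D.G' (x * Equiv.swap i j) k l =
        ∏ m, (if Ins D.G' (x * Equiv.swap i j) k l m then G.w m else 1) := if_pos ⟨h2, e.2⟩
    have w3 : Wt G x k l = ∏ m, (if Ins G x k l m then G.w m else 1) := if_pos ⟨h2, e'.1⟩
    have w4 : Pw D (x * Equiv.swap k l) i j =
        ∏ m, (if PIns D (x * Equiv.swap k l) i j m then G.w m else 1) :=
      if_pos ⟨h1, h0, e'.2, by rw [yi, yj]; exact hc⟩
    rw [w1, w2, w3, w4, mul_comm]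
    congr 1
    · exact prod_congr rfl fun m _ => by
        rw [if_congr (PT0.ins_iff G D hu x i j k l h0 h2 h3 h4 h5 h6 m) rfl rfl]
    · exact prod_congr rfl fun m _ => by
        rw [if_congr (PT0.pins_iff G D x i j k l h3 h4 h5 h6 m) rfl rfl]
  · have e' := fun h => e (hE.2 h)
    have z1 : Pw D x i j * Wt D.G' (x * Equiv.swap i j) k l = 0 := by
      by_cases e1 : Emp G x i j
      · have z : Wt D.G' (x * Equiv.swap i j) k l = 0 := if_neg fun h => e ⟨e1, h.2⟩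
        rw [z, mul_zero]
      · have z : Pw D x i j = 0 := if_neg fun h => e1 h.2.2.1
        rw [z, zero_mul]
    have z2 : Wt G x k l * Pw D (x * Equiv.swap k l) i j = 0 := by
      by_cases e1 : Emp G x k l
      · have z : Pw D (x * Equiv.swap k l) i j = 0 := if_neg fun h => e' ⟨e1, h.2.2.1⟩
        rw [z, mul_zero]
      · have z : Wt G x k l = 0 := if_neg fun h => e1 h.2
        rw [z, zero_mul]
    rw [z1, z2]

end LG
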