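import Pool.Agent.LG.Stmts

/-!
# PT1: a pentagon and a rectangle with exactly one common vertical circle
-/

namespace LG

open Equiv Finset Function

namespace PT1

/-- The three kinds of regions: rectangles of the first grid, rectangles of the second grid,
pentagons. -/
inductive Kd where
  | W
  | V
  | P

section

variable {α β : Type} [LinearOrder α] [LinearOrder β]

/-- Half open cyclic interval, open at the left end. -/
def ioc (a b c : α) : Prop := b = c ∨ cyc a b c

/-- Marks of the column after the special circle. -/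
def memK (κ : Kd) (cp : α) (a : β) (c1 c2 : α) (h1 h2 : β) (t : β) : Prop :=
  match κ with
  | .W => ico c1 cp c2 ∧ ico h1 t h2
  | .V => ioc c1 cp c2 ∧ ico h1 t h2
  | .P => ico h1 t a

/-- Marks of the column before the special circle. -/
def memL (κ : Kd) (cp : α) (a : β) (c1 c2 : α) (h1 h2 : β) (t : β) : Prop :=
  match κ with
  | .W => ioc c1 cp c2 ∧ ico h1 t h2
  | .V => ico c1 cp c2 ∧ ico h1 t h2
  | .P => cyc a t h2

/-- The other marks. -/
def memO (c1 c2 : α) (h1 h2 : β) (s : α) (t : β) : Prop := ico c1 s c2 ∧ ico h1 t h2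

theorem icoK {a b c d s : α} (h : ico a s b) (hab : a ≠ b) (h1 : ¬ cyc a c b) (h2 : ¬ cyc a d b)
    (hcd : c ≠ d) : ico c s d ↔ ico c a d := by
  unfold ico cyc at *; grind

theorem icoL {a b c d s : α} (h : ico a s b) (hab : a ≠ b) (h1 : ¬ cyc a c b) (h2 : ¬ cyc a d b)
    (hcd : c ≠ d) : ico c s d ↔ ioc c b d := by
  unfold ico ioc cyc at *; grind

end

variable {ι M α β R : Type} [Fintype ι] [DecidableEq ι] [Fintype M] [LinearOrder α]
  [LinearOrder β] [CommRing R] {G : MG ι M α β R}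

/-- Emptiness at the points outside the triple. -/
def EE (G : MG ι M α β R) (x : Perm ι) (p q r : ι) (c1 c2 : α) (h1 h2 : β) : Prop :=
  ∀ k, k ≠ p → k ≠ q → k ≠ r → ¬ (cyc c1 (G.u k) c2 ∧ cyc h1 (G.v (x k)) h2)

/-- The marks in a region. -/
def mem (D : PD G) (κ : Kd) (c1 c2 : α) (h1 h2 : β) (m : M) : Prop :=
  (D.K m ∧ memK κ (G.u D.i0) D.a c1 c2 h1 h2 (G.q m)) ∨
  (D.L m ∧ memL κ (G.u D.i0) D.a c1 c2 h1 h2 (G.q m)) ∨
  (¬ D.K m ∧ ¬ D.L m ∧ memO c1 c2 h1 h2 (G.p m) (G.q m))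

/-- The weight of a region without the conditions at the triple. -/
noncomputable def T (D : PD G) (x : Perm ι) (p q r : ι) (κ : Kd) (c1 c2 : α) (h1 h2 : β) : R := by
  classical
  exact if EE G x p q r c1 c2 h1 h2 then ∏ m, (if mem D κ c1 c2 h1 h2 m then G.w m else 1) else 0

theorem pair0 {A1 A2 A3 A4 : Prop} [Decidable A1] [Decidable A2] [Decidable A3] [Decidable A4]
    {f1 f2 f3 f4 : M → Prop} [DecidablePred f1] [DecidablePred f2] [DecidablePred f3]
    [DecidablePred f4] (w : M → R) (hE : (A1 ∧ A2) ↔ (A3 ∧ A4))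
    (hf : ∀ m, ((f1 m ∧ f2 m) ↔ (f3 m ∧ f4 m)) ∧ ((f1 m ∨ f2 m) ↔ (f3 m ∨ f4 m))) :
    (if A1 then ∏ m, (if f1 m then w m else 1) else 0) *
      (if A2 then ∏ m, (if f2 m then w m else 1) else 0) =
    (if A3 then ∏ m, (if f3 m then w m else 1) else 0) *
      (if A4 then ∏ m, (if f4 m then w m else 1) else 0) := by
  by_cases h : A1 ∧ A2
  · have h' := hE.1 h
    rw [if_pos h.1, if_pos h.2, if_pos h'.1, if_pos h'.2, ← Finset.prod_mul_distrib,
      ← Finset.prod_mul_distrib]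
    refine Finset.prod_congr rfl fun m _ => ?_
    obtain ⟨h1, h2⟩ := hf m
    by_cases a1 : f1 m <;> by_cases a2 : f2 m <;> by_cases a3 : f3 m <;> by_cases a4 : f4 m <;>
      simp only [a1, a2, a3, a4, if_true, if_false, and_true, true_and, and_false,
        or_true, or_false, false_or, iff_true, true_iff, not_true, not_false_iff,
        mul_one, one_mul] at h1 h2 ⊢ <;> simp_all
  · have h' : ¬ (A3 ∧ A4) := fun hh => h (hE.2 hh)
    have e1 : (if A1 then ∏ m, (if f1 m then w m else 1) else 0) *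
        (if A2 then ∏ m, (if f2 m then w m else 1) else 0) = 0 := by
      by_cases a1 : A1
      · have a2 : ¬ A2 := fun a2 => h ⟨a1, a2⟩
        rw [if_neg a2, mul_zero]
      · rw [if_neg a1, zero_mul]
    have e2 : (if A3 then ∏ m, (if f3 m then w m else 1) else 0) *
        (if A4 then ∏ m, (if f4 m then w m else 1) else 0) = 0 := by
      by_cases a1 : A3
      · have a2 : ¬ A4 := fun a2 => h' ⟨a1, a2⟩
        rw [if_neg a2, mul_zero]
      · rw [if_neg a1, zero_mul]
    rw [e1, e2]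

theorem pair (D : PD G) (hu : Injective G.u) (hv : Injective G.v) (x : Perm ι) (p q r : ι)
    {k1 k2 k3 k4 : Kd} {a1 b1 a2 b2 a3 b3 a4 b4 : α} {c1 d1 c2 d2 c3 d3 c4 d4 : β}
    (hE : ∀ s t, s ≠ G.u p → s ≠ G.u q → s ≠ G.u r → t ≠ G.v (x p) → t ≠ G.v (x q) →
      t ≠ G.v (x r) → ((¬ (cyc a1 s b1 ∧ cyc c1 t d1) ∧ ¬ (cyc a2 s b2 ∧ cyc c2 t d2)) ↔
        (¬ (cyc a3 s b3 ∧ cyc c3 t d3) ∧ ¬ (cyc a4 s b4 ∧ cyc c4 t d4))))
    (hK : ∀ t, t ≠ D.a →
      ((memK k1 (G.u D.i0) D.a a1 b1 c1 d1 t ∧ memK k2 (G.u D.i0) D.a a2 b2 c2 d2 t) ↔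
        (memK k3 (G.u D.i0) D.a a3 b3 c3 d3 t ∧ memK k4 (G.u D.i0) D.a a4 b4 c4 d4 t)) ∧
      ((memK k1 (G.u D.i0) D.a a1 b1 c1 d1 t ∨ memK k2 (G.u D.i0) D.a a2 b2 c2 d2 t) ↔
        (memK k3 (G.u D.i0) D.a a3 b3 c3 d3 t ∨ memK k4 (G.u D.i0) D.a a4 b4 c4 d4 t)))
    (hL : ∀ t, t ≠ D.a →
      ((memL k1 (G.u D.i0) D.a a1 b1 c1 d1 t ∧ memL k2 (G.u D.i0) D.a a2 b2 c2 d2 t) ↔
        (memL k3 (G.u D.i0) D.a a3 b3 c3 d3 t ∧ memL k4 (G.u D.i0) D.a a4 b4 c4 d4 t)) ∧
      ((memL k1 (G.u D.i0) D.a a1 b1 c1 d1 t ∨ memL k2 (G.u D.i0) D.a a2 b2 c2 d2 t) ↔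
        (memL k3 (G.u D.i0) D.a a3 b3 c3 d3 t ∨ memL k4 (G.u D.i0) D.a a4 b4 c4 d4 t)))
    (hO : ∀ s t,
      ((memO a1 b1 c1 d1 s t ∧ memO a2 b2 c2 d2 s t) ↔
        (memO a3 b3 c3 d3 s t ∧ memO a4 b4 c4 d4 s t)) ∧
      ((memO a1 b1 c1 d1 s t ∨ memO a2 b2 c2 d2 s t) ↔
        (memO a3 b3 c3 d3 s t ∨ memO a4 b4 c4 d4 s t))) :
    T D x p q r k1 a1 b1 c1 d1 * T D x p q r k2 a2 b2 c2 d2 =
      T D x p q r k3 a3 b3 c3 d3 * T D x p q r k4 a4 b4 c4 d4 := by
  classical
  unfold T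
  refine pair0 G.w ?_ ?_
  · have key : ∀ k, k ≠ p → k ≠ q → k ≠ r → _ := fun k h1 h2 h3 =>
      hE (G.u k) (G.v (x k)) (fun h => h1 (hu h)) (fun h => h2 (hu h)) (fun h => h3 (hu h))
        (fun h => h1 (x.injective (hv h))) (fun h => h2 (x.injective (hv h)))
        (fun h => h3 (x.injective (hv h)))
    unfold EE
    constructor
    · rintro ⟨h1, h2⟩
      exact ⟨fun k a b c => ((key k a b c).1 ⟨h1 k a b c, h2 k a b c⟩).1,
        fun k a b c => ((key k a b c).1 ⟨h1 k a b c, h2 k a b c⟩).2⟩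
    · rintro ⟨h1, h2⟩
      exact ⟨fun k a b c => ((key k a b c).2 ⟨h1 k a b c, h2 k a b c⟩).1,
        fun k a b c => ((key k a b c).2 ⟨h1 k a b c, h2 k a b c⟩).2⟩
  · intro m
    have hd := D.disj m
    have kK := hK (G.q m) (D.aq m)
    have kL := hL (G.q m) (D.aq m)
    have kO := hO (G.p m) (G.q m)
    unfold mem
    by_cases h1 : D.K m <;> by_cases h2 : D.L m
    · exact absurd ⟨h2, h1⟩ hd
    · simpa only [h1, h2, true_and, false_and, or_false, not_true, not_false_iff, false_or] using kK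
    · simpa only [h1, h2, true_and, false_and, or_false, not_true, not_false_iff, false_or,
        and_false] using kL
    · simpa only [h1, h2, true_and, false_and, or_false, not_true, not_false_iff, false_or] using kO

/-- Rectangles of the first grid. -/
theorem Wt_eq (D : PD G) (hu : Injective G.u) (x y : Perm ι) (p q r i j l : ι)
    (hy : ∀ k, k ≠ p → k ≠ q → k ≠ r → y k = x k) (hij : i ≠ j)
    (hs : ∀ k, (k ≠ p ∧ k ≠ q ∧ k ≠ r) ↔ (k ≠ i ∧ k ≠ j ∧ k ≠ l)) :
    Wt G y i j = if cyc (G.u i) (G.u l) (G.u j) ∧ cyc (G.v (y i)) (G.v (y l)) (G.v (y j)) then 0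
      else T D x p q r .W (G.u i) (G.u j) (G.v (y i)) (G.v (y j)) := by
  classical
  have huij : G.u i ≠ G.u j := fun h => hij (hu h)
  by_cases h3 : cyc (G.u i) (G.u l) (G.u j) ∧ cyc (G.v (y i)) (G.v (y l)) (G.v (y j))
  · rw [if_pos h3]
    unfold Wt
    rw [if_neg]
    rintro ⟨_, h⟩
    exact h l h3
  · rw [if_neg h3]
    unfold Wt T
    have hE : (i ≠ j ∧ Emp G y i j) ↔ EE G x p q r (G.u i) (G.u j) (G.v (y i)) (G.v (y j)) := by
      constructor
      · rintro ⟨_, h⟩ k k1 k2 k3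
        rw [← hy k k1 k2 k3]
        exact h k
      · intro h
        refine ⟨hij, fun k => ?_⟩
        by_cases hk : k ≠ p ∧ k ≠ q ∧ k ≠ r
        · rw [hy k hk.1 hk.2.1 hk.2.2]
          exact h k hk.1 hk.2.1 hk.2.2
        · rw [hs k] at hk
          by_cases k1 : k = i
          · subst k1
            rintro ⟨h1, _⟩
            exact (cyc_ne h1).1 rfl
          · by_cases k2 : k = j
            · subst k2
              rintro ⟨h1, _⟩
              exact (cyc_ne h1).2.1 rfl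
            · have k3 : k = l := by
                by_contra k3
                exact hk ⟨k1, k2, k3⟩
              subst k3
              exact h3
    by_cases hA : i ≠ j ∧ Emp G y i j
    · rw [if_pos hA, if_pos (hE.1 hA)]
      refine Finset.prod_congr rfl fun m _ => ?_
      have hm : Ins G y i j m ↔ mem D .W (G.u i) (G.u j) (G.v (y i)) (G.v (y j)) m := by
        unfold Ins mem
        by_cases h1 : D.K m
        · have h2 : ¬ D.L m := fun h2 => D.disj m ⟨h2, h1⟩
          simp only [h1, h2, true_and, false_and, or_false, not_true, memK]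
          rw [icoK ((D.hK m).1 h1) (fun h => D.n2 (hu h).symm) (D.adj2 i) (D.adj2 j) huij]
        · by_cases h2 : D.L m
          · simp only [h1, h2, true_and, false_and, or_false, false_or, not_true, not_false_iff,
              and_false, memL]
            rw [icoL ((D.hL m).1 h2) (fun h => D.n1 (hu h)) (D.adj1 i) (D.adj1 j) huij]
          · simp only [h1, h2, true_and, false_and, false_or, not_false_iff, memO]
      by_cases hI : Ins G y i j m
      · rw [if_pos hI, if_pos (hm.1 hI)]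
      · rw [if_neg hI, if_neg (fun h => hI (hm.2 h))]
    · rw [if_neg hA, if_neg (fun h => hA (hE.2 h))]

/-- Rectangles of the second grid. -/
theorem Vt_eq (D : PD G) (hu : Injective G.u) (x y : Perm ι) (p q r i j l : ι)
    (hy : ∀ k, k ≠ p → k ≠ q → k ≠ r → y k = x k) (hij : i ≠ j)
    (hs : ∀ k, (k ≠ p ∧ k ≠ q ∧ k ≠ r) ↔ (k ≠ i ∧ k ≠ j ∧ k ≠ l)) :
    Wt D.G' y i j =
      if cyc (G.u i) (G.u l) (G.u j) ∧ cyc (G.v (y i)) (G.v (y l)) (G.v (y j)) then 0
      else T D x p q r .V (G.u i) (G.u j) (G.v (y i)) (G.v (y j)) := by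
  classical
  have huij : G.u i ≠ G.u j := fun h => hij (hu h)
  by_cases h3 : cyc (G.u i) (G.u l) (G.u j) ∧ cyc (G.v (y i)) (G.v (y l)) (G.v (y j))
  · rw [if_pos h3]
    unfold Wt
    rw [if_neg]
    rintro ⟨_, h⟩
    exact h l h3
  · rw [if_neg h3]
    unfold Wt T
    have hE : (i ≠ j ∧ Emp D.G' y i j) ↔
        EE G x p q r (G.u i) (G.u j) (G.v (y i)) (G.v (y j)) := by
      constructor
      · rintro ⟨_, h⟩ k k1 k2 k3
        rw [← hy k k1 k2 k3]
        exact h k
      · intro h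
        refine ⟨hij, fun k => ?_⟩
        change ¬ (cyc (G.u i) (G.u k) (G.u j) ∧ cyc (G.v (y i)) (G.v (y k)) (G.v (y j)))
        by_cases hk : k ≠ p ∧ k ≠ q ∧ k ≠ r
        · rw [hy k hk.1 hk.2.1 hk.2.2]
          exact h k hk.1 hk.2.1 hk.2.2
        · rw [hs k] at hk
          by_cases k1 : k = i
          · subst k1
            rintro ⟨h1, _⟩
            exact (cyc_ne h1).1 rfl
          · by_cases k2 : k = j
            · subst k2
              rintro ⟨h1, _⟩
              exact (cyc_ne h1).2.1 rfl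
            · have k3 : k = l := by
                by_contra k3
                exact hk ⟨k1, k2, k3⟩
              subst k3
              exact h3
    by_cases hA : i ≠ j ∧ Emp D.G' y i j
    · rw [if_pos hA, if_pos (hE.1 hA)]
      refine Finset.prod_congr rfl fun m _ => ?_
      have hm : Ins D.G' y i j m ↔ mem D .V (G.u i) (G.u j) (G.v (y i)) (G.v (y j)) m := by
        unfold Ins mem
        change (ico (G.u i) (D.p' m) (G.u j) ∧ ico (G.v (y i)) (G.q m) (G.v (y j))) ↔ _
        by_cases h1 : D.K m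
        · have h2 : ¬ D.L m := fun h2 => D.disj m ⟨h2, h1⟩
          simp only [h1, h2, true_and, false_and, or_false, not_true, memK]
          rw [icoL (D.mK m h1) (fun h => D.n1 (hu h)) (D.adj1 i) (D.adj1 j) huij]
        · by_cases h2 : D.L m
          · simp only [h1, h2, true_and, false_and, or_false, false_or, not_true, not_false_iff,
              and_false, memL]
            rw [icoK (D.mL m h2) (fun h => D.n2 (hu h).symm) (D.adj2 i) (D.adj2 j) huij]
          · rw [D.mO m h2 h1]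
            simp only [h1, h2, true_and, false_and, false_or, not_false_iff, memO]
      by_cases hI : Ins D.G' y i j m
      · rw [if_pos hI, if_pos (hm.1 hI)]
        rfl
      · rw [if_neg hI, if_neg (fun h => hI (hm.2 h))]
    · rw [if_neg hA, if_neg (fun h => hA (hE.2 h))]

/-- Pentagons. -/
theorem Pw_eq (D : PD G) (x y : Perm ι) (p q r i j l : ι)
    (hy : ∀ k, k ≠ p → k ≠ q → k ≠ r → y k = x k) (hij : i ≠ j)
    (hs : ∀ k, (k ≠ p ∧ k ≠ q ∧ k ≠ r) ↔ (k ≠ i ∧ k ≠ j ∧ k ≠ l)) (h0 : i = D.i0 ∨ j = D.i0) :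
    Pw D y i j = if cyc (G.v (y i)) D.a (G.v (y j)) then
      (if cyc (G.u i) (G.u l) (G.u j) ∧ cyc (G.v (y i)) (G.v (y l)) (G.v (y j)) then 0
      else T D x p q r .P (G.u i) (G.u j) (G.v (y i)) (G.v (y j))) else 0 := by
  classical
  by_cases ha : cyc (G.v (y i)) D.a (G.v (y j))
  · rw [if_pos ha]
    by_cases h3 : cyc (G.u i) (G.u l) (G.u j) ∧ cyc (G.v (y i)) (G.v (y l)) (G.v (y j))
    · rw [if_pos h3]
      unfold Pw
      rw [if_neg]
      rintro ⟨_, _, h, _⟩
      exact h l h3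
    · rw [if_neg h3]
      unfold Pw T
      have hE : (i ≠ j ∧ (i = D.i0 ∨ j = D.i0) ∧ Emp G y i j ∧
          cyc (G.v (y i)) D.a (G.v (y j))) ↔
          EE G x p q r (G.u i) (G.u j) (G.v (y i)) (G.v (y j)) := by
        constructor
        · rintro ⟨_, _, h, _⟩ k k1 k2 k3
          rw [← hy k k1 k2 k3]
          exact h k
        · intro h
          refine ⟨hij, h0, fun k => ?_, ha⟩
          by_cases hk : k ≠ p ∧ k ≠ q ∧ k ≠ r
          · rw [hy k hk.1 hk.2.1 hk.2.2]
            exact h k hk.1 hk.2.1 hk.2.2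
          · rw [hs k] at hk
            by_cases k1 : k = i
            · subst k1
              rintro ⟨h1, _⟩
              exact (cyc_ne h1).1 rfl
            · by_cases k2 : k = j
              · subst k2
                rintro ⟨h1, _⟩
                exact (cyc_ne h1).2.1 rfl
              · have k3 : k = l := by
                  by_contra k3
                  exact hk ⟨k1, k2, k3⟩
                subst k3
                exact h3
      by_cases hA : i ≠ j ∧ (i = D.i0 ∨ j = D.i0) ∧ Emp G y i j ∧ cyc (G.v (y i)) D.a (G.v (y j))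
      · rw [if_pos hA, if_pos (hE.1 hA)]
        refine Finset.prod_congr rfl fun m _ => ?_
        have hm : PIns D y i j m ↔ mem D .P (G.u i) (G.u j) (G.v (y i)) (G.v (y j)) m := by
          unfold PIns mem
          by_cases h1 : D.K m
          · have h2 : ¬ D.L m := fun h2 => D.disj m ⟨h2, h1⟩
            simp only [h1, h2, true_and, false_and, or_false, not_true, memK, if_true]
          · by_cases h2 : D.L m
            · simp only [h1, h2, true_and, false_and, or_false, false_or, not_true, not_false_iff,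
                and_false, memL, if_true, if_false]
            · simp only [h1, h2, true_and, false_and, false_or, not_false_iff, memO, if_false, Ins]
        by_cases hI : PIns D y i j m
        · rw [if_pos hI, if_pos (hm.1 hI)]
        · rw [if_neg hI, if_neg (fun h => hI (hm.2 h))]
      · rw [if_neg hA, if_neg (fun h => hA (hE.2 h))]
  · rw [if_neg ha]
    unfold Pw
    rw [if_neg]
    rintro ⟨_, _, _, h⟩
    exact ha h

theorem case_pqr_pqra (D : PD G) (h2 : (2 : R) = 0) (hu : Injective G.u) (hv : Injective G.v)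
    (x : Perm ι) (p q r : ι) (hp : p = D.i0) (hc : cyc (G.u p) (G.u q) (G.u r))
    (hh : cyc (G.v (x p)) (G.v (x q)) (G.v (x r)))
    (ha : cyc (G.v (x r)) (D.a) (G.v (x p))) :
    ((if cyc (G.v (x p)) D.a (G.v (x q)) then (if cyc (G.u p) (G.u r) (G.u q) ∧ cyc (G.v (x p)) (G.v (x r)) (G.v (x q)) then 0
      else T D x p q r .P (G.u p) (G.u q) (G.v (x p)) (G.v (x q))) else 0) +
      (if cyc (G.v (x q)) D.a (G.v (x p)) then (if cyc (G.u q) (G.u r) (G.u p) ∧ cyc (G.v (x q)) (G.v (x r)) (G.v (x p)) then 0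
      else T D x p q r .P (G.u q) (G.u p) (G.v (x q)) (G.v (x p))) else 0)) *
    ((if cyc (G.u p) (G.u q) (G.u r) ∧ cyc (G.v (x q)) (G.v (x p)) (G.v (x r)) then 0
      else T D x p q r .V (G.u p) (G.u r) (G.v (x q)) (G.v (x r))) +
      (if cyc (G.u r) (G.u q) (G.u p) ∧ cyc (G.v (x r)) (G.v (x p)) (G.v (x q)) then 0
      else T D x p q r .V (G.u r) (G.u p) (G.v (x r)) (G.v (x q)))) +
    ((if cyc (G.u p) (G.u r) (G.u q) ∧ cyc (G.v (x p)) (G.v (x r)) (G.v (x q)) then 0
      else T D x p q r .W (G.u p) (G.u q) (G.v (x p)) (G.v (x q))) +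
      (if cyc (G.u q) (G.u r) (G.u p) ∧ cyc (G.v (x q)) (G.v (x r)) (G.v (x p)) then 0
      else T D x p q r .W (G.u q) (G.u p) (G.v (x q)) (G.v (x p)))) *
    ((if cyc (G.v (x q)) D.a (G.v (x r)) then (if cyc (G.u p) (G.u q) (G.u r) ∧ cyc (G.v (x q)) (G.v (x p)) (G.v (x r)) then 0
      else T D x p q r .P (G.u p) (G.u r) (G.v (x q)) (G.v (x r))) else 0) +
      (if cyc (G.v (x r)) D.a (G.v (x q)) then (if cyc (G.u r) (G.u q) (G.u p) ∧ cyc (G.v (x r)) (G.v (x p)) (G.v (x q)) then 0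
      else T D x p q r .P (G.u r) (G.u p) (G.v (x r)) (G.v (x q))) else 0)) +
    ((if cyc (G.u q) (G.u p) (G.u r) ∧ cyc (G.v (x q)) (G.v (x p)) (G.v (x r)) then 0
      else T D x p q r .W (G.u q) (G.u r) (G.v (x q)) (G.v (x r))) +
      (if cyc (G.u r) (G.u p) (G.u q) ∧ cyc (G.v (x r)) (G.v (x p)) (G.v (x q)) then 0
      else T D x p q r .W (G.u r) (G.u q) (G.v (x r)) (G.v (x q)))) *
    ((if cyc (G.v (x r)) D.a (G.v (x p)) then (if cyc (G.u q) (G.u r) (G.u p) ∧ cyc (G.v (x r)) (G.v (x q)) (G.v (x p)) then 0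
      else T D x p q r .P (G.u q) (G.u p) (G.v (x r)) (G.v (x p))) else 0) +
      (if cyc (G.v (x p)) D.a (G.v (x r)) then (if cyc (G.u p) (G.u r) (G.u q) ∧ cyc (G.v (x p)) (G.v (x q)) (G.v (x r)) then 0
      else T D x p q r .P (G.u p) (G.u q) (G.v (x p)) (G.v (x r))) else 0)) +
    ((if cyc (G.v (x r)) D.a (G.v (x p)) then (if cyc (G.u r) (G.u q) (G.u p) ∧ cyc (G.v (x r)) (G.v (x q)) (G.v (x p)) then 0
      else T D x p q r .P (G.u r) (G.u p) (G.v (x r)) (G.v (x p))) else 0) +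
      (if cyc (G.v (x p)) D.a (G.v (x r)) then (if cyc (G.u p) (G.u q) (G.u r) ∧ cyc (G.v (x p)) (G.v (x q)) (G.v (x r)) then 0
      else T D x p q r .P (G.u p) (G.u r) (G.v (x p)) (G.v (x r))) else 0)) *
    ((if cyc (G.u r) (G.u p) (G.u q) ∧ cyc (G.v (x p)) (G.v (x r)) (G.v (x q)) then 0
      else T D x p q r .V (G.u r) (G.u q) (G.v (x p)) (G.v (x q))) +
      (if cyc (G.u q) (G.u p) (G.u r) ∧ cyc (G.v (x q)) (G.v (x r)) (G.v (x p)) then 0
      else T D x p q r .V (G.u q) (G.u r) (G.v (x q)) (G.v (x p)))) = 0 := by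
  have c0 : cyc (G.u p) (G.u q) (G.u r) := by
    clear ha hh
    unfold cyc at *; grind (splits := 20)
  have c1 : ¬ cyc (G.u p) (G.u r) (G.u q) := by
    clear ha hh
    unfold cyc at *; grind (splits := 20)
  have c2 : ¬ cyc (G.u q) (G.u p) (G.u r) := by
    clear ha hh
    unfold cyc at *; grind (splits := 20)
  have c3 : cyc (G.u q) (G.u r) (G.u p) := by
    clear ha hh
    unfold cyc at *; grind (splits := 20)
  have c4 : cyc (G.u r) (G.u p) (G.u q) := by
    clear ha hh
    unfold cyc at *; grind (splits := 20)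
  have c5 : ¬ cyc (G.u r) (G.u q) (G.u p) := by
    clear ha hh
    unfold cyc at *; grind (splits := 20)
  have c6 : cyc (G.v (x p)) (G.v (x q)) (G.v (x r)) := by
    clear ha hc
    unfold cyc at *; grind (splits := 20)
  have c7 : ¬ cyc (G.v (x p)) (G.v (x r)) (G.v (x q)) := by
    clear ha hc
    unfold cyc at *; grind (splits := 20)
  have c8 : ¬ cyc (G.v (x q)) (G.v (x p)) (G.v (x r)) := by
    clear ha hc
    unfold cyc at *; grind (splits := 20)
  have c9 : cyc (G.v (x q)) (G.v (x r)) (G.v (x p)) := by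
    clear ha hc
    unfold cyc at *; grind (splits := 20)
  have c10 : cyc (G.v (x r)) (G.v (x p)) (G.v (x q)) := by
    clear ha hc
    unfold cyc at *; grind (splits := 20)
  have c11 : ¬ cyc (G.v (x r)) (G.v (x q)) (G.v (x p)) := by
    clear ha hc
    unfold cyc at *; grind (splits := 20)
  have c12 : ¬ cyc (G.v (x p)) (D.a) (G.v (x q)) := by
    unfold cyc at ha hh ⊢; grind
  have c13 : ¬ cyc (G.v (x p)) (D.a) (G.v (x r)) := by
    unfold cyc at ha hh ⊢; grind
  have c14 : cyc (G.v (x q)) (D.a) (G.v (x p)) := by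
    unfold cyc at ha hh ⊢; grind
  have c15 : ¬ cyc (G.v (x q)) (D.a) (G.v (x r)) := by
    unfold cyc at ha hh ⊢; grind
  have c16 : cyc (G.v (x r)) (D.a) (G.v (x p)) := by
    unfold cyc at ha hh ⊢; grind
  have c17 : cyc (G.v (x r)) (D.a) (G.v (x q)) := by
    unfold cyc at ha hh ⊢; grind
  have e0 : T D x p q r .W (G.u p) (G.u q) (G.v (x p)) (G.v (x q)) *
      T D x p q r .P (G.u r) (G.u p) (G.v (x r)) (G.v (x q)) =
      T D x p q r .P (G.u r) (G.u p) (G.v (x r)) (G.v (x p)) *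
      T D x p q r .V (G.u r) (G.u q) (G.v (x p)) (G.v (x q)) := by
    refine pair D hu hv x p q r ?_ ?_ ?_ ?_
    · clear * - hc hh ha
      intro s t s1 s2 s3 t1 t2 t3
      unfold cyc at *; grind (splits := 20)
    · clear * - hp hc hh ha
      intro t t1
      simp only [← hp, memK, ico, ioc]
      unfold cyc at *; grind (splits := 20)
    · clear * - hp hc hh ha
      intro t t1
      simp only [← hp, memL, ico, ioc]
      unfold cyc at *; grind (splits := 20)
    · clear * - hp hc hh ha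
      intro s t
      simp only [memO, ico]
      unfold cyc at *; grind (splits := 20)
  have e1 : T D x p q r .W (G.u q) (G.u r) (G.v (x q)) (G.v (x r)) *
      T D x p q r .P (G.u q) (G.u p) (G.v (x r)) (G.v (x p)) =
      T D x p q r .P (G.u r) (G.u p) (G.v (x r)) (G.v (x p)) *
      T D x p q r .V (G.u q) (G.u r) (G.v (x q)) (G.v (x p)) := by
    refine pair D hu hv x p q r ?_ ?_ ?_ ?_
    · clear * - hc hh ha
      intro s t s1 s2 s3 t1 t2 t3
      unfold cyc at *; grind (splits := 20)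
    · clear * - hp hc hh ha
      intro t t1
      simp only [← hp, memK, ico, ioc]
      unfold cyc at *; grind (splits := 20)
    · clear * - hp hc hh ha
      intro t t1
      simp only [← hp, memL, ico, ioc]
      unfold cyc at *; grind (splits := 20)
    · clear * - hp hc hh ha
      intro s t
      simp only [memO, ico]
      unfold cyc at *; grind (splits := 20)
  simp only [c0, c1, c2, c3, c4, c5, c6, c7, c8, c9, c10, c11, c12, c13, c14, c15, c16, c17, and_self, and_true, true_and, and_false, false_and,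
    if_true, if_false, mul_zero, zero_mul, add_zero, zero_add]
  linear_combination e0 + e1 + (T D x p q r .P (G.u r) (G.u p) (G.v (x r)) (G.v (x p)) *
      T D x p q r .V (G.u r) (G.u q) (G.v (x p)) (G.v (x q)) + T D x p q r .P (G.u r) (G.u p) (G.v (x r)) (G.v (x p)) *
      T D x p q r .V (G.u q) (G.u r) (G.v (x q)) (G.v (x p))) * h2

theorem case_pqr_pqar (D : PD G) (h2 : (2 : R) = 0) (hu : Injective G.u) (hv : Injective G.v)
    (x : Perm ι) (p q r : ι) (hp : p = D.i0) (hc : cyc (G.u p) (G.u q) (G.u r))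
    (hh : cyc (G.v (x p)) (G.v (x q)) (G.v (x r)))
    (ha : cyc (G.v (x q)) (D.a) (G.v (x r))) :
    ((if cyc (G.v (x p)) D.a (G.v (x q)) then (if cyc (G.u p) (G.u r) (G.u q) ∧ cyc (G.v (x p)) (G.v (x r)) (G.v (x q)) then 0
      else T D x p q r .P (G.u p) (G.u q) (G.v (x p)) (G.v (x q))) else 0) +
      (if cyc (G.v (x q)) D.a (G.v (x p)) then (if cyc (G.u q) (G.u r) (G.u p) ∧ cyc (G.v (x q)) (G.v (x r)) (G.v (x p)) then 0
      else T D x p q r .P (G.u q) (G.u p) (G.v (x q)) (G.v (x p))) else 0)) *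
    ((if cyc (G.u p) (G.u q) (G.u r) ∧ cyc (G.v (x q)) (G.v (x p)) (G.v (x r)) then 0
      else T D x p q r .V (G.u p) (G.u r) (G.v (x q)) (G.v (x r))) +
      (if cyc (G.u r) (G.u q) (G.u p) ∧ cyc (G.v (x r)) (G.v (x p)) (G.v (x q)) then 0
      else T D x p q r .V (G.u r) (G.u p) (G.v (x r)) (G.v (x q)))) +
    ((if cyc (G.u p) (G.u r) (G.u q) ∧ cyc (G.v (x p)) (G.v (x r)) (G.v (x q)) then 0
      else T D x p q r .W (G.u p) (G.u q) (G.v (x p)) (G.v (x q))) +
      (if cyc (G.u q) (G.u r) (G.u p) ∧ cyc (G.v (x q)) (G.v (x r)) (G.v (x p)) then 0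
      else T D x p q r .W (G.u q) (G.u p) (G.v (x q)) (G.v (x p)))) *
    ((if cyc (G.v (x q)) D.a (G.v (x r)) then (if cyc (G.u p) (G.u q) (G.u r) ∧ cyc (G.v (x q)) (G.v (x p)) (G.v (x r)) then 0
      else T D x p q r .P (G.u p) (G.u r) (G.v (x q)) (G.v (x r))) else 0) +
      (if cyc (G.v (x r)) D.a (G.v (x q)) then (if cyc (G.u r) (G.u q) (G.u p) ∧ cyc (G.v (x r)) (G.v (x p)) (G.v (x q)) then 0
      else T D x p q r .P (G.u r) (G.u p) (G.v (x r)) (G.v (x q))) else 0)) +
    ((if cyc (G.u q) (G.u p) (G.u r) ∧ cyc (G.v (x q)) (G.v (x p)) (G.v (x r)) then 0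
      else T D x p q r .W (G.u q) (G.u r) (G.v (x q)) (G.v (x r))) +
      (if cyc (G.u r) (G.u p) (G.u q) ∧ cyc (G.v (x r)) (G.v (x p)) (G.v (x q)) then 0
      else T D x p q r .W (G.u r) (G.u q) (G.v (x r)) (G.v (x q)))) *
    ((if cyc (G.v (x r)) D.a (G.v (x p)) then (if cyc (G.u q) (G.u r) (G.u p) ∧ cyc (G.v (x r)) (G.v (x q)) (G.v (x p)) then 0
      else T D x p q r .P (G.u q) (G.u p) (G.v (x r)) (G.v (x p))) else 0) +
      (if cyc (G.v (x p)) D.a (G.v (x r)) then (if cyc (G.u p) (G.u r) (G.u q) ∧ cyc (G.v (x p)) (G.v (x q)) (G.v (x r)) then 0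
      else T D x p q r .P (G.u p) (G.u q) (G.v (x p)) (G.v (x r))) else 0)) +
    ((if cyc (G.v (x r)) D.a (G.v (x p)) then (if cyc (G.u r) (G.u q) (G.u p) ∧ cyc (G.v (x r)) (G.v (x q)) (G.v (x p)) then 0
      else T D x p q r .P (G.u r) (G.u p) (G.v (x r)) (G.v (x p))) else 0) +
      (if cyc (G.v (x p)) D.a (G.v (x r)) then (if cyc (G.u p) (G.u q) (G.u r) ∧ cyc (G.v (x p)) (G.v (x q)) (G.v (x r)) then 0
      else T D x p q r .P (G.u p) (G.u r) (G.v (x p)) (G.v (x r))) else 0)) *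
    ((if cyc (G.u r) (G.u p) (G.u q) ∧ cyc (G.v (x p)) (G.v (x r)) (G.v (x q)) then 0
      else T D x p q r .V (G.u r) (G.u q) (G.v (x p)) (G.v (x q))) +
      (if cyc (G.u q) (G.u p) (G.u r) ∧ cyc (G.v (x q)) (G.v (x r)) (G.v (x p)) then 0
      else T D x p q r .V (G.u q) (G.u r) (G.v (x q)) (G.v (x p)))) = 0 := by
  have c0 : cyc (G.u p) (G.u q) (G.u r) := by
    clear ha hh
    unfold cyc at *; grind (splits := 20)
  have c1 : ¬ cyc (G.u p) (G.u r) (G.u q) := by
    clear ha hh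
    unfold cyc at *; grind (splits := 20)
  have c2 : ¬ cyc (G.u q) (G.u p) (G.u r) := by
    clear ha hh
    unfold cyc at *; grind (splits := 20)
  have c3 : cyc (G.u q) (G.u r) (G.u p) := by
    clear ha hh
    unfold cyc at *; grind (splits := 20)
  have c4 : cyc (G.u r) (G.u p) (G.u q) := by
    clear ha hh
    unfold cyc at *; grind (splits := 20)
  have c5 : ¬ cyc (G.u r) (G.u q) (G.u p) := by
    clear ha hh
    unfold cyc at *; grind (splits := 20)
  have c6 : cyc (G.v (x p)) (G.v (x q)) (G.v (x r)) := by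
    clear ha hc
    unfold cyc at *; grind (splits := 20)
  have c7 : ¬ cyc (G.v (x p)) (G.v (x r)) (G.v (x q)) := by
    clear ha hc
    unfold cyc at *; grind (splits := 20)
  have c8 : ¬ cyc (G.v (x q)) (G.v (x p)) (G.v (x r)) := by
    clear ha hc
    unfold cyc at *; grind (splits := 20)
  have c9 : cyc (G.v (x q)) (G.v (x r)) (G.v (x p)) := by
    clear ha hc
    unfold cyc at *; grind (splits := 20)
  have c10 : cyc (G.v (x r)) (G.v (x p)) (G.v (x q)) := by
    clear ha hc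
    unfold cyc at *; grind (splits := 20)
  have c11 : ¬ cyc (G.v (x r)) (G.v (x q)) (G.v (x p)) := by
    clear ha hc
    unfold cyc at *; grind (splits := 20)
  have c12 : ¬ cyc (G.v (x p)) (D.a) (G.v (x q)) := by
    unfold cyc at ha hh ⊢; grind
  have c13 : cyc (G.v (x p)) (D.a) (G.v (x r)) := by
    unfold cyc at ha hh ⊢; grind
  have c14 : cyc (G.v (x q)) (D.a) (G.v (x p)) := by
    unfold cyc at ha hh ⊢; grind
  have c15 : cyc (G.v (x q)) (D.a) (G.v (x r)) := by
    unfold cyc at ha hh ⊢; grind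
  have c16 : ¬ cyc (G.v (x r)) (D.a) (G.v (x p)) := by
    unfold cyc at ha hh ⊢; grind
  have c17 : ¬ cyc (G.v (x r)) (D.a) (G.v (x q)) := by
    unfold cyc at ha hh ⊢; grind
  have e0 : T D x p q r .W (G.u p) (G.u q) (G.v (x p)) (G.v (x q)) *
      T D x p q r .P (G.u p) (G.u r) (G.v (x q)) (G.v (x r)) =
      T D x p q r .W (G.u q) (G.u r) (G.v (x q)) (G.v (x r)) *
      T D x p q r .P (G.u p) (G.u q) (G.v (x p)) (G.v (x r)) := by
    refine pair D hu hv x p q r ?_ ?_ ?_ ?_
    · clear * - hc hh ha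
      intro s t s1 s2 s3 t1 t2 t3
      unfold cyc at *; grind (splits := 20)
    · clear * - hp hc hh ha
      intro t t1
      simp only [← hp, memK, ico, ioc]
      unfold cyc at *; grind (splits := 20)
    · clear * - hp hc hh ha
      intro t t1
      simp only [← hp, memL, ico, ioc]
      unfold cyc at *; grind (splits := 20)
    · clear * - hp hc hh ha
      intro s t
      simp only [memO, ico]
      unfold cyc at *; grind (splits := 20)
  simp only [c0, c1, c2, c3, c4, c5, c6, c7, c8, c9, c10, c11, c12, c13, c14, c15, c16, c17, and_self, and_true, true_and, and_false, false_and,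
    if_true, if_false, mul_zero, zero_mul, add_zero, zero_add]
  linear_combination e0 + (T D x p q r .W (G.u q) (G.u r) (G.v (x q)) (G.v (x r)) *
      T D x p q r .P (G.u p) (G.u q) (G.v (x p)) (G.v (x r))) * h2

theorem case_pqr_prqa (D : PD G) (h2 : (2 : R) = 0) (hu : Injective G.u) (hv : Injective G.v)
    (x : Perm ι) (p q r : ι) (hp : p = D.i0) (hc : cyc (G.u p) (G.u q) (G.u r))
    (hh : cyc (G.v (x p)) (G.v (x r)) (G.v (x q)))
    (ha : cyc (G.v (x q)) (D.a) (G.v (x p))) :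
    ((if cyc (G.v (x p)) D.a (G.v (x q)) then (if cyc (G.u p) (G.u r) (G.u q) ∧ cyc (G.v (x p)) (G.v (x r)) (G.v (x q)) then 0
      else T D x p q r .P (G.u p) (G.u q) (G.v (x p)) (G.v (x q))) else 0) +
      (if cyc (G.v (x q)) D.a (G.v (x p)) then (if cyc (G.u q) (G.u r) (G.u p) ∧ cyc (G.v (x q)) (G.v (x r)) (G.v (x p)) then 0
      else T D x p q r .P (G.u q) (G.u p) (G.v (x q)) (G.v (x p))) else 0)) *
    ((if cyc (G.u p) (G.u q) (G.u r) ∧ cyc (G.v (x q)) (G.v (x p)) (G.v (x r)) then 0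
      else T D x p q r .V (G.u p) (G.u r) (G.v (x q)) (G.v (x r))) +
      (if cyc (G.u r) (G.u q) (G.u p) ∧ cyc (G.v (x r)) (G.v (x p)) (G.v (x q)) then 0
      else T D x p q r .V (G.u r) (G.u p) (G.v (x r)) (G.v (x q)))) +
    ((if cyc (G.u p) (G.u r) (G.u q) ∧ cyc (G.v (x p)) (G.v (x r)) (G.v (x q)) then 0
      else T D x p q r .W (G.u p) (G.u q) (G.v (x p)) (G.v (x q))) +
      (if cyc (G.u q) (G.u r) (G.u p) ∧ cyc (G.v (x q)) (G.v (x r)) (G.v (x p)) then 0
      else T D x p q r .W (G.u q) (G.u p) (G.v (x q)) (G.v (x p)))) *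
    ((if cyc (G.v (x q)) D.a (G.v (x r)) then (if cyc (G.u p) (G.u q) (G.u r) ∧ cyc (G.v (x q)) (G.v (x p)) (G.v (x r)) then 0
      else T D x p q r .P (G.u p) (G.u r) (G.v (x q)) (G.v (x r))) else 0) +
      (if cyc (G.v (x r)) D.a (G.v (x q)) then (if cyc (G.u r) (G.u q) (G.u p) ∧ cyc (G.v (x r)) (G.v (x p)) (G.v (x q)) then 0
      else T D x p q r .P (G.u r) (G.u p) (G.v (x r)) (G.v (x q))) else 0)) +
    ((if cyc (G.u q) (G.u p) (G.u r) ∧ cyc (G.v (x q)) (G.v (x p)) (G.v (x r)) then 0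
      else T D x p q r .W (G.u q) (G.u r) (G.v (x q)) (G.v (x r))) +
      (if cyc (G.u r) (G.u p) (G.u q) ∧ cyc (G.v (x r)) (G.v (x p)) (G.v (x q)) then 0
      else T D x p q r .W (G.u r) (G.u q) (G.v (x r)) (G.v (x q)))) *
    ((if cyc (G.v (x r)) D.a (G.v (x p)) then (if cyc (G.u q) (G.u r) (G.u p) ∧ cyc (G.v (x r)) (G.v (x q)) (G.v (x p)) then 0
      else T D x p q r .P (G.u q) (G.u p) (G.v (x r)) (G.v (x p))) else 0) +
      (if cyc (G.v (x p)) D.a (G.v (x r)) then (if cyc (G.u p) (G.u r) (G.u q) ∧ cyc (G.v (x p)) (G.v (x q)) (G.v (x r)) then 0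
      else T D x p q r .P (G.u p) (G.u q) (G.v (x p)) (G.v (x r))) else 0)) +
    ((if cyc (G.v (x r)) D.a (G.v (x p)) then (if cyc (G.u r) (G.u q) (G.u p) ∧ cyc (G.v (x r)) (G.v (x q)) (G.v (x p)) then 0
      else T D x p q r .P (G.u r) (G.u p) (G.v (x r)) (G.v (x p))) else 0) +
      (if cyc (G.v (x p)) D.a (G.v (x r)) then (if cyc (G.u p) (G.u q) (G.u r) ∧ cyc (G.v (x p)) (G.v (x q)) (G.v (x r)) then 0
      else T D x p q r .P (G.u p) (G.u r) (G.v (x p)) (G.v (x r))) else 0)) *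
    ((if cyc (G.u r) (G.u p) (G.u q) ∧ cyc (G.v (x p)) (G.v (x r)) (G.v (x q)) then 0
      else T D x p q r .V (G.u r) (G.u q) (G.v (x p)) (G.v (x q))) +
      (if cyc (G.u q) (G.u p) (G.u r) ∧ cyc (G.v (x q)) (G.v (x r)) (G.v (x p)) then 0
      else T D x p q r .V (G.u q) (G.u r) (G.v (x q)) (G.v (x p)))) = 0 := by
  have c0 : cyc (G.u p) (G.u q) (G.u r) := by
    clear ha hh
    unfold cyc at *; grind (splits := 20)
  have c1 : ¬ cyc (G.u p) (G.u r) (G.u q) := by
    clear ha hh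
    unfold cyc at *; grind (splits := 20)
  have c2 : ¬ cyc (G.u q) (G.u p) (G.u r) := by
    clear ha hh
    unfold cyc at *; grind (splits := 20)
  have c3 : cyc (G.u q) (G.u r) (G.u p) := by
    clear ha hh
    unfold cyc at *; grind (splits := 20)
  have c4 : cyc (G.u r) (G.u p) (G.u q) := by
    clear ha hh
    unfold cyc at *; grind (splits := 20)
  have c5 : ¬ cyc (G.u r) (G.u q) (G.u p) := by
    clear ha hh
    unfold cyc at *; grind (splits := 20)
  have c6 : ¬ cyc (G.v (x p)) (G.v (x q)) (G.v (x r)) := by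
    clear ha hc
    unfold cyc at *; grind (splits := 20)
  have c7 : cyc (G.v (x p)) (G.v (x r)) (G.v (x q)) := by
    clear ha hc
    unfold cyc at *; grind (splits := 20)
  have c8 : cyc (G.v (x q)) (G.v (x p)) (G.v (x r)) := by
    clear ha hc
    unfold cyc at *; grind (splits := 20)
  have c9 : ¬ cyc (G.v (x q)) (G.v (x r)) (G.v (x p)) := by
    clear ha hc
    unfold cyc at *; grind (splits := 20)
  have c10 : ¬ cyc (G.v (x r)) (G.v (x p)) (G.v (x q)) := by
    clear ha hc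
    unfold cyc at *; grind (splits := 20)
  have c11 : cyc (G.v (x r)) (G.v (x q)) (G.v (x p)) := by
    clear ha hc
    unfold cyc at *; grind (splits := 20)
  have c12 : ¬ cyc (G.v (x p)) (D.a) (G.v (x q)) := by
    unfold cyc at ha hh ⊢; grind
  have c13 : ¬ cyc (G.v (x p)) (D.a) (G.v (x r)) := by
    unfold cyc at ha hh ⊢; grind
  have c14 : cyc (G.v (x q)) (D.a) (G.v (x p)) := by
    unfold cyc at ha hh ⊢; grind
  have c15 : cyc (G.v (x q)) (D.a) (G.v (x r)) := by
    unfold cyc at ha hh ⊢; grind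
  have c16 : cyc (G.v (x r)) (D.a) (G.v (x p)) := by
    unfold cyc at ha hh ⊢; grind
  have c17 : ¬ cyc (G.v (x r)) (D.a) (G.v (x q)) := by
    unfold cyc at ha hh ⊢; grind
  have e0 : T D x p q r .P (G.u q) (G.u p) (G.v (x q)) (G.v (x p)) *
      T D x p q r .V (G.u r) (G.u p) (G.v (x r)) (G.v (x q)) =
      T D x p q r .P (G.u r) (G.u p) (G.v (x r)) (G.v (x p)) *
      T D x p q r .V (G.u q) (G.u r) (G.v (x q)) (G.v (x p)) := by
    refine pair D hu hv x p q r ?_ ?_ ?_ ?_
    · clear * - hc hh ha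
      intro s t s1 s2 s3 t1 t2 t3
      unfold cyc at *; grind (splits := 20)
    · clear * - hp hc hh ha
      intro t t1
      simp only [← hp, memK, ico, ioc]
      unfold cyc at *; grind (splits := 20)
    · clear * - hp hc hh ha
      intro t t1
      simp only [← hp, memL, ico, ioc]
      unfold cyc at *; grind (splits := 20)
    · clear * - hp hc hh ha
      intro s t
      simp only [memO, ico]
      unfold cyc at *; grind (splits := 20)
  simp only [c0, c1, c2, c3, c4, c5, c6, c7, c8, c9, c10, c11, c12, c13, c14, c15, c16, c17, and_self, and_true, true_and, and_false, false_and,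
    if_true, if_false, mul_zero, zero_mul, add_zero, zero_add]
  linear_combination e0 + (T D x p q r .P (G.u r) (G.u p) (G.v (x r)) (G.v (x p)) *
      T D x p q r .V (G.u q) (G.u r) (G.v (x q)) (G.v (x p))) * h2

theorem case_pqr_praq (D : PD G) (h2 : (2 : R) = 0) (hu : Injective G.u) (hv : Injective G.v)
    (x : Perm ι) (p q r : ι) (hp : p = D.i0) (hc : cyc (G.u p) (G.u q) (G.u r))
    (hh : cyc (G.v (x p)) (G.v (x r)) (G.v (x q)))
    (ha : cyc (G.v (x r)) (D.a) (G.v (x q))) :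
    ((if cyc (G.v (x p)) D.a (G.v (x q)) then (if cyc (G.u p) (G.u r) (G.u q) ∧ cyc (G.v (x p)) (G.v (x r)) (G.v (x q)) then 0
      else T D x p q r .P (G.u p) (G.u q) (G.v (x p)) (G.v (x q))) else 0) +
      (if cyc (G.v (x q)) D.a (G.v (x p)) then (if cyc (G.u q) (G.u r) (G.u p) ∧ cyc (G.v (x q)) (G.v (x r)) (G.v (x p)) then 0
      else T D x p q r .P (G.u q) (G.u p) (G.v (x q)) (G.v (x p))) else 0)) *
    ((if cyc (G.u p) (G.u q) (G.u r) ∧ cyc (G.v (x q)) (G.v (x p)) (G.v (x r)) then 0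
      else T D x p q r .V (G.u p) (G.u r) (G.v (x q)) (G.v (x r))) +
      (if cyc (G.u r) (G.u q) (G.u p) ∧ cyc (G.v (x r)) (G.v (x p)) (G.v (x q)) then 0
      else T D x p q r .V (G.u r) (G.u p) (G.v (x r)) (G.v (x q)))) +
    ((if cyc (G.u p) (G.u r) (G.u q) ∧ cyc (G.v (x p)) (G.v (x r)) (G.v (x q)) then 0
      else T D x p q r .W (G.u p) (G.u q) (G.v (x p)) (G.v (x q))) +
      (if cyc (G.u q) (G.u r) (G.u p) ∧ cyc (G.v (x q)) (G.v (x r)) (G.v (x p)) then 0
      else T D x p q r .W (G.u q) (G.u p) (G.v (x q)) (G.v (x p)))) *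
    ((if cyc (G.v (x q)) D.a (G.v (x r)) then (if cyc (G.u p) (G.u q) (G.u r) ∧ cyc (G.v (x q)) (G.v (x p)) (G.v (x r)) then 0
      else T D x p q r .P (G.u p) (G.u r) (G.v (x q)) (G.v (x r))) else 0) +
      (if cyc (G.v (x r)) D.a (G.v (x q)) then (if cyc (G.u r) (G.u q) (G.u p) ∧ cyc (G.v (x r)) (G.v (x p)) (G.v (x q)) then 0
      else T D x p q r .P (G.u r) (G.u p) (G.v (x r)) (G.v (x q))) else 0)) +
    ((if cyc (G.u q) (G.u p) (G.u r) ∧ cyc (G.v (x q)) (G.v (x p)) (G.v (x r)) then 0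
      else T D x p q r .W (G.u q) (G.u r) (G.v (x q)) (G.v (x r))) +
      (if cyc (G.u r) (G.u p) (G.u q) ∧ cyc (G.v (x r)) (G.v (x p)) (G.v (x q)) then 0
      else T D x p q r .W (G.u r) (G.u q) (G.v (x r)) (G.v (x q)))) *
    ((if cyc (G.v (x r)) D.a (G.v (x p)) then (if cyc (G.u q) (G.u r) (G.u p) ∧ cyc (G.v (x r)) (G.v (x q)) (G.v (x p)) then 0
      else T D x p q r .P (G.u q) (G.u p) (G.v (x r)) (G.v (x p))) else 0) +
      (if cyc (G.v (x p)) D.a (G.v (x r)) then (if cyc (G.u p) (G.u r) (G.u q) ∧ cyc (G.v (x p)) (G.v (x q)) (G.v (x r)) then 0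
      else T D x p q r .P (G.u p) (G.u q) (G.v (x p)) (G.v (x r))) else 0)) +
    ((if cyc (G.v (x r)) D.a (G.v (x p)) then (if cyc (G.u r) (G.u q) (G.u p) ∧ cyc (G.v (x r)) (G.v (x q)) (G.v (x p)) then 0
      else T D x p q r .P (G.u r) (G.u p) (G.v (x r)) (G.v (x p))) else 0) +
      (if cyc (G.v (x p)) D.a (G.v (x r)) then (if cyc (G.u p) (G.u q) (G.u r) ∧ cyc (G.v (x p)) (G.v (x q)) (G.v (x r)) then 0
      else T D x p q r .P (G.u p) (G.u r) (G.v (x p)) (G.v (x r))) else 0)) *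
    ((if cyc (G.u r) (G.u p) (G.u q) ∧ cyc (G.v (x p)) (G.v (x r)) (G.v (x q)) then 0
      else T D x p q r .V (G.u r) (G.u q) (G.v (x p)) (G.v (x q))) +
      (if cyc (G.u q) (G.u p) (G.u r) ∧ cyc (G.v (x q)) (G.v (x r)) (G.v (x p)) then 0
      else T D x p q r .V (G.u q) (G.u r) (G.v (x q)) (G.v (x p)))) = 0 := by
  have c0 : cyc (G.u p) (G.u q) (G.u r) := by
    clear ha hh
    unfold cyc at *; grind (splits := 20)
  have c1 : ¬ cyc (G.u p) (G.u r) (G.u q) := by
    clear ha hh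
    unfold cyc at *; grind (splits := 20)
  have c2 : ¬ cyc (G.u q) (G.u p) (G.u r) := by
    clear ha hh
    unfold cyc at *; grind (splits := 20)
  have c3 : cyc (G.u q) (G.u r) (G.u p) := by
    clear ha hh
    unfold cyc at *; grind (splits := 20)
  have c4 : cyc (G.u r) (G.u p) (G.u q) := by
    clear ha hh
    unfold cyc at *; grind (splits := 20)
  have c5 : ¬ cyc (G.u r) (G.u q) (G.u p) := by
    clear ha hh
    unfold cyc at *; grind (splits := 20)
  have c6 : ¬ cyc (G.v (x p)) (G.v (x q)) (G.v (x r)) := by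
    clear ha hc
    unfold cyc at *; grind (splits := 20)
  have c7 : cyc (G.v (x p)) (G.v (x r)) (G.v (x q)) := by
    clear ha hc
    unfold cyc at *; grind (splits := 20)
  have c8 : cyc (G.v (x q)) (G.v (x p)) (G.v (x r)) := by
    clear ha hc
    unfold cyc at *; grind (splits := 20)
  have c9 : ¬ cyc (G.v (x q)) (G.v (x r)) (G.v (x p)) := by
    clear ha hc
    unfold cyc at *; grind (splits := 20)
  have c10 : ¬ cyc (G.v (x r)) (G.v (x p)) (G.v (x q)) := by
    clear ha hc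
    unfold cyc at *; grind (splits := 20)
  have c11 : cyc (G.v (x r)) (G.v (x q)) (G.v (x p)) := by
    clear ha hc
    unfold cyc at *; grind (splits := 20)
  have c12 : cyc (G.v (x p)) (D.a) (G.v (x q)) := by
    unfold cyc at ha hh ⊢; grind
  have c13 : ¬ cyc (G.v (x p)) (D.a) (G.v (x r)) := by
    unfold cyc at ha hh ⊢; grind
  have c14 : ¬ cyc (G.v (x q)) (D.a) (G.v (x p)) := by
    unfold cyc at ha hh ⊢; grind
  have c15 : ¬ cyc (G.v (x q)) (D.a) (G.v (x r)) := by
    unfold cyc at ha hh ⊢; grind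
  have c16 : cyc (G.v (x r)) (D.a) (G.v (x p)) := by
    unfold cyc at ha hh ⊢; grind
  have c17 : cyc (G.v (x r)) (D.a) (G.v (x q)) := by
    unfold cyc at ha hh ⊢; grind
  have e0 : T D x p q r .P (G.u p) (G.u q) (G.v (x p)) (G.v (x q)) *
      T D x p q r .V (G.u r) (G.u p) (G.v (x r)) (G.v (x q)) =
      T D x p q r .W (G.u p) (G.u q) (G.v (x p)) (G.v (x q)) *
      T D x p q r .P (G.u r) (G.u p) (G.v (x r)) (G.v (x q)) := by
    refine pair D hu hv x p q r ?_ ?_ ?_ ?_
    · clear * - hc hh ha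
      intro s t s1 s2 s3 t1 t2 t3
      unfold cyc at *; grind (splits := 20)
    · clear * - hp hc hh ha
      intro t t1
      simp only [← hp, memK, ico, ioc]
      unfold cyc at *; grind (splits := 20)
    · clear * - hp hc hh ha
      intro t t1
      simp only [← hp, memL, ico, ioc]
      unfold cyc at *; grind (splits := 20)
    · clear * - hp hc hh ha
      intro s t
      simp only [memO, ico]
      unfold cyc at *; grind (splits := 20)
  have e1 : T D x p q r .W (G.u q) (G.u p) (G.v (x q)) (G.v (x p)) *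
      T D x p q r .P (G.u r) (G.u p) (G.v (x r)) (G.v (x q)) =
      T D x p q r .P (G.u r) (G.u p) (G.v (x r)) (G.v (x p)) *
      T D x p q r .V (G.u q) (G.u r) (G.v (x q)) (G.v (x p)) := by
    refine pair D hu hv x p q r ?_ ?_ ?_ ?_
    · clear * - hc hh ha
      intro s t s1 s2 s3 t1 t2 t3
      unfold cyc at *; grind (splits := 20)
    · clear * - hp hc hh ha
      intro t t1
      simp only [← hp, memK, ico, ioc]
      unfold cyc at *; grind (splits := 20)
    · clear * - hp hc hh ha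
      intro t t1
      simp only [← hp, memL, ico, ioc]
      unfold cyc at *; grind (splits := 20)
    · clear * - hp hc hh ha
      intro s t
      simp only [memO, ico]
      unfold cyc at *; grind (splits := 20)
  simp only [c0, c1, c2, c3, c4, c5, c6, c7, c8, c9, c10, c11, c12, c13, c14, c15, c16, c17, and_self, and_true, true_and, and_false, false_and,
    if_true, if_false, mul_zero, zero_mul, add_zero, zero_add]
  linear_combination e0 + e1 + (T D x p q r .W (G.u p) (G.u q) (G.v (x p)) (G.v (x q)) *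
      T D x p q r .P (G.u r) (G.u p) (G.v (x r)) (G.v (x q)) + T D x p q r .P (G.u r) (G.u p) (G.v (x r)) (G.v (x p)) *
      T D x p q r .V (G.u q) (G.u r) (G.v (x q)) (G.v (x p))) * h2

theorem case_pqr_paqr (D : PD G) (h2 : (2 : R) = 0) (hu : Injective G.u) (hv : Injective G.v)
    (x : Perm ι) (p q r : ι) (hp : p = D.i0) (hc : cyc (G.u p) (G.u q) (G.u r))
    (hh : cyc (G.v (x p)) (G.v (x q)) (G.v (x r)))
    (ha : cyc (G.v (x p)) (D.a) (G.v (x q))) :
    ((if cyc (G.v (x p)) D.a (G.v (x q)) then (if cyc (G.u p) (G.u r) (G.u q) ∧ cyc (G.v (x p)) (G.v (x r)) (G.v (x q)) then 0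
      else T D x p q r .P (G.u p) (G.u q) (G.v (x p)) (G.v (x q))) else 0) +
      (if cyc (G.v (x q)) D.a (G.v (x p)) then (if cyc (G.u q) (G.u r) (G.u p) ∧ cyc (G.v (x q)) (G.v (x r)) (G.v (x p)) then 0
      else T D x p q r .P (G.u q) (G.u p) (G.v (x q)) (G.v (x p))) else 0)) *
    ((if cyc (G.u p) (G.u q) (G.u r) ∧ cyc (G.v (x q)) (G.v (x p)) (G.v (x r)) then 0
      else T D x p q r .V (G.u p) (G.u r) (G.v (x q)) (G.v (x r))) +
      (if cyc (G.u r) (G.u q) (G.u p) ∧ cyc (G.v (x r)) (G.v (x p)) (G.v (x q)) then 0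
      else T D x p q r .V (G.u r) (G.u p) (G.v (x r)) (G.v (x q)))) +
    ((if cyc (G.u p) (G.u r) (G.u q) ∧ cyc (G.v (x p)) (G.v (x r)) (G.v (x q)) then 0
      else T D x p q r .W (G.u p) (G.u q) (G.v (x p)) (G.v (x q))) +
      (if cyc (G.u q) (G.u r) (G.u p) ∧ cyc (G.v (x q)) (G.v (x r)) (G.v (x p)) then 0
      else T D x p q r .W (G.u q) (G.u p) (G.v (x q)) (G.v (x p)))) *
    ((if cyc (G.v (x q)) D.a (G.v (x r)) then (if cyc (G.u p) (G.u q) (G.u r) ∧ cyc (G.v (x q)) (G.v (x p)) (G.v (x r)) then 0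
      else T D x p q r .P (G.u p) (G.u r) (G.v (x q)) (G.v (x r))) else 0) +
      (if cyc (G.v (x r)) D.a (G.v (x q)) then (if cyc (G.u r) (G.u q) (G.u p) ∧ cyc (G.v (x r)) (G.v (x p)) (G.v (x q)) then 0
      else T D x p q r .P (G.u r) (G.u p) (G.v (x r)) (G.v (x q))) else 0)) +
    ((if cyc (G.u q) (G.u p) (G.u r) ∧ cyc (G.v (x q)) (G.v (x p)) (G.v (x r)) then 0
      else T D x p q r .W (G.u q) (G.u r) (G.v (x q)) (G.v (x r))) +
      (if cyc (G.u r) (G.u p) (G.u q) ∧ cyc (G.v (x r)) (G.v (x p)) (G.v (x q)) then 0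
      else T D x p q r .W (G.u r) (G.u q) (G.v (x r)) (G.v (x q)))) *
    ((if cyc (G.v (x r)) D.a (G.v (x p)) then (if cyc (G.u q) (G.u r) (G.u p) ∧ cyc (G.v (x r)) (G.v (x q)) (G.v (x p)) then 0
      else T D x p q r .P (G.u q) (G.u p) (G.v (x r)) (G.v (x p))) else 0) +
      (if cyc (G.v (x p)) D.a (G.v (x r)) then (if cyc (G.u p) (G.u r) (G.u q) ∧ cyc (G.v (x p)) (G.v (x q)) (G.v (x r)) then 0
      else T D x p q r .P (G.u p) (G.u q) (G.v (x p)) (G.v (x r))) else 0)) +
    ((if cyc (G.v (x r)) D.a (G.v (x p)) then (if cyc (G.u r) (G.u q) (G.u p) ∧ cyc (G.v (x r)) (G.v (x q)) (G.v (x p)) then 0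
      else T D x p q r .P (G.u r) (G.u p) (G.v (x r)) (G.v (x p))) else 0) +
      (if cyc (G.v (x p)) D.a (G.v (x r)) then (if cyc (G.u p) (G.u q) (G.u r) ∧ cyc (G.v (x p)) (G.v (x q)) (G.v (x r)) then 0
      else T D x p q r .P (G.u p) (G.u r) (G.v (x p)) (G.v (x r))) else 0)) *
    ((if cyc (G.u r) (G.u p) (G.u q) ∧ cyc (G.v (x p)) (G.v (x r)) (G.v (x q)) then 0
      else T D x p q r .V (G.u r) (G.u q) (G.v (x p)) (G.v (x q))) +
      (if cyc (G.u q) (G.u p) (G.u r) ∧ cyc (G.v (x q)) (G.v (x r)) (G.v (x p)) then 0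
      else T D x p q r .V (G.u q) (G.u r) (G.v (x q)) (G.v (x p)))) = 0 := by
  have c0 : cyc (G.u p) (G.u q) (G.u r) := by
    clear ha hh
    unfold cyc at *; grind (splits := 20)
  have c1 : ¬ cyc (G.u p) (G.u r) (G.u q) := by
    clear ha hh
    unfold cyc at *; grind (splits := 20)
  have c2 : ¬ cyc (G.u q) (G.u p) (G.u r) := by
    clear ha hh
    unfold cyc at *; grind (splits := 20)
  have c3 : cyc (G.u q) (G.u r) (G.u p) := by
    clear ha hh
    unfold cyc at *; grind (splits := 20)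
  have c4 : cyc (G.u r) (G.u p) (G.u q) := by
    clear ha hh
    unfold cyc at *; grind (splits := 20)
  have c5 : ¬ cyc (G.u r) (G.u q) (G.u p) := by
    clear ha hh
    unfold cyc at *; grind (splits := 20)
  have c6 : cyc (G.v (x p)) (G.v (x q)) (G.v (x r)) := by
    clear ha hc
    unfold cyc at *; grind (splits := 20)
  have c7 : ¬ cyc (G.v (x p)) (G.v (x r)) (G.v (x q)) := by
    clear ha hc
    unfold cyc at *; grind (splits := 20)
  have c8 : ¬ cyc (G.v (x q)) (G.v (x p)) (G.v (x r)) := by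
    clear ha hc
    unfold cyc at *; grind (splits := 20)
  have c9 : cyc (G.v (x q)) (G.v (x r)) (G.v (x p)) := by
    clear ha hc
    unfold cyc at *; grind (splits := 20)
  have c10 : cyc (G.v (x r)) (G.v (x p)) (G.v (x q)) := by
    clear ha hc
    unfold cyc at *; grind (splits := 20)
  have c11 : ¬ cyc (G.v (x r)) (G.v (x q)) (G.v (x p)) := by
    clear ha hc
    unfold cyc at *; grind (splits := 20)
  have c12 : cyc (G.v (x p)) (D.a) (G.v (x q)) := by
    unfold cyc at ha hh ⊢; grind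
  have c13 : cyc (G.v (x p)) (D.a) (G.v (x r)) := by
    unfold cyc at ha hh ⊢; grind
  have c14 : ¬ cyc (G.v (x q)) (D.a) (G.v (x p)) := by
    unfold cyc at ha hh ⊢; grind
  have c15 : ¬ cyc (G.v (x q)) (D.a) (G.v (x r)) := by
    unfold cyc at ha hh ⊢; grind
  have c16 : ¬ cyc (G.v (x r)) (D.a) (G.v (x p)) := by
    unfold cyc at ha hh ⊢; grind
  have c17 : cyc (G.v (x r)) (D.a) (G.v (x q)) := by
    unfold cyc at ha hh ⊢; grind
  have e0 : T D x p q r .P (G.u p) (G.u q) (G.v (x p)) (G.v (x q)) *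
      T D x p q r .V (G.u p) (G.u r) (G.v (x q)) (G.v (x r)) =
      T D x p q r .W (G.u q) (G.u r) (G.v (x q)) (G.v (x r)) *
      T D x p q r .P (G.u p) (G.u q) (G.v (x p)) (G.v (x r)) := by
    refine pair D hu hv x p q r ?_ ?_ ?_ ?_
    · clear * - hc hh ha
      intro s t s1 s2 s3 t1 t2 t3
      unfold cyc at *; grind (splits := 20)
    · clear * - hp hc hh ha
      intro t t1
      simp only [← hp, memK, ico, ioc]
      unfold cyc at *; grind (splits := 20)
    · clear * - hp hc hh ha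
      intro t t1
      simp only [← hp, memL, ico, ioc]
      unfold cyc at *; grind (splits := 20)
    · clear * - hp hc hh ha
      intro s t
      simp only [memO, ico]
      unfold cyc at *; grind (splits := 20)
  have e1 : T D x p q r .P (G.u p) (G.u q) (G.v (x p)) (G.v (x q)) *
      T D x p q r .V (G.u r) (G.u p) (G.v (x r)) (G.v (x q)) =
      T D x p q r .W (G.u p) (G.u q) (G.v (x p)) (G.v (x q)) *
      T D x p q r .P (G.u r) (G.u p) (G.v (x r)) (G.v (x q)) := by
    refine pair D hu hv x p q r ?_ ?_ ?_ ?_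
    · clear * - hc hh ha
      intro s t s1 s2 s3 t1 t2 t3
      unfold cyc at *; grind (splits := 20)
    · clear * - hp hc hh ha
      intro t t1
      simp only [← hp, memK, ico, ioc]
      unfold cyc at *; grind (splits := 20)
    · clear * - hp hc hh ha
      intro t t1
      simp only [← hp, memL, ico, ioc]
      unfold cyc at *; grind (splits := 20)
    · clear * - hp hc hh ha
      intro s t
      simp only [memO, ico]
      unfold cyc at *; grind (splits := 20)
  simp only [c0, c1, c2, c3, c4, c5, c6, c7, c8, c9, c10, c11, c12, c13, c14, c15, c16, c17, and_self, and_true, true_and, and_false, false_and,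
    if_true, if_false, mul_zero, zero_mul, add_zero, zero_add]
  linear_combination e0 + e1 + (T D x p q r .W (G.u q) (G.u r) (G.v (x q)) (G.v (x r)) *
      T D x p q r .P (G.u p) (G.u q) (G.v (x p)) (G.v (x r)) + T D x p q r .W (G.u p) (G.u q) (G.v (x p)) (G.v (x q)) *
      T D x p q r .P (G.u r) (G.u p) (G.v (x r)) (G.v (x q))) * h2

theorem case_pqr_parq (D : PD G) (h2 : (2 : R) = 0) (hu : Injective G.u) (hv : Injective G.v)
    (x : Perm ι) (p q r : ι) (hp : p = D.i0) (hc : cyc (G.u p) (G.u q) (G.u r))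
    (hh : cyc (G.v (x p)) (G.v (x r)) (G.v (x q)))
    (ha : cyc (G.v (x p)) (D.a) (G.v (x r))) :
    ((if cyc (G.v (x p)) D.a (G.v (x q)) then (if cyc (G.u p) (G.u r) (G.u q) ∧ cyc (G.v (x p)) (G.v (x r)) (G.v (x q)) then 0
      else T D x p q r .P (G.u p) (G.u q) (G.v (x p)) (G.v (x q))) else 0) +
      (if cyc (G.v (x q)) D.a (G.v (x p)) then (if cyc (G.u q) (G.u r) (G.u p) ∧ cyc (G.v (x q)) (G.v (x r)) (G.v (x p)) then 0
      else T D x p q r .P (G.u q) (G.u p) (G.v (x q)) (G.v (x p))) else 0)) *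
    ((if cyc (G.u p) (G.u q) (G.u r) ∧ cyc (G.v (x q)) (G.v (x p)) (G.v (x r)) then 0
      else T D x p q r .V (G.u p) (G.u r) (G.v (x q)) (G.v (x r))) +
      (if cyc (G.u r) (G.u q) (G.u p) ∧ cyc (G.v (x r)) (G.v (x p)) (G.v (x q)) then 0
      else T D x p q r .V (G.u r) (G.u p) (G.v (x r)) (G.v (x q)))) +
    ((if cyc (G.u p) (G.u r) (G.u q) ∧ cyc (G.v (x p)) (G.v (x r)) (G.v (x q)) then 0
      else T D x p q r .W (G.u p) (G.u q) (G.v (x p)) (G.v (x q))) +
      (if cyc (G.u q) (G.u r) (G.u p) ∧ cyc (G.v (x q)) (G.v (x r)) (G.v (x p)) then 0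
      else T D x p q r .W (G.u q) (G.u p) (G.v (x q)) (G.v (x p)))) *
    ((if cyc (G.v (x q)) D.a (G.v (x r)) then (if cyc (G.u p) (G.u q) (G.u r) ∧ cyc (G.v (x q)) (G.v (x p)) (G.v (x r)) then 0
      else T D x p q r .P (G.u p) (G.u r) (G.v (x q)) (G.v (x r))) else 0) +
      (if cyc (G.v (x r)) D.a (G.v (x q)) then (if cyc (G.u r) (G.u q) (G.u p) ∧ cyc (G.v (x r)) (G.v (x p)) (G.v (x q)) then 0
      else T D x p q r .P (G.u r) (G.u p) (G.v (x r)) (G.v (x q))) else 0)) +
    ((if cyc (G.u q) (G.u p) (G.u r) ∧ cyc (G.v (x q)) (G.v (x p)) (G.v (x r)) then 0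
      else T D x p q r .W (G.u q) (G.u r) (G.v (x q)) (G.v (x r))) +
      (if cyc (G.u r) (G.u p) (G.u q) ∧ cyc (G.v (x r)) (G.v (x p)) (G.v (x q)) then 0
      else T D x p q r .W (G.u r) (G.u q) (G.v (x r)) (G.v (x q)))) *
    ((if cyc (G.v (x r)) D.a (G.v (x p)) then (if cyc (G.u q) (G.u r) (G.u p) ∧ cyc (G.v (x r)) (G.v (x q)) (G.v (x p)) then 0
      else T D x p q r .P (G.u q) (G.u p) (G.v (x r)) (G.v (x p))) else 0) +
      (if cyc (G.v (x p)) D.a (G.v (x r)) then (if cyc (G.u p) (G.u r) (G.u q) ∧ cyc (G.v (x p)) (G.v (x q)) (G.v (x r)) then 0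
      else T D x p q r .P (G.u p) (G.u q) (G.v (x p)) (G.v (x r))) else 0)) +
    ((if cyc (G.v (x r)) D.a (G.v (x p)) then (if cyc (G.u r) (G.u q) (G.u p) ∧ cyc (G.v (x r)) (G.v (x q)) (G.v (x p)) then 0
      else T D x p q r .P (G.u r) (G.u p) (G.v (x r)) (G.v (x p))) else 0) +
      (if cyc (G.v (x p)) D.a (G.v (x r)) then (if cyc (G.u p) (G.u q) (G.u r) ∧ cyc (G.v (x p)) (G.v (x q)) (G.v (x r)) then 0
      else T D x p q r .P (G.u p) (G.u r) (G.v (x p)) (G.v (x r))) else 0)) *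
    ((if cyc (G.u r) (G.u p) (G.u q) ∧ cyc (G.v (x p)) (G.v (x r)) (G.v (x q)) then 0
      else T D x p q r .V (G.u r) (G.u q) (G.v (x p)) (G.v (x q))) +
      (if cyc (G.u q) (G.u p) (G.u r) ∧ cyc (G.v (x q)) (G.v (x r)) (G.v (x p)) then 0
      else T D x p q r .V (G.u q) (G.u r) (G.v (x q)) (G.v (x p)))) = 0 := by
  have c0 : cyc (G.u p) (G.u q) (G.u r) := by
    clear ha hh
    unfold cyc at *; grind (splits := 20)
  have c1 : ¬ cyc (G.u p) (G.u r) (G.u q) := by
    clear ha hh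
    unfold cyc at *; grind (splits := 20)
  have c2 : ¬ cyc (G.u q) (G.u p) (G.u r) := by
    clear ha hh
    unfold cyc at *; grind (splits := 20)
  have c3 : cyc (G.u q) (G.u r) (G.u p) := by
    clear ha hh
    unfold cyc at *; grind (splits := 20)
  have c4 : cyc (G.u r) (G.u p) (G.u q) := by
    clear ha hh
    unfold cyc at *; grind (splits := 20)
  have c5 : ¬ cyc (G.u r) (G.u q) (G.u p) := by
    clear ha hh
    unfold cyc at *; grind (splits := 20)
  have c6 : ¬ cyc (G.v (x p)) (G.v (x q)) (G.v (x r)) := by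
    clear ha hc
    unfold cyc at *; grind (splits := 20)
  have c7 : cyc (G.v (x p)) (G.v (x r)) (G.v (x q)) := by
    clear ha hc
    unfold cyc at *; grind (splits := 20)
  have c8 : cyc (G.v (x q)) (G.v (x p)) (G.v (x r)) := by
    clear ha hc
    unfold cyc at *; grind (splits := 20)
  have c9 : ¬ cyc (G.v (x q)) (G.v (x r)) (G.v (x p)) := by
    clear ha hc
    unfold cyc at *; grind (splits := 20)
  have c10 : ¬ cyc (G.v (x r)) (G.v (x p)) (G.v (x q)) := by
    clear ha hc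
    unfold cyc at *; grind (splits := 20)
  have c11 : cyc (G.v (x r)) (G.v (x q)) (G.v (x p)) := by
    clear ha hc
    unfold cyc at *; grind (splits := 20)
  have c12 : cyc (G.v (x p)) (D.a) (G.v (x q)) := by
    unfold cyc at ha hh ⊢; grind
  have c13 : cyc (G.v (x p)) (D.a) (G.v (x r)) := by
    unfold cyc at ha hh ⊢; grind
  have c14 : ¬ cyc (G.v (x q)) (D.a) (G.v (x p)) := by
    unfold cyc at ha hh ⊢; grind
  have c15 : cyc (G.v (x q)) (D.a) (G.v (x r)) := by
    unfold cyc at ha hh ⊢; grind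
  have c16 : ¬ cyc (G.v (x r)) (D.a) (G.v (x p)) := by
    unfold cyc at ha hh ⊢; grind
  have c17 : ¬ cyc (G.v (x r)) (D.a) (G.v (x q)) := by
    unfold cyc at ha hh ⊢; grind
  have e0 : T D x p q r .P (G.u p) (G.u q) (G.v (x p)) (G.v (x q)) *
      T D x p q r .V (G.u r) (G.u p) (G.v (x r)) (G.v (x q)) =
      T D x p q r .W (G.u r) (G.u q) (G.v (x r)) (G.v (x q)) *
      T D x p q r .P (G.u p) (G.u q) (G.v (x p)) (G.v (x r)) := by
    refine pair D hu hv x p q r ?_ ?_ ?_ ?_
    · clear * - hc hh ha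
      intro s t s1 s2 s3 t1 t2 t3
      unfold cyc at *; grind (splits := 20)
    · clear * - hp hc hh ha
      intro t t1
      simp only [← hp, memK, ico, ioc]
      unfold cyc at *; grind (splits := 20)
    · clear * - hp hc hh ha
      intro t t1
      simp only [← hp, memL, ico, ioc]
      unfold cyc at *; grind (splits := 20)
    · clear * - hp hc hh ha
      intro s t
      simp only [memO, ico]
      unfold cyc at *; grind (splits := 20)
  have e1 : T D x p q r .W (G.u q) (G.u r) (G.v (x q)) (G.v (x r)) *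
      T D x p q r .P (G.u p) (G.u q) (G.v (x p)) (G.v (x r)) =
      T D x p q r .P (G.u p) (G.u r) (G.v (x p)) (G.v (x r)) *
      T D x p q r .V (G.u q) (G.u r) (G.v (x q)) (G.v (x p)) := by
    refine pair D hu hv x p q r ?_ ?_ ?_ ?_
    · clear * - hc hh ha
      intro s t s1 s2 s3 t1 t2 t3
      unfold cyc at *; grind (splits := 20)
    · clear * - hp hc hh ha
      intro t t1
      simp only [← hp, memK, ico, ioc]
      unfold cyc at *; grind (splits := 20)
    · clear * - hp hc hh ha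
      intro t t1
      simp only [← hp, memL, ico, ioc]
      unfold cyc at *; grind (splits := 20)
    · clear * - hp hc hh ha
      intro s t
      simp only [memO, ico]
      unfold cyc at *; grind (splits := 20)
  simp only [c0, c1, c2, c3, c4, c5, c6, c7, c8, c9, c10, c11, c12, c13, c14, c15, c16, c17, and_self, and_true, true_and, and_false, false_and,
    if_true, if_false, mul_zero, zero_mul, add_zero, zero_add]
  linear_combination e0 + e1 + (T D x p q r .W (G.u r) (G.u q) (G.v (x r)) (G.v (x q)) *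
      T D x p q r .P (G.u p) (G.u q) (G.v (x p)) (G.v (x r)) + T D x p q r .P (G.u p) (G.u r) (G.v (x p)) (G.v (x r)) *
      T D x p q r .V (G.u q) (G.u r) (G.v (x q)) (G.v (x p))) * h2

theorem case_prq_pqra (D : PD G) (h2 : (2 : R) = 0) (hu : Injective G.u) (hv : Injective G.v)
    (x : Perm ι) (p q r : ι) (hp : p = D.i0) (hc : cyc (G.u p) (G.u r) (G.u q))
    (hh : cyc (G.v (x p)) (G.v (x q)) (G.v (x r)))
    (ha : cyc (G.v (x r)) (D.a) (G.v (x p))) :
    ((if cyc (G.v (x p)) D.a (G.v (x q)) then (if cyc (G.u p) (G.u r) (G.u q) ∧ cyc (G.v (x p)) (G.v (x r)) (G.v (x q)) then 0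
      else T D x p q r .P (G.u p) (G.u q) (G.v (x p)) (G.v (x q))) else 0) +
      (if cyc (G.v (x q)) D.a (G.v (x p)) then (if cyc (G.u q) (G.u r) (G.u p) ∧ cyc (G.v (x q)) (G.v (x r)) (G.v (x p)) then 0
      else T D x p q r .P (G.u q) (G.u p) (G.v (x q)) (G.v (x p))) else 0)) *
    ((if cyc (G.u p) (G.u q) (G.u r) ∧ cyc (G.v (x q)) (G.v (x p)) (G.v (x r)) then 0
      else T D x p q r .V (G.u p) (G.u r) (G.v (x q)) (G.v (x r))) +
      (if cyc (G.u r) (G.u q) (G.u p) ∧ cyc (G.v (x r)) (G.v (x p)) (G.v (x q)) then 0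
      else T D x p q r .V (G.u r) (G.u p) (G.v (x r)) (G.v (x q)))) +
    ((if cyc (G.u p) (G.u r) (G.u q) ∧ cyc (G.v (x p)) (G.v (x r)) (G.v (x q)) then 0
      else T D x p q r .W (G.u p) (G.u q) (G.v (x p)) (G.v (x q))) +
      (if cyc (G.u q) (G.u r) (G.u p) ∧ cyc (G.v (x q)) (G.v (x r)) (G.v (x p)) then 0
      else T D x p q r .W (G.u q) (G.u p) (G.v (x q)) (G.v (x p)))) *
    ((if cyc (G.v (x q)) D.a (G.v (x r)) then (if cyc (G.u p) (G.u q) (G.u r) ∧ cyc (G.v (x q)) (G.v (x p)) (G.v (x r)) then 0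
      else T D x p q r .P (G.u p) (G.u r) (G.v (x q)) (G.v (x r))) else 0) +
      (if cyc (G.v (x r)) D.a (G.v (x q)) then (if cyc (G.u r) (G.u q) (G.u p) ∧ cyc (G.v (x r)) (G.v (x p)) (G.v (x q)) then 0
      else T D x p q r .P (G.u r) (G.u p) (G.v (x r)) (G.v (x q))) else 0)) +
    ((if cyc (G.u q) (G.u p) (G.u r) ∧ cyc (G.v (x q)) (G.v (x p)) (G.v (x r)) then 0
      else T D x p q r .W (G.u q) (G.u r) (G.v (x q)) (G.v (x r))) +
      (if cyc (G.u r) (G.u p) (G.u q) ∧ cyc (G.v (x r)) (G.v (x p)) (G.v (x q)) then 0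
      else T D x p q r .W (G.u r) (G.u q) (G.v (x r)) (G.v (x q)))) *
    ((if cyc (G.v (x r)) D.a (G.v (x p)) then (if cyc (G.u q) (G.u r) (G.u p) ∧ cyc (G.v (x r)) (G.v (x q)) (G.v (x p)) then 0
      else T D x p q r .P (G.u q) (G.u p) (G.v (x r)) (G.v (x p))) else 0) +
      (if cyc (G.v (x p)) D.a (G.v (x r)) then (if cyc (G.u p) (G.u r) (G.u q) ∧ cyc (G.v (x p)) (G.v (x q)) (G.v (x r)) then 0
      else T D x p q r .P (G.u p) (G.u q) (G.v (x p)) (G.v (x r))) else 0)) +
    ((if cyc (G.v (x r)) D.a (G.v (x p)) then (if cyc (G.u r) (G.u q) (G.u p) ∧ cyc (G.v (x r)) (G.v (x q)) (G.v (x p)) then 0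
      else T D x p q r .P (G.u r) (G.u p) (G.v (x r)) (G.v (x p))) else 0) +
      (if cyc (G.v (x p)) D.a (G.v (x r)) then (if cyc (G.u p) (G.u q) (G.u r) ∧ cyc (G.v (x p)) (G.v (x q)) (G.v (x r)) then 0
      else T D x p q r .P (G.u p) (G.u r) (G.v (x p)) (G.v (x r))) else 0)) *
    ((if cyc (G.u r) (G.u p) (G.u q) ∧ cyc (G.v (x p)) (G.v (x r)) (G.v (x q)) then 0
      else T D x p q r .V (G.u r) (G.u q) (G.v (x p)) (G.v (x q))) +
      (if cyc (G.u q) (G.u p) (G.u r) ∧ cyc (G.v (x q)) (G.v (x r)) (G.v (x p)) then 0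
      else T D x p q r .V (G.u q) (G.u r) (G.v (x q)) (G.v (x p)))) = 0 := by
  have c0 : ¬ cyc (G.u p) (G.u q) (G.u r) := by
    clear ha hh
    unfold cyc at *; grind (splits := 20)
  have c1 : cyc (G.u p) (G.u r) (G.u q) := by
    clear ha hh
    unfold cyc at *; grind (splits := 20)
  have c2 : cyc (G.u q) (G.u p) (G.u r) := by
    clear ha hh
    unfold cyc at *; grind (splits := 20)
  have c3 : ¬ cyc (G.u q) (G.u r) (G.u p) := by
    clear ha hh
    unfold cyc at *; grind (splits := 20)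
  have c4 : ¬ cyc (G.u r) (G.u p) (G.u q) := by
    clear ha hh
    unfold cyc at *; grind (splits := 20)
  have c5 : cyc (G.u r) (G.u q) (G.u p) := by
    clear ha hh
    unfold cyc at *; grind (splits := 20)
  have c6 : cyc (G.v (x p)) (G.v (x q)) (G.v (x r)) := by
    clear ha hc
    unfold cyc at *; grind (splits := 20)
  have c7 : ¬ cyc (G.v (x p)) (G.v (x r)) (G.v (x q)) := by
    clear ha hc
    unfold cyc at *; grind (splits := 20)
  have c8 : ¬ cyc (G.v (x q)) (G.v (x p)) (G.v (x r)) := by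
    clear ha hc
    unfold cyc at *; grind (splits := 20)
  have c9 : cyc (G.v (x q)) (G.v (x r)) (G.v (x p)) := by
    clear ha hc
    unfold cyc at *; grind (splits := 20)
  have c10 : cyc (G.v (x r)) (G.v (x p)) (G.v (x q)) := by
    clear ha hc
    unfold cyc at *; grind (splits := 20)
  have c11 : ¬ cyc (G.v (x r)) (G.v (x q)) (G.v (x p)) := by
    clear ha hc
    unfold cyc at *; grind (splits := 20)
  have c12 : ¬ cyc (G.v (x p)) (D.a) (G.v (x q)) := by
    unfold cyc at ha hh ⊢; grind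
  have c13 : ¬ cyc (G.v (x p)) (D.a) (G.v (x r)) := by
    unfold cyc at ha hh ⊢; grind
  have c14 : cyc (G.v (x q)) (D.a) (G.v (x p)) := by
    unfold cyc at ha hh ⊢; grind
  have c15 : ¬ cyc (G.v (x q)) (D.a) (G.v (x r)) := by
    unfold cyc at ha hh ⊢; grind
  have c16 : cyc (G.v (x r)) (D.a) (G.v (x p)) := by
    unfold cyc at ha hh ⊢; grind
  have c17 : cyc (G.v (x r)) (D.a) (G.v (x q)) := by
    unfold cyc at ha hh ⊢; grind
  have e0 : T D x p q r .P (G.u q) (G.u p) (G.v (x q)) (G.v (x p)) *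
      T D x p q r .V (G.u p) (G.u r) (G.v (x q)) (G.v (x r)) =
      T D x p q r .W (G.u q) (G.u r) (G.v (x q)) (G.v (x r)) *
      T D x p q r .P (G.u q) (G.u p) (G.v (x r)) (G.v (x p)) := by
    refine pair D hu hv x p q r ?_ ?_ ?_ ?_
    · clear * - hc hh ha
      intro s t s1 s2 s3 t1 t2 t3
      unfold cyc at *; grind (splits := 20)
    · clear * - hp hc hh ha
      intro t t1
      simp only [← hp, memK, ico, ioc]
      unfold cyc at *; grind (splits := 20)
    · clear * - hp hc hh ha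
      intro t t1
      simp only [← hp, memL, ico, ioc]
      unfold cyc at *; grind (splits := 20)
    · clear * - hp hc hh ha
      intro s t
      simp only [memO, ico]
      unfold cyc at *; grind (splits := 20)
  have e1 : T D x p q r .W (G.u r) (G.u q) (G.v (x r)) (G.v (x q)) *
      T D x p q r .P (G.u q) (G.u p) (G.v (x r)) (G.v (x p)) =
      T D x p q r .P (G.u r) (G.u p) (G.v (x r)) (G.v (x p)) *
      T D x p q r .V (G.u r) (G.u q) (G.v (x p)) (G.v (x q)) := by
    refine pair D hu hv x p q r ?_ ?_ ?_ ?_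
    · clear * - hc hh ha
      intro s t s1 s2 s3 t1 t2 t3
      unfold cyc at *; grind (splits := 20)
    · clear * - hp hc hh ha
      intro t t1
      simp only [← hp, memK, ico, ioc]
      unfold cyc at *; grind (splits := 20)
    · clear * - hp hc hh ha
      intro t t1
      simp only [← hp, memL, ico, ioc]
      unfold cyc at *; grind (splits := 20)
    · clear * - hp hc hh ha
      intro s t
      simp only [memO, ico]
      unfold cyc at *; grind (splits := 20)
  simp only [c0, c1, c2, c3, c4, c5, c6, c7, c8, c9, c10, c11, c12, c13, c14, c15, c16, c17, and_self, and_true, true_and, and_false, false_and,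
    if_true, if_false, mul_zero, zero_mul, add_zero, zero_add]
  linear_combination e0 + e1 + (T D x p q r .W (G.u q) (G.u r) (G.v (x q)) (G.v (x r)) *
      T D x p q r .P (G.u q) (G.u p) (G.v (x r)) (G.v (x p)) + T D x p q r .P (G.u r) (G.u p) (G.v (x r)) (G.v (x p)) *
      T D x p q r .V (G.u r) (G.u q) (G.v (x p)) (G.v (x q))) * h2

theorem case_prq_pqar (D : PD G) (h2 : (2 : R) = 0) (hu : Injective G.u) (hv : Injective G.v)
    (x : Perm ι) (p q r : ι) (hp : p = D.i0) (hc : cyc (G.u p) (G.u r) (G.u q))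
    (hh : cyc (G.v (x p)) (G.v (x q)) (G.v (x r)))
    (ha : cyc (G.v (x q)) (D.a) (G.v (x r))) :
    ((if cyc (G.v (x p)) D.a (G.v (x q)) then (if cyc (G.u p) (G.u r) (G.u q) ∧ cyc (G.v (x p)) (G.v (x r)) (G.v (x q)) then 0
      else T D x p q r .P (G.u p) (G.u q) (G.v (x p)) (G.v (x q))) else 0) +
      (if cyc (G.v (x q)) D.a (G.v (x p)) then (if cyc (G.u q) (G.u r) (G.u p) ∧ cyc (G.v (x q)) (G.v (x r)) (G.v (x p)) then 0
      else T D x p q r .P (G.u q) (G.u p) (G.v (x q)) (G.v (x p))) else 0)) *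
    ((if cyc (G.u p) (G.u q) (G.u r) ∧ cyc (G.v (x q)) (G.v (x p)) (G.v (x r)) then 0
      else T D x p q r .V (G.u p) (G.u r) (G.v (x q)) (G.v (x r))) +
      (if cyc (G.u r) (G.u q) (G.u p) ∧ cyc (G.v (x r)) (G.v (x p)) (G.v (x q)) then 0
      else T D x p q r .V (G.u r) (G.u p) (G.v (x r)) (G.v (x q)))) +
    ((if cyc (G.u p) (G.u r) (G.u q) ∧ cyc (G.v (x p)) (G.v (x r)) (G.v (x q)) then 0
      else T D x p q r .W (G.u p) (G.u q) (G.v (x p)) (G.v (x q))) +
      (if cyc (G.u q) (G.u r) (G.u p) ∧ cyc (G.v (x q)) (G.v (x r)) (G.v (x p)) then 0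
      else T D x p q r .W (G.u q) (G.u p) (G.v (x q)) (G.v (x p)))) *
    ((if cyc (G.v (x q)) D.a (G.v (x r)) then (if cyc (G.u p) (G.u q) (G.u r) ∧ cyc (G.v (x q)) (G.v (x p)) (G.v (x r)) then 0
      else T D x p q r .P (G.u p) (G.u r) (G.v (x q)) (G.v (x r))) else 0) +
      (if cyc (G.v (x r)) D.a (G.v (x q)) then (if cyc (G.u r) (G.u q) (G.u p) ∧ cyc (G.v (x r)) (G.v (x p)) (G.v (x q)) then 0
      else T D x p q r .P (G.u r) (G.u p) (G.v (x r)) (G.v (x q))) else 0)) +
    ((if cyc (G.u q) (G.u p) (G.u r) ∧ cyc (G.v (x q)) (G.v (x p)) (G.v (x r)) then 0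
      else T D x p q r .W (G.u q) (G.u r) (G.v (x q)) (G.v (x r))) +
      (if cyc (G.u r) (G.u p) (G.u q) ∧ cyc (G.v (x r)) (G.v (x p)) (G.v (x q)) then 0
      else T D x p q r .W (G.u r) (G.u q) (G.v (x r)) (G.v (x q)))) *
    ((if cyc (G.v (x r)) D.a (G.v (x p)) then (if cyc (G.u q) (G.u r) (G.u p) ∧ cyc (G.v (x r)) (G.v (x q)) (G.v (x p)) then 0
      else T D x p q r .P (G.u q) (G.u p) (G.v (x r)) (G.v (x p))) else 0) +
      (if cyc (G.v (x p)) D.a (G.v (x r)) then (if cyc (G.u p) (G.u r) (G.u q) ∧ cyc (G.v (x p)) (G.v (x q)) (G.v (x r)) then 0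
      else T D x p q r .P (G.u p) (G.u q) (G.v (x p)) (G.v (x r))) else 0)) +
    ((if cyc (G.v (x r)) D.a (G.v (x p)) then (if cyc (G.u r) (G.u q) (G.u p) ∧ cyc (G.v (x r)) (G.v (x q)) (G.v (x p)) then 0
      else T D x p q r .P (G.u r) (G.u p) (G.v (x r)) (G.v (x p))) else 0) +
      (if cyc (G.v (x p)) D.a (G.v (x r)) then (if cyc (G.u p) (G.u q) (G.u r) ∧ cyc (G.v (x p)) (G.v (x q)) (G.v (x r)) then 0
      else T D x p q r .P (G.u p) (G.u r) (G.v (x p)) (G.v (x r))) else 0)) *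
    ((if cyc (G.u r) (G.u p) (G.u q) ∧ cyc (G.v (x p)) (G.v (x r)) (G.v (x q)) then 0
      else T D x p q r .V (G.u r) (G.u q) (G.v (x p)) (G.v (x q))) +
      (if cyc (G.u q) (G.u p) (G.u r) ∧ cyc (G.v (x q)) (G.v (x r)) (G.v (x p)) then 0
      else T D x p q r .V (G.u q) (G.u r) (G.v (x q)) (G.v (x p)))) = 0 := by
  have c0 : ¬ cyc (G.u p) (G.u q) (G.u r) := by
    clear ha hh
    unfold cyc at *; grind (splits := 20)
  have c1 : cyc (G.u p) (G.u r) (G.u q) := by
    clear ha hh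
    unfold cyc at *; grind (splits := 20)
  have c2 : cyc (G.u q) (G.u p) (G.u r) := by
    clear ha hh
    unfold cyc at *; grind (splits := 20)
  have c3 : ¬ cyc (G.u q) (G.u r) (G.u p) := by
    clear ha hh
    unfold cyc at *; grind (splits := 20)
  have c4 : ¬ cyc (G.u r) (G.u p) (G.u q) := by
    clear ha hh
    unfold cyc at *; grind (splits := 20)
  have c5 : cyc (G.u r) (G.u q) (G.u p) := by
    clear ha hh
    unfold cyc at *; grind (splits := 20)
  have c6 : cyc (G.v (x p)) (G.v (x q)) (G.v (x r)) := by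
    clear ha hc
    unfold cyc at *; grind (splits := 20)
  have c7 : ¬ cyc (G.v (x p)) (G.v (x r)) (G.v (x q)) := by
    clear ha hc
    unfold cyc at *; grind (splits := 20)
  have c8 : ¬ cyc (G.v (x q)) (G.v (x p)) (G.v (x r)) := by
    clear ha hc
    unfold cyc at *; grind (splits := 20)
  have c9 : cyc (G.v (x q)) (G.v (x r)) (G.v (x p)) := by
    clear ha hc
    unfold cyc at *; grind (splits := 20)
  have c10 : cyc (G.v (x r)) (G.v (x p)) (G.v (x q)) := by
    clear ha hc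
    unfold cyc at *; grind (splits := 20)
  have c11 : ¬ cyc (G.v (x r)) (G.v (x q)) (G.v (x p)) := by
    clear ha hc
    unfold cyc at *; grind (splits := 20)
  have c12 : ¬ cyc (G.v (x p)) (D.a) (G.v (x q)) := by
    unfold cyc at ha hh ⊢; grind
  have c13 : cyc (G.v (x p)) (D.a) (G.v (x r)) := by
    unfold cyc at ha hh ⊢; grind
  have c14 : cyc (G.v (x q)) (D.a) (G.v (x p)) := by
    unfold cyc at ha hh ⊢; grind
  have c15 : cyc (G.v (x q)) (D.a) (G.v (x r)) := by
    unfold cyc at ha hh ⊢; grind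
  have c16 : ¬ cyc (G.v (x r)) (D.a) (G.v (x p)) := by
    unfold cyc at ha hh ⊢; grind
  have c17 : ¬ cyc (G.v (x r)) (D.a) (G.v (x q)) := by
    unfold cyc at ha hh ⊢; grind
  have e0 : T D x p q r .P (G.u q) (G.u p) (G.v (x q)) (G.v (x p)) *
      T D x p q r .V (G.u p) (G.u r) (G.v (x q)) (G.v (x r)) =
      T D x p q r .W (G.u q) (G.u p) (G.v (x q)) (G.v (x p)) *
      T D x p q r .P (G.u p) (G.u r) (G.v (x q)) (G.v (x r)) := by
    refine pair D hu hv x p q r ?_ ?_ ?_ ?_
    · clear * - hc hh ha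
      intro s t s1 s2 s3 t1 t2 t3
      unfold cyc at *; grind (splits := 20)
    · clear * - hp hc hh ha
      intro t t1
      simp only [← hp, memK, ico, ioc]
      unfold cyc at *; grind (splits := 20)
    · clear * - hp hc hh ha
      intro t t1
      simp only [← hp, memL, ico, ioc]
      unfold cyc at *; grind (splits := 20)
    · clear * - hp hc hh ha
      intro s t
      simp only [memO, ico]
      unfold cyc at *; grind (splits := 20)
  have e1 : T D x p q r .W (G.u p) (G.u q) (G.v (x p)) (G.v (x q)) *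
      T D x p q r .P (G.u p) (G.u r) (G.v (x q)) (G.v (x r)) =
      T D x p q r .P (G.u p) (G.u r) (G.v (x p)) (G.v (x r)) *
      T D x p q r .V (G.u r) (G.u q) (G.v (x p)) (G.v (x q)) := by
    refine pair D hu hv x p q r ?_ ?_ ?_ ?_
    · clear * - hc hh ha
      intro s t s1 s2 s3 t1 t2 t3
      unfold cyc at *; grind (splits := 20)
    · clear * - hp hc hh ha
      intro t t1
      simp only [← hp, memK, ico, ioc]
      unfold cyc at *; grind (splits := 20)
    · clear * - hp hc hh ha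
      intro t t1
      simp only [← hp, memL, ico, ioc]
      unfold cyc at *; grind (splits := 20)
    · clear * - hp hc hh ha
      intro s t
      simp only [memO, ico]
      unfold cyc at *; grind (splits := 20)
  simp only [c0, c1, c2, c3, c4, c5, c6, c7, c8, c9, c10, c11, c12, c13, c14, c15, c16, c17, and_self, and_true, true_and, and_false, false_and,
    if_true, if_false, mul_zero, zero_mul, add_zero, zero_add]
  linear_combination e0 + e1 + (T D x p q r .W (G.u q) (G.u p) (G.v (x q)) (G.v (x p)) *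
      T D x p q r .P (G.u p) (G.u r) (G.v (x q)) (G.v (x r)) + T D x p q r .P (G.u p) (G.u r) (G.v (x p)) (G.v (x r)) *
      T D x p q r .V (G.u r) (G.u q) (G.v (x p)) (G.v (x q))) * h2

theorem case_prq_prqa (D : PD G) (h2 : (2 : R) = 0) (hu : Injective G.u) (hv : Injective G.v)
    (x : Perm ι) (p q r : ι) (hp : p = D.i0) (hc : cyc (G.u p) (G.u r) (G.u q))
    (hh : cyc (G.v (x p)) (G.v (x r)) (G.v (x q)))
    (ha : cyc (G.v (x q)) (D.a) (G.v (x p))) :
    ((if cyc (G.v (x p)) D.a (G.v (x q)) then (if cyc (G.u p) (G.u r) (G.u q) ∧ cyc (G.v (x p)) (G.v (x r)) (G.v (x q)) then 0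
      else T D x p q r .P (G.u p) (G.u q) (G.v (x p)) (G.v (x q))) else 0) +
      (if cyc (G.v (x q)) D.a (G.v (x p)) then (if cyc (G.u q) (G.u r) (G.u p) ∧ cyc (G.v (x q)) (G.v (x r)) (G.v (x p)) then 0
      else T D x p q r .P (G.u q) (G.u p) (G.v (x q)) (G.v (x p))) else 0)) *
    ((if cyc (G.u p) (G.u q) (G.u r) ∧ cyc (G.v (x q)) (G.v (x p)) (G.v (x r)) then 0
      else T D x p q r .V (G.u p) (G.u r) (G.v (x q)) (G.v (x r))) +
      (if cyc (G.u r) (G.u q) (G.u p) ∧ cyc (G.v (x r)) (G.v (x p)) (G.v (x q)) then 0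
      else T D x p q r .V (G.u r) (G.u p) (G.v (x r)) (G.v (x q)))) +
    ((if cyc (G.u p) (G.u r) (G.u q) ∧ cyc (G.v (x p)) (G.v (x r)) (G.v (x q)) then 0
      else T D x p q r .W (G.u p) (G.u q) (G.v (x p)) (G.v (x q))) +
      (if cyc (G.u q) (G.u r) (G.u p) ∧ cyc (G.v (x q)) (G.v (x r)) (G.v (x p)) then 0
      else T D x p q r .W (G.u q) (G.u p) (G.v (x q)) (G.v (x p)))) *
    ((if cyc (G.v (x q)) D.a (G.v (x r)) then (if cyc (G.u p) (G.u q) (G.u r) ∧ cyc (G.v (x q)) (G.v (x p)) (G.v (x r)) then 0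
      else T D x p q r .P (G.u p) (G.u r) (G.v (x q)) (G.v (x r))) else 0) +
      (if cyc (G.v (x r)) D.a (G.v (x q)) then (if cyc (G.u r) (G.u q) (G.u p) ∧ cyc (G.v (x r)) (G.v (x p)) (G.v (x q)) then 0
      else T D x p q r .P (G.u r) (G.u p) (G.v (x r)) (G.v (x q))) else 0)) +
    ((if cyc (G.u q) (G.u p) (G.u r) ∧ cyc (G.v (x q)) (G.v (x p)) (G.v (x r)) then 0
      else T D x p q r .W (G.u q) (G.u r) (G.v (x q)) (G.v (x r))) +
      (if cyc (G.u r) (G.u p) (G.u q) ∧ cyc (G.v (x r)) (G.v (x p)) (G.v (x q)) then 0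
      else T D x p q r .W (G.u r) (G.u q) (G.v (x r)) (G.v (x q)))) *
    ((if cyc (G.v (x r)) D.a (G.v (x p)) then (if cyc (G.u q) (G.u r) (G.u p) ∧ cyc (G.v (x r)) (G.v (x q)) (G.v (x p)) then 0
      else T D x p q r .P (G.u q) (G.u p) (G.v (x r)) (G.v (x p))) else 0) +
      (if cyc (G.v (x p)) D.a (G.v (x r)) then (if cyc (G.u p) (G.u r) (G.u q) ∧ cyc (G.v (x p)) (G.v (x q)) (G.v (x r)) then 0
      else T D x p q r .P (G.u p) (G.u q) (G.v (x p)) (G.v (x r))) else 0)) +
    ((if cyc (G.v (x r)) D.a (G.v (x p)) then (if cyc (G.u r) (G.u q) (G.u p) ∧ cyc (G.v (x r)) (G.v (x q)) (G.v (x p)) then 0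
      else T D x p q r .P (G.u r) (G.u p) (G.v (x r)) (G.v (x p))) else 0) +
      (if cyc (G.v (x p)) D.a (G.v (x r)) then (if cyc (G.u p) (G.u q) (G.u r) ∧ cyc (G.v (x p)) (G.v (x q)) (G.v (x r)) then 0
      else T D x p q r .P (G.u p) (G.u r) (G.v (x p)) (G.v (x r))) else 0)) *
    ((if cyc (G.u r) (G.u p) (G.u q) ∧ cyc (G.v (x p)) (G.v (x r)) (G.v (x q)) then 0
      else T D x p q r .V (G.u r) (G.u q) (G.v (x p)) (G.v (x q))) +
      (if cyc (G.u q) (G.u p) (G.u r) ∧ cyc (G.v (x q)) (G.v (x r)) (G.v (x p)) then 0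
      else T D x p q r .V (G.u q) (G.u r) (G.v (x q)) (G.v (x p)))) = 0 := by
  have c0 : ¬ cyc (G.u p) (G.u q) (G.u r) := by
    clear ha hh
    unfold cyc at *; grind (splits := 20)
  have c1 : cyc (G.u p) (G.u r) (G.u q) := by
    clear ha hh
    unfold cyc at *; grind (splits := 20)
  have c2 : cyc (G.u q) (G.u p) (G.u r) := by
    clear ha hh
    unfold cyc at *; grind (splits := 20)
  have c3 : ¬ cyc (G.u q) (G.u r) (G.u p) := by
    clear ha hh
    unfold cyc at *; grind (splits := 20)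
  have c4 : ¬ cyc (G.u r) (G.u p) (G.u q) := by
    clear ha hh
    unfold cyc at *; grind (splits := 20)
  have c5 : cyc (G.u r) (G.u q) (G.u p) := by
    clear ha hh
    unfold cyc at *; grind (splits := 20)
  have c6 : ¬ cyc (G.v (x p)) (G.v (x q)) (G.v (x r)) := by
    clear ha hc
    unfold cyc at *; grind (splits := 20)
  have c7 : cyc (G.v (x p)) (G.v (x r)) (G.v (x q)) := by
    clear ha hc
    unfold cyc at *; grind (splits := 20)
  have c8 : cyc (G.v (x q)) (G.v (x p)) (G.v (x r)) := by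
    clear ha hc
    unfold cyc at *; grind (splits := 20)
  have c9 : ¬ cyc (G.v (x q)) (G.v (x r)) (G.v (x p)) := by
    clear ha hc
    unfold cyc at *; grind (splits := 20)
  have c10 : ¬ cyc (G.v (x r)) (G.v (x p)) (G.v (x q)) := by
    clear ha hc
    unfold cyc at *; grind (splits := 20)
  have c11 : cyc (G.v (x r)) (G.v (x q)) (G.v (x p)) := by
    clear ha hc
    unfold cyc at *; grind (splits := 20)
  have c12 : ¬ cyc (G.v (x p)) (D.a) (G.v (x q)) := by
    unfold cyc at ha hh ⊢; grind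
  have c13 : ¬ cyc (G.v (x p)) (D.a) (G.v (x r)) := by
    unfold cyc at ha hh ⊢; grind
  have c14 : cyc (G.v (x q)) (D.a) (G.v (x p)) := by
    unfold cyc at ha hh ⊢; grind
  have c15 : cyc (G.v (x q)) (D.a) (G.v (x r)) := by
    unfold cyc at ha hh ⊢; grind
  have c16 : cyc (G.v (x r)) (D.a) (G.v (x p)) := by
    unfold cyc at ha hh ⊢; grind
  have c17 : ¬ cyc (G.v (x r)) (D.a) (G.v (x q)) := by
    unfold cyc at ha hh ⊢; grind
  have e0 : T D x p q r .P (G.u q) (G.u p) (G.v (x q)) (G.v (x p)) *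
      T D x p q r .V (G.u p) (G.u r) (G.v (x q)) (G.v (x r)) =
      T D x p q r .W (G.u q) (G.u p) (G.v (x q)) (G.v (x p)) *
      T D x p q r .P (G.u p) (G.u r) (G.v (x q)) (G.v (x r)) := by
    refine pair D hu hv x p q r ?_ ?_ ?_ ?_
    · clear * - hc hh ha
      intro s t s1 s2 s3 t1 t2 t3
      unfold cyc at *; grind (splits := 20)
    · clear * - hp hc hh ha
      intro t t1
      simp only [← hp, memK, ico, ioc]
      unfold cyc at *; grind (splits := 20)
    · clear * - hp hc hh ha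
      intro t t1
      simp only [← hp, memL, ico, ioc]
      unfold cyc at *; grind (splits := 20)
    · clear * - hp hc hh ha
      intro s t
      simp only [memO, ico]
      unfold cyc at *; grind (splits := 20)
  have e1 : T D x p q r .P (G.u q) (G.u p) (G.v (x q)) (G.v (x p)) *
      T D x p q r .V (G.u r) (G.u p) (G.v (x r)) (G.v (x q)) =
      T D x p q r .W (G.u r) (G.u q) (G.v (x r)) (G.v (x q)) *
      T D x p q r .P (G.u q) (G.u p) (G.v (x r)) (G.v (x p)) := by
    refine pair D hu hv x p q r ?_ ?_ ?_ ?_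
    · clear * - hc hh ha
      intro s t s1 s2 s3 t1 t2 t3
      unfold cyc at *; grind (splits := 20)
    · clear * - hp hc hh ha
      intro t t1
      simp only [← hp, memK, ico, ioc]
      unfold cyc at *; grind (splits := 20)
    · clear * - hp hc hh ha
      intro t t1
      simp only [← hp, memL, ico, ioc]
      unfold cyc at *; grind (splits := 20)
    · clear * - hp hc hh ha
      intro s t
      simp only [memO, ico]
      unfold cyc at *; grind (splits := 20)
  simp only [c0, c1, c2, c3, c4, c5, c6, c7, c8, c9, c10, c11, c12, c13, c14, c15, c16, c17, and_self, and_true, true_and, and_false, false_and,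
    if_true, if_false, mul_zero, zero_mul, add_zero, zero_add]
  linear_combination e0 + e1 + (T D x p q r .W (G.u q) (G.u p) (G.v (x q)) (G.v (x p)) *
      T D x p q r .P (G.u p) (G.u r) (G.v (x q)) (G.v (x r)) + T D x p q r .W (G.u r) (G.u q) (G.v (x r)) (G.v (x q)) *
      T D x p q r .P (G.u q) (G.u p) (G.v (x r)) (G.v (x p))) * h2

theorem case_prq_praq (D : PD G) (h2 : (2 : R) = 0) (hu : Injective G.u) (hv : Injective G.v)
    (x : Perm ι) (p q r : ι) (hp : p = D.i0) (hc : cyc (G.u p) (G.u r) (G.u q))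
    (hh : cyc (G.v (x p)) (G.v (x r)) (G.v (x q)))
    (ha : cyc (G.v (x r)) (D.a) (G.v (x q))) :
    ((if cyc (G.v (x p)) D.a (G.v (x q)) then (if cyc (G.u p) (G.u r) (G.u q) ∧ cyc (G.v (x p)) (G.v (x r)) (G.v (x q)) then 0
      else T D x p q r .P (G.u p) (G.u q) (G.v (x p)) (G.v (x q))) else 0) +
      (if cyc (G.v (x q)) D.a (G.v (x p)) then (if cyc (G.u q) (G.u r) (G.u p) ∧ cyc (G.v (x q)) (G.v (x r)) (G.v (x p)) then 0
      else T D x p q r .P (G.u q) (G.u p) (G.v (x q)) (G.v (x p))) else 0)) *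
    ((if cyc (G.u p) (G.u q) (G.u r) ∧ cyc (G.v (x q)) (G.v (x p)) (G.v (x r)) then 0
      else T D x p q r .V (G.u p) (G.u r) (G.v (x q)) (G.v (x r))) +
      (if cyc (G.u r) (G.u q) (G.u p) ∧ cyc (G.v (x r)) (G.v (x p)) (G.v (x q)) then 0
      else T D x p q r .V (G.u r) (G.u p) (G.v (x r)) (G.v (x q)))) +
    ((if cyc (G.u p) (G.u r) (G.u q) ∧ cyc (G.v (x p)) (G.v (x r)) (G.v (x q)) then 0
      else T D x p q r .W (G.u p) (G.u q) (G.v (x p)) (G.v (x q))) +
      (if cyc (G.u q) (G.u r) (G.u p) ∧ cyc (G.v (x q)) (G.v (x r)) (G.v (x p)) then 0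
      else T D x p q r .W (G.u q) (G.u p) (G.v (x q)) (G.v (x p)))) *
    ((if cyc (G.v (x q)) D.a (G.v (x r)) then (if cyc (G.u p) (G.u q) (G.u r) ∧ cyc (G.v (x q)) (G.v (x p)) (G.v (x r)) then 0
      else T D x p q r .P (G.u p) (G.u r) (G.v (x q)) (G.v (x r))) else 0) +
      (if cyc (G.v (x r)) D.a (G.v (x q)) then (if cyc (G.u r) (G.u q) (G.u p) ∧ cyc (G.v (x r)) (G.v (x p)) (G.v (x q)) then 0
      else T D x p q r .P (G.u r) (G.u p) (G.v (x r)) (G.v (x q))) else 0)) +
    ((if cyc (G.u q) (G.u p) (G.u r) ∧ cyc (G.v (x q)) (G.v (x p)) (G.v (x r)) then 0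
      else T D x p q r .W (G.u q) (G.u r) (G.v (x q)) (G.v (x r))) +
      (if cyc (G.u r) (G.u p) (G.u q) ∧ cyc (G.v (x r)) (G.v (x p)) (G.v (x q)) then 0
      else T D x p q r .W (G.u r) (G.u q) (G.v (x r)) (G.v (x q)))) *
    ((if cyc (G.v (x r)) D.a (G.v (x p)) then (if cyc (G.u q) (G.u r) (G.u p) ∧ cyc (G.v (x r)) (G.v (x q)) (G.v (x p)) then 0
      else T D x p q r .P (G.u q) (G.u p) (G.v (x r)) (G.v (x p))) else 0) +
      (if cyc (G.v (x p)) D.a (G.v (x r)) then (if cyc (G.u p) (G.u r) (G.u q) ∧ cyc (G.v (x p)) (G.v (x q)) (G.v (x r)) then 0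
      else T D x p q r .P (G.u p) (G.u q) (G.v (x p)) (G.v (x r))) else 0)) +
    ((if cyc (G.v (x r)) D.a (G.v (x p)) then (if cyc (G.u r) (G.u q) (G.u p) ∧ cyc (G.v (x r)) (G.v (x q)) (G.v (x p)) then 0
      else T D x p q r .P (G.u r) (G.u p) (G.v (x r)) (G.v (x p))) else 0) +
      (if cyc (G.v (x p)) D.a (G.v (x r)) then (if cyc (G.u p) (G.u q) (G.u r) ∧ cyc (G.v (x p)) (G.v (x q)) (G.v (x r)) then 0
      else T D x p q r .P (G.u p) (G.u r) (G.v (x p)) (G.v (x r))) else 0)) *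
    ((if cyc (G.u r) (G.u p) (G.u q) ∧ cyc (G.v (x p)) (G.v (x r)) (G.v (x q)) then 0
      else T D x p q r .V (G.u r) (G.u q) (G.v (x p)) (G.v (x q))) +
      (if cyc (G.u q) (G.u p) (G.u r) ∧ cyc (G.v (x q)) (G.v (x r)) (G.v (x p)) then 0
      else T D x p q r .V (G.u q) (G.u r) (G.v (x q)) (G.v (x p)))) = 0 := by
  have c0 : ¬ cyc (G.u p) (G.u q) (G.u r) := by
    clear ha hh
    unfold cyc at *; grind (splits := 20)
  have c1 : cyc (G.u p) (G.u r) (G.u q) := by
    clear ha hh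
    unfold cyc at *; grind (splits := 20)
  have c2 : cyc (G.u q) (G.u p) (G.u r) := by
    clear ha hh
    unfold cyc at *; grind (splits := 20)
  have c3 : ¬ cyc (G.u q) (G.u r) (G.u p) := by
    clear ha hh
    unfold cyc at *; grind (splits := 20)
  have c4 : ¬ cyc (G.u r) (G.u p) (G.u q) := by
    clear ha hh
    unfold cyc at *; grind (splits := 20)
  have c5 : cyc (G.u r) (G.u q) (G.u p) := by
    clear ha hh
    unfold cyc at *; grind (splits := 20)
  have c6 : ¬ cyc (G.v (x p)) (G.v (x q)) (G.v (x r)) := by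
    clear ha hc
    unfold cyc at *; grind (splits := 20)
  have c7 : cyc (G.v (x p)) (G.v (x r)) (G.v (x q)) := by
    clear ha hc
    unfold cyc at *; grind (splits := 20)
  have c8 : cyc (G.v (x q)) (G.v (x p)) (G.v (x r)) := by
    clear ha hc
    unfold cyc at *; grind (splits := 20)
  have c9 : ¬ cyc (G.v (x q)) (G.v (x r)) (G.v (x p)) := by
    clear ha hc
    unfold cyc at *; grind (splits := 20)
  have c10 : ¬ cyc (G.v (x r)) (G.v (x p)) (G.v (x q)) := by
    clear ha hc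
    unfold cyc at *; grind (splits := 20)
  have c11 : cyc (G.v (x r)) (G.v (x q)) (G.v (x p)) := by
    clear ha hc
    unfold cyc at *; grind (splits := 20)
  have c12 : cyc (G.v (x p)) (D.a) (G.v (x q)) := by
    unfold cyc at ha hh ⊢; grind
  have c13 : ¬ cyc (G.v (x p)) (D.a) (G.v (x r)) := by
    unfold cyc at ha hh ⊢; grind
  have c14 : ¬ cyc (G.v (x q)) (D.a) (G.v (x p)) := by
    unfold cyc at ha hh ⊢; grind
  have c15 : ¬ cyc (G.v (x q)) (D.a) (G.v (x r)) := by
    unfold cyc at ha hh ⊢; grind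
  have c16 : cyc (G.v (x r)) (D.a) (G.v (x p)) := by
    unfold cyc at ha hh ⊢; grind
  have c17 : cyc (G.v (x r)) (D.a) (G.v (x q)) := by
    unfold cyc at ha hh ⊢; grind
  have e0 : T D x p q r .W (G.u q) (G.u p) (G.v (x q)) (G.v (x p)) *
      T D x p q r .P (G.u r) (G.u p) (G.v (x r)) (G.v (x q)) =
      T D x p q r .W (G.u r) (G.u q) (G.v (x r)) (G.v (x q)) *
      T D x p q r .P (G.u q) (G.u p) (G.v (x r)) (G.v (x p)) := by
    refine pair D hu hv x p q r ?_ ?_ ?_ ?_
    · clear * - hc hh ha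
      intro s t s1 s2 s3 t1 t2 t3
      unfold cyc at *; grind (splits := 20)
    · clear * - hp hc hh ha
      intro t t1
      simp only [← hp, memK, ico, ioc]
      unfold cyc at *; grind (splits := 20)
    · clear * - hp hc hh ha
      intro t t1
      simp only [← hp, memL, ico, ioc]
      unfold cyc at *; grind (splits := 20)
    · clear * - hp hc hh ha
      intro s t
      simp only [memO, ico]
      unfold cyc at *; grind (splits := 20)
  simp only [c0, c1, c2, c3, c4, c5, c6, c7, c8, c9, c10, c11, c12, c13, c14, c15, c16, c17, and_self, and_true, true_and, and_false, false_and,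
    if_true, if_false, mul_zero, zero_mul, add_zero, zero_add]
  linear_combination e0 + (T D x p q r .W (G.u r) (G.u q) (G.v (x r)) (G.v (x q)) *
      T D x p q r .P (G.u q) (G.u p) (G.v (x r)) (G.v (x p))) * h2

theorem case_prq_paqr (D : PD G) (h2 : (2 : R) = 0) (hu : Injective G.u) (hv : Injective G.v)
    (x : Perm ι) (p q r : ι) (hp : p = D.i0) (hc : cyc (G.u p) (G.u r) (G.u q))
    (hh : cyc (G.v (x p)) (G.v (x q)) (G.v (x r)))
    (ha : cyc (G.v (x p)) (D.a) (G.v (x q))) :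
    ((if cyc (G.v (x p)) D.a (G.v (x q)) then (if cyc (G.u p) (G.u r) (G.u q) ∧ cyc (G.v (x p)) (G.v (x r)) (G.v (x q)) then 0
      else T D x p q r .P (G.u p) (G.u q) (G.v (x p)) (G.v (x q))) else 0) +
      (if cyc (G.v (x q)) D.a (G.v (x p)) then (if cyc (G.u q) (G.u r) (G.u p) ∧ cyc (G.v (x q)) (G.v (x r)) (G.v (x p)) then 0
      else T D x p q r .P (G.u q) (G.u p) (G.v (x q)) (G.v (x p))) else 0)) *
    ((if cyc (G.u p) (G.u q) (G.u r) ∧ cyc (G.v (x q)) (G.v (x p)) (G.v (x r)) then 0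
      else T D x p q r .V (G.u p) (G.u r) (G.v (x q)) (G.v (x r))) +
      (if cyc (G.u r) (G.u q) (G.u p) ∧ cyc (G.v (x r)) (G.v (x p)) (G.v (x q)) then 0
      else T D x p q r .V (G.u r) (G.u p) (G.v (x r)) (G.v (x q)))) +
    ((if cyc (G.u p) (G.u r) (G.u q) ∧ cyc (G.v (x p)) (G.v (x r)) (G.v (x q)) then 0
      else T D x p q r .W (G.u p) (G.u q) (G.v (x p)) (G.v (x q))) +
      (if cyc (G.u q) (G.u r) (G.u p) ∧ cyc (G.v (x q)) (G.v (x r)) (G.v (x p)) then 0
      else T D x p q r .W (G.u q) (G.u p) (G.v (x q)) (G.v (x p)))) *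
    ((if cyc (G.v (x q)) D.a (G.v (x r)) then (if cyc (G.u p) (G.u q) (G.u r) ∧ cyc (G.v (x q)) (G.v (x p)) (G.v (x r)) then 0
      else T D x p q r .P (G.u p) (G.u r) (G.v (x q)) (G.v (x r))) else 0) +
      (if cyc (G.v (x r)) D.a (G.v (x q)) then (if cyc (G.u r) (G.u q) (G.u p) ∧ cyc (G.v (x r)) (G.v (x p)) (G.v (x q)) then 0
      else T D x p q r .P (G.u r) (G.u p) (G.v (x r)) (G.v (x q))) else 0)) +
    ((if cyc (G.u q) (G.u p) (G.u r) ∧ cyc (G.v (x q)) (G.v (x p)) (G.v (x r)) then 0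
      else T D x p q r .W (G.u q) (G.u r) (G.v (x q)) (G.v (x r))) +
      (if cyc (G.u r) (G.u p) (G.u q) ∧ cyc (G.v (x r)) (G.v (x p)) (G.v (x q)) then 0
      else T D x p q r .W (G.u r) (G.u q) (G.v (x r)) (G.v (x q)))) *
    ((if cyc (G.v (x r)) D.a (G.v (x p)) then (if cyc (G.u q) (G.u r) (G.u p) ∧ cyc (G.v (x r)) (G.v (x q)) (G.v (x p)) then 0
      else T D x p q r .P (G.u q) (G.u p) (G.v (x r)) (G.v (x p))) else 0) +
      (if cyc (G.v (x p)) D.a (G.v (x r)) then (if cyc (G.u p) (G.u r) (G.u q) ∧ cyc (G.v (x p)) (G.v (x q)) (G.v (x r)) then 0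
      else T D x p q r .P (G.u p) (G.u q) (G.v (x p)) (G.v (x r))) else 0)) +
    ((if cyc (G.v (x r)) D.a (G.v (x p)) then (if cyc (G.u r) (G.u q) (G.u p) ∧ cyc (G.v (x r)) (G.v (x q)) (G.v (x p)) then 0
      else T D x p q r .P (G.u r) (G.u p) (G.v (x r)) (G.v (x p))) else 0) +
      (if cyc (G.v (x p)) D.a (G.v (x r)) then (if cyc (G.u p) (G.u q) (G.u r) ∧ cyc (G.v (x p)) (G.v (x q)) (G.v (x r)) then 0
      else T D x p q r .P (G.u p) (G.u r) (G.v (x p)) (G.v (x r))) else 0)) *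
    ((if cyc (G.u r) (G.u p) (G.u q) ∧ cyc (G.v (x p)) (G.v (x r)) (G.v (x q)) then 0
      else T D x p q r .V (G.u r) (G.u q) (G.v (x p)) (G.v (x q))) +
      (if cyc (G.u q) (G.u p) (G.u r) ∧ cyc (G.v (x q)) (G.v (x r)) (G.v (x p)) then 0
      else T D x p q r .V (G.u q) (G.u r) (G.v (x q)) (G.v (x p)))) = 0 := by
  have c0 : ¬ cyc (G.u p) (G.u q) (G.u r) := by
    clear ha hh
    unfold cyc at *; grind (splits := 20)
  have c1 : cyc (G.u p) (G.u r) (G.u q) := by
    clear ha hh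
    unfold cyc at *; grind (splits := 20)
  have c2 : cyc (G.u q) (G.u p) (G.u r) := by
    clear ha hh
    unfold cyc at *; grind (splits := 20)
  have c3 : ¬ cyc (G.u q) (G.u r) (G.u p) := by
    clear ha hh
    unfold cyc at *; grind (splits := 20)
  have c4 : ¬ cyc (G.u r) (G.u p) (G.u q) := by
    clear ha hh
    unfold cyc at *; grind (splits := 20)
  have c5 : cyc (G.u r) (G.u q) (G.u p) := by
    clear ha hh
    unfold cyc at *; grind (splits := 20)
  have c6 : cyc (G.v (x p)) (G.v (x q)) (G.v (x r)) := by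
    clear ha hc
    unfold cyc at *; grind (splits := 20)
  have c7 : ¬ cyc (G.v (x p)) (G.v (x r)) (G.v (x q)) := by
    clear ha hc
    unfold cyc at *; grind (splits := 20)
  have c8 : ¬ cyc (G.v (x q)) (G.v (x p)) (G.v (x r)) := by
    clear ha hc
    unfold cyc at *; grind (splits := 20)
  have c9 : cyc (G.v (x q)) (G.v (x r)) (G.v (x p)) := by
    clear ha hc
    unfold cyc at *; grind (splits := 20)
  have c10 : cyc (G.v (x r)) (G.v (x p)) (G.v (x q)) := by
    clear ha hc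
    unfold cyc at *; grind (splits := 20)
  have c11 : ¬ cyc (G.v (x r)) (G.v (x q)) (G.v (x p)) := by
    clear ha hc
    unfold cyc at *; grind (splits := 20)
  have c12 : cyc (G.v (x p)) (D.a) (G.v (x q)) := by
    unfold cyc at ha hh ⊢; grind
  have c13 : cyc (G.v (x p)) (D.a) (G.v (x r)) := by
    unfold cyc at ha hh ⊢; grind
  have c14 : ¬ cyc (G.v (x q)) (D.a) (G.v (x p)) := by
    unfold cyc at ha hh ⊢; grind
  have c15 : ¬ cyc (G.v (x q)) (D.a) (G.v (x r)) := by
    unfold cyc at ha hh ⊢; grind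
  have c16 : ¬ cyc (G.v (x r)) (D.a) (G.v (x p)) := by
    unfold cyc at ha hh ⊢; grind
  have c17 : cyc (G.v (x r)) (D.a) (G.v (x q)) := by
    unfold cyc at ha hh ⊢; grind
  have e0 : T D x p q r .P (G.u p) (G.u q) (G.v (x p)) (G.v (x q)) *
      T D x p q r .V (G.u p) (G.u r) (G.v (x q)) (G.v (x r)) =
      T D x p q r .P (G.u p) (G.u r) (G.v (x p)) (G.v (x r)) *
      T D x p q r .V (G.u r) (G.u q) (G.v (x p)) (G.v (x q)) := by
    refine pair D hu hv x p q r ?_ ?_ ?_ ?_
    · clear * - hc hh ha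
      intro s t s1 s2 s3 t1 t2 t3
      unfold cyc at *; grind (splits := 20)
    · clear * - hp hc hh ha
      intro t t1
      simp only [← hp, memK, ico, ioc]
      unfold cyc at *; grind (splits := 20)
    · clear * - hp hc hh ha
      intro t t1
      simp only [← hp, memL, ico, ioc]
      unfold cyc at *; grind (splits := 20)
    · clear * - hp hc hh ha
      intro s t
      simp only [memO, ico]
      unfold cyc at *; grind (splits := 20)
  simp only [c0, c1, c2, c3, c4, c5, c6, c7, c8, c9, c10, c11, c12, c13, c14, c15, c16, c17, and_self, and_true, true_and, and_false, false_and,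
    if_true, if_false, mul_zero, zero_mul, add_zero, zero_add]
  linear_combination e0 + (T D x p q r .P (G.u p) (G.u r) (G.v (x p)) (G.v (x r)) *
      T D x p q r .V (G.u r) (G.u q) (G.v (x p)) (G.v (x q))) * h2

theorem case_prq_parq (D : PD G) (h2 : (2 : R) = 0) (hu : Injective G.u) (hv : Injective G.v)
    (x : Perm ι) (p q r : ι) (hp : p = D.i0) (hc : cyc (G.u p) (G.u r) (G.u q))
    (hh : cyc (G.v (x p)) (G.v (x r)) (G.v (x q)))
    (ha : cyc (G.v (x p)) (D.a) (G.v (x r))) :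
    ((if cyc (G.v (x p)) D.a (G.v (x q)) then (if cyc (G.u p) (G.u r) (G.u q) ∧ cyc (G.v (x p)) (G.v (x r)) (G.v (x q)) then 0
      else T D x p q r .P (G.u p) (G.u q) (G.v (x p)) (G.v (x q))) else 0) +
      (if cyc (G.v (x q)) D.a (G.v (x p)) then (if cyc (G.u q) (G.u r) (G.u p) ∧ cyc (G.v (x q)) (G.v (x r)) (G.v (x p)) then 0
      else T D x p q r .P (G.u q) (G.u p) (G.v (x q)) (G.v (x p))) else 0)) *
    ((if cyc (G.u p) (G.u q) (G.u r) ∧ cyc (G.v (x q)) (G.v (x p)) (G.v (x r)) then 0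
      else T D x p q r .V (G.u p) (G.u r) (G.v (x q)) (G.v (x r))) +
      (if cyc (G.u r) (G.u q) (G.u p) ∧ cyc (G.v (x r)) (G.v (x p)) (G.v (x q)) then 0
      else T D x p q r .V (G.u r) (G.u p) (G.v (x r)) (G.v (x q)))) +
    ((if cyc (G.u p) (G.u r) (G.u q) ∧ cyc (G.v (x p)) (G.v (x r)) (G.v (x q)) then 0
      else T D x p q r .W (G.u p) (G.u q) (G.v (x p)) (G.v (x q))) +
      (if cyc (G.u q) (G.u r) (G.u p) ∧ cyc (G.v (x q)) (G.v (x r)) (G.v (x p)) then 0
      else T D x p q r .W (G.u q) (G.u p) (G.v (x q)) (G.v (x p)))) *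
    ((if cyc (G.v (x q)) D.a (G.v (x r)) then (if cyc (G.u p) (G.u q) (G.u r) ∧ cyc (G.v (x q)) (G.v (x p)) (G.v (x r)) then 0
      else T D x p q r .P (G.u p) (G.u r) (G.v (x q)) (G.v (x r))) else 0) +
      (if cyc (G.v (x r)) D.a (G.v (x q)) then (if cyc (G.u r) (G.u q) (G.u p) ∧ cyc (G.v (x r)) (G.v (x p)) (G.v (x q)) then 0
      else T D x p q r .P (G.u r) (G.u p) (G.v (x r)) (G.v (x q))) else 0)) +
    ((if cyc (G.u q) (G.u p) (G.u r) ∧ cyc (G.v (x q)) (G.v (x p)) (G.v (x r)) then 0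
      else T D x p q r .W (G.u q) (G.u r) (G.v (x q)) (G.v (x r))) +
      (if cyc (G.u r) (G.u p) (G.u q) ∧ cyc (G.v (x r)) (G.v (x p)) (G.v (x q)) then 0
      else T D x p q r .W (G.u r) (G.u q) (G.v (x r)) (G.v (x q)))) *
    ((if cyc (G.v (x r)) D.a (G.v (x p)) then (if cyc (G.u q) (G.u r) (G.u p) ∧ cyc (G.v (x r)) (G.v (x q)) (G.v (x p)) then 0
      else T D x p q r .P (G.u q) (G.u p) (G.v (x r)) (G.v (x p))) else 0) +
      (if cyc (G.v (x p)) D.a (G.v (x r)) then (if cyc (G.u p) (G.u r) (G.u q) ∧ cyc (G.v (x p)) (G.v (x q)) (G.v (x r)) then 0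
      else T D x p q r .P (G.u p) (G.u q) (G.v (x p)) (G.v (x r))) else 0)) +
    ((if cyc (G.v (x r)) D.a (G.v (x p)) then (if cyc (G.u r) (G.u q) (G.u p) ∧ cyc (G.v (x r)) (G.v (x q)) (G.v (x p)) then 0
      else T D x p q r .P (G.u r) (G.u p) (G.v (x r)) (G.v (x p))) else 0) +
      (if cyc (G.v (x p)) D.a (G.v (x r)) then (if cyc (G.u p) (G.u q) (G.u r) ∧ cyc (G.v (x p)) (G.v (x q)) (G.v (x r)) then 0
      else T D x p q r .P (G.u p) (G.u r) (G.v (x p)) (G.v (x r))) else 0)) *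
    ((if cyc (G.u r) (G.u p) (G.u q) ∧ cyc (G.v (x p)) (G.v (x r)) (G.v (x q)) then 0
      else T D x p q r .V (G.u r) (G.u q) (G.v (x p)) (G.v (x q))) +
      (if cyc (G.u q) (G.u p) (G.u r) ∧ cyc (G.v (x q)) (G.v (x r)) (G.v (x p)) then 0
      else T D x p q r .V (G.u q) (G.u r) (G.v (x q)) (G.v (x p)))) = 0 := by
  have c0 : ¬ cyc (G.u p) (G.u q) (G.u r) := by
    clear ha hh
    unfold cyc at *; grind (splits := 20)
  have c1 : cyc (G.u p) (G.u r) (G.u q) := by
    clear ha hh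
    unfold cyc at *; grind (splits := 20)
  have c2 : cyc (G.u q) (G.u p) (G.u r) := by
    clear ha hh
    unfold cyc at *; grind (splits := 20)
  have c3 : ¬ cyc (G.u q) (G.u r) (G.u p) := by
    clear ha hh
    unfold cyc at *; grind (splits := 20)
  have c4 : ¬ cyc (G.u r) (G.u p) (G.u q) := by
    clear ha hh
    unfold cyc at *; grind (splits := 20)
  have c5 : cyc (G.u r) (G.u q) (G.u p) := by
    clear ha hh
    unfold cyc at *; grind (splits := 20)
  have c6 : ¬ cyc (G.v (x p)) (G.v (x q)) (G.v (x r)) := by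
    clear ha hc
    unfold cyc at *; grind (splits := 20)
  have c7 : cyc (G.v (x p)) (G.v (x r)) (G.v (x q)) := by
    clear ha hc
    unfold cyc at *; grind (splits := 20)
  have c8 : cyc (G.v (x q)) (G.v (x p)) (G.v (x r)) := by
    clear ha hc
    unfold cyc at *; grind (splits := 20)
  have c9 : ¬ cyc (G.v (x q)) (G.v (x r)) (G.v (x p)) := by
    clear ha hc
    unfold cyc at *; grind (splits := 20)
  have c10 : ¬ cyc (G.v (x r)) (G.v (x p)) (G.v (x q)) := by
    clear ha hc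
    unfold cyc at *; grind (splits := 20)
  have c11 : cyc (G.v (x r)) (G.v (x q)) (G.v (x p)) := by
    clear ha hc
    unfold cyc at *; grind (splits := 20)
  have c12 : cyc (G.v (x p)) (D.a) (G.v (x q)) := by
    unfold cyc at ha hh ⊢; grind
  have c13 : cyc (G.v (x p)) (D.a) (G.v (x r)) := by
    unfold cyc at ha hh ⊢; grind
  have c14 : ¬ cyc (G.v (x q)) (D.a) (G.v (x p)) := by
    unfold cyc at ha hh ⊢; grind
  have c15 : cyc (G.v (x q)) (D.a) (G.v (x r)) := by
    unfold cyc at ha hh ⊢; grind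
  have c16 : ¬ cyc (G.v (x r)) (D.a) (G.v (x p)) := by
    unfold cyc at ha hh ⊢; grind
  have c17 : ¬ cyc (G.v (x r)) (D.a) (G.v (x q)) := by
    unfold cyc at ha hh ⊢; grind
  have e0 : T D x p q r .W (G.u q) (G.u p) (G.v (x q)) (G.v (x p)) *
      T D x p q r .P (G.u p) (G.u r) (G.v (x q)) (G.v (x r)) =
      T D x p q r .P (G.u p) (G.u r) (G.v (x p)) (G.v (x r)) *
      T D x p q r .V (G.u q) (G.u r) (G.v (x q)) (G.v (x p)) := by
    refine pair D hu hv x p q r ?_ ?_ ?_ ?_
    · clear * - hc hh ha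
      intro s t s1 s2 s3 t1 t2 t3
      unfold cyc at *; grind (splits := 20)
    · clear * - hp hc hh ha
      intro t t1
      simp only [← hp, memK, ico, ioc]
      unfold cyc at *; grind (splits := 20)
    · clear * - hp hc hh ha
      intro t t1
      simp only [← hp, memL, ico, ioc]
      unfold cyc at *; grind (splits := 20)
    · clear * - hp hc hh ha
      intro s t
      simp only [memO, ico]
      unfold cyc at *; grind (splits := 20)
  have e1 : T D x p q r .W (G.u r) (G.u q) (G.v (x r)) (G.v (x q)) *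
      T D x p q r .P (G.u p) (G.u q) (G.v (x p)) (G.v (x r)) =
      T D x p q r .P (G.u p) (G.u r) (G.v (x p)) (G.v (x r)) *
      T D x p q r .V (G.u r) (G.u q) (G.v (x p)) (G.v (x q)) := by
    refine pair D hu hv x p q r ?_ ?_ ?_ ?_
    · clear * - hc hh ha
      intro s t s1 s2 s3 t1 t2 t3
      unfold cyc at *; grind (splits := 20)
    · clear * - hp hc hh ha
      intro t t1
      simp only [← hp, memK, ico, ioc]
      unfold cyc at *; grind (splits := 20)
    · clear * - hp hc hh ha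
      intro t t1
      simp only [← hp, memL, ico, ioc]
      unfold cyc at *; grind (splits := 20)
    · clear * - hp hc hh ha
      intro s t
      simp only [memO, ico]
      unfold cyc at *; grind (splits := 20)
  simp only [c0, c1, c2, c3, c4, c5, c6, c7, c8, c9, c10, c11, c12, c13, c14, c15, c16, c17, and_self, and_true, true_and, and_false, false_and,
    if_true, if_false, mul_zero, zero_mul, add_zero, zero_add]
  linear_combination e0 + e1 + (T D x p q r .P (G.u p) (G.u r) (G.v (x p)) (G.v (x r)) *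
      T D x p q r .V (G.u q) (G.u r) (G.v (x q)) (G.v (x p)) + T D x p q r .P (G.u p) (G.u r) (G.v (x p)) (G.v (x r)) *
      T D x p q r .V (G.u r) (G.u q) (G.v (x p)) (G.v (x q))) * h2

theorem main (D : PD G) (h2 : (2 : R) = 0) (hu : Injective G.u) (hv : Injective G.v)
    (x : Perm ι) (p q r : ι) (hp : p = D.i0) (hpq : p ≠ q) (hqr : q ≠ r) (hpr : p ≠ r) :
    ((if cyc (G.v (x p)) D.a (G.v (x q)) then (if cyc (G.u p) (G.u r) (G.u q) ∧ cyc (G.v (x p)) (G.v (x r)) (G.v (x q)) then 0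
      else T D x p q r .P (G.u p) (G.u q) (G.v (x p)) (G.v (x q))) else 0) +
      (if cyc (G.v (x q)) D.a (G.v (x p)) then (if cyc (G.u q) (G.u r) (G.u p) ∧ cyc (G.v (x q)) (G.v (x r)) (G.v (x p)) then 0
      else T D x p q r .P (G.u q) (G.u p) (G.v (x q)) (G.v (x p))) else 0)) *
    ((if cyc (G.u p) (G.u q) (G.u r) ∧ cyc (G.v (x q)) (G.v (x p)) (G.v (x r)) then 0
      else T D x p q r .V (G.u p) (G.u r) (G.v (x q)) (G.v (x r))) +
      (if cyc (G.u r) (G.u q) (G.u p) ∧ cyc (G.v (x r)) (G.v (x p)) (G.v (x q)) then 0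
      else T D x p q r .V (G.u r) (G.u p) (G.v (x r)) (G.v (x q)))) +
    ((if cyc (G.u p) (G.u r) (G.u q) ∧ cyc (G.v (x p)) (G.v (x r)) (G.v (x q)) then 0
      else T D x p q r .W (G.u p) (G.u q) (G.v (x p)) (G.v (x q))) +
      (if cyc (G.u q) (G.u r) (G.u p) ∧ cyc (G.v (x q)) (G.v (x r)) (G.v (x p)) then 0
      else T D x p q r .W (G.u q) (G.u p) (G.v (x q)) (G.v (x p)))) *
    ((if cyc (G.v (x q)) D.a (G.v (x r)) then (if cyc (G.u p) (G.u q) (G.u r) ∧ cyc (G.v (x q)) (G.v (x p)) (G.v (x r)) then 0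
      else T D x p q r .P (G.u p) (G.u r) (G.v (x q)) (G.v (x r))) else 0) +
      (if cyc (G.v (x r)) D.a (G.v (x q)) then (if cyc (G.u r) (G.u q) (G.u p) ∧ cyc (G.v (x r)) (G.v (x p)) (G.v (x q)) then 0
      else T D x p q r .P (G.u r) (G.u p) (G.v (x r)) (G.v (x q))) else 0)) +
    ((if cyc (G.u q) (G.u p) (G.u r) ∧ cyc (G.v (x q)) (G.v (x p)) (G.v (x r)) then 0
      else T D x p q r .W (G.u q) (G.u r) (G.v (x q)) (G.v (x r))) +
      (if cyc (G.u r) (G.u p) (G.u q) ∧ cyc (G.v (x r)) (G.v (x p)) (G.v (x q)) then 0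
      else T D x p q r .W (G.u r) (G.u q) (G.v (x r)) (G.v (x q)))) *
    ((if cyc (G.v (x r)) D.a (G.v (x p)) then (if cyc (G.u q) (G.u r) (G.u p) ∧ cyc (G.v (x r)) (G.v (x q)) (G.v (x p)) then 0
      else T D x p q r .P (G.u q) (G.u p) (G.v (x r)) (G.v (x p))) else 0) +
      (if cyc (G.v (x p)) D.a (G.v (x r)) then (if cyc (G.u p) (G.u r) (G.u q) ∧ cyc (G.v (x p)) (G.v (x q)) (G.v (x r)) then 0
      else T D x p q r .P (G.u p) (G.u q) (G.v (x p)) (G.v (x r))) else 0)) +
    ((if cyc (G.v (x r)) D.a (G.v (x p)) then (if cyc (G.u r) (G.u q) (G.u p) ∧ cyc (G.v (x r)) (G.v (x q)) (G.v (x p)) then 0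
      else T D x p q r .P (G.u r) (G.u p) (G.v (x r)) (G.v (x p))) else 0) +
      (if cyc (G.v (x p)) D.a (G.v (x r)) then (if cyc (G.u p) (G.u q) (G.u r) ∧ cyc (G.v (x p)) (G.v (x q)) (G.v (x r)) then 0
      else T D x p q r .P (G.u p) (G.u r) (G.v (x p)) (G.v (x r))) else 0)) *
    ((if cyc (G.u r) (G.u p) (G.u q) ∧ cyc (G.v (x p)) (G.v (x r)) (G.v (x q)) then 0
      else T D x p q r .V (G.u r) (G.u q) (G.v (x p)) (G.v (x q))) +
      (if cyc (G.u q) (G.u p) (G.u r) ∧ cyc (G.v (x q)) (G.v (x r)) (G.v (x p)) then 0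
      else T D x p q r .V (G.u q) (G.u r) (G.v (x q)) (G.v (x p)))) = 0 := by
  have u1 : G.u p ≠ G.u q := fun h => hpq (hu h)
  have u2 : G.u q ≠ G.u r := fun h => hqr (hu h)
  have u3 : G.u p ≠ G.u r := fun h => hpr (hu h)
  have v1 : G.v (x p) ≠ G.v (x q) := fun h => hpq (x.injective (hv h))
  have v2 : G.v (x q) ≠ G.v (x r) := fun h => hqr (x.injective (hv h))
  have v3 : G.v (x p) ≠ G.v (x r) := fun h => hpr (x.injective (hv h))
  have a1 : G.v (x p) ≠ D.a := D.av _
  have a2 : G.v (x q) ≠ D.a := D.av _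
  have a3 : G.v (x r) ≠ D.a := D.av _
  have A1 : cyc (G.v (x p)) (G.v (x q)) (G.v (x r)) → cyc (G.v (x p)) D.a (G.v (x q)) ∨
      cyc (G.v (x q)) D.a (G.v (x r)) ∨ cyc (G.v (x r)) D.a (G.v (x p)) := by
    intro h
    unfold cyc at h ⊢; grind (splits := 20)
  have A2 : cyc (G.v (x p)) (G.v (x r)) (G.v (x q)) → cyc (G.v (x p)) D.a (G.v (x r)) ∨
      cyc (G.v (x r)) D.a (G.v (x q)) ∨ cyc (G.v (x q)) D.a (G.v (x p)) := by
    intro h
    unfold cyc at h ⊢; grind (splits := 20)
  rcases cyc_total u1 u2 u3 with hc | hc <;> rcases cyc_total v1 v2 v3 with hh | hh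
  · rcases A1 hh with ha | ha | ha
    · exact case_pqr_paqr D h2 hu hv x p q r hp hc hh ha
    · exact case_pqr_pqar D h2 hu hv x p q r hp hc hh ha
    · exact case_pqr_pqra D h2 hu hv x p q r hp hc hh ha
  · rcases A2 hh with ha | ha | ha
    · exact case_pqr_parq D h2 hu hv x p q r hp hc hh ha
    · exact case_pqr_praq D h2 hu hv x p q r hp hc hh ha
    · exact case_pqr_prqa D h2 hu hv x p q r hp hc hh ha
  · rcases A1 hh with ha | ha | ha
    · exact case_prq_paqr D h2 hu hv x p q r hp hc hh ha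
    · exact case_prq_pqar D h2 hu hv x p q r hp hc hh ha
    · exact case_prq_pqra D h2 hu hv x p q r hp hc hh ha
  · rcases A2 hh with ha | ha | ha
    · exact case_prq_parq D h2 hu hv x p q r hp hc hh ha
    · exact case_prq_praq D h2 hu hv x p q r hp hc hh ha
    · exact case_prq_prqa D h2 hu hv x p q r hp hc hh ha

end PT1

theorem t_PT1 : Stmt_PT1 := by
  intro ι M α β R _ _ _ _ _ _ G D h2 hu hv x p q r hp hpq hqr hpr
  have hm := PT1.main D h2 hu hv x p q r hp hpq hqr hpr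
  have hy0 : ∀ k, k ≠ p → k ≠ q → k ≠ r → x k = x k := fun _ _ _ _ => rfl
  have hy1 : ∀ k, k ≠ p → k ≠ q → k ≠ r → (x * swap p q) k = x k := by
    intro k h1 h2 h3
    rw [Perm.mul_apply, swap_apply_of_ne_of_ne h1 h2]
  have hy2 : ∀ k, k ≠ p → k ≠ q → k ≠ r → (x * swap q r) k = x k := by
    intro k h1 h2 h3
    rw [Perm.mul_apply, swap_apply_of_ne_of_ne h2 h3]
  have hy3 : ∀ k, k ≠ p → k ≠ q → k ≠ r → (x * swap r p) k = x k := by
    intro k h1 h2 h3
    rw [Perm.mul_apply, swap_apply_of_ne_of_ne h3 h1]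
  have y1p : (x * swap p q) p = x q := by rw [Perm.mul_apply, swap_apply_left]
  have y1q : (x * swap p q) q = x p := by rw [Perm.mul_apply, swap_apply_right]
  have y1r : (x * swap p q) r = x r := by
    rw [Perm.mul_apply, swap_apply_of_ne_of_ne hpr.symm hqr.symm]
  have y2q : (x * swap q r) q = x r := by rw [Perm.mul_apply, swap_apply_left]
  have y2r : (x * swap q r) r = x q := by rw [Perm.mul_apply, swap_apply_right]
  have y2p : (x * swap q r) p = x p := by
    rw [Perm.mul_apply, swap_apply_of_ne_of_ne hpq hpr]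
  have y3r : (x * swap r p) r = x p := by rw [Perm.mul_apply, swap_apply_left]
  have y3p : (x * swap r p) p = x r := by rw [Perm.mul_apply, swap_apply_right]
  have y3q : (x * swap r p) q = x q := by
    rw [Perm.mul_apply, swap_apply_of_ne_of_ne hqr hpq.symm]
  unfold P2 W2
  rw [PT1.Pw_eq D x x p q r p q r hy0 hpq (by intro k; constructor <;> rintro ⟨b1, b2, b3⟩ <;> exact ⟨by assumption, by assumption, by assumption⟩) (Or.inl hp)]
  rw [PT1.Pw_eq D x x p q r q p r hy0 hpq.symm (by intro k; constructor <;> rintro ⟨b1, b2, b3⟩ <;> exact ⟨by assumption, by assumption, by assumption⟩) (Or.inr hp)]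
  rw [PT1.Vt_eq D hu x (x * swap p q) p q r p r q hy1 hpr (by intro k; constructor <;> rintro ⟨b1, b2, b3⟩ <;> exact ⟨by assumption, by assumption, by assumption⟩)]
  rw [PT1.Vt_eq D hu x (x * swap p q) p q r r p q hy1 hpr.symm (by intro k; constructor <;> rintro ⟨b1, b2, b3⟩ <;> exact ⟨by assumption, by assumption, by assumption⟩)]
  rw [PT1.Wt_eq D hu x x p q r p q r hy0 hpq (by intro k; constructor <;> rintro ⟨b1, b2, b3⟩ <;> exact ⟨by assumption, by assumption, by assumption⟩)]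
  rw [PT1.Wt_eq D hu x x p q r q p r hy0 hpq.symm (by intro k; constructor <;> rintro ⟨b1, b2, b3⟩ <;> exact ⟨by assumption, by assumption, by assumption⟩)]
  rw [PT1.Pw_eq D x (x * swap p q) p q r p r q hy1 hpr (by intro k; constructor <;> rintro ⟨b1, b2, b3⟩ <;> exact ⟨by assumption, by assumption, by assumption⟩) (Or.inl hp)]
  rw [PT1.Pw_eq D x (x * swap p q) p q r r p q hy1 hpr.symm (by intro k; constructor <;> rintro ⟨b1, b2, b3⟩ <;> exact ⟨by assumption, by assumption, by assumption⟩) (Or.inr hp)]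
  rw [PT1.Wt_eq D hu x x p q r q r p hy0 hqr (by intro k; constructor <;> rintro ⟨b1, b2, b3⟩ <;> exact ⟨by assumption, by assumption, by assumption⟩)]
  rw [PT1.Wt_eq D hu x x p q r r q p hy0 hqr.symm (by intro k; constructor <;> rintro ⟨b1, b2, b3⟩ <;> exact ⟨by assumption, by assumption, by assumption⟩)]
  rw [PT1.Pw_eq D x (x * swap q r) p q r q p r hy2 hpq.symm (by intro k; constructor <;> rintro ⟨b1, b2, b3⟩ <;> exact ⟨by assumption, by assumption, by assumption⟩) (Or.inr hp)]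
  rw [PT1.Pw_eq D x (x * swap q r) p q r p q r hy2 hpq (by intro k; constructor <;> rintro ⟨b1, b2, b3⟩ <;> exact ⟨by assumption, by assumption, by assumption⟩) (Or.inl hp)]
  rw [PT1.Pw_eq D x x p q r r p q hy0 hpr.symm (by intro k; constructor <;> rintro ⟨b1, b2, b3⟩ <;> exact ⟨by assumption, by assumption, by assumption⟩) (Or.inr hp)]
  rw [PT1.Pw_eq D x x p q r p r q hy0 hpr (by intro k; constructor <;> rintro ⟨b1, b2, b3⟩ <;> exact ⟨by assumption, by assumption, by assumption⟩) (Or.inl hp)]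
  rw [PT1.Vt_eq D hu x (x * swap r p) p q r r q p hy3 hqr.symm (by intro k; constructor <;> rintro ⟨b1, b2, b3⟩ <;> exact ⟨by assumption, by assumption, by assumption⟩)]
  rw [PT1.Vt_eq D hu x (x * swap r p) p q r q r p hy3 hqr (by intro k; constructor <;> rintro ⟨b1, b2, b3⟩ <;> exact ⟨by assumption, by assumption, by assumption⟩)]
  simp only [y1p, y1q, y1r, y2p, y2q, y2r, y3p, y3q, y3r]
  exact hm

end LG
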