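import Pool.Agent.LG.Stmts

/-!
# PT2: a pentagon and a rectangle with the same vertical circles
-/

namespace LG

open Equiv Finset Function

namespace PT2

/-! ### cyclic order -/

section Cyc

variable {α : Type*} [LinearOrder α]

theorem in1 {a b c p : α} (h1 : ¬ cyc a c b) (h2 : c ≠ b) (h3 : a ≠ b) (h : ico a p b) :
    ico c p b := by
  unfold ico cyc at *; grind

theorem in2 {a b c p : α} (h1 : ¬ cyc b c a) (h2 : c ≠ b) (h3 : a ≠ b) (h : ico b p a) :
    ico b p c := by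
  unfold ico cyc at *; grind

theorem ncompl {a b p : α} (h : a ≠ b) (h' : ico a p b) : ¬ ico b p a := by
  unfold ico cyc at *; grind

theorem c1 {s a t q : α} (h : cyc s a t) (h' : ico s q a) : ico s q t := by
  unfold ico cyc at *; grind

theorem c2 {s a t q : α} (h : cyc s a t) (hq : q ≠ a) :
    cyc a q s ↔ cyc a q t ∨ ico t q s := by
  unfold ico cyc at *; grind

theorem c3 {s a t q : α} (h : cyc s a t) : ¬ (cyc a q t ∧ ico t q s) := by
  unfold ico cyc at *; grind

theorem c4 {s a t q : α} (h : cyc t a s) (hq : q ≠ a) :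
    ico s q a ↔ ico s q t ∨ ico t q a := by
  unfold ico cyc at *; grind

theorem c5 {s a t q : α} (h : cyc t a s) : ¬ (ico s q t ∧ ico t q a) := by
  unfold ico cyc at *; grind

theorem tot {s a t : α} (h1 : s ≠ a) (h2 : t ≠ a) (h3 : s ≠ t) : cyc s a t ∨ cyc t a s := by
  unfold cyc at *; grind

theorem asy {s a t : α} (h : cyc s a t) : ¬ cyc t a s := by
  unfold cyc at *; grind

theorem nb1 {a b c : α} (h1 : ¬ cyc a c b) (h2 : c ≠ b) (h3 : a ≠ b) (h4 : a ≠ c) :
    cyc c a b := by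
  unfold cyc at *; grind

theorem nb2 {a b c : α} (h1 : ¬ cyc b c a) (h2 : c ≠ b) (h3 : a ≠ b) (h4 : a ≠ c) :
    cyc b a c := by
  unfold cyc at *; grind

end Cyc

variable {ι M α β R : Type} [Fintype ι] [DecidableEq ι] [Fintype M] [LinearOrder α]
  [LinearOrder β] [CommRing R] {G : MG ι M α β R}

/-! ### positions of the marks -/

theorem K1 (D : PD G) (hu : Injective G.u) {j : ι} (hj : j ≠ D.i0) {m : M} (h : D.K m) :
    ico (G.u D.i0) (G.p m) (G.u j) :=
  in2 (D.adj2 j) (fun e => hj (hu e)) (fun e => D.n2 (hu e)) ((D.hK m).1 h)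

theorem K2 (D : PD G) (hu : Injective G.u) {j : ι} (hj : j ≠ D.i0) {m : M} (h : D.K m) :
    ico (G.u j) (D.p' m) (G.u D.i0) :=
  in1 (D.adj1 j) (fun e => hj (hu e)) (fun e => D.n1 (hu e)) (D.mK m h)

theorem L1 (D : PD G) (hu : Injective G.u) {j : ι} (hj : j ≠ D.i0) {m : M} (h : D.L m) :
    ico (G.u j) (G.p m) (G.u D.i0) :=
  in1 (D.adj1 j) (fun e => hj (hu e)) (fun e => D.n1 (hu e)) ((D.hL m).1 h)

theorem L2 (D : PD G) (hu : Injective G.u) {j : ι} (hj : j ≠ D.i0) {m : M} (h : D.L m) :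
    ico (G.u D.i0) (D.p' m) (G.u j) :=
  in2 (D.adj2 j) (fun e => hj (hu e)) (fun e => D.n2 (hu e)) (D.mL m h)

theorem neJ (D : PD G) (hu : Injective G.u) {j : ι} (hj : j ≠ D.i0) : G.u j ≠ G.u D.i0 :=
  fun e => hj (hu e)

theorem K1n (D : PD G) (hu : Injective G.u) {j : ι} (hj : j ≠ D.i0) {m : M} (h : D.K m) :
    ¬ ico (G.u j) (G.p m) (G.u D.i0) := ncompl (neJ D hu hj).symm (K1 D hu hj h)

theorem K2n (D : PD G) (hu : Injective G.u) {j : ι} (hj : j ≠ D.i0) {m : M} (h : D.K m) :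
    ¬ ico (G.u D.i0) (D.p' m) (G.u j) := ncompl (neJ D hu hj) (K2 D hu hj h)

theorem L1n (D : PD G) (hu : Injective G.u) {j : ι} (hj : j ≠ D.i0) {m : M} (h : D.L m) :
    ¬ ico (G.u D.i0) (G.p m) (G.u j) := ncompl (neJ D hu hj) (L1 D hu hj h)

theorem L2n (D : PD G) (hu : Injective G.u) {j : ι} (hj : j ≠ D.i0) {m : M} (h : D.L m) :
    ¬ ico (G.u j) (D.p' m) (G.u D.i0) := ncompl (neJ D hu hj).symm (L2 D hu hj h)


/-! ### complementary column intervals -/

theorem hh (D : PD G) (hu : Injective G.u) (x : Perm ι) (i j : ι) (hij : i ≠ j)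
    (ho : i = D.i0 ∨ j = D.i0) :
    Pw D x i j * Wt D.G' (x * swap i j) j i = Wt G x i j * Pw D (x * swap i j) j i := by
  have e1 : (x * swap i j) i = x j := by simp
  have e2 : (x * swap i j) j = x i := by simp
  have hE : Emp D.G' (x * swap i j) j i ↔ Emp G (x * swap i j) j i := Iff.rfl
  have hji : j ≠ i := hij.symm
  by_cases hE1 : Emp G x i j
  swap
  · have h1 : Pw D x i j = 0 := by
      unfold Pw; rw [if_neg]; tauto
    have h2 : Wt G x i j = 0 := by
      unfold Wt; rw [if_neg]; tauto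
    rw [h1, h2, zero_mul, zero_mul]
  by_cases hE2 : Emp G (x * swap i j) j i
  swap
  · have h1 : Wt D.G' (x * swap i j) j i = 0 := by
      unfold Wt; rw [if_neg]; tauto
    have h2 : Pw D (x * swap i j) j i = 0 := by
      unfold Pw; rw [if_neg]; tauto
    rw [h1, h2, mul_zero, mul_zero]
  by_cases hC : cyc (G.v (x i)) D.a (G.v (x j))
  swap
  · have h1 : Pw D x i j = 0 := by
      unfold Pw; rw [if_neg]; tauto
    have h2 : Pw D (x * swap i j) j i = 0 := by
      unfold Pw; rw [if_neg]; rw [e1, e2]; tauto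
    rw [h1, h2, zero_mul, mul_zero]
  unfold Pw Wt
  rw [if_pos ⟨hij, ho, hE1, hC⟩, if_pos ⟨hji, hE.2 hE2⟩, if_pos ⟨hij, hE1⟩,
    if_pos ⟨hji, ho.symm, hE2, by rw [e1, e2]; exact hC⟩, ← prod_mul_distrib,
    ← prod_mul_distrib]
  apply prod_congr rfl
  intro m _
  have hG1 : D.G'.p = D.p' := rfl
  have hG2 : D.G'.q = G.q := rfl
  have hG3 : D.G'.u = G.u := rfl
  have hG4 : D.G'.v = G.v := rfl
  have hG5 : D.G'.w = G.w := rfl
  by_cases hK : D.K m
  · simp only [PIns, Ins, if_pos hK, e1, e2, hG1, hG2, hG3, hG4, hG5]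
    rcases ho with rfl | rfl
    · simp only [K2 D hu hji hK, K1 D hu hji hK, true_and]
      ring
    · simp only [K2n D hu hij hK, K1n D hu hij hK, false_and, if_false]
      ring
  by_cases hL : D.L m
  · simp only [PIns, Ins, if_neg hK, if_pos hL, e1, e2, hG1, hG2, hG3, hG4, hG5]
    rcases ho with rfl | rfl
    · simp only [L2n D hu hji hL, L1n D hu hji hL, false_and, if_false]
      ring
    · simp only [L2 D hu hij hL, L1 D hu hij hL, true_and]
      ring
  · simp only [PIns, Ins, if_neg hK, if_neg hL, e1, e2, hG1, hG2, hG3, hG4, hG5, D.mO m hL hK]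

/-! ### equal column intervals -/

/-- The common value. -/
def T (D : PD G) (x : Perm ι) : R :=
  ∏ m, (if D.K m then (if ico (G.v (x D.i0)) (G.q m) D.a then G.w m else 1)
    else if D.L m then (if cyc D.a (G.q m) (G.v (x D.i0)) then G.w m else 1) else 1)

theorem v1 (D : PD G) (hu : Injective G.u) (hv : Injective G.v) (x : Perm ι) (j : ι)
    (hj : j ≠ D.i0) :
    Pw D x D.i0 j * Wt D.G' (x * swap D.i0 j) D.i0 j +
      Wt G x D.i0 j * Pw D (x * swap D.i0 j) D.i0 j = if j = D.i2 then T D x else 0 := by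
  have e1 : (x * swap D.i0 j) D.i0 = x j := by simp
  have e2 : (x * swap D.i0 j) j = x D.i0 := by simp
  have hE : Emp D.G' (x * swap D.i0 j) D.i0 j ↔ Emp G (x * swap D.i0 j) D.i0 j := Iff.rfl
  have hst : G.v (x D.i0) ≠ G.v (x j) := fun e => hj (x.injective (hv e)).symm
  by_cases h2 : j = D.i2
  swap
  · rw [if_neg h2]
    have hc : cyc (G.u D.i0) (G.u D.i2) (G.u j) :=
      nb2 (D.adj2 j) (fun e => hj (hu e)) (fun e => D.n2 (hu e)) (fun e => h2 (hu e).symm)
    have e3 : (x * swap D.i0 j) D.i2 = x D.i2 := by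
      simp [swap_apply_of_ne_of_ne D.n2 (fun e => h2 e.symm)]
    have hn : ¬ (Emp G x D.i0 j ∧ Emp G (x * swap D.i0 j) D.i0 j) := by
      rintro ⟨hA, hB⟩
      have hA' := hA D.i2
      have hB' := hB D.i2
      rw [e1, e2, e3] at hB'
      rcases tot (s := G.v (x D.i0)) (a := G.v (x D.i2)) (t := G.v (x j))
        (fun e => D.n2 (x.injective (hv e)).symm) (fun e => h2 (x.injective (hv e))) hst with h | h
      · exact hA' ⟨hc, h⟩
      · exact hB' ⟨hc, h⟩
    by_cases hE1 : Emp G x D.i0 j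
    · have hE2 : ¬ Emp G (x * swap D.i0 j) D.i0 j := fun h => hn ⟨hE1, h⟩
      have h1 : Wt D.G' (x * swap D.i0 j) D.i0 j = 0 := by
        unfold Wt; rw [if_neg]; tauto
      have h2 : Pw D (x * swap D.i0 j) D.i0 j = 0 := by
        unfold Pw; rw [if_neg]; tauto
      rw [h1, h2, mul_zero, mul_zero, add_zero]
    · have h1 : Pw D x D.i0 j = 0 := by
        unfold Pw; rw [if_neg]; tauto
      have h2 : Wt G x D.i0 j = 0 := by
        unfold Wt; rw [if_neg]; tauto
      rw [h1, h2, zero_mul, zero_mul, add_zero]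
  rw [if_pos h2]
  have hno : ∀ k, ¬ cyc (G.u D.i0) (G.u k) (G.u j) := by rw [h2]; exact D.adj2
  have hE1 : Emp G x D.i0 j := fun k h => hno k h.1
  have hE2 : Emp G (x * swap D.i0 j) D.i0 j := fun k h => hno k h.1
  have hE2' : Emp D.G' (x * swap D.i0 j) D.i0 j := hE2
  have hG1 : D.G'.p = D.p' := rfl
  have hG2 : D.G'.q = G.q := rfl
  have hG3 : D.G'.u = G.u := rfl
  have hG4 : D.G'.v = G.v := rfl
  have hG5 : D.G'.w = G.w := rfl
  rcases tot (s := G.v (x D.i0)) (a := D.a) (t := G.v (x j)) (D.av _) (D.av _) hst with hC | hC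
  · have hz : Pw D (x * swap D.i0 j) D.i0 j = 0 := by
      unfold Pw; rw [if_neg]; rw [e1, e2]; exact fun h => asy hC h.2.2.2
    rw [hz, mul_zero, add_zero]
    unfold Pw Wt T
    rw [if_pos ⟨hj.symm, Or.inl rfl, hE1, hC⟩, if_pos ⟨hj.symm, hE2'⟩, ← prod_mul_distrib]
    apply prod_congr rfl
    intro m _
    by_cases hK : D.K m
    · simp only [PIns, Ins, if_pos hK, e1, e2, hG1, hG2, hG3, hG4, hG5, K2n D hu hj hK,
        false_and, if_false, mul_one]
    by_cases hL : D.L m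
    · simp only [PIns, Ins, if_neg hK, if_pos hL, e1, e2, hG1, hG2, hG3, hG4, hG5, L2 D hu hj hL,
        true_and]
      have h3 := c2 (q := G.q m) hC (D.aq m)
      have h4 := c3 (q := G.q m) hC
      by_cases ha : cyc D.a (G.q m) (G.v (x j)) <;>
        by_cases hb : ico (G.v (x j)) (G.q m) (G.v (x D.i0)) <;> simp_all
    · have h5 : ¬ ico (G.u D.i0) (G.p m) (G.u j) := by rw [h2]; exact fun h => hK ((D.hK m).2 h)
      simp only [PIns, Ins, if_neg hK, if_neg hL, e1, e2, hG1, hG2, hG3, hG4, hG5, D.mO m hL hK,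
        h5, false_and, if_false, mul_one]
  · have hz : Pw D x D.i0 j = 0 := by
      unfold Pw; rw [if_neg]; exact fun h => asy hC h.2.2.2
    rw [hz, zero_mul, zero_add]
    unfold Pw Wt T
    rw [if_pos ⟨hj.symm, hE1⟩, if_pos ⟨hj.symm, Or.inl rfl, hE2, by rw [e1, e2]; exact hC⟩,
      ← prod_mul_distrib]
    apply prod_congr rfl
    intro m _
    by_cases hK : D.K m
    · simp only [PIns, Ins, if_pos hK, e1, e2, K1 D hu hj hK, true_and]
      have h3 := c4 (q := G.q m) hC (D.aq m)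
      have h4 := c5 (q := G.q m) hC
      by_cases ha : ico (G.v (x D.i0)) (G.q m) (G.v (x j)) <;>
        by_cases hb : ico (G.v (x j)) (G.q m) D.a <;> simp_all
    by_cases hL : D.L m
    · simp only [PIns, Ins, if_neg hK, if_pos hL, e1, e2, L1n D hu hj hL, false_and, if_false,
        one_mul]
    · have h5 : ¬ ico (G.u D.i0) (G.p m) (G.u j) := by rw [h2]; exact fun h => hK ((D.hK m).2 h)
      simp only [PIns, Ins, if_neg hK, if_neg hL, e1, e2, h5, false_and, if_false, mul_one]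

theorem v2 (D : PD G) (hu : Injective G.u) (hv : Injective G.v) (x : Perm ι) (j : ι)
    (hj : j ≠ D.i0) :
    Pw D x j D.i0 * Wt D.G' (x * swap D.i0 j) j D.i0 +
      Wt G x j D.i0 * Pw D (x * swap D.i0 j) j D.i0 = if j = D.i1 then T D x else 0 := by
  have e1 : (x * swap D.i0 j) D.i0 = x j := by simp
  have e2 : (x * swap D.i0 j) j = x D.i0 := by simp
  have hE : Emp D.G' (x * swap D.i0 j) j D.i0 ↔ Emp G (x * swap D.i0 j) j D.i0 := Iff.rfl
  have hst : G.v (x D.i0) ≠ G.v (x j) := fun e => hj (x.injective (hv e)).symm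
  by_cases h2 : j = D.i1
  swap
  · rw [if_neg h2]
    have hc : cyc (G.u j) (G.u D.i1) (G.u D.i0) :=
      nb1 (D.adj1 j) (fun e => hj (hu e)) (fun e => D.n1 (hu e)) (fun e => h2 (hu e).symm)
    have e3 : (x * swap D.i0 j) D.i1 = x D.i1 := by
      simp [swap_apply_of_ne_of_ne D.n1 (fun e => h2 e.symm)]
    have hn : ¬ (Emp G x j D.i0 ∧ Emp G (x * swap D.i0 j) j D.i0) := by
      rintro ⟨hA, hB⟩
      have hA' := hA D.i1
      have hB' := hB D.i1
      rw [e1, e2, e3] at hB'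
      rcases tot (s := G.v (x D.i0)) (a := G.v (x D.i1)) (t := G.v (x j))
        (fun e => D.n1 (x.injective (hv e)).symm) (fun e => h2 (x.injective (hv e))) hst with h | h
      · exact hB' ⟨hc, h⟩
      · exact hA' ⟨hc, h⟩
    by_cases hE1 : Emp G x j D.i0
    · have hE2 : ¬ Emp G (x * swap D.i0 j) j D.i0 := fun h => hn ⟨hE1, h⟩
      have h1 : Wt D.G' (x * swap D.i0 j) j D.i0 = 0 := by
        unfold Wt; rw [if_neg]; tauto
      have h2 : Pw D (x * swap D.i0 j) j D.i0 = 0 := by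
        unfold Pw; rw [if_neg]; tauto
      rw [h1, h2, mul_zero, mul_zero, add_zero]
    · have h1 : Pw D x j D.i0 = 0 := by
        unfold Pw; rw [if_neg]; tauto
      have h2 : Wt G x j D.i0 = 0 := by
        unfold Wt; rw [if_neg]; tauto
      rw [h1, h2, zero_mul, zero_mul, add_zero]
  rw [if_pos h2]
  have hno : ∀ k, ¬ cyc (G.u j) (G.u k) (G.u D.i0) := by rw [h2]; exact D.adj1
  have hE1 : Emp G x j D.i0 := fun k h => hno k h.1
  have hE2 : Emp G (x * swap D.i0 j) j D.i0 := fun k h => hno k h.1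
  have hE2' : Emp D.G' (x * swap D.i0 j) j D.i0 := hE2
  have hG1 : D.G'.p = D.p' := rfl
  have hG2 : D.G'.q = G.q := rfl
  have hG3 : D.G'.u = G.u := rfl
  have hG4 : D.G'.v = G.v := rfl
  have hG5 : D.G'.w = G.w := rfl
  rcases tot (s := G.v (x D.i0)) (a := D.a) (t := G.v (x j)) (D.av _) (D.av _) hst with hC | hC
  · have hz : Pw D x j D.i0 = 0 := by
      unfold Pw; rw [if_neg]; exact fun h => asy hC h.2.2.2
    rw [hz, zero_mul, zero_add]
    unfold Pw Wt T
    rw [if_pos ⟨hj, hE1⟩, if_pos ⟨hj, Or.inr rfl, hE2, by rw [e1, e2]; exact hC⟩,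
      ← prod_mul_distrib]
    apply prod_congr rfl
    intro m _
    by_cases hK : D.K m
    · simp only [PIns, Ins, if_pos hK, e1, e2, K1n D hu hj hK,
        false_and, if_false, one_mul]
    by_cases hL : D.L m
    · simp only [PIns, Ins, if_neg hK, if_pos hL, e1, e2, L1 D hu hj hL,
        true_and]
      have h3 := c2 (q := G.q m) hC (D.aq m)
      have h4 := c3 (q := G.q m) hC
      by_cases ha : cyc D.a (G.q m) (G.v (x j)) <;>
        by_cases hb : ico (G.v (x j)) (G.q m) (G.v (x D.i0)) <;> simp_all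
    · have h5 : ¬ ico (G.u j) (G.p m) (G.u D.i0) := by rw [h2]; exact fun h => hL ((D.hL m).2 h)
      simp only [PIns, Ins, if_neg hK, if_neg hL, e1, e2, h5, false_and, if_false, mul_one]
  · have hz : Pw D (x * swap D.i0 j) j D.i0 = 0 := by
      unfold Pw; rw [if_neg]; rw [e1, e2]; exact fun h => asy hC h.2.2.2
    rw [hz, mul_zero, add_zero]
    unfold Pw Wt T
    rw [if_pos ⟨hj, Or.inr rfl, hE1, hC⟩, if_pos ⟨hj, hE2'⟩, ← prod_mul_distrib]
    apply prod_congr rfl
    intro m _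
    by_cases hK : D.K m
    · simp only [PIns, Ins, if_pos hK, e1, e2, hG1, hG2, hG3, hG4, hG5, K2 D hu hj hK, true_and]
      have h3 := c4 (q := G.q m) hC (D.aq m)
      have h4 := c5 (q := G.q m) hC
      by_cases ha : ico (G.v (x D.i0)) (G.q m) (G.v (x j)) <;>
        by_cases hb : ico (G.v (x j)) (G.q m) D.a <;> simp_all
    by_cases hL : D.L m
    · simp only [PIns, Ins, if_neg hK, if_pos hL, e1, e2, hG1, hG2, hG3, hG4, hG5,
        L2n D hu hj hL, false_and, if_false, mul_one]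
    · have h5 : ¬ ico (G.u j) (G.p m) (G.u D.i0) := by rw [h2]; exact fun h => hL ((D.hL m).2 h)
      simp only [PIns, Ins, if_neg hK, if_neg hL, e1, e2, hG1, hG2, hG3, hG4, hG5, D.mO m hL hK,
        h5, false_and, if_false, mul_one]

end PT2

theorem t_PT2 : Stmt_PT2 := by
  intro ι M α β R _ _ _ _ _ _ G D h2 hu hv x
  have key : ∀ j ∈ univ.erase D.i0, (P2 D x D.i0 j * W2 D.G' (x * swap D.i0 j) D.i0 j +
        W2 G x D.i0 j * P2 D (x * swap D.i0 j) D.i0 j) =
      (if j = D.i1 then PT2.T D x else 0) + (if j = D.i2 then PT2.T D x else 0) := by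
    intro j hj
    have hj' : j ≠ D.i0 := (Finset.mem_erase.1 hj).1
    have a1 := PT2.hh D hu x D.i0 j hj'.symm (Or.inl rfl)
    have a2 := PT2.hh D hu x j D.i0 hj' (Or.inr rfl)
    rw [swap_comm] at a2
    have a3 := PT2.v1 D hu hv x j hj'
    have a4 := PT2.v2 D hu hv x j hj'
    rw [← a3, ← a4]
    unfold P2 W2
    rw [add_mul, mul_add, mul_add, add_mul, mul_add, mul_add, a1, a2]
    linear_combination (Wt G x D.i0 j * Pw D (x * swap D.i0 j) j D.i0 +
      Wt G x j D.i0 * Pw D (x * swap D.i0 j) D.i0 j) * h2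
  rw [sum_congr rfl key, sum_add_distrib, sum_ite_eq' , sum_ite_eq',
    if_pos (Finset.mem_erase.2 ⟨D.n1, mem_univ _⟩), if_pos (Finset.mem_erase.2 ⟨D.n2, mem_univ _⟩)]
  linear_combination PT2.T D x * h2

end LG
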