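import Pool.Agent.LG.Stmts

/-!
# REL: relabelling and cyclic order isomorphism
-/

namespace LG

open Equiv Finset Function

namespace REL

variable {ι κ ι' κ' α β α' β' : Type} [Fintype ι] [DecidableEq ι] [Fintype κ] [Fintype ι']
  [DecidableEq ι'] [Fintype κ'] [LinearOrder α] [LinearOrder β] [LinearOrder α'] [LinearOrder β']
  {c : ι → α} {r : ι → β} {a : κ → α} {b : κ → β} {c' : ι' → α'} {r' : ι' → β'}
  {a' : κ' → α'} {b' : κ' → β'} {e : ι ≃ ι'} {e' : κ ≃ κ'}

/-- The hypotheses of REL for one coordinate. -/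
def H (c : ι → α) (a : κ → α) (c' : ι' → α') (a' : κ' → α') (e : ι ≃ ι') (e' : κ ≃ κ') : Prop :=
  (∀ x y z : ι ⊕ κ, cyc (Sum.elim c a x) (Sum.elim c a y) (Sum.elim c a z) ↔
      cyc (Sum.elim c' a' (Equiv.sumCongr e e' x)) (Sum.elim c' a' (Equiv.sumCongr e e' y))
        (Sum.elim c' a' (Equiv.sumCongr e e' z))) ∧
    (∀ x y : ι ⊕ κ, Sum.elim c a x = Sum.elim c a y ↔
      Sum.elim c' a' (Equiv.sumCongr e e' x) = Sum.elim c' a' (Equiv.sumCongr e e' y))

omit [Fintype ι] [DecidableEq ι] [Fintype κ] [Fintype ι'] [DecidableEq ι'] [Fintype κ'] in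
theorem H.symm (h : H c a c' a' e e') : H c' a' c a e.symm e'.symm := by
  have hs : ∀ x : ι' ⊕ κ', Equiv.sumCongr e e' (Equiv.sumCongr e.symm e'.symm x) = x := by
    intro x
    cases x <;> simp
  constructor
  · intro x y z
    have := h.1 (Equiv.sumCongr e.symm e'.symm x) (Equiv.sumCongr e.symm e'.symm y)
      (Equiv.sumCongr e.symm e'.symm z)
    rw [hs, hs, hs] at this
    exact this.symm
  · intro x y
    have := h.2 (Equiv.sumCongr e.symm e'.symm x) (Equiv.sumCongr e.symm e'.symm y)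
    rw [hs, hs] at this
    exact this.symm

omit [Fintype ι] [DecidableEq ι] [Fintype κ] [Fintype ι'] [DecidableEq ι'] [Fintype κ'] in
theorem H.cyc (h : H c a c' a' e e') (i j k : ι) :
    LG.cyc (c i) (c j) (c k) ↔ LG.cyc (c' (e i)) (c' (e j)) (c' (e k)) :=
  h.1 (Sum.inl i) (Sum.inl j) (Sum.inl k)

omit [Fintype ι] [DecidableEq ι] [Fintype κ] [Fintype ι'] [DecidableEq ι'] [Fintype κ'] in
theorem H.ico (h : H c a c' a' e e') (i k : ι) (m : ι ⊕ κ) :
    LG.ico (c i) (Sum.elim c a m) (c k) ↔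
      LG.ico (c' (e i)) (Sum.elim c' a' (Equiv.sumCongr e e' m)) (c' (e k)) :=
  or_congr (h.2 m (Sum.inl i)) (h.1 (Sum.inl i) m (Sum.inl k))

theorem permCongr_app (x : Perm ι) (i : ι) : e.permCongr x (e i) = e (x i) := by
  simp

theorem wt_eq (hc : H c a c' a' e e') (hr : H r b r' b' e e') (x : Perm ι) (i j : ι) :
    Wt (gm c r a b) x i j = Wt (gm c' r' a' b') (e.permCongr x) (e i) (e j) := by
  have hE : Emp (gm c r a b) x i j ↔ Emp (gm c' r' a' b') (e.permCongr x) (e i) (e j) := by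
    constructor
    · intro h k' hk
      obtain ⟨k, rfl⟩ := e.surjective k'
      rw [permCongr_app, permCongr_app, permCongr_app] at hk
      exact h k ⟨(hc.cyc i k j).mpr hk.1, (hr.cyc (x i) (x k) (x j)).mpr hk.2⟩
    · intro h k hk
      refine h (e k) ?_
      rw [permCongr_app, permCongr_app, permCongr_app]
      exact ⟨(hc.cyc i k j).mp hk.1, (hr.cyc (x i) (x k) (x j)).mp hk.2⟩
  have hI : ∀ m, Ins (gm c r a b) x i j m ↔
      Ins (gm c' r' a' b') (e.permCongr x) (e i) (e j) (Equiv.sumCongr e e' m) := by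
    intro m
    have h1 := hc.ico i j m
    have h2 := hr.ico (x i) (x j) m
    unfold Ins
    rw [permCongr_app, permCongr_app]
    exact and_congr h1 h2
  unfold Wt
  refine if_congr (and_congr (not_congr e.injective.eq_iff.symm) hE) ?_ rfl
  refine Fintype.prod_equiv (Equiv.sumCongr e e') _ _ ?_
  intro m
  exact if_congr (hI m) rfl rfl

theorem bd_eq (hc : H c a c' a' e e') (hr : H r b r' b' e e') (f : Perm ι → ZMod 2) (y : Perm ι) :
    bd c' r' a' b' (fun x' => f (e.permCongr.symm x')) (e.permCongr y) = bd c r a b f y := by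
  unfold bd del
  symm
  refine Fintype.sum_equiv e _ _ ?_
  intro i
  refine Fintype.sum_equiv e _ _ ?_
  intro j
  have hs : e.permCongr y * swap (e i) (e j) = e.permCongr (y * swap i j) := by
    ext k'
    obtain ⟨k, rfl⟩ := e.surjective k'
    rw [permCongr_app, Perm.mul_apply, Perm.mul_apply, Equiv.swap_apply_def,
      Equiv.swap_apply_def]
    simp only [e.injective.eq_iff]
    split_ifs <;> simp
  show f (y * swap i j) * Wt (gm c r a b) (y * swap i j) i j =
    f (e.permCongr.symm (e.permCongr y * swap (e i) (e j))) *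
      Wt (gm c' r' a' b') (e.permCongr y * swap (e i) (e j)) (e i) (e j)
  rw [hs, Equiv.symm_apply_apply, ← wt_eq hc hr]

theorem fwd (hc : H c a c' a' e e') (hr : H r b r' b' e e') (h : V c r a b) :
    V c' r' a' b' := by
  obtain ⟨f, hf⟩ := h
  refine ⟨fun x' => f (e.permCongr.symm x'), ?_⟩
  funext y'
  obtain ⟨y, rfl⟩ := e.permCongr.surjective y'
  rw [bd_eq hc hr, hf, Pi.single_apply, Pi.single_apply]
  refine if_congr ?_ rfl rfl
  constructor
  · rintro rfl
    ext k'
    obtain ⟨k, rfl⟩ := e.surjective k'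
    rw [permCongr_app]
    rfl
  · intro h1
    ext k
    have := congrArg (fun p : Perm ι' => p (e k)) h1
    simp only [permCongr_app] at this
    exact e.injective this

end REL

theorem t_REL : Stmt_REL := by
  intro ι κ ι' κ' α β α' β' _ _ _ _ _ _ _ _ _ _ c r a b c' r' a' b' e e' h1 h2 h3 h4
  have hc : REL.H c a c' a' e e' := ⟨h1, h2⟩
  have hr : REL.H r b r' b' e e' := ⟨h3, h4⟩
  exact ⟨REL.fwd hc hr, REL.fwd hc.symm hr.symm⟩

end LG
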