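import Pool.Agent.LG.Stmts

/-!
# Part D, SB0: the block structure of the differential for a stabilisation
-/

namespace LG

open Equiv Finset Function

namespace SB0

section Order

variable {α : Type*} [LinearOrder α]

/-- The predecessor `l` of `k` lies in every interval `[i, j)` which contains `k` unless it starts
at `k`. -/
theorem pre {l i k j : α} (h : ¬ cyc l i k) (_hlk : l ≠ k) (hik : i ≠ k) (h2 : ico i k j) :
    ico i l j := by
  unfold ico cyc at *; grind

/-- The predecessor `l` of `k` lies in every interval `[i, k)` with `i ≠ k`. -/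
theorem pre' {l i k : α} (h : ¬ cyc l i k) (hlk : l ≠ k) (hik : i ≠ k) : ico i l k := by
  unfold ico cyc at *; grind

/-- The successor `k` of `l` lies in every interval `[s, t)` which contains `l` unless it ends at
`k`. -/
theorem suc {l k s t : α} (_h1 : ¬ cyc l s k) (h2 : ¬ cyc l t k) (hlk : l ≠ k) (htk : t ≠ k)
    (hst : s ≠ t) (h : ico s l t) : ico s k t := by
  unfold ico cyc at *; grind

end Order

section Gen

variable {ι κ α β : Type} [Fintype ι] [DecidableEq ι] [Fintype κ] [DecidableEq κ] [LinearOrder α]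
  [LinearOrder β] {c : ι → α} {r : ι → β} {a : κ → α} {b : κ → β} {l k : ι} {m : κ}

theorem ins_inl {x : Perm ι} {i j n : ι} :
    Ins (gm c r a b) x i j (Sum.inl n) ↔ ico (c i) (c n) (c j) ∧ ico (r (x i)) (r n) (r (x j)) :=
  Iff.rfl

theorem ins_inr {x : Perm ι} {i j : ι} {n : κ} :
    Ins (gm c r a b) x i j (Sum.inr n) ↔ ico (c i) (a n) (c j) ∧ ico (r (x i)) (b n) (r (x j)) :=
  Iff.rfl

theorem mem_iff {x : Perm ι} {i j : ι} {S : Finset (ι ⊕ κ)}
    (h : (univ.filter fun m' => Ins (gm c r a b) x i j m') = S) (n : ι ⊕ κ) :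
    Ins (gm c r a b) x i j n ↔ n ∈ S := by
  rw [← h]; simp

end Gen

end SB0

open SB0

theorem t_SB0 : Stmt_SB0 := by
  intro ι κ α β _ _ _ _ _ _ c r a b l k m B x i j hij _
  have hlk : l ≠ k := B.ne
  have ci := B.gd.ci
  have ri := B.gd.ri
  have hclk : c l ≠ c k := fun h => hlk (ci h)
  have hrlk : r l ≠ r k := fun h => hlk (ri h)
  refine ⟨fun h hx => ?_, fun h => ?_, fun h => ?_⟩
  · -- no marks
    have h0 := mem_iff h
    have hik : k ≠ i := by
      rintro rfl
      have := (h0 (Sum.inl k)).1 (ins_inl.2 ⟨Or.inl rfl, Or.inl (by rw [hx])⟩)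
      simp at this
    have hjk : k ≠ j := by
      rintro rfl
      have hxi : x i ≠ k := fun h' => hij (x.injective (h'.trans hx.symm))
      have := (h0 (Sum.inl l)).1 (ins_inl.2 ⟨pre' (B.ca i) hclk (fun h' => hij (ci h')), by
        rw [hx]; exact pre' (B.ra (x i)) hrlk (fun h' => hxi (ri h'))⟩)
      simp at this
    rw [Perm.mul_apply, swap_apply_of_ne_of_ne hik hjk, hx]
  · -- only the mark `X_k`
    have h0 := mem_iff h
    have h1 := ins_inl.1 ((h0 (Sum.inl k)).2 (by simp))
    have h2 : ¬ Ins (gm c r a b) x i j (Sum.inr m) := fun h' => by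
      have := (h0 (Sum.inr m)).1 h'
      simp at this
    rw [ins_inr, B.am, B.bm] at h2
    have h3 : ¬ ico (r (x i)) (r l) (r (x j)) := fun h' => h2 ⟨h1.1, h'⟩
    have hxi : x i = k := by
      by_contra hne
      exact h3 (pre (B.ra (x i)) hrlk (fun h' => hne (ri h')) h1.2)
    have hjk : j ≠ k := by
      rintro rfl
      rcases h1.1 with h' | h'
      · exact hij (ci h').symm
      · exact (cyc_ne h').2.1 rfl
    intro h'
    have h4 : (x * swap i j) j = k := by
      rw [Perm.mul_apply, swap_apply_right, hxi]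
    exact hjk ((x * swap i j).injective (h4.trans h'.symm))
  · -- only the mark `O_m`
    have h0 := mem_iff h
    have h1 := ins_inr.1 ((h0 (Sum.inr m)).2 (by simp))
    rw [B.am, B.bm] at h1
    have h2 : ¬ Ins (gm c r a b) x i j (Sum.inl k) := fun h' => by
      have := (h0 (Sum.inl k)).1 h'
      simp at this
    have h3 : ¬ Ins (gm c r a b) x i j (Sum.inl l) := fun h' => by
      have := (h0 (Sum.inl l)).1 h'
      simp at this
    rw [ins_inl] at h2 h3
    have hxij : r (x i) ≠ r (x j) := fun h' => hij (x.injective (ri h'))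
    have hxj : x j = k := by
      by_contra hne
      exact h2 ⟨h1.1, suc (B.ra (x i)) (B.ra (x j)) hrlk (fun h' => hne (ri h')) hxij h1.2⟩
    have hi : i = k := by
      by_contra hne
      exact h3 ⟨pre (B.ca i) hclk (fun h' => hne (ci h')) h1.1, h1.2⟩
    subst hi
    refine ⟨fun h' => hij (x.injective (h'.trans hxj.symm)), ?_⟩
    rw [Perm.mul_apply, swap_apply_left, hxj]

end LG
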