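import Pool.Agent.LG.Stmts

/-!
# Part D: SB1, the composite of the two special maps is the identity
-/

namespace LG

open Equiv Finset Function

namespace SB1

section

variable {ι κ α β : Type} [Fintype ι] [DecidableEq ι] [Fintype κ] [DecidableEq κ] [LinearOrder α]
  [LinearOrder β] {c : ι → α} {r : ι → β} {a : κ → α} {b : κ → β} {l k : ι} {m : κ}

theorem ar1 {γ : Type} [LinearOrder γ] {A B K L : γ} (hAB : A ≠ B) (hKL : L ≠ K)
    (h1 : ico A K B) (h2 : ¬ ico A L B) (h3 : ¬ cyc L A K) : A = K := by
  unfold ico cyc at *; grind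

theorem ar2 {γ : Type} [LinearOrder γ] {A B K L : γ} (hAB : A ≠ B) (hKL : L ≠ K)
    (h1 : ico A L B) (h2 : ¬ ico A K B) (h3 : ¬ cyc L B K) : B = K := by
  unfold ico cyc at *; grind

/-- the condition on a rectangle -/
def RC (c : ι → α) (r : ι → β) (a : κ → α) (b : κ → β) (S : Finset (ι ⊕ κ)) (x : Perm ι)
    (i j : ι) : Prop :=
  i ≠ j ∧ Emp (gm c r a b) x i j ∧ (univ.filter fun m => Ins (gm c r a b) x i j m) = S

instance (S : Finset (ι ⊕ κ)) (x : Perm ι) (i j : ι) : Decidable (RC c r a b S x i j) := by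
  unfold RC; infer_instance

theorem mem_iff {S : Finset (ι ⊕ κ)} {x : Perm ι} {i j : ι} (h : RC c r a b S x i j)
    (t : ι ⊕ κ) : t ∈ S ↔ Ins (gm c r a b) x i j t := by
  rw [← h.2.2]
  simp

theorem lem2 (hB : Blk c r a b l k m) {x : Perm ι} {i j : ι}
    (h : RC c r a b {Sum.inl k} x i j) : x i = k := by
  have h1 : Ins (gm c r a b) x i j (Sum.inl k) := (mem_iff h _).1 (by simp)
  have h2 : ¬ Ins (gm c r a b) x i j (Sum.inr m) := fun hh => by
    have := (mem_iff h _).2 hh
    simp at this
  have h1a : ico (c i) (c k) (c j) := h1.1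
  have h1b : ico (r (x i)) (r k) (r (x j)) := h1.2
  have h2b : ¬ ico (r (x i)) (r l) (r (x j)) := by
    intro hh
    apply h2
    refine ⟨?_, ?_⟩
    · show ico (c i) (a m) (c j)
      rw [hB.am]; exact h1a
    · show ico (r (x i)) (b m) (r (x j))
      rw [hB.bm]; exact hh
  apply hB.gd.ri
  refine ar1 ?_ ?_ h1b h2b (hB.ra (x i))
  · intro hh
    exact h.1 (x.injective (hB.gd.ri hh))
  · intro hh
    exact hB.ne (hB.gd.ri hh)

theorem lem3 (hB : Blk c r a b l k m) {x : Perm ι} {i j : ι}
    (h : RC c r a b {Sum.inr m} x i j) : i = k ∧ x j = k := by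
  have h1 : Ins (gm c r a b) x i j (Sum.inr m) := (mem_iff h _).1 (by simp)
  have h2 : ¬ Ins (gm c r a b) x i j (Sum.inl k) := fun hh => by
    have := (mem_iff h _).2 hh
    simp at this
  have h3 : ¬ Ins (gm c r a b) x i j (Sum.inl l) := fun hh => by
    have := (mem_iff h _).2 hh
    simp at this
  have h1a : ico (c i) (c k) (c j) := by
    have : ico (c i) (a m) (c j) := h1.1
    rwa [hB.am] at this
  have h1b : ico (r (x i)) (r l) (r (x j)) := by
    have : ico (r (x i)) (b m) (r (x j)) := h1.2
    rwa [hB.bm] at this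
  have h2b : ¬ ico (r (x i)) (r k) (r (x j)) := fun hh => h2 ⟨h1a, hh⟩
  have h3a : ¬ ico (c i) (c l) (c j) := fun hh => h3 ⟨hh, h1b⟩
  have hne : r (x i) ≠ r (x j) := fun hh => h.1 (x.injective (hB.gd.ri hh))
  have hnc : c i ≠ c j := fun hh => h.1 (hB.gd.ci hh)
  have hlk : r l ≠ r k := fun hh => hB.ne (hB.gd.ri hh)
  have hlkc : c l ≠ c k := fun hh => hB.ne (hB.gd.ci hh)
  refine ⟨?_, ?_⟩
  · apply hB.gd.ci
    exact ar1 hnc hlkc h1a h3a (hB.ca i)
  · apply hB.gd.ri
    exact ar2 hne hlk h1b h2b (hB.ra (x j))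

/-- the condition that `j` is the next circle after `k` -/
def Suc (c : ι → α) (k j : ι) : Prop := j ≠ k ∧ ∀ i, ¬ cyc (c k) (c i) (c j)

instance (k j : ι) : Decidable (Suc c k j) := by unfold Suc; infer_instance

omit [DecidableEq ι] in
theorem exists_suc [DecidableEq ι] (hc : Injective c) (h : ∃ j, j ≠ k) : ∃ j, Suc c k j := by
  obtain ⟨j0, hj0⟩ := h
  have hne : (univ.erase k : Finset ι).Nonempty := ⟨j0, by simp [hj0]⟩
  obtain ⟨j, hj, hmin⟩ := Finset.exists_min_image (univ.erase k)
    (fun j => (univ.filter fun i => cyc (c k) (c i) (c j)).card) hne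
  refine ⟨j, Finset.ne_of_mem_erase hj, ?_⟩
  intro i hi
  have hik : i ≠ k := by
    rintro rfl
    exact (cyc_ne hi).1 rfl
  have h1 := hmin i (by simp [hik])
  have h2 : (univ.filter fun i' => cyc (c k) (c i') (c i)) ⊂
      (univ.filter fun i' => cyc (c k) (c i') (c j)) := by
    rw [Finset.ssubset_iff_of_subset]
    · refine ⟨i, by simpa using hi, ?_⟩
      simp only [Finset.mem_filter, Finset.mem_univ, true_and]
      intro hh
      exact (cyc_ne hh).2.1 rfl
    · intro t ht
      simp only [Finset.mem_filter, Finset.mem_univ, true_and] at ht ⊢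
      exact cyc_trans ht hi
  have h3 := Finset.card_lt_card h2
  omega

omit [Fintype ι] [DecidableEq ι] in
theorem suc_unique (hc : Injective c) {j j' : ι} (h : Suc c k j) (h' : Suc c k j') : j = j' := by
  by_contra hne
  have h1 : c k ≠ c j := fun hh => h.1 (hc hh).symm
  have h2 : c k ≠ c j' := fun hh => h'.1 (hc hh).symm
  have h3 : c j ≠ c j' := fun hh => hne (hc hh)
  rcases cyc_total h1 h3 h2 with hh | hh
  · exact h'.2 j hh
  · exact h.2 j' hh

/-- both conditions together say that `j` is the next circle -/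
theorem both_iff (hB : Blk c r a b l k m) {z : Perm ι} (hz : z k = k) (j : ι) (hj : j ≠ k) :
    (RC c r a b {Sum.inl k} z k j ∧ RC c r a b {Sum.inr m} (z * Equiv.swap k j) k j) ↔ Suc c k j := by
  have hyk : (z * Equiv.swap k j) k = z j := by simp
  have hyj : (z * Equiv.swap k j) j = k := by simp [hz]
  have hzj : z j ≠ k := fun hh => hj (z.injective (hh.trans hz.symm))
  have hrj : r (z j) ≠ r k := fun hh => hzj (hB.gd.ri hh)
  constructor
  · rintro ⟨h1, h2⟩
    refine ⟨hj, fun i hi => ?_⟩
    have hik : i ≠ k := by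
      rintro rfl
      exact (cyc_ne hi).1 rfl
    have hij : i ≠ j := by
      rintro rfl
      exact (cyc_ne hi).2.1 rfl
    have e1 : ¬ (cyc (c k) (c i) (c j) ∧ cyc (r (z k)) (r (z i)) (r (z j))) := h1.2.1 i
    have e2 : ¬ (cyc (c k) (c i) (c j) ∧ cyc (r ((z * Equiv.swap k j) k)) (r ((z * Equiv.swap k j) i))
        (r ((z * Equiv.swap k j) j))) := h2.2.1 i
    have e3 : (z * Equiv.swap k j) i = z i := by
      rw [Perm.mul_apply, swap_apply_of_ne_of_ne hik hij]
    rw [hyk, hyj, e3] at e2
    rw [hz] at e1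
    have hzi : r (z i) ≠ r k := fun hh => hik (z.injective ((hB.gd.ri hh).trans hz.symm))
    have hzij : r (z i) ≠ r (z j) := fun hh => hij (z.injective (hB.gd.ri hh))
    rcases cyc_total hzi.symm hzij hrj.symm with hh | hh
    · exact e1 ⟨hi, hh⟩
    · exact e2 ⟨hi, cyc_rot.1 hh⟩
  · rintro ⟨-, hs⟩
    have hcol : ∀ t : ι ⊕ κ, ico (c k) (Sum.elim c a t) (c j) → t = Sum.inl k ∨ t = Sum.inr m := by
      intro t ht
      rcases t with i | n
      · rcases ht with hh | hh
        · left
          rw [hB.gd.ci hh]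
        · exact absurd hh (hs i)
      · obtain ⟨i, hi⟩ := hB.gd.ac n
        have ht' : ico (c k) (a n) (c j) := ht
        rw [hi] at ht'
        rcases ht' with hh | hh
        · right
          have : a n = a m := by rw [hi, hh, hB.am]
          rw [hB.gd.ai this]
        · exact absurd hh (hs i)
    have hl : ¬ ico (r k) (r l) (r (z j)) := by
      rintro (hh | hh)
      · exact hB.ne (hB.gd.ri hh)
      · exact hB.ra (z j) (cyc_rot.1 hh)
    have hl' : ico (r (z j)) (r l) (r k) := by
      rw [ico_compl hrj]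
      exact hl
    refine ⟨⟨hj.symm, fun i hi => hs i hi.1, ?_⟩, ⟨hj.symm, fun i hi => hs i hi.1, ?_⟩⟩
    · ext t
      simp only [Finset.mem_filter, Finset.mem_univ, true_and, Finset.mem_singleton]
      constructor
      · intro ht
        have ht1 : ico (c k) (Sum.elim c a t) (c j) := ht.1
        have ht2 : ico (r (z k)) (Sum.elim r b t) (r (z j)) := ht.2
        rcases hcol t ht1 with hh | hh
        · exact hh
        · exfalso
          rw [hh, hz] at ht2
          have : ico (r k) (b m) (r (z j)) := ht2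
          rw [hB.bm] at this
          exact hl this
      · rintro rfl
        refine ⟨Or.inl rfl, ?_⟩
        show ico (r (z k)) (r k) (r (z j))
        rw [hz]
        exact Or.inl rfl
    · ext t
      simp only [Finset.mem_filter, Finset.mem_univ, true_and, Finset.mem_singleton]
      constructor
      · intro ht
        have ht1 : ico (c k) (Sum.elim c a t) (c j) := ht.1
        have ht2 : ico (r ((z * Equiv.swap k j) k)) (Sum.elim r b t) (r ((z * Equiv.swap k j) j)) := ht.2
        rw [hyk, hyj] at ht2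
        rcases hcol t ht1 with hh | hh
        · exfalso
          rw [hh] at ht2
          have ht3 : ico (r (z j)) (r k) (r k) := ht2
          rcases ht3 with h4 | h4
          · exact hrj h4.symm
          · exact (cyc_ne h4).2.1 rfl
        · exact hh
      · rintro rfl
        refine ⟨?_, ?_⟩
        · show ico (c k) (a m) (c j)
          rw [hB.am]
          exact Or.inl rfl
        · show ico (r ((z * Equiv.swap k j) k)) (b m) (r ((z * Equiv.swap k j) j))
          rw [hyk, hyj, hB.bm]
          exact hl'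

theorem bdS_eq (S : Finset (ι ⊕ κ)) (f : Perm ι → ZMod 2) (y : Perm ι) :
    bdS c r a b S f y = ∑ i, ∑ j, f (y * Equiv.swap i j) *
      (if RC c r a b S (y * Equiv.swap i j) i j then 1 else 0) := rfl

theorem inner (hB : Blk c r a b l k m) {f : Perm ι → ZMod 2} (hf : ∀ x, x k ≠ k → f x = 0)
    {z : Perm ι} (hz : z k = k) (j : ι) (hj : j ≠ k) :
    bdS c r a b {Sum.inl k} f (z * Equiv.swap k j)
      = f z * (if RC c r a b {Sum.inl k} z k j then 1 else 0) := by
  rw [bdS_eq]
  set y := z * Equiv.swap k j with hy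
  have hyj : y j = k := by simp [hy, hz]
  have key : ∀ i j2, RC c r a b {Sum.inl k} (y * Equiv.swap i j2) i j2 → f (y * Equiv.swap i j2) ≠ 0 →
      i = k ∧ j2 = j := by
    intro i j2 h1 h2
    have h3 : (y * Equiv.swap i j2) k = k := by
      by_contra hh
      exact h2 (hf _ hh)
    have h4 : (y * Equiv.swap i j2) i = k := lem2 hB h1
    have h5 : i = k := (y * Equiv.swap i j2).injective (h4.trans h3.symm)
    refine ⟨h5, ?_⟩
    rw [h5] at h4
    have h6 : y j2 = k := by simpa using h4
    exact y.injective (h6.trans hyj.symm)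
  rw [Finset.sum_eq_single k, Finset.sum_eq_single j]
  · have e : y * Equiv.swap k j = z := by
      rw [hy, mul_assoc, swap_mul_self, mul_one]
    rw [e]
  · intro j2 _ hne
    by_cases h1 : RC c r a b {Sum.inl k} (y * Equiv.swap k j2) k j2
    · by_cases h2 : f (y * Equiv.swap k j2) = 0
      · rw [h2, zero_mul]
      · exact absurd (key k j2 h1 h2).2 hne
    · rw [if_neg h1, mul_zero]
  · intro h
    exact absurd (Finset.mem_univ j) h
  · intro i _ hne
    apply Finset.sum_eq_zero
    intro j2 _
    by_cases h1 : RC c r a b {Sum.inl k} (y * Equiv.swap i j2) i j2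
    · by_cases h2 : f (y * Equiv.swap i j2) = 0
      · rw [h2, zero_mul]
      · exact absurd (key i j2 h1 h2).1 hne
    · rw [if_neg h1, mul_zero]
  · intro h
    exact absurd (Finset.mem_univ k) h

end

end SB1

open SB1 in
theorem t_SB1 : Stmt_SB1 := by
  intro ι κ α β _ _ _ _ _ _ c r a b l k m hB f hf
  funext z
  rw [bdS_eq]
  have h0 : ∀ i j, RC c r a b {Sum.inr m} (z * Equiv.swap i j) i j → i = k ∧ z k = k := by
    intro i j h
    obtain ⟨h1, h2⟩ := lem3 hB h
    subst h1
    refine ⟨rfl, ?_⟩
    simpa using h2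
  by_cases hz : z k = k
  · rw [Finset.sum_eq_single k]
    · have h1 : ∀ j, bdS c r a b {Sum.inl k} f (z * Equiv.swap k j) *
          (if RC c r a b {Sum.inr m} (z * Equiv.swap k j) k j then 1 else 0)
          = if Suc c k j then f z else 0 := by
        intro j
        by_cases hj : j = k
        · have e1 : ¬ RC c r a b {Sum.inr m} (z * Equiv.swap k j) k j := fun h => h.1 hj.symm
          have e2 : ¬ Suc c k j := fun h => h.1 hj
          rw [if_neg e1, if_neg e2, mul_zero]
        · rw [inner hB hf hz j hj]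
          by_cases hs : Suc c k j
          · obtain ⟨h2, h3⟩ := (both_iff hB hz j hj).2 hs
            rw [if_pos h2, if_pos h3, if_pos hs, mul_one, mul_one]
          · rw [if_neg hs]
            by_cases h2 : RC c r a b {Sum.inl k} z k j
            · have h3 : ¬ RC c r a b {Sum.inr m} (z * Equiv.swap k j) k j := fun h =>
                hs ((both_iff hB hz j hj).1 ⟨h2, h⟩)
              rw [if_neg h3, mul_zero]
            · rw [if_neg h2, mul_zero, zero_mul]
      rw [Finset.sum_congr rfl fun j _ => h1 j]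
      obtain ⟨j0, hj0⟩ := exists_suc (c := c) (k := k) hB.gd.ci ⟨l, hB.ne⟩
      rw [Finset.sum_eq_single j0]
      · rw [if_pos hj0]
      · intro j _ hne
        rw [if_neg]
        intro hs
        exact hne (suc_unique hB.gd.ci hs hj0)
      · intro h
        exact absurd (Finset.mem_univ j0) h
    · intro i _ hne
      apply Finset.sum_eq_zero
      intro j _
      rw [if_neg (fun h => hne (h0 i j h).1), mul_zero]
    · intro h
      exact absurd (Finset.mem_univ k) h
  · rw [hf z hz]
    apply Finset.sum_eq_zero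
    intro i _
    apply Finset.sum_eq_zero
    intro j _
    rw [if_neg (fun h => hz (h0 i j h).2), mul_zero]

end LG
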