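import Pool.Agent.LG.Stmts

/-!
# SB2: the complex of the states through the centre of a block
-/

namespace LG

open Equiv Finset Function

namespace SB2

theorem ico_adj {α : Type*} [LinearOrder α] {A B K L : α} (hAB : A ≠ B) (hA : A ≠ K) (hB : B ≠ K)
    (hL : L ≠ K) (h1 : ¬ cyc L A K) (h2 : ¬ cyc L B K) : ico A K B ↔ ico A L B := by
  unfold ico cyc at *; grind

section

variable {ι κ α β : Type} [Fintype ι] [DecidableEq ι] [Fintype κ] [LinearOrder α] [LinearOrder β]

theorem wt_eq (c : ι → α) (r : ι → β) (a : κ → α) (b : κ → β) (x : Perm ι) (i j : ι) :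
    Wt (gm c r a b) x i j =
      if i ≠ j ∧ Emp (gm c r a b) x i j ∧ ∀ m, ¬ Ins (gm c r a b) x i j m then 1 else 0 := by
  unfold Wt
  by_cases h : i ≠ j ∧ Emp (gm c r a b) x i j
  · rw [if_pos h]
    by_cases h' : ∀ m, ¬ Ins (gm c r a b) x i j m
    · rw [if_pos ⟨h.1, h.2, h'⟩]
      exact Finset.prod_eq_one fun m _ => if_neg (h' m)
    · rw [if_neg fun hh => h' hh.2.2]
      push Not at h'
      obtain ⟨m, hm⟩ := h'
      exact Finset.prod_eq_zero (Finset.mem_univ m) (by rw [if_pos hm]; rfl)
  · rw [if_neg h, if_neg fun hh => h ⟨hh.1, hh.2.1⟩]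

end

section

variable {ι : Type} [DecidableEq ι]

/-- The extension of a permutation by the fixed point `k`. -/
def E (k : ι) : Perm {i // i ≠ k} →* Perm ι := Perm.ofSubtype

theorem E_k (k : ι) (s : Perm {i // i ≠ k}) : E k s k = k :=
  Perm.ofSubtype_apply_of_not_mem s (by simp)

theorem E_coe (k : ι) (s : Perm {i // i ≠ k}) (i : {i // i ≠ k}) : E k s i = (s i : ι) :=
  Perm.ofSubtype_apply_coe s i

theorem E_swap (k : ι) (i j : {i // i ≠ k}) : E k (swap i j) = swap (i : ι) j :=
  Perm.ofSubtype_swap_eq i j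

theorem E_inj (k : ι) : Injective (E k) := Perm.ofSubtype_injective

theorem E_surj (k : ι) {x : Perm ι} (hx : x k = k) : ∃ s, E k s = x := by
  have h1 : ∀ i, x i ≠ k ↔ i ≠ k := by
    intro i
    refine not_congr ⟨fun h => x.injective (h.trans hx.symm), fun h => by rw [h, hx]⟩
  refine ⟨x.subtypePerm h1, ?_⟩
  exact Perm.ofSubtype_subtypePerm h1 (fun i hi hik => hi (by rw [hik, hx]))

end

section

variable {ι κ α β : Type} [Fintype ι] [DecidableEq ι] [Fintype κ] [DecidableEq κ] [LinearOrder α]
  [LinearOrder β] {c : ι → α} {r : ι → β} {a : κ → α} {b : κ → β} {l k : ι} {m : κ}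

theorem key (hb : Blk c r a b l k m) (s : Perm {i // i ≠ k}) (i j : {i // i ≠ k}) :
    Wt (gm c r a b) (E k s) i j =
      Wt (gm (fun i : {i // i ≠ k} => c i) (fun i : {i // i ≠ k} => r i)
        (fun n : {n // n ≠ m} => a n)
        (fun n : {n // n ≠ m} => if b n = r k then r l else b n)) s i j := by
  rw [wt_eq, wt_eq]
  have hc : ∀ i' : ι, i' ≠ k → c i' ≠ c k := fun i' h h' => h (hb.gd.ci h')
  have hr : ∀ i' : ι, i' ≠ k → r i' ≠ r k := fun i' h h' => h (hb.gd.ri h')
  have hcol : i ≠ j → (ico (c i) (c k) (c j) ↔ ico (c i) (c l) (c j)) := fun hij =>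
    ico_adj (fun h => hij (Subtype.ext (hb.gd.ci h))) (hc _ i.2) (hc _ j.2) (hc _ hb.ne) (hb.ca _)
      (hb.ca _)
  have hrow : i ≠ j → (ico (r (s i)) (r k) (r (s j)) ↔ ico (r (s i)) (r l) (r (s j))) := fun hij =>
    ico_adj (fun h => hij (s.injective (Subtype.ext (hb.gd.ri h)))) (hr _ (s i).2) (hr _ (s j).2)
      (hr _ hb.ne) (hb.ra _) (hb.ra _)
  refine if_congr ?_ rfl rfl
  constructor
  · rintro ⟨h1, h2, h3⟩
    have hij : i ≠ j := fun h => h1 (by rw [h])
    refine ⟨hij, ?_, ?_⟩
    · intro k'
      have := h2 k'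
      simp only [gm, E_coe] at this ⊢
      exact this
    · rintro (i' | ⟨n, hn⟩)
      · have := h3 (Sum.inl i')
        simp only [Ins, gm, E_coe, Sum.elim_inl] at this ⊢
        exact this
      · have := h3 (Sum.inr n)
        simp only [Ins, gm, E_coe, Sum.elim_inr] at this ⊢
        by_cases hn' : b n = r k
        · rw [if_pos hn']
          rw [hn', hrow hij] at this
          exact this
        · rw [if_neg hn']
          exact this
  · rintro ⟨hij, h2, h3⟩
    have hl : ¬ (ico (c i) (c l) (c j) ∧ ico (r (s i)) (r l) (r (s j))) := by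
      have := h3 (Sum.inl ⟨l, hb.ne⟩)
      simp only [Ins, gm, Sum.elim_inl] at this
      exact this
    refine ⟨fun h => hij (Subtype.ext h), ?_, ?_⟩
    · intro k'
      by_cases hk' : k' = k
      · subst hk'
        simp only [gm, E_coe, E_k]
        rintro ⟨h4, h5⟩
        exact hl ⟨(hcol hij).1 (Or.inr h4), (hrow hij).1 (Or.inr h5)⟩
      · have := h2 ⟨k', hk'⟩
        have h6 : E k s k' = (s ⟨k', hk'⟩ : ι) := E_coe k s ⟨k', hk'⟩
        simp only [gm] at this
        simp only [gm, E_coe, h6]
        exact this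
    · rintro (i' | n)
      · by_cases hi' : i' = k
        · subst hi'
          simp only [Ins, gm, E_coe, Sum.elim_inl]
          rintro ⟨h4, h5⟩
          exact hl ⟨(hcol hij).1 h4, (hrow hij).1 h5⟩
        · have := h3 (Sum.inl ⟨i', hi'⟩)
          simp only [Ins, gm, E_coe, Sum.elim_inl] at this ⊢
          exact this
      · by_cases hn : n = m
        · subst hn
          simp only [Ins, gm, E_coe, Sum.elim_inr]
          rintro ⟨h4, h5⟩
          rw [hb.am] at h4
          rw [hb.bm] at h5
          exact hl ⟨(hcol hij).1 h4, h5⟩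
        · have := h3 (Sum.inr ⟨n, hn⟩)
          simp only [Ins, gm, E_coe, Sum.elim_inr] at this ⊢
          by_cases hn' : b n = r k
          · rw [if_pos hn'] at this
            rw [hn', hrow hij]
            exact this
          · rw [if_neg hn'] at this
            exact this

theorem bd_E (hb : Blk c r a b l k m) (f : Perm ι → ZMod 2) (hf : ∀ x, x k ≠ k → f x = 0)
    (s : Perm {i // i ≠ k}) :
    bd c r a b f (E k s) =
      bd (fun i : {i // i ≠ k} => c i) (fun i : {i // i ≠ k} => r i)
        (fun n : {n // n ≠ m} => a n)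
        (fun n : {n // n ≠ m} => if b n = r k then r l else b n) (fun t => f (E k t)) s := by
  have h0 : ∀ i j : ι, (i = k ∨ j = k) →
      f (E k s * swap i j) * Wt (gm c r a b) (E k s * swap i j) i j = 0 := by
    intro i j hij
    by_cases h : i = j
    · rw [wt_eq, if_neg (fun hh => hh.1 h), mul_zero]
    · rw [hf, zero_mul]
      rcases hij with rfl | rfl
      · rw [Perm.mul_apply, swap_apply_left]
        intro h'
        exact h ((E i s).injective (h'.trans (E_k i s).symm)).symm
      · rw [Perm.mul_apply, swap_apply_right]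
        intro h'
        exact h ((E j s).injective (h'.trans (E_k j s).symm))
  unfold bd del
  have h1 : ∀ g : ι → ZMod 2, g k = 0 → ∑ i, g i = ∑ i : {i // i ≠ k}, g i := by
    intro g hg
    rw [← Finset.sum_subtype (s := univ.filter (· ≠ k)) (f := g) (by simp)]
    refine (Finset.sum_subset (Finset.filter_subset _ _) ?_).symm
    intro i _ hi
    have : i = k := by simpa using hi
    rw [this, hg]
  rw [h1 _ (Finset.sum_eq_zero fun j _ => h0 k j (Or.inl rfl))]
  refine Finset.sum_congr rfl fun i _ => ?_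
  rw [h1 _ (h0 _ k (Or.inr rfl))]
  refine Finset.sum_congr rfl fun j _ => ?_
  have h2 : E k s * swap (i : ι) j = E k (s * swap i j) := by rw [map_mul, E_swap]
  rw [h2, key hb]

end

end SB2

open SB2 in
theorem t_SB2 : Stmt_SB2 := by
  intro ι κ α β _ _ _ _ _ _ c r a b l k m hb
  have hone : ∀ s : Perm {i // i ≠ k},
      (Pi.single 1 1 : Perm ι → ZMod 2) (E k s) =
        (Pi.single 1 1 : Perm {i // i ≠ k} → ZMod 2) s := by
    intro s
    by_cases hs : s = 1
    · rw [hs, map_one, Pi.single_eq_same, Pi.single_eq_same]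
    · rw [Pi.single_eq_of_ne hs, Pi.single_eq_of_ne]
      intro h
      exact hs (E_inj k (h.trans (map_one _).symm))
  constructor
  · rintro ⟨f', hf'⟩
    have he : ∀ t, Function.extend (E k) f' 0 (E k t) = f' t := fun t =>
      (E_inj k).extend_apply f' 0 t
    have hsup : ∀ x : Perm ι, x k ≠ k → Function.extend (E k) f' 0 x = 0 := by
      intro x hx
      rw [Function.extend_apply']
      · rfl
      · rintro ⟨t, ht⟩
        exact hx (by rw [← ht, E_k])
    refine ⟨Function.extend (E k) f' 0, hsup, ?_⟩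
    intro y hy
    obtain ⟨s, rfl⟩ := E_surj k hy
    rw [bd_E hb _ hsup s, hone, ← hf']
    have : (fun t => Function.extend (E k) f' 0 (E k t)) = f' := funext he
    rw [this]
  · rintro ⟨f, hf, hy⟩
    refine ⟨fun t => f (E k t), ?_⟩
    funext s
    rw [← bd_E hb f hf s, hy _ (E_k k s), hone]

end LG
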