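import Pool.Agent.LG.Stmts

/-!
# SR1: short rows with the step to the right
-/

namespace LG.SR1

open Equiv Finset Function

section Shift

variable {α : Type*} [LinearOrder α]

theorem shift1 {p q x y z : α} (hx : x ≠ q) (hy : y ≠ q) (hz : z ≠ q) (ax : ¬ cyc p x q)
    (ay : ¬ cyc p y q) (az : ¬ cyc p z q) :
    cyc x y z ↔ cyc (if x = p then q else x) (if y = p then q else y) (if z = p then q else z) := by
  unfold cyc at *
  split_ifs <;> grind

theorem shift2 {p q x y z : α} (hx : x ≠ p) (hy : y ≠ p) (hz : z ≠ p) (ax : ¬ cyc p x q)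
    (ay : ¬ cyc p y q) (az : ¬ cyc p z q) :
    cyc x y z ↔ cyc (if x = q then p else x) (if y = q then p else y) (if z = q then p else z) := by
  unfold cyc at *
  split_ifs <;> grind

theorem fam1 {X : Type*} {p q : α} {P P' : X → α} (h : ∀ x, P' x = if P x = p then q else P x)
    (hq : ∀ x, P x ≠ q) (ha : ∀ x, ¬ cyc p (P x) q) :
    (∀ x y z, cyc (P x) (P y) (P z) ↔ cyc (P' x) (P' y) (P' z)) ∧
      ∀ x y, P x = P y ↔ P' x = P' y := by
  constructor
  · intro x y z
    rw [h, h, h]
    exact shift1 (hq x) (hq y) (hq z) (ha x) (ha y) (ha z)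
  · intro x y
    rw [h, h]
    have h1 := hq x
    have h2 := hq y
    split_ifs <;> grind

theorem fam2 {X : Type*} {p q : α} {P P' : X → α} (h : ∀ x, P' x = if P x = q then p else P x)
    (hq : ∀ x, P x ≠ p) (ha : ∀ x, ¬ cyc p (P x) q) :
    (∀ x y z, cyc (P x) (P y) (P z) ↔ cyc (P' x) (P' y) (P' z)) ∧
      ∀ x y, P x = P y ↔ P' x = P' y := by
  constructor
  · intro x y z
    rw [h, h, h]
    exact shift2 (hq x) (hq y) (hq z) (ha x) (ha y) (ha z)
  · intro x y
    rw [h, h]
    have h1 := hq x
    have h2 := hq y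
    split_ifs <;> grind

/-- The next row. -/
theorem next {ι : Type*} [Fintype ι] (r : ι → α) (l k : ι)
    (h : ∃ i, cyc (r l) (r i) (r k)) :
    ∃ j, cyc (r l) (r j) (r k) ∧ ∀ i, ¬ cyc (r l) (r i) (r j) := by
  classical
  obtain ⟨i0, hi0⟩ := h
  obtain ⟨j, hj, hmin⟩ := Finset.exists_min_image (univ.filter fun i => cyc (r l) (r i) (r k))
    (fun j => (univ.filter fun i => cyc (r l) (r i) (r j)).card) ⟨i0, by simp [hi0]⟩
  have hj' : cyc (r l) (r j) (r k) := by simpa using hj
  refine ⟨j, hj', ?_⟩
  intro i hi
  have h1 : cyc (r l) (r i) (r k) := by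
    unfold cyc at *; grind
  have h2 := hmin i (by simp [h1])
  have h3 : (univ.filter fun i' => cyc (r l) (r i') (r i)).card <
      (univ.filter fun i' => cyc (r l) (r i') (r j)).card := by
    apply Finset.card_lt_card
    rw [Finset.ssubset_iff_of_subset]
    · refine ⟨i, by simp [hi], ?_⟩
      intro h
      have h4 : cyc (r l) (r i) (r i) := by simpa using h
      unfold cyc at h4; grind
    · intro i' hi'
      have h4 : cyc (r l) (r i') (r i) := by simpa using hi'
      have h5 : cyc (r l) (r i') (r j) := by unfold cyc at *; grind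
      simp [h5]
  omega

end Shift

section Main

variable {ι κ α β : Type} [Fintype ι] [DecidableEq ι] [Fintype κ] [DecidableEq κ] [LinearOrder α]
  [LinearOrder β]

/-- The bijection of the labels. -/
def eqv (l k : ι) : {i // i ≠ k} ≃ {i // i ≠ l} :=
  (swap l k).subtypeEquiv (by
    intro a
    constructor
    · intro h h'
      apply h
      rw [swap_apply_eq_iff, swap_apply_left] at h'
      exact h'
    · intro h h'
      apply h
      rw [h']
      exact swap_apply_right l k)

theorem base (hSTB : P_STB) (hREL : Stmt_REL) (c : ι → α) (r : ι → β) (a : κ → α) (b : κ → β)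
    (l k : ι) (m n : κ) (hS : Srt c r a b l k m n) (hc : ∀ i, ¬ cyc (c l) (c i) (c k))
    (hr : ∀ i, ¬ cyc (r l) (r i) (r k)) :
    V c r a b ↔ V (fun i : {i // i ≠ l} => c i) (fun i : {i // i ≠ l} => r i)
        (fun n' : {n' // n' ≠ m} => if a n' = c l then c k else a n')
        (fun n' : {n' // n' ≠ m} => b n') := by
  have hB : Blk c r a b l k m := ⟨hS.gd, hS.ne, hc, hr, hS.am, hS.bm⟩
  rw [hSTB ι κ α β c r a b l k m hB]
  have hcol := fam1 (α := α) (X := {i // i ≠ k} ⊕ {n' // n' ≠ m}) (p := c l) (q := c k)
    (P := Sum.elim (fun i : {i // i ≠ k} => c i) (fun n' : {n' // n' ≠ m} => a n'))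
    (P' := fun x => Sum.elim (fun i : {i // i ≠ l} => c i)
      (fun n' : {n' // n' ≠ m} => if a n' = c l then c k else a n')
      (Equiv.sumCongr (eqv l k) (Equiv.refl _) x)) ?_ ?_ ?_
  · have hrow := fam2 (α := β) (X := {i // i ≠ k} ⊕ {n' // n' ≠ m}) (p := r l) (q := r k)
      (P := fun x => Sum.elim (fun i : {i // i ≠ l} => r i) (fun n' : {n' // n' ≠ m} => b n')
        (Equiv.sumCongr (eqv l k) (Equiv.refl _) x))
      (P' := Sum.elim (fun i : {i // i ≠ k} => r i)
        (fun n' : {n' // n' ≠ m} => if b n' = r k then r l else b n')) ?_ ?_ ?_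
    · exact hREL _ _ _ _ _ _ _ _ _ _ _ _ _ _ _ _ (eqv l k) (Equiv.refl _) hcol.1 hcol.2
        (fun x y z => (hrow.1 x y z).symm) (fun x y => (hrow.2 x y).symm)
    · rintro (⟨i, hi⟩ | ⟨n', hn'⟩)
      · simp only [Sum.elim_inl, Equiv.sumCongr_apply, Sum.map_inl, eqv, Equiv.subtypeEquiv_apply]
        by_cases h : i = l
        · subst h
          rw [swap_apply_left, if_pos rfl]
        · rw [swap_apply_of_ne_of_ne h hi, if_neg]
          intro h'
          exact hi (hS.gd.ri h')
      · simp only [Sum.elim_inr, Equiv.sumCongr_apply, Sum.map_inr, Equiv.refl_apply]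
    · rintro (⟨i, hi⟩ | ⟨n', hn'⟩)
      · simp only [Sum.elim_inl, Equiv.sumCongr_apply, Sum.map_inl, eqv, Equiv.subtypeEquiv_apply]
        intro h
        have h1 := hS.gd.ri h
        rw [swap_apply_eq_iff, swap_apply_left] at h1
        exact hi h1
      · simp only [Sum.elim_inr, Equiv.sumCongr_apply, Sum.map_inr, Equiv.refl_apply]
        intro h
        rw [← hS.bm] at h
        exact hn' (hS.gd.bi h)
    · rintro (⟨i, hi⟩ | ⟨n', hn'⟩)
      · simp only [Sum.elim_inl, Equiv.sumCongr_apply, Sum.map_inl, eqv, Equiv.subtypeEquiv_apply]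
        exact hr _
      · simp only [Sum.elim_inr, Equiv.sumCongr_apply, Sum.map_inr, Equiv.refl_apply]
        obtain ⟨i, hi⟩ := hS.gd.br n'
        rw [hi]
        exact hr i
  · rintro (⟨i, hi⟩ | ⟨n', hn'⟩)
    · simp only [Sum.elim_inl, Equiv.sumCongr_apply, Sum.map_inl, eqv, Equiv.subtypeEquiv_apply]
      by_cases h : i = l
      · subst h
        rw [swap_apply_left, if_pos rfl]
      · rw [swap_apply_of_ne_of_ne h hi, if_neg]
        intro h'
        exact h (hS.gd.ci h')
    · simp only [Sum.elim_inr, Equiv.sumCongr_apply, Sum.map_inr, Equiv.refl_apply]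
  · rintro (⟨i, hi⟩ | ⟨n', hn'⟩)
    · intro h
      exact hi (hS.gd.ci h)
    · intro h
      have h' : a n' = c k := h
      rw [← hS.am] at h'
      exact hn' (hS.gd.ai h')
  · rintro (⟨i, hi⟩ | ⟨n', hn'⟩)
    · exact hc i
    · obtain ⟨i, hi⟩ := hS.gd.ac n'
      show ¬ cyc (c l) (a n') (c k)
      rw [hi]
      exact hc i

theorem main (hROW : P_ROW) (hSTB : P_STB) (hREL : Stmt_REL) (c : ι → α) (a : κ → α)
    (l k : ι) (m n : κ) (N : ℕ) : ∀ (r : ι → β) (b : κ → β), Srt c r a b l k m n →
    (∀ i, ¬ cyc (c l) (c i) (c k)) → cyc (r l) (r k) (b n) →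
    (univ.filter fun i => cyc (r l) (r i) (r k)).card ≤ N →
    (V c r a b ↔ V (fun i : {i // i ≠ l} => c i) (fun i : {i // i ≠ l} => r i)
        (fun n' : {n' // n' ≠ m} => if a n' = c l then c k else a n')
        (fun n' : {n' // n' ≠ m} => b n')) := by
  induction N with
  | zero =>
    intro r b hS hc hn hN
    apply base hSTB hREL c r a b l k m n hS hc
    intro i hi
    have h1 : (univ.filter fun i => cyc (r l) (r i) (r k)) = ∅ := by
      rw [← Finset.card_eq_zero]; omega
    have h2 : i ∈ (univ.filter fun i => cyc (r l) (r i) (r k)) := by simp [hi]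
    rw [h1] at h2
    simp at h2
  | succ N ih =>
    intro r b hS hc hn hN
    by_cases hex : ∃ i, cyc (r l) (r i) (r k)
    · obtain ⟨j, hj1, hj2⟩ := next r l k hex
      have hjl : j ≠ l := by
        rintro rfl
        unfold cyc at hj1; grind
      have hjk : j ≠ k := by
        rintro rfl
        unfold cyc at hj1; grind
      have hrlj : r l ≠ r j := fun h => hjl (hS.gd.ri h).symm
      have hrkl : r k ≠ r l := fun h => hS.ne (hS.gd.ri h).symm
      have hrkj : r k ≠ r j := fun h => hjk (hS.gd.ri h).symm
      have hbl : b n ≠ r l := by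
        intro h; rw [h] at hn; unfold cyc at hn; grind
      have hbj : b n ≠ r j := by
        intro h; rw [h] at hn; unfold cyc at hn hj1; grind
      obtain ⟨mj, hmj⟩ := hS.gd.rb j
      have haj : a mj ≠ c l := by
        intro h
        rw [← hS.an] at h
        have h1 := hS.gd.ai h
        rw [h1] at hmj
        exact hbj hmj.symm
      have haj2 : a mj ≠ c k := by
        intro h
        rw [← hS.am] at h
        have h1 := hS.gd.ai h
        rw [h1, hS.bm] at hmj
        exact hrlj hmj.symm
      have hU : Unl (c l) (a m) (c j) (a mj) := by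
        rw [hS.am]
        refine ⟨fun h => hjl (hS.gd.ci h).symm, haj.symm, fun h => hjk (hS.gd.ci h).symm,
          haj2.symm, ?_⟩
        constructor
        · intro h
          exact absurd h (hc j)
        · intro h
          obtain ⟨i, hi⟩ := hS.gd.ac mj
          rw [hi] at h
          exact absurd h (hc i)
      rw [hROW ι κ α β c r a b hS.gd l j m mj hjl.symm hj2 hS.bm hmj.symm hU]
      set r' : ι → β := swap (r l) (r j) ∘ r with hr'
      set b' : κ → β := swap (r l) (r j) ∘ b with hb'
      have r'l : r' l = r j := swap_apply_left _ _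
      have r'j : r' j = r l := swap_apply_right _ _
      have r'o : ∀ i, i ≠ l → i ≠ j → r' i = r i := by
        intro i h1 h2
        exact swap_apply_of_ne_of_ne (fun h => h1 (hS.gd.ri h)) (fun h => h2 (hS.gd.ri h))
      have b'n : b' n = b n := swap_apply_of_ne_of_ne hbl hbj
      have hS' : Srt c r' a b' l k m n := by
        refine ⟨⟨hS.gd.ci, (swap (r l) (r j)).injective.comp hS.gd.ri, hS.gd.ai,
          (swap (r l) (r j)).injective.comp hS.gd.bi, hS.gd.ac, hS.gd.ca, ?_, ?_, ?_⟩, hS.ne,
          hS.am, ?_, hS.an⟩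
        · intro m'
          obtain ⟨i, hi⟩ := hS.gd.br m'
          exact ⟨i, by rw [hr', hb', comp_apply, comp_apply, hi]⟩
        · intro i
          obtain ⟨m', hm'⟩ := hS.gd.rb i
          exact ⟨m', by rw [hr', hb', comp_apply, comp_apply, hm']⟩
        · intro i m' h
          exact hS.gd.ne i m' ⟨h.1, (swap (r l) (r j)).injective h.2⟩
        · rw [hr', hb', comp_apply, comp_apply, hS.bm]
      have hn' : cyc (r' l) (r' k) (b' n) := by
        rw [r'l, b'n, r'o k hS.ne.symm hjk.symm]
        unfold cyc at *; grind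
      have hcard : (univ.filter fun i => cyc (r' l) (r' i) (r' k)).card ≤ N := by
        have hlt : (univ.filter fun i => cyc (r' l) (r' i) (r' k)).card <
            (univ.filter fun i => cyc (r l) (r i) (r k)).card := by
          apply Finset.card_lt_card
          rw [Finset.ssubset_iff_of_subset]
          · refine ⟨j, by simp [hj1], ?_⟩
            intro h
            have h1 : cyc (r' l) (r' j) (r' k) := by simpa using h
            rw [r'l, r'j, r'o k hS.ne.symm hjk.symm] at h1
            unfold cyc at h1 hj1; grind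
          · intro i h
            have h1 : cyc (r' l) (r' i) (r' k) := by simpa using h
            have h2 : cyc (r l) (r i) (r k) := by
              rw [r'l, r'o k hS.ne.symm hjk.symm] at h1
              by_cases hil : i = l
              · rw [hil, r'l] at h1
                unfold cyc at h1; grind
              · by_cases hij : i = j
                · rw [hij, r'j] at h1
                  unfold cyc at h1 hj1; grind
                · rw [r'o i hil hij] at h1
                  unfold cyc at h1 hj1 ⊢; grind
            simp [h2]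
        omega
      rw [ih r' b' hS' hc hn' hcard]
      have hrow := fam2 (α := β) (X := {i // i ≠ l} ⊕ {n' // n' ≠ m}) (p := r l) (q := r j)
        (P := Sum.elim (fun i : {i // i ≠ l} => r i) (fun n' : {n' // n' ≠ m} => b n'))
        (P' := Sum.elim (fun i : {i // i ≠ l} => r' i)
          (fun n' : {n' // n' ≠ m} => b' n')) ?_ ?_ ?_
      · apply hREL _ _ _ _ _ _ _ _ _ _ _ _ _ _ _ _ (Equiv.refl _) (Equiv.refl _)
        · intro x y z; simp
        · intro x y; simp
        · intro x y z
          simp only [Equiv.sumCongr_refl, Equiv.refl_apply]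
          exact (hrow.1 x y z).symm
        · intro x y
          simp only [Equiv.sumCongr_refl, Equiv.refl_apply]
          exact (hrow.2 x y).symm
      · rintro (⟨i, hi⟩ | ⟨n', hn''⟩)
        · simp only [Sum.elim_inl]
          by_cases hij : i = j
          · rw [hij, if_pos rfl, r'j]
          · rw [if_neg (fun h => hij (hS.gd.ri h)), r'o i hi hij]
        · simp only [Sum.elim_inr]
          by_cases h : b n' = r j
          · rw [if_pos h, hb', comp_apply, h, swap_apply_right]
          · rw [if_neg h, hb', comp_apply]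
            apply swap_apply_of_ne_of_ne _ h
            intro h'
            rw [← hS.bm] at h'
            exact hn'' (hS.gd.bi h')
      · rintro (⟨i, hi⟩ | ⟨n', hn''⟩)
        · intro h
          exact hi (hS.gd.ri h)
        · intro h
          have h' : b n' = r l := h
          rw [← hS.bm] at h'
          exact hn'' (hS.gd.bi h')
      · rintro (⟨i, hi⟩ | ⟨n', hn''⟩)
        · exact hj2 i
        · obtain ⟨i, hi⟩ := hS.gd.br n'
          show ¬ cyc (r l) (b n') (r j)
          rw [hi]
          exact hj2 i
    · push Not at hex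
      exact base hSTB hREL c r a b l k m n hS hc hex

end Main

end LG.SR1

namespace LG

open Equiv Finset Function

theorem t_SR1 : Stmt_SR1 := by
  intro hROW hSTB hREL ι κ α β _ _ _ _ _ _ c r a b l k m n hS hc hn
  exact SR1.main hROW hSTB hREL c a l k m n _ r b hS hc hn le_rfl

end LG
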