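import Pool.Agent.LG.Stmts

/-!
# SR2: short rows with the step to the left
-/

namespace LG

open Equiv Finset Function

namespace SR2

theorem gd_transpose {ι κ α β : Type} [LinearOrder α] [LinearOrder β] {c : ι → α} {r : ι → β}
    {a : κ → α} {b : κ → β} (h : Gd c r a b) : Gd r c b a :=
  ⟨h.ri, h.ci, h.bi, h.ai, h.br, h.rb, h.ac, h.ca, fun k m h' => h.ne k m ⟨h'.2, h'.1⟩⟩

/-- The last circle of an arc. -/
theorem exists_last {ι β : Type} [Fintype ι] [LinearOrder β] (r : ι → β) (k l : ι)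
    (h : ∃ i, cyc (r k) (r i) (r l)) :
    ∃ j, cyc (r k) (r j) (r l) ∧ ∀ i, ¬ cyc (r j) (r i) (r l) := by
  classical
  obtain ⟨i₀, hi₀⟩ := h
  obtain ⟨j, hj, hmin⟩ := Finset.exists_min_image
    (univ.filter fun i => cyc (r k) (r i) (r l))
    (fun i => (univ.filter fun i' => cyc (r i) (r i') (r l)).card) ⟨i₀, by simpa using hi₀⟩
  rw [mem_filter] at hj
  refine ⟨j, hj.2, fun i hi => ?_⟩
  have h1 : cyc (r k) (r i) (r l) := by
    have := hj.2
    unfold cyc at *; grind
  have h2 := hmin i (by simpa using h1)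
  have h3 : (univ.filter fun i' => cyc (r i) (r i') (r l)) ⊂
      (univ.filter fun i' => cyc (r j) (r i') (r l)) := by
    rw [Finset.ssubset_iff_of_subset]
    · refine ⟨i, by simpa using hi, ?_⟩
      simp only [mem_filter, mem_univ, true_and]
      unfold cyc; grind
    · intro i' hi'
      simp only [mem_filter, mem_univ, true_and] at hi' ⊢
      unfold cyc at *; grind
  exact absurd (Finset.card_lt_card h3) (by omega)

/-- The exchange of two rows keeps a grid diagram. -/
theorem gd_swap {ι κ α β : Type} [LinearOrder α] [LinearOrder β] {c : ι → α} {r : ι → β}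
    {a : κ → α} {b : κ → β} (h : Gd c r a b) (s t : β) :
    Gd c (swap s t ∘ r) a (swap s t ∘ b) where
  ci := h.ci
  ri := (swap s t).injective.comp h.ri
  ai := h.ai
  bi := (swap s t).injective.comp h.bi
  ac := h.ac
  ca := h.ca
  br m := by
    obtain ⟨k, hk⟩ := h.br m
    exact ⟨k, by simp [hk]⟩
  rb k := by
    obtain ⟨m, hm⟩ := h.rb k
    exact ⟨m, by simp [hm]⟩
  ne k m := by
    rintro ⟨h1, h2⟩
    exact h.ne k m ⟨h1, (swap s t).injective h2⟩

/-- The reduced diagrams before and after the exchange agree. -/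
theorem reduced (hR : Stmt_REL) {ι κ α β : Type} [Fintype ι] [DecidableEq ι] [Fintype κ]
    [DecidableEq κ] [LinearOrder α] [LinearOrder β] {c : ι → α} {r : ι → β} {a : κ → α}
    {b : κ → β} (hG : Gd c r a b) (l j : ι) (m : κ) (hbm : b m = r l) (hjl : j ≠ l)
    (hadj : ∀ i, ¬ cyc (r j) (r i) (r l)) (a' : {n' // n' ≠ m} → α) :
    V (fun i : {i // i ≠ l} => c i) (fun i : {i // i ≠ l} => (swap (r j) (r l) ∘ r) i) a'
      (fun n' : {n' // n' ≠ m} => (swap (r j) (r l) ∘ b) n') ↔
    V (fun i : {i // i ≠ l} => c i) (fun i : {i // i ≠ l} => r i) a'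
      (fun n' : {n' // n' ≠ m} => b n') := by
  have key : ∀ i1 i2 i3 : ι, i1 ≠ l → i2 ≠ l → i3 ≠ l →
      (cyc (swap (r j) (r l) (r i1)) (swap (r j) (r l) (r i2)) (swap (r j) (r l) (r i3)) ↔
        cyc (r i1) (r i2) (r i3)) := by
    intro i1 i2 i3 h1 h2 h3
    have hs : ∀ i, i ≠ l → swap (r j) (r l) (r i) = if i = j then r l else r i := by
      intro i hi
      split_ifs with h
      · subst h; simp
      · exact swap_apply_of_ne_of_ne (fun h' => h (hG.ri h')) (fun h' => hi (hG.ri h'))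
    rw [hs i1 h1, hs i2 h2, hs i3 h3]
    have e1 : r i1 ≠ r l := fun h => h1 (hG.ri h)
    have e2 : r i2 ≠ r l := fun h => h2 (hG.ri h)
    have e3 : r i3 ≠ r l := fun h => h3 (hG.ri h)
    have e4 : r j ≠ r l := fun h => hjl (hG.ri h)
    have g1 := hadj i1
    have g2 := hadj i2
    have g3 := hadj i3
    have f1 : i1 ≠ j → r i1 ≠ r j := fun h h' => h (hG.ri h')
    have f2 : i2 ≠ j → r i2 ≠ r j := fun h h' => h (hG.ri h')
    have f3 : i3 ≠ j → r i3 ≠ r j := fun h h' => h (hG.ri h')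
    split_ifs with c1 c2 c3 <;> (try subst c1) <;> (try subst c2) <;> (try subst c3) <;>
      unfold cyc at * <;> grind
  have hval : ∀ x : {i // i ≠ l} ⊕ {n' // n' ≠ m}, ∃ i : ι, i ≠ l ∧
      Sum.elim (fun i : {i // i ≠ l} => r i) (fun n' : {n' // n' ≠ m} => b n') x = r i ∧
      Sum.elim (fun i : {i // i ≠ l} => (swap (r j) (r l) ∘ r) i)
        (fun n' : {n' // n' ≠ m} => (swap (r j) (r l) ∘ b) n') x = swap (r j) (r l) (r i) := by
    rintro (i | n')
    · exact ⟨i, i.2, rfl, rfl⟩
    · obtain ⟨i, hi⟩ := hG.br n'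
      refine ⟨i, ?_, hi, ?_⟩
      · rintro rfl
        exact n'.2 (hG.bi (hi.trans hbm.symm))
      · simp [hi]
  refine hR _ _ _ _ _ _ _ _ _ _ _ _ _ _ _ _ (Equiv.refl _) (Equiv.refl _) ?_ ?_ ?_ ?_
  · intro x y z; simp
  · intro x y; simp
  · intro x y z
    obtain ⟨i1, h1, e1, e1'⟩ := hval x
    obtain ⟨i2, h2, e2, e2'⟩ := hval y
    obtain ⟨i3, h3, e3, e3'⟩ := hval z
    rw [e1', e2', e3']
    simp only [Equiv.sumCongr_refl, Equiv.coe_refl, id]
    rw [e1, e2, e3]
    exact key i1 i2 i3 h1 h2 h3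
  · intro x y
    obtain ⟨i1, h1, e1, e1'⟩ := hval x
    obtain ⟨i2, h2, e2, e2'⟩ := hval y
    rw [e1', e2']
    simp only [Equiv.sumCongr_refl, Equiv.coe_refl, id]
    rw [e1, e2]
    exact (swap (r j) (r l)).injective.eq_iff

end SR2

open SR2 in
theorem t_SR2 : Stmt_SR2 := by
  intro hRow hStb hR hT ι κ α β _ _ _ _ _ _ c r a b l k m n
  suffices H : ∀ (N : ℕ) (r : ι → β) (b : κ → β),
      (univ.filter fun i => cyc (r k) (r i) (r l)).card = N → Srt c r a b l k m n →
      (∀ i, ¬ cyc (c k) (c i) (c l)) → cyc (b n) (r k) (r l) →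
      (V c r a b ↔ V (fun i : {i // i ≠ l} => c i) (fun i : {i // i ≠ l} => r i)
        (fun n' : {n' // n' ≠ m} => if a n' = c l then c k else a n')
        (fun n' : {n' // n' ≠ m} => b n')) from
    fun hS h1 h2 => H _ r b rfl hS h1 h2
  intro N
  induction N using Nat.strong_induction_on with
  | _ N ih =>
  intro r b hN hS hca hcy
  have hG := hS.gd
  have hlk := hS.ne
  by_cases hex : ∃ i, cyc (r k) (r i) (r l)
  · obtain ⟨j, hj, hadj⟩ := exists_last r k l hex
    obtain ⟨m', hm'⟩ := hG.rb j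
    have hjk : j ≠ k := by rintro rfl; exact (cyc_ne hj).1 rfl
    have hjl : j ≠ l := by rintro rfl; exact (cyc_ne hj).2.1 rfl
    have hbnj : b n ≠ r j := by
      intro h; rw [h] at hcy; unfold cyc at *; grind
    have hbnl : b n ≠ r l := fun h => (cyc_ne hcy).2.2 h
    have hm'n : m' ≠ n := by rintro rfl; exact hbnj hm'.symm
    have hm'm : m' ≠ m := by
      rintro rfl
      exact hjl (hG.ri (hm'.trans hS.bm))
    have hrjl : r j ≠ r l := fun h => hjl (hG.ri h)
    have hrjk : r j ≠ r k := fun h => hjk (hG.ri h)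
    have hrkl : r k ≠ r l := fun h => hlk (hG.ri h.symm)
    have hU : Unl (c j) (a m') (c l) (a m) := by
      obtain ⟨i, hi⟩ := hG.ac m'
      have h1 : c j ≠ c l := fun h => hjl (hG.ci h)
      have h2 : c j ≠ c k := fun h => hjk (hG.ci h)
      have h3 : a m' ≠ c l := fun h => hm'n (hG.ai (h.trans hS.an.symm))
      have h4 : a m' ≠ c k := fun h => hm'm (hG.ai (h.trans hS.am.symm))
      have h5 := hca j
      have h6 := hca i
      rw [← hi] at h6
      have h7 : c k ≠ c l := fun h => hlk (hG.ci h.symm)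
      rw [hS.am]
      refine ⟨h1, h2, h3, h4, ?_⟩
      unfold cyc at *; grind
    rw [hRow ι κ α β c r a b hG j l m' m hjl hadj hm'.symm hS.bm hU]
    have hrk : swap (r j) (r l) (r k) = r k := swap_apply_of_ne_of_ne hrjk.symm hrkl
    have hrl : swap (r j) (r l) (r l) = r j := swap_apply_right _ _
    have hbn : swap (r j) (r l) (b n) = b n := swap_apply_of_ne_of_ne hbnj hbnl
    have hS' : Srt c (swap (r j) (r l) ∘ r) a (swap (r j) (r l) ∘ b) l k m n :=
      ⟨gd_swap hG _ _, hlk, hS.am, by simp [hS.bm], hS.an⟩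
    have hcy' : cyc ((swap (r j) (r l) ∘ b) n) ((swap (r j) (r l) ∘ r) k)
        ((swap (r j) (r l) ∘ r) l) := by
      simp only [comp_apply, hrk, hrl, hbn]
      unfold cyc at *; grind
    have hlt : (univ.filter fun i => cyc ((swap (r j) (r l) ∘ r) k)
        ((swap (r j) (r l) ∘ r) i) ((swap (r j) (r l) ∘ r) l)).card < N := by
      rw [← hN]
      apply Finset.card_lt_card
      rw [Finset.ssubset_iff_of_subset]
      · refine ⟨j, by simpa using hj, ?_⟩
        simp only [mem_filter, mem_univ, true_and, comp_apply, hrk, hrl, swap_apply_left]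
        unfold cyc at *; grind
      · intro i hi
        simp only [mem_filter, mem_univ, true_and, comp_apply, hrk, hrl] at hi ⊢
        by_cases h1 : i = j
        · subst h1; exact hj
        by_cases h2 : i = l
        · subst h2
          rw [swap_apply_right] at hi
          exact absurd rfl (cyc_ne hi).2.1
        rw [swap_apply_of_ne_of_ne (fun h => h1 (hG.ri h)) (fun h => h2 (hG.ri h))] at hi
        unfold cyc at *; grind
    rw [ih _ hlt _ _ rfl hS' hca hcy']
    exact reduced hR hG l j m hS.bm hjl hadj _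
  · push Not at hex
    have hB : Blk r c b a k l m :=
      ⟨gd_transpose hG, hlk.symm, hex, hca, hS.bm, hS.am⟩
    rw [hT ι κ α β c r a b, hStb ι κ β α r c b a k l m hB]
    exact hT _ _ _ _ _ _ _ _

end LG
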