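import Pool.Agent.LG.Stmts

/-!
# Part D: invariance under destabilisation
-/

namespace LG

open Equiv Finset Function

namespace STB

variable {ι κ α β : Type} [Fintype ι] [DecidableEq ι] [Fintype κ] [DecidableEq κ]
  [LinearOrder α] [LinearOrder β]

theorem bdS_add (c : ι → α) (r : ι → β) (a : κ → α) (b : κ → β) (S : Finset (ι ⊕ κ))
    (f g : Perm ι → ZMod 2) :
    bdS c r a b S (f + g) = bdS c r a b S f + bdS c r a b S g := by
  funext y
  simp only [bdS, Pi.add_apply, add_mul, Finset.sum_add_distrib]

/-- If every admissible rectangle into `y` starts at a zero of `f`, then the value is zero. -/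
theorem bdS_zero (c : ι → α) (r : ι → β) (a : κ → α) (b : κ → β) (S : Finset (ι ⊕ κ))
    (f : Perm ι → ZMod 2) (y : Perm ι)
    (h : ∀ i j, i ≠ j → Emp (gm c r a b) (y * Equiv.swap i j) i j →
      (univ.filter fun m => Ins (gm c r a b) (y * Equiv.swap i j) i j m) = S →
      f (y * Equiv.swap i j) = 0) : bdS c r a b S f y = 0 := by
  unfold bdS
  refine Finset.sum_eq_zero fun i _ => Finset.sum_eq_zero fun j _ => ?_
  split_ifs with hc
  · rw [h i j hc.1 hc.2.1 hc.2.2, zero_mul]
  · rw [mul_zero]

end STB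

theorem t_STB : Stmt_STB := by
  intro hE h0 h1 h2 ι κ α β _ _ _ _ _ _ c r a b l k m hB
  rw [h2 ι κ α β c r a b l k m hB]
  have hD : ∀ f, bdS c r a b ∅ f = bd c r a b f := fun f =>
    (hE ι κ α β c r a b hB.gd (Sum.inr m) f).2
  have s0 := h0 ι κ α β c r a b l k m hB
  have back : ∀ (y : Perm ι) (i j : ι), y * Equiv.swap i j * Equiv.swap i j = y := fun y i j => by
    rw [mul_assoc, Equiv.swap_mul_self, mul_one]
  -- the differential preserves the support
  have supD : ∀ f : Perm ι → ZMod 2, (∀ x, x k ≠ k → f x = 0) →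
      ∀ y : Perm ι, y k ≠ k → bdS c r a b ∅ f y = 0 := by
    intro f hf y hy
    refine STB.bdS_zero c r a b ∅ f y fun i j hij he hm => ?_
    by_contra hne
    have hx : (y * Equiv.swap i j) k = k := by
      by_contra hx
      exact hne (hf _ hx)
    have := (s0 (y * Equiv.swap i j) i j hij he).1 hm hx
    rw [back] at this
    exact hy this
  have supB : ∀ f : Perm ι → ZMod 2, ∀ y : Perm ι, y k ≠ k →
      bdS c r a b {Sum.inr m} f y = 0 := by
    intro f y hy
    refine STB.bdS_zero c r a b {Sum.inr m} f y fun i j hij he hm => ?_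
    have := ((s0 (y * Equiv.swap i j) i j hij he).2.2 hm).2
    rw [back] at this
    exact absurd this hy
  have single0 : ∀ y : Perm ι, y k ≠ k → (Pi.single 1 1 : Perm ι → ZMod 2) y = 0 := by
    intro y hy
    refine Pi.single_eq_of_ne ?_ _
    rintro rfl
    exact hy rfl
  constructor
  · rintro ⟨f, hf⟩
    set fI : Perm ι → ZMod 2 := fun x => if x k = k then f x else 0 with hfI
    set fN : Perm ι → ZMod 2 := fun x => if x k = k then 0 else f x with hfN
    have hsum : fI + fN = f := by
      funext x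
      simp only [hfI, hfN, Pi.add_apply]
      split_ifs <;> simp
    have hI0 : ∀ x : Perm ι, x k ≠ k → fI x = 0 := by
      intro x hx
      simp only [hfI, if_neg hx]
    have hDf : bdS c r a b ∅ fI + bdS c r a b ∅ fN = Pi.single 1 1 := by
      rw [← STB.bdS_add, hsum, hD, hf]
    have hN0 : ∀ y : Perm ι, y k ≠ k → bdS c r a b ∅ fN y = 0 := by
      intro y hy
      have e := congrFun hDf y
      rw [Pi.add_apply, supD fI hI0 y hy, single0 y hy, zero_add] at e
      exact e
    refine ⟨fI + bdS c r a b {Sum.inr m} (bdS c r a b {Sum.inl k} fN), ?_, ?_⟩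
    · intro x hx
      rw [Pi.add_apply, hI0 x hx, supB _ x hx, zero_add]
    · intro y _
      have e1 : bdS c r a b ∅ (bdS c r a b {Sum.inr m} (bdS c r a b {Sum.inl k} fN)) =
          bdS c r a b ∅ fN := by
        rw [← (hE ι κ α β c r a b hB.gd (Sum.inr m) _).1,
          ← (hE ι κ α β c r a b hB.gd (Sum.inl k) _).1,
          h1 ι κ α β c r a b l k m hB _ hN0]
      rw [← hD, STB.bdS_add, e1, hDf]
  · rintro ⟨f, hf, hb⟩
    refine ⟨f, ?_⟩
    funext y
    by_cases hy : y k = k
    · exact hb y hy
    · rw [← hD, supD f hf y hy, single0 y hy]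

end LG
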