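import Pool.Agent.LG.Stmts

/-!
# Module LG_TRN: transposition of the fully blocked grid complex
-/

open Equiv Finset Function

namespace LG

namespace TRN

variable {ι κ α β : Type} [Fintype ι] [DecidableEq ι] [Fintype κ] [LinearOrder α] [LinearOrder β]

theorem ia (x : Perm ι) (i : ι) : x⁻¹ (x i) = i := x.symm_apply_apply i

theorem ai (x : Perm ι) (i : ι) : x (x⁻¹ i) = i := x.apply_symm_apply i

theorem emp_iff (c : ι → α) (r : ι → β) (a : κ → α) (b : κ → β) (x : Perm ι) (i j : ι) :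
    Emp (gm r c b a) x i j ↔ Emp (gm c r a b) x⁻¹ (x i) (x j) := by
  unfold Emp gm
  simp only
  constructor
  · intro h k hk
    refine h (x⁻¹ k) ?_
    simp only [ia, ai] at hk ⊢
    exact ⟨hk.2, hk.1⟩
  · intro h k hk
    refine h (x k) ?_
    simp only [ia]
    exact ⟨hk.2, hk.1⟩

theorem ins_iff (c : ι → α) (r : ι → β) (a : κ → α) (b : κ → β) (x : Perm ι) (i j : ι)
    (m : ι ⊕ κ) :
    Ins (gm r c b a) x i j m ↔ Ins (gm c r a b) x⁻¹ (x i) (x j) m := by
  unfold Ins gm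
  simp only [ia]
  exact and_comm

theorem wt_eq (c : ι → α) (r : ι → β) (a : κ → α) (b : κ → β) (x : Perm ι) (i j : ι) :
    Wt (gm r c b a) x i j = Wt (gm c r a b) x⁻¹ (x i) (x j) := by
  unfold Wt
  have h1 : (i ≠ j ∧ Emp (gm r c b a) x i j) ↔ (x i ≠ x j ∧ Emp (gm c r a b) x⁻¹ (x i) (x j)) :=
    and_congr (x.injective.ne_iff).symm (emp_iff c r a b x i j)
  have h2 : (∏ m, (if Ins (gm r c b a) x i j m then (gm r c b a).w m else 1)) =
      ∏ m, (if Ins (gm c r a b) x⁻¹ (x i) (x j) m then (gm c r a b).w m else 1) := by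
    refine Finset.prod_congr rfl fun m _ => ?_
    exact if_congr (ins_iff c r a b x i j m) rfl rfl
  exact if_congr h1 h2 rfl

theorem sum_reindex (y : Perm ι) (H : ι → ι → ZMod 2) :
    (∑ i, ∑ j, H (y j) (y i)) = ∑ i, ∑ j, H i j := by
  rw [Finset.sum_comm]
  calc (∑ j, ∑ i, H (y j) (y i)) = ∑ j, ∑ i, H (y j) i := by
        refine Finset.sum_congr rfl fun j _ => ?_
        exact Equiv.sum_comp y (fun i => H (y j) i)
    _ = ∑ j, ∑ i, H j i := Equiv.sum_comp y (fun j => ∑ i, H j i)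

theorem inv_mul_swap (y : Perm ι) (i j : ι) :
    (y * Equiv.swap i j)⁻¹ = y⁻¹ * Equiv.swap (y j) (y i) := by
  rw [mul_inv_rev, Equiv.swap_inv, Equiv.swap_comm (y j) (y i), Equiv.mul_swap_eq_swap_mul]
  simp only [ia]

theorem del_inv (c : ι → α) (r : ι → β) (a : κ → α) (b : κ → β) (f : Perm ι → ZMod 2)
    (y : Perm ι) :
    bd r c b a (fun x => f x⁻¹) y = bd c r a b f y⁻¹ := by
  have key : ∀ i j : ι, f (y * Equiv.swap i j)⁻¹ *
        Wt (gm r c b a) (y * Equiv.swap i j) i j =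
      f (y⁻¹ * Equiv.swap (y j) (y i)) *
        Wt (gm c r a b) (y⁻¹ * Equiv.swap (y j) (y i)) (y j) (y i) := by
    intro i j
    have h1 : (y * Equiv.swap i j) i = y j := by
      rw [Equiv.Perm.mul_apply, Equiv.swap_apply_left]
    have h2 : (y * Equiv.swap i j) j = y i := by
      rw [Equiv.Perm.mul_apply, Equiv.swap_apply_right]
    rw [wt_eq c r a b (y * Equiv.swap i j) i j, inv_mul_swap, h1, h2]
  have h := sum_reindex y (fun i j => f (y⁻¹ * Equiv.swap i j) *
    Wt (gm c r a b) (y⁻¹ * Equiv.swap i j) i j)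
  unfold bd del
  rw [← h]
  exact Finset.sum_congr rfl fun i _ => Finset.sum_congr rfl fun j _ => key i j

theorem one_way (c : ι → α) (r : ι → β) (a : κ → α) (b : κ → β) (h : V c r a b) :
    V r c b a := by
  obtain ⟨f, hf⟩ := h
  refine ⟨fun x => f x⁻¹, ?_⟩
  funext y
  rw [del_inv, hf]
  by_cases hy : y = 1
  · subst hy; simp
  · have hy' : y⁻¹ ≠ 1 := fun h => hy (inv_eq_one.mp h)
    rw [Pi.single_eq_of_ne hy, Pi.single_eq_of_ne hy']

end TRN

theorem t_TRN : Stmt_TRN := by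
  intro ι κ α β _ _ _ _ _ c r a b
  exact ⟨TRN.one_way c r a b, TRN.one_way r c b a⟩

end LG
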