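import Pool.Agent.LG.Stmts

/-!
# Part D: WR
-/

namespace LG

open Equiv Finset Function

namespace WR

theorem cyc_in {β : Type} [LinearOrder β] {a b c d : β} (h₁ : cyc a b d) (h₂ : cyc b c d) :
    cyc a c d ∧ cyc a b c := by
  unfold cyc at *; grind

/-- The last circle before `l`. -/
theorem exists_last {ι β : Type} [Fintype ι] [LinearOrder β] (r : ι → β) (k l : ι)
    (h : ∃ i, cyc (r k) (r i) (r l)) :
    ∃ j, cyc (r k) (r j) (r l) ∧ ∀ i, ¬ cyc (r j) (r i) (r l) := by
  classical
  obtain ⟨i0, hi0⟩ := h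
  obtain ⟨j, hj, hmin⟩ := Finset.exists_min_image
    (univ.filter fun i => cyc (r k) (r i) (r l))
    (fun j => (univ.filter fun i => cyc (r j) (r i) (r l)).card) ⟨i0, by simpa using hi0⟩
  have hj' : cyc (r k) (r j) (r l) := by simpa using hj
  refine ⟨j, hj', fun i hi => ?_⟩
  have hi' : i ∈ univ.filter fun i => cyc (r k) (r i) (r l) := by
    simpa using (cyc_in hj' hi).1
  have h1 := hmin i hi'
  have h2 : (univ.filter fun i' => cyc (r i) (r i') (r l)) ⊂
      (univ.filter fun i' => cyc (r j) (r i') (r l)) := by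
    rw [Finset.ssubset_iff_of_subset]
    · refine ⟨i, by simpa using hi, ?_⟩
      simp only [mem_filter, mem_univ, true_and]
      unfold cyc; grind
    · intro i' h'
      simp only [mem_filter, mem_univ, true_and] at h' ⊢
      exact (cyc_in hi h').1
  exact absurd (Finset.card_lt_card h2) (by omega)

theorem gd_swap {ι κ α β : Type} [LinearOrder α] [LinearOrder β]
    {c : ι → α} {r : ι → β} {a : κ → α} {b : κ → β} (h : Gd c r a b) (s : Perm β) :
    Gd c (s ∘ r) a (s ∘ b) where
  ci := h.ci
  ri := s.injective.comp h.ri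
  ai := h.ai
  bi := s.injective.comp h.bi
  ac := h.ac
  ca := h.ca
  br := fun m => by
    obtain ⟨k, hk⟩ := h.br m
    exact ⟨k, congrArg s hk⟩
  rb := fun k => by
    obtain ⟨m, hm⟩ := h.rb k
    exact ⟨m, congrArg s hm⟩
  ne := fun k m hh => h.ne k m ⟨hh.1, s.injective hh.2⟩

theorem unl_adj {α : Type} [LinearOrder α] {x y u v : α} (hx : ¬ cyc u x v) (hy : ¬ cyc u y v)
    (h1 : x ≠ u) (h2 : x ≠ v) (h3 : y ≠ u) (h4 : y ≠ v) (h5 : u ≠ v) : Unl x y u v := by
  refine ⟨h1, h2, h3, h4, ?_⟩
  unfold cyc at *; grind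

theorem main (hrow : P_ROW) (hblk : Stmt_BLK) (N : ℕ) :
    ∀ (ι κ α β : Type) [Fintype ι] [DecidableEq ι] [Fintype κ] [DecidableEq κ] [LinearOrder α]
    [LinearOrder β] (c : ι → α) (r : ι → β) (a : κ → α) (b : κ → β) (l k : ι) (m n : κ),
    Srt c r a b l k m n → (∀ i, ¬ cyc (c l) (c i) (c k)) → cyc (r l) (b n) (r k) →
    (univ.filter fun i => cyc (r k) (r i) (r l)).card = N → V c r a b := by
  induction N using Nat.strong_induction_on with
  | _ N ih =>
  intro ι κ α β _ _ _ _ _ _ c r a b l k m n hs hadj hc hN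
  by_cases he : ∃ i, cyc (r k) (r i) (r l)
  · obtain ⟨j, hj, hlast⟩ := exists_last r k l he
    obtain ⟨m', hm'⟩ := hs.gd.rb j
    obtain ⟨i', hi'⟩ := hs.gd.ac m'
    have hjl : j ≠ l := by
      rintro rfl; unfold cyc at hj; grind
    have hjk : j ≠ k := by
      rintro rfl; unfold cyc at hj; grind
    have hbj : b n ≠ r j := by
      intro h; rw [h] at hc; unfold cyc at hj hc; grind
    have hnm : n ≠ m := by
      rintro rfl
      exact hs.ne (hs.gd.ci (hs.an.symm.trans hs.am))
    have hbl : b n ≠ r l := by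
      intro h; exact hnm (hs.gd.bi (h.trans hs.bm.symm))
    have hm'n : m' ≠ n := by
      rintro rfl; exact hbj hm'.symm
    have hm'm : m' ≠ m := by
      rintro rfl; exact hjl (hs.gd.ri (hm'.trans hs.bm))
    have hunl : Unl (c j) (a m') (c l) (a m) := by
      rw [hs.am]
      refine unl_adj (hadj j) (by rw [hi']; exact hadj i') (fun h => hjl (hs.gd.ci h))
        (fun h => hjk (hs.gd.ci h)) ?_ ?_ (fun h => hs.ne (hs.gd.ci h))
      · rw [← hs.an]; exact fun h => hm'n (hs.gd.ai h)
      · rw [← hs.am]; exact fun h => hm'm (hs.gd.ai h)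
    rw [hrow ι κ α β c r a b hs.gd j l m' m hjl hlast hm'.symm hs.bm hunl]
    have e1 : (swap (r j) (r l) ∘ r) l = r j := by simp
    have e2 : (swap (r j) (r l) ∘ r) k = r k := by
      simp only [comp_apply]
      exact swap_apply_of_ne_of_ne (fun h => hjk (hs.gd.ri h.symm))
        (fun h => hs.ne (hs.gd.ri h.symm))
    have e3 : (swap (r j) (r l) ∘ b) n = b n := by
      simp only [comp_apply]
      exact swap_apply_of_ne_of_ne hbj hbl
    have e4 : (swap (r j) (r l) ∘ b) m = r j := by
      simp [hs.bm]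
    refine ih _ ?_ ι κ α β c (swap (r j) (r l) ∘ r) a (swap (r j) (r l) ∘ b) l k m n
      ⟨gd_swap hs.gd _, hs.ne, hs.am, by rw [e1, e4], hs.an⟩ hadj ?_ rfl
    · rw [← hN]
      apply Finset.card_lt_card
      rw [Finset.ssubset_iff_of_subset]
      · refine ⟨j, by simpa using hj, ?_⟩
        simp only [mem_filter, mem_univ, true_and, e1, e2]
        simp only [comp_apply, swap_apply_left]
        unfold cyc at *; grind
      · intro i hi
        simp only [mem_filter, mem_univ, true_and, e1, e2] at hi ⊢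
        simp only [comp_apply] at hi
        by_cases h1 : r i = r j
        · rw [h1]; exact hj
        · by_cases h2 : r i = r l
          · rw [h2, swap_apply_right] at hi
            exact absurd rfl (cyc_ne hi).2.1
          · rw [swap_apply_of_ne_of_ne h1 h2] at hi
            unfold cyc at *; grind
    · rw [e1, e2, e3]
      unfold cyc at *; grind
  · refine hblk ι κ α β c r a b hs.gd l k m hs.ne hs.am hs.bm hadj (fun i hi => he ⟨i, hi⟩) ?_
    intro n' hn' hb
    have hnn : n' = n := hs.gd.ai (hn'.trans hs.an.symm)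
    rw [hnn] at hb
    exact (cyc_ne hc).2.1 hb

end WR

theorem t_WR : Stmt_WR := by
  intro hrow hblk ι κ α β _ _ _ _ _ _ c r a b l k m n hs hadj hc
  exact WR.main hrow hblk _ ι κ α β c r a b l k m n hs hadj hc rfl

end LG
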