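import Pool.Agent.LG.Stmts

/-!
# WT0: rectangles without common vertical circles commute
-/

set_option autoImplicit false
set_option linter.unusedVariables false

namespace LG

open Equiv Finset Function

namespace WT0

theorem key1 {α β : Type} [LinearOrder α] [LinearOrder β] (pi pj pk pl : α) (a b c d : β)
    (hij : pi ≠ pj) (hik : pi ≠ pk) (hil : pi ≠ pl) (hjk : pj ≠ pk) (hjl : pj ≠ pl)
    (hkl : pk ≠ pl) (hab : a ≠ b) (hac : a ≠ c) (had : a ≠ d) (hbc : b ≠ c) (hbd : b ≠ d)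
    (hcd : c ≠ d)
    (h1 : ¬ (cyc pi pk pj ∧ cyc a c b)) (h2 : ¬ (cyc pi pl pj ∧ cyc a d b))
    (h3 : ¬ (cyc pk pi pl ∧ cyc c b d)) (h4 : ¬ (cyc pk pj pl ∧ cyc c a d)) :
    ¬ (cyc pk pi pl ∧ cyc c a d) := by
  unfold cyc at *
  grind

theorem key2 {α β : Type} [LinearOrder α] [LinearOrder β] (pi pj pk pl : α) (a b c d : β)
    (hij : pi ≠ pj) (hik : pi ≠ pk) (hil : pi ≠ pl) (hjk : pj ≠ pk) (hjl : pj ≠ pl)
    (hkl : pk ≠ pl) (hab : a ≠ b) (hac : a ≠ c) (had : a ≠ d) (hbc : b ≠ c) (hbd : b ≠ d)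
    (hcd : c ≠ d)
    (h1 : ¬ (cyc pi pk pj ∧ cyc a c b)) (h2 : ¬ (cyc pi pl pj ∧ cyc a d b))
    (h3 : ¬ (cyc pk pi pl ∧ cyc c b d)) (h4 : ¬ (cyc pk pj pl ∧ cyc c a d)) :
    ¬ (cyc pk pj pl ∧ cyc c b d) := by
  unfold cyc at *
  grind

theorem key3 {α β : Type} [LinearOrder α] [LinearOrder β] (pi pj pk pl : α) (a b c d : β)
    (hij : pi ≠ pj) (hik : pi ≠ pk) (hil : pi ≠ pl) (hjk : pj ≠ pk) (hjl : pj ≠ pl)
    (hkl : pk ≠ pl) (hab : a ≠ b) (hac : a ≠ c) (had : a ≠ d) (hbc : b ≠ c) (hbd : b ≠ d)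
    (hcd : c ≠ d)
    (h1 : ¬ (cyc pi pk pj ∧ cyc a c b)) (h2 : ¬ (cyc pi pl pj ∧ cyc a d b))
    (h3 : ¬ (cyc pk pi pl ∧ cyc c b d)) (h4 : ¬ (cyc pk pj pl ∧ cyc c a d)) :
    ¬ (cyc pi pk pj ∧ cyc a d b) := by
  unfold cyc at *
  grind

theorem key4 {α β : Type} [LinearOrder α] [LinearOrder β] (pi pj pk pl : α) (a b c d : β)
    (hij : pi ≠ pj) (hik : pi ≠ pk) (hil : pi ≠ pl) (hjk : pj ≠ pk) (hjl : pj ≠ pl)
    (hkl : pk ≠ pl) (hab : a ≠ b) (hac : a ≠ c) (had : a ≠ d) (hbc : b ≠ c) (hbd : b ≠ d)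
    (hcd : c ≠ d)
    (h1 : ¬ (cyc pi pk pj ∧ cyc a c b)) (h2 : ¬ (cyc pi pl pj ∧ cyc a d b))
    (h3 : ¬ (cyc pk pi pl ∧ cyc c b d)) (h4 : ¬ (cyc pk pj pl ∧ cyc c a d)) :
    ¬ (cyc pi pl pj ∧ cyc a c b) := by
  unfold cyc at *
  grind

theorem not_cyc_left {α : Type} [LinearOrder α] (a b : α) : ¬ cyc a a b := by
  intro h
  exact (cyc_ne h).1 rfl

theorem not_cyc_right {α : Type} [LinearOrder α] (a b : α) : ¬ cyc a b b := by
  intro h
  exact (cyc_ne h).2.1 rfl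

section

variable {ι M α β R : Type} [Fintype ι] [DecidableEq ι] [Fintype M] [LinearOrder α]
  [LinearOrder β] [CommRing R]

theorem emp (G : MG ι M α β R) (hu : Injective G.u) (hv : Injective G.v) (x : Perm ι)
    (i j k l : ι) (hij : i ≠ j) (hkl : k ≠ l) (hik : i ≠ k) (hil : i ≠ l) (hjk : j ≠ k)
    (hjl : j ≠ l) (h1 : Emp G x i j) (h2 : Emp G (x * swap i j) k l) :
    Emp G x k l ∧ Emp G (x * swap k l) i j := by
  have xk : (x * swap i j) k = x k := by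
    rw [Perm.mul_apply, swap_apply_of_ne_of_ne hik.symm hjk.symm]
  have xl : (x * swap i j) l = x l := by
    rw [Perm.mul_apply, swap_apply_of_ne_of_ne hil.symm hjl.symm]
  have xi : (x * swap i j) i = x j := by rw [Perm.mul_apply, swap_apply_left]
  have xj : (x * swap i j) j = x i := by rw [Perm.mul_apply, swap_apply_right]
  have yi : (x * swap k l) i = x i := by
    rw [Perm.mul_apply, swap_apply_of_ne_of_ne hik hil]
  have yj : (x * swap k l) j = x j := by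
    rw [Perm.mul_apply, swap_apply_of_ne_of_ne hjk hjl]
  have yk : (x * swap k l) k = x l := by rw [Perm.mul_apply, swap_apply_left]
  have yl : (x * swap k l) l = x k := by rw [Perm.mul_apply, swap_apply_right]
  have U : ∀ {p q : ι}, p ≠ q → G.u p ≠ G.u q := fun h h' => h (hu h')
  have W : ∀ {p q : ι}, p ≠ q → G.v (x p) ≠ G.v (x q) := fun h h' => h (x.injective (hv h'))
  have f1 := h1 k
  have f2 := h1 l
  have f3 := h2 i
  have f4 := h2 j
  rw [xk, xl, xi] at f3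
  rw [xk, xl, xj] at f4
  refine ⟨?_, ?_⟩
  · intro k'
    by_cases e1 : k' = k
    · subst e1
      exact fun h => not_cyc_left _ _ h.1
    by_cases e2 : k' = l
    · subst e2
      exact fun h => not_cyc_right _ _ h.1
    by_cases e3 : k' = i
    · subst e3
      exact key1 _ _ _ _ _ _ _ _ (U hij) (U hik) (U hil) (U hjk) (U hjl) (U hkl) (W hij) (W hik)
        (W hil) (W hjk) (W hjl) (W hkl) f1 f2 f3 f4
    by_cases e4 : k' = j
    · subst e4
      exact key2 _ _ _ _ _ _ _ _ (U hij) (U hik) (U hil) (U hjk) (U hjl) (U hkl) (W hij) (W hik)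
        (W hil) (W hjk) (W hjl) (W hkl) f1 f2 f3 f4
    have g := h2 k'
    rw [xk, xl, Perm.mul_apply, swap_apply_of_ne_of_ne e3 e4] at g
    exact g
  · intro k'
    rw [yi, yj]
    by_cases e1 : k' = k
    · subst e1
      rw [yk]
      exact key3 _ _ _ _ _ _ _ _ (U hij) (U hik) (U hil) (U hjk) (U hjl) (U hkl) (W hij) (W hik)
        (W hil) (W hjk) (W hjl) (W hkl) f1 f2 f3 f4
    by_cases e2 : k' = l
    · subst e2
      rw [yl]
      exact key4 _ _ _ _ _ _ _ _ (U hij) (U hik) (U hil) (U hjk) (U hjl) (U hkl) (W hij) (W hik)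
        (W hil) (W hjk) (W hjl) (W hkl) f1 f2 f3 f4
    rw [Perm.mul_apply, swap_apply_of_ne_of_ne e1 e2]
    exact h1 k'

/-- the product over the marks -/
noncomputable def pr (G : MG ι M α β R) (x : Perm ι) (i j : ι) : R :=
  ∏ m, (if Ins G x i j m then G.w m else 1)

theorem pr_swap (G : MG ι M α β R) (x : Perm ι) (i j k l : ι) (hik : i ≠ k) (hil : i ≠ l)
    (hjk : j ≠ k) (hjl : j ≠ l) : pr G (x * swap i j) k l = pr G x k l := by
  have xk : (x * swap i j) k = x k := by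
    rw [Perm.mul_apply, swap_apply_of_ne_of_ne hik.symm hjk.symm]
  have xl : (x * swap i j) l = x l := by
    rw [Perm.mul_apply, swap_apply_of_ne_of_ne hil.symm hjl.symm]
  unfold pr
  refine Finset.prod_congr rfl fun m _ => ?_
  have h : Ins G (x * swap i j) k l m ↔ Ins G x k l m := by
    unfold Ins
    rw [xk, xl]
  by_cases hm : Ins G x k l m
  · rw [if_pos hm, if_pos (h.mpr hm)]
  · rw [if_neg hm, if_neg (fun h' => hm (h.mp h'))]

theorem Wt_pos (G : MG ι M α β R) (x : Perm ι) (i j : ι) (h : i ≠ j ∧ Emp G x i j) :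
    Wt G x i j = pr G x i j := by
  unfold Wt pr
  rw [if_pos h]

theorem Wt_neg (G : MG ι M α β R) (x : Perm ι) (i j : ι) (h : ¬ (i ≠ j ∧ Emp G x i j)) :
    Wt G x i j = 0 := by
  unfold Wt
  rw [if_neg h]

theorem prod_zero (G : MG ι M α β R) (x : Perm ι) (i j k l : ι)
    (h : ¬ (i ≠ j ∧ k ≠ l ∧ Emp G x i j ∧ Emp G (x * swap i j) k l)) :
    Wt G x i j * Wt G (x * swap i j) k l = 0 := by
  by_cases h1 : i ≠ j ∧ Emp G x i j
  · have h2 : ¬ (k ≠ l ∧ Emp G (x * swap i j) k l) := by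
      intro h2
      exact h ⟨h1.1, h2.1, h1.2, h2.2⟩
    rw [Wt_neg G _ k l h2, mul_zero]
  · rw [Wt_neg G _ i j h1, zero_mul]

end

end WT0

open WT0 in
theorem t_WT0 : Stmt_WT0 := by
  intro ι M α β R _ _ _ _ _ _ G hu hv x i j k l hik hil hjk hjl
  by_cases h : i ≠ j ∧ k ≠ l ∧ Emp G x i j ∧ Emp G (x * swap i j) k l
  · obtain ⟨hij, hkl, h1, h2⟩ := h
    obtain ⟨h3, h4⟩ := emp G hu hv x i j k l hij hkl hik hil hjk hjl h1 h2
    rw [Wt_pos G x i j ⟨hij, h1⟩, Wt_pos G _ k l ⟨hkl, h2⟩, Wt_pos G x k l ⟨hkl, h3⟩,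
      Wt_pos G _ i j ⟨hij, h4⟩, pr_swap G x i j k l hik hil hjk hjl,
      pr_swap G x k l i j hik.symm hjk.symm hil.symm hjl.symm, mul_comm]
  · have h' : ¬ (k ≠ l ∧ i ≠ j ∧ Emp G x k l ∧ Emp G (x * swap k l) i j) := by
      rintro ⟨hkl, hij, h1, h2⟩
      obtain ⟨h3, h4⟩ := emp G hu hv x k l i j hkl hij hik.symm hjk.symm hil.symm hjl.symm h1 h2
      exact h ⟨hij, hkl, h3, h4⟩
    rw [prod_zero G x i j k l h, prod_zero G x k l i j h']

end LG
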