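import Pool.Agent.LG.Stmts

/-!
# WT1: composites of two rectangles with exactly one common vertical circle

Every rectangle between two of the three columns `p, q, r` is a product of blocks between adjacent
columns and adjacent rows; the twelve products cancel in pairs.
-/

set_option autoImplicit false

namespace LG

open Equiv Finset Function

namespace WT1

variable {ι M α β R : Type} [Fintype ι] [DecidableEq ι] [Fintype M] [LinearOrder α]
  [LinearOrder β] [CommRing R]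

/-- The block of the columns `[u i, u j)` and of the rows `[v a, v b)`; the points of `x` over
`p, q, r` are ignored. -/
noncomputable def Rb (G : MG ι M α β R) (x : Perm ι) (p q r i j a b : ι) : R :=
  if ∀ k, k ≠ p → k ≠ q → k ≠ r → ¬ (cyc (G.u i) (G.u k) (G.u j) ∧ cyc (G.v a) (G.v (x k)) (G.v b)) then
    ∏ m, (if ico (G.u i) (G.p m) (G.u j) ∧ ico (G.v a) (G.q m) (G.v b) then G.w m else 1) else 0

theorem Rb_col (G : MG ι M α β R) (hu : Injective G.u) (x : Perm ι) (p q r i t j a b : ι)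
    (ht : t = p ∨ t = q ∨ t = r) (h : cyc (G.u i) (G.u t) (G.u j)) :
    Rb G x p q r i j a b = Rb G x p q r i t a b * Rb G x p q r t j a b := by
  unfold Rb
  have hE : (∀ k, k ≠ p → k ≠ q → k ≠ r →
      ¬ (cyc (G.u i) (G.u k) (G.u j) ∧ cyc (G.v a) (G.v (x k)) (G.v b))) ↔
      (∀ k, k ≠ p → k ≠ q → k ≠ r →
      ¬ (cyc (G.u i) (G.u k) (G.u t) ∧ cyc (G.v a) (G.v (x k)) (G.v b))) ∧
      (∀ k, k ≠ p → k ≠ q → k ≠ r →
      ¬ (cyc (G.u t) (G.u k) (G.u j) ∧ cyc (G.v a) (G.v (x k)) (G.v b))) := by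
    have key : ∀ k, k ≠ p → k ≠ q → k ≠ r →
        (cyc (G.u i) (G.u k) (G.u j) ↔ cyc (G.u i) (G.u k) (G.u t) ∨ cyc (G.u t) (G.u k) (G.u j)) := by
      intro k h1 h2 h3
      have hkt : G.u k ≠ G.u t := by
        intro e
        have := hu e
        subst this
        rcases ht with e | e | e
        · exact h1 e
        · exact h2 e
        · exact h3 e
      rw [cyc_split h]
      tauto
    constructor
    · intro H
      refine ⟨fun k h1 h2 h3 hk => H k h1 h2 h3 ⟨(key k h1 h2 h3).2 (Or.inl hk.1), hk.2⟩,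
        fun k h1 h2 h3 hk => H k h1 h2 h3 ⟨(key k h1 h2 h3).2 (Or.inr hk.1), hk.2⟩⟩
    · intro H k h1 h2 h3 hk
      rcases (key k h1 h2 h3).1 hk.1 with h' | h'
      · exact H.1 k h1 h2 h3 ⟨h', hk.2⟩
      · exact H.2 k h1 h2 h3 ⟨h', hk.2⟩
  have hP : (∏ m, (if ico (G.u i) (G.p m) (G.u j) ∧ ico (G.v a) (G.q m) (G.v b) then G.w m else 1)) =
      (∏ m, (if ico (G.u i) (G.p m) (G.u t) ∧ ico (G.v a) (G.q m) (G.v b) then G.w m else 1)) *
      (∏ m, (if ico (G.u t) (G.p m) (G.u j) ∧ ico (G.v a) (G.q m) (G.v b) then G.w m else 1)) := by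
    rw [← Finset.prod_mul_distrib]
    refine Finset.prod_congr rfl fun m _ => ?_
    have h1 := ico_split h (x := G.p m)
    have h2 := ico_disj h (x := G.p m)
    by_cases c1 : ico (G.u i) (G.p m) (G.u t) <;> by_cases c2 : ico (G.u t) (G.p m) (G.u j) <;>
      by_cases c3 : ico (G.v a) (G.q m) (G.v b) <;> simp_all
  by_cases e1 : (∀ k, k ≠ p → k ≠ q → k ≠ r →
      ¬ (cyc (G.u i) (G.u k) (G.u t) ∧ cyc (G.v a) (G.v (x k)) (G.v b))) <;>
  by_cases e2 : (∀ k, k ≠ p → k ≠ q → k ≠ r →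
      ¬ (cyc (G.u t) (G.u k) (G.u j) ∧ cyc (G.v a) (G.v (x k)) (G.v b)))
  · rw [if_pos (hE.2 ⟨e1, e2⟩), if_pos e1, if_pos e2, hP]
  · rw [if_neg (fun H => e2 (hE.1 H).2), if_pos e1, if_neg e2, mul_zero]
  · rw [if_neg (fun H => e1 (hE.1 H).1), if_neg e1, zero_mul]
  · rw [if_neg (fun H => e1 (hE.1 H).1), if_neg e1, zero_mul]

theorem Rb_row (G : MG ι M α β R) (hv : Injective G.v) (x : Perm ι) (p q r i j a c b : ι)
    (ht : c = x p ∨ c = x q ∨ c = x r) (h : cyc (G.v a) (G.v c) (G.v b)) :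
    Rb G x p q r i j a b = Rb G x p q r i j a c * Rb G x p q r i j c b := by
  unfold Rb
  have hE : (∀ k, k ≠ p → k ≠ q → k ≠ r →
      ¬ (cyc (G.u i) (G.u k) (G.u j) ∧ cyc (G.v a) (G.v (x k)) (G.v b))) ↔
      (∀ k, k ≠ p → k ≠ q → k ≠ r →
      ¬ (cyc (G.u i) (G.u k) (G.u j) ∧ cyc (G.v a) (G.v (x k)) (G.v c))) ∧
      (∀ k, k ≠ p → k ≠ q → k ≠ r →
      ¬ (cyc (G.u i) (G.u k) (G.u j) ∧ cyc (G.v c) (G.v (x k)) (G.v b))) := by
    have key : ∀ k, k ≠ p → k ≠ q → k ≠ r →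
        (cyc (G.v a) (G.v (x k)) (G.v b) ↔
          cyc (G.v a) (G.v (x k)) (G.v c) ∨ cyc (G.v c) (G.v (x k)) (G.v b)) := by
      intro k h1 h2 h3
      have hkt : G.v (x k) ≠ G.v c := by
        intro e
        have := hv e
        rcases ht with e | e | e
        · exact h1 (x.injective (this.trans e))
        · exact h2 (x.injective (this.trans e))
        · exact h3 (x.injective (this.trans e))
      rw [cyc_split h]
      tauto
    constructor
    · intro H
      refine ⟨fun k h1 h2 h3 hk => H k h1 h2 h3 ⟨hk.1, (key k h1 h2 h3).2 (Or.inl hk.2)⟩,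
        fun k h1 h2 h3 hk => H k h1 h2 h3 ⟨hk.1, (key k h1 h2 h3).2 (Or.inr hk.2)⟩⟩
    · intro H k h1 h2 h3 hk
      rcases (key k h1 h2 h3).1 hk.2 with h' | h'
      · exact H.1 k h1 h2 h3 ⟨hk.1, h'⟩
      · exact H.2 k h1 h2 h3 ⟨hk.1, h'⟩
  have hP : (∏ m, (if ico (G.u i) (G.p m) (G.u j) ∧ ico (G.v a) (G.q m) (G.v b) then G.w m else 1)) =
      (∏ m, (if ico (G.u i) (G.p m) (G.u j) ∧ ico (G.v a) (G.q m) (G.v c) then G.w m else 1)) *
      (∏ m, (if ico (G.u i) (G.p m) (G.u j) ∧ ico (G.v c) (G.q m) (G.v b) then G.w m else 1)) := by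
    rw [← Finset.prod_mul_distrib]
    refine Finset.prod_congr rfl fun m _ => ?_
    have h1 := ico_split h (x := G.q m)
    have h2 := ico_disj h (x := G.q m)
    by_cases c1 : ico (G.v a) (G.q m) (G.v c) <;> by_cases c2 : ico (G.v c) (G.q m) (G.v b) <;>
      by_cases c3 : ico (G.u i) (G.p m) (G.u j) <;> simp_all
  by_cases e1 : (∀ k, k ≠ p → k ≠ q → k ≠ r →
      ¬ (cyc (G.u i) (G.u k) (G.u j) ∧ cyc (G.v a) (G.v (x k)) (G.v c))) <;>
  by_cases e2 : (∀ k, k ≠ p → k ≠ q → k ≠ r →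
      ¬ (cyc (G.u i) (G.u k) (G.u j) ∧ cyc (G.v c) (G.v (x k)) (G.v b)))
  · rw [if_pos (hE.2 ⟨e1, e2⟩), if_pos e1, if_pos e2, hP]
  · rw [if_neg (fun H => e2 (hE.1 H).2), if_pos e1, if_neg e2, mul_zero]
  · rw [if_neg (fun H => e1 (hE.1 H).1), if_neg e1, zero_mul]
  · rw [if_neg (fun H => e1 (hE.1 H).1), if_neg e1, zero_mul]

/-- The rectangle `(i, j)` of the state `y`, with the third point at `t`. -/
theorem Wt_eq (G : MG ι M α β R) (hu : Injective G.u) (hv : Injective G.v) (x y : Perm ι)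
    (p q r i t j : ι) (hxy : ∀ k, k ≠ p → k ≠ q → k ≠ r → y k = x k)
    (hi : i = p ∨ i = q ∨ i = r) (htt : t = p ∨ t = q ∨ t = r) (hj : j = p ∨ j = q ∨ j = r)
    (hit : i ≠ t) (hij : i ≠ j) (htj : t ≠ j)
    (hyt : y t = x p ∨ y t = x q ∨ y t = x r) (hpqr : ∀ k, k = p ∨ k = q ∨ k = r → k = i ∨ k = t ∨ k = j) :
    Wt G y i j =
      if cyc (G.u i) (G.u t) (G.u j) then
        (if cyc (G.v (y i)) (G.v (y t)) (G.v (y j)) then 0
          else Rb G x p q r i t (y i) (y j) * Rb G x p q r t j (y i) (y j))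
      else
        (if cyc (G.v (y i)) (G.v (y t)) (G.v (y j)) then
          Rb G x p q r i j (y i) (y t) * Rb G x p q r i j (y t) (y j)
          else Rb G x p q r i j (y i) (y j)) := by
  have hE : Emp G y i j ↔ (¬ (cyc (G.u i) (G.u t) (G.u j) ∧ cyc (G.v (y i)) (G.v (y t)) (G.v (y j)))) ∧
      (∀ k, k ≠ p → k ≠ q → k ≠ r →
        ¬ (cyc (G.u i) (G.u k) (G.u j) ∧ cyc (G.v (y i)) (G.v (x k)) (G.v (y j)))) := by
    unfold Emp
    constructor
    · intro H
      refine ⟨H t, fun k h1 h2 h3 => ?_⟩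
      rw [← hxy k h1 h2 h3]
      exact H k
    · rintro ⟨H1, H2⟩ k
      by_cases hk : k = p ∨ k = q ∨ k = r
      · rcases hpqr k hk with e | e | e
        · subst e
          intro h
          exact (cyc_ne h.1).1 rfl
        · subst e
          exact H1
        · subst e
          intro h
          exact (cyc_ne h.1).2.1 rfl
      · push Not at hk
        rw [hxy k hk.1 hk.2.1 hk.2.2]
        exact H2 k hk.1 hk.2.1 hk.2.2
  have hW : Wt G y i j = if cyc (G.u i) (G.u t) (G.u j) ∧ cyc (G.v (y i)) (G.v (y t)) (G.v (y j)) then 0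
      else Rb G x p q r i j (y i) (y j) := by
    unfold Wt Rb Ins
    by_cases c : cyc (G.u i) (G.u t) (G.u j) ∧ cyc (G.v (y i)) (G.v (y t)) (G.v (y j))
    · rw [if_pos c, if_neg]
      rintro ⟨_, h⟩
      exact (hE.1 h).1 c
    · rw [if_neg c]
      by_cases d : (∀ k, k ≠ p → k ≠ q → k ≠ r →
        ¬ (cyc (G.u i) (G.u k) (G.u j) ∧ cyc (G.v (y i)) (G.v (x k)) (G.v (y j))))
      · rw [if_pos d, if_pos ⟨hij, hE.2 ⟨c, d⟩⟩]
      · rw [if_neg d, if_neg]
        rintro ⟨_, h⟩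
        exact d (hE.1 h).2
  rw [hW]
  by_cases c1 : cyc (G.u i) (G.u t) (G.u j) <;>
    by_cases c2 : cyc (G.v (y i)) (G.v (y t)) (G.v (y j))
  · simp [c1, c2]
  · rw [if_neg (fun h => c2 h.2), if_pos c1, if_neg c2]
    exact Rb_col G hu x p q r i t j _ _ htt c1
  · rw [if_neg (fun h => c1 h.1), if_neg c1, if_pos c2]
    exact Rb_row G hv x p q r i j _ _ _ hyt c2
  · simp [c1, c2]

end WT1

open WT1 in
theorem t_WT1 : Stmt_WT1 := by
  intro ι M α β R _ _ _ _ _ _ G h2 hu hv x p q r hpq hqr hpr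
  have hqp := hpq.symm
  have hrq := hqr.symm
  have hrp := hpr.symm
  -- values of the three swaps
  have a1 : (x * swap p q) p = x q := by simp
  have a2 : (x * swap p q) q = x p := by simp
  have a3 : (x * swap p q) r = x r := by simp [swap_apply_of_ne_of_ne hrp hrq]
  have b1 : (x * swap q r) p = x p := by simp [swap_apply_of_ne_of_ne hpq hpr]
  have b2 : (x * swap q r) q = x r := by simp
  have b3 : (x * swap q r) r = x q := by simp
  have c1 : (x * swap r p) p = x r := by simp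
  have c2 : (x * swap r p) q = x q := by simp [swap_apply_of_ne_of_ne hqr hqp]
  have c3 : (x * swap r p) r = x p := by simp
  have o1 : ∀ k, k ≠ p → k ≠ q → k ≠ r → (x * swap p q) k = x k := fun k h h' _ => by
    simp [swap_apply_of_ne_of_ne h h']
  have o2 : ∀ k, k ≠ p → k ≠ q → k ≠ r → (x * swap q r) k = x k := fun k _ h h' => by
    simp [swap_apply_of_ne_of_ne h h']
  have o3 : ∀ k, k ≠ p → k ≠ q → k ≠ r → (x * swap r p) k = x k := fun k h _ h' => by
    simp [swap_apply_of_ne_of_ne h' h]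
  have w0 := Wt_eq G hu hv x x p q r p r q (fun k _ _ _ => rfl) (Or.inl rfl) (Or.inr (Or.inr rfl)) (Or.inr (Or.inl rfl)) hpr hpq hrq (Or.inr (Or.inr rfl))
    (by rintro k (e | e | e) <;> simp [e])
  have w1 := Wt_eq G hu hv x x p q r q r p (fun k _ _ _ => rfl) (Or.inr (Or.inl rfl)) (Or.inr (Or.inr rfl)) (Or.inl rfl) hqr hqp hrp (Or.inr (Or.inr rfl))
    (by rintro k (e | e | e) <;> simp [e])
  have w2 := Wt_eq G hu hv x (x * swap p q) p q r p q r o1 (Or.inl rfl) (Or.inr (Or.inl rfl)) (Or.inr (Or.inr rfl)) hpq hpr hqr (Or.inl a2)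
    (by rintro k (e | e | e) <;> simp [e])
  have w3 := Wt_eq G hu hv x (x * swap p q) p q r r q p o1 (Or.inr (Or.inr rfl)) (Or.inr (Or.inl rfl)) (Or.inl rfl) hrq hrp hqp (Or.inl a2)
    (by rintro k (e | e | e) <;> simp [e])
  have w4 := Wt_eq G hu hv x x p q r q p r (fun k _ _ _ => rfl) (Or.inr (Or.inl rfl)) (Or.inl rfl) (Or.inr (Or.inr rfl)) hqp hqr hpr (Or.inl rfl)
    (by rintro k (e | e | e) <;> simp [e])
  have w5 := Wt_eq G hu hv x x p q r r p q (fun k _ _ _ => rfl) (Or.inr (Or.inr rfl)) (Or.inl rfl) (Or.inr (Or.inl rfl)) hrp hrq hpq (Or.inl rfl)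
    (by rintro k (e | e | e) <;> simp [e])
  have w6 := Wt_eq G hu hv x (x * swap q r) p q r q r p o2 (Or.inr (Or.inl rfl)) (Or.inr (Or.inr rfl)) (Or.inl rfl) hqr hqp hrp (Or.inr (Or.inl b3))
    (by rintro k (e | e | e) <;> simp [e])
  have w7 := Wt_eq G hu hv x (x * swap q r) p q r p r q o2 (Or.inl rfl) (Or.inr (Or.inr rfl)) (Or.inr (Or.inl rfl)) hpr hpq hrq (Or.inr (Or.inl b3))
    (by rintro k (e | e | e) <;> simp [e])
  have w8 := Wt_eq G hu hv x x p q r r q p (fun k _ _ _ => rfl) (Or.inr (Or.inr rfl)) (Or.inr (Or.inl rfl)) (Or.inl rfl) hrq hrp hqp (Or.inr (Or.inl rfl))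
    (by rintro k (e | e | e) <;> simp [e])
  have w9 := Wt_eq G hu hv x x p q r p q r (fun k _ _ _ => rfl) (Or.inl rfl) (Or.inr (Or.inl rfl)) (Or.inr (Or.inr rfl)) hpq hpr hqr (Or.inr (Or.inl rfl))
    (by rintro k (e | e | e) <;> simp [e])
  have w10 := Wt_eq G hu hv x (x * swap r p) p q r r p q o3 (Or.inr (Or.inr rfl)) (Or.inl rfl) (Or.inr (Or.inl rfl)) hrp hrq hpq (Or.inr (Or.inr c1))
    (by rintro k (e | e | e) <;> simp [e])
  have w11 := Wt_eq G hu hv x (x * swap r p) p q r q p r o3 (Or.inr (Or.inl rfl)) (Or.inl rfl) (Or.inr (Or.inr rfl)) hqp hqr hpr (Or.inr (Or.inr c1))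
    (by rintro k (e | e | e) <;> simp [e])
  simp only [a1, a2, a3, b1, b2, b3, c1, c2, c3] at w0 w1 w2 w3 w4 w5 w6 w7 w8 w9 w10 w11
  have hup : G.u p ≠ G.u q := fun e => hpq (hu e)
  have huq : G.u q ≠ G.u r := fun e => hqr (hu e)
  have hur : G.u p ≠ G.u r := fun e => hpr (hu e)
  have hvp : G.v (x p) ≠ G.v (x q) := fun e => hpq (x.injective (hv e))
  have hvq : G.v (x q) ≠ G.v (x r) := fun e => hqr (x.injective (hv e))
  have hvr : G.v (x p) ≠ G.v (x r) := fun e => hpr (x.injective (hv e))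
  unfold W2
  rw [w0, w1, w2, w3, w4, w5, w6, w7, w8, w9, w10, w11]
  clear w0 w1 w2 w3 w4 w5 w6 w7 w8 w9 w10 w11
  rcases cyc_total hup huq hur with hc | hc <;> rcases cyc_total hvp hvq hvr with hr | hr
  · have P0 : cyc (G.u p) (G.u q) (G.u r) := by unfold cyc at *; grind
    have P1 : cyc (G.u q) (G.u r) (G.u p) := by unfold cyc at *; grind
    have P2 : cyc (G.u r) (G.u p) (G.u q) := by unfold cyc at *; grind
    have N0 : ¬ cyc (G.u p) (G.u r) (G.u q) := by unfold cyc at *; grind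
    have N1 : ¬ cyc (G.u q) (G.u p) (G.u r) := by unfold cyc at *; grind
    have N2 : ¬ cyc (G.u r) (G.u q) (G.u p) := by unfold cyc at *; grind
    have Q0 : cyc (G.v (x p)) (G.v (x q)) (G.v (x r)) := by unfold cyc at *; grind
    have Q1 : cyc (G.v (x q)) (G.v (x r)) (G.v (x p)) := by unfold cyc at *; grind
    have Q2 : cyc (G.v (x r)) (G.v (x p)) (G.v (x q)) := by unfold cyc at *; grind
    have O0 : ¬ cyc (G.v (x p)) (G.v (x r)) (G.v (x q)) := by unfold cyc at *; grind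
    have O1 : ¬ cyc (G.v (x q)) (G.v (x p)) (G.v (x r)) := by unfold cyc at *; grind
    have O2 : ¬ cyc (G.v (x r)) (G.v (x q)) (G.v (x p)) := by unfold cyc at *; grind
    simp only [if_pos P0, if_pos P1, if_pos P2, if_neg N0, if_neg N1, if_neg N2, if_pos Q0, if_pos Q1,
      if_pos Q2, if_neg O0, if_neg O1, if_neg O2]
    linear_combination ((Rb G x p q r p q (x p) (x q)) * (Rb G x p q r p q (x q) (x r)) * (Rb G x p q r q r (x q) (x r)) +
      (Rb G x p q r p q (x p) (x q)) * (Rb G x p q r r p (x p) (x q)) * (Rb G x p q r r p (x r) (x p)) +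
      (Rb G x p q r q r (x q) (x r)) * (Rb G x p q r q r (x r) (x p)) * (Rb G x p q r r p (x r) (x p))) * h2
  · have P0 : cyc (G.u p) (G.u q) (G.u r) := by unfold cyc at *; grind
    have P1 : cyc (G.u q) (G.u r) (G.u p) := by unfold cyc at *; grind
    have P2 : cyc (G.u r) (G.u p) (G.u q) := by unfold cyc at *; grind
    have N0 : ¬ cyc (G.u p) (G.u r) (G.u q) := by unfold cyc at *; grind
    have N1 : ¬ cyc (G.u q) (G.u p) (G.u r) := by unfold cyc at *; grind
    have N2 : ¬ cyc (G.u r) (G.u q) (G.u p) := by unfold cyc at *; grind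
    have Q0 : cyc (G.v (x p)) (G.v (x r)) (G.v (x q)) := by unfold cyc at *; grind
    have Q1 : cyc (G.v (x r)) (G.v (x q)) (G.v (x p)) := by unfold cyc at *; grind
    have Q2 : cyc (G.v (x q)) (G.v (x p)) (G.v (x r)) := by unfold cyc at *; grind
    have O0 : ¬ cyc (G.v (x p)) (G.v (x q)) (G.v (x r)) := by unfold cyc at *; grind
    have O1 : ¬ cyc (G.v (x r)) (G.v (x p)) (G.v (x q)) := by unfold cyc at *; grind
    have O2 : ¬ cyc (G.v (x q)) (G.v (x r)) (G.v (x p)) := by unfold cyc at *; grind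
    simp only [if_pos P0, if_pos P1, if_pos P2, if_neg N0, if_neg N1, if_neg N2, if_pos Q0, if_pos Q1,
      if_pos Q2, if_neg O0, if_neg O1, if_neg O2]
    linear_combination ((Rb G x p q r p q (x p) (x r)) * (Rb G x p q r p q (x r) (x q)) * (Rb G x p q r r p (x r) (x q)) +
      (Rb G x p q r q r (x q) (x p)) * (Rb G x p q r r p (x q) (x p)) * (Rb G x p q r r p (x r) (x q)) +
      (Rb G x p q r p q (x p) (x r)) * (Rb G x p q r q r (x p) (x r)) * (Rb G x p q r q r (x q) (x p))) * h2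
  · have P0 : cyc (G.u p) (G.u r) (G.u q) := by unfold cyc at *; grind
    have P1 : cyc (G.u r) (G.u q) (G.u p) := by unfold cyc at *; grind
    have P2 : cyc (G.u q) (G.u p) (G.u r) := by unfold cyc at *; grind
    have N0 : ¬ cyc (G.u p) (G.u q) (G.u r) := by unfold cyc at *; grind
    have N1 : ¬ cyc (G.u r) (G.u p) (G.u q) := by unfold cyc at *; grind
    have N2 : ¬ cyc (G.u q) (G.u r) (G.u p) := by unfold cyc at *; grind
    have Q0 : cyc (G.v (x p)) (G.v (x q)) (G.v (x r)) := by unfold cyc at *; grind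
    have Q1 : cyc (G.v (x q)) (G.v (x r)) (G.v (x p)) := by unfold cyc at *; grind
    have Q2 : cyc (G.v (x r)) (G.v (x p)) (G.v (x q)) := by unfold cyc at *; grind
    have O0 : ¬ cyc (G.v (x p)) (G.v (x r)) (G.v (x q)) := by unfold cyc at *; grind
    have O1 : ¬ cyc (G.v (x q)) (G.v (x p)) (G.v (x r)) := by unfold cyc at *; grind
    have O2 : ¬ cyc (G.v (x r)) (G.v (x q)) (G.v (x p)) := by unfold cyc at *; grind
    simp only [if_pos P0, if_pos P1, if_pos P2, if_neg N0, if_neg N1, if_neg N2, if_pos Q0, if_pos Q1,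
      if_pos Q2, if_neg O0, if_neg O1, if_neg O2]
    linear_combination ((Rb G x p q r p r (x p) (x q)) * (Rb G x p q r p r (x q) (x r)) * (Rb G x p q r r q (x p) (x q)) +
      (Rb G x p q r p r (x q) (x r)) * (Rb G x p q r q p (x q) (x r)) * (Rb G x p q r q p (x r) (x p)) +
      (Rb G x p q r q p (x r) (x p)) * (Rb G x p q r r q (x p) (x q)) * (Rb G x p q r r q (x r) (x p))) * h2
  · have P0 : cyc (G.u p) (G.u r) (G.u q) := by unfold cyc at *; grind
    have P1 : cyc (G.u r) (G.u q) (G.u p) := by unfold cyc at *; grind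
    have P2 : cyc (G.u q) (G.u p) (G.u r) := by unfold cyc at *; grind
    have N0 : ¬ cyc (G.u p) (G.u q) (G.u r) := by unfold cyc at *; grind
    have N1 : ¬ cyc (G.u r) (G.u p) (G.u q) := by unfold cyc at *; grind
    have N2 : ¬ cyc (G.u q) (G.u r) (G.u p) := by unfold cyc at *; grind
    have Q0 : cyc (G.v (x p)) (G.v (x r)) (G.v (x q)) := by unfold cyc at *; grind
    have Q1 : cyc (G.v (x r)) (G.v (x q)) (G.v (x p)) := by unfold cyc at *; grind
    have Q2 : cyc (G.v (x q)) (G.v (x p)) (G.v (x r)) := by unfold cyc at *; grind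
    have O0 : ¬ cyc (G.v (x p)) (G.v (x q)) (G.v (x r)) := by unfold cyc at *; grind
    have O1 : ¬ cyc (G.v (x r)) (G.v (x p)) (G.v (x q)) := by unfold cyc at *; grind
    have O2 : ¬ cyc (G.v (x q)) (G.v (x r)) (G.v (x p)) := by unfold cyc at *; grind
    simp only [if_pos P0, if_pos P1, if_pos P2, if_neg N0, if_neg N1, if_neg N2, if_pos Q0, if_pos Q1,
      if_pos Q2, if_neg O0, if_neg O1, if_neg O2]
    linear_combination ((Rb G x p q r p r (x p) (x r)) * (Rb G x p q r p r (x q) (x p)) * (Rb G x p q r q p (x q) (x p)) +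
      (Rb G x p q r q p (x q) (x p)) * (Rb G x p q r q p (x r) (x q)) * (Rb G x p q r r q (x r) (x q)) +
      (Rb G x p q r p r (x p) (x r)) * (Rb G x p q r r q (x p) (x r)) * (Rb G x p q r r q (x r) (x q))) * h2

end LG
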