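import Pool.Agent.LG.Stmts

/-!
# Module WT2: composites of two rectangles with the same vertical circles
-/

set_option autoImplicit false

namespace LG

open Equiv Finset Function

namespace WT2

variable {ι M α β R : Type} [Fintype ι] [DecidableEq ι] [Fintype M] [LinearOrder α]
  [LinearOrder β] [CommRing R]

theorem prod_split (w : M → R) (A B C : M → Prop) [DecidablePred A] [DecidablePred B]
    [DecidablePred C] (h : ∀ m, C m ↔ (A m ∨ B m)) (h' : ∀ m, ¬ (A m ∧ B m)) :
    (∏ m, (if A m then w m else 1)) * ∏ m, (if B m then w m else 1) =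
      ∏ m, (if C m then w m else 1) := by
  rw [← Finset.prod_mul_distrib]
  apply Finset.prod_congr rfl
  intro m _
  by_cases hA : A m
  · have hB : ¬ B m := fun hB => h' m ⟨hA, hB⟩
    rw [if_pos hA, if_neg hB, if_pos ((h m).mpr (Or.inl hA)), mul_one]
  · rw [if_neg hA, one_mul]
    by_cases hB : B m
    · rw [if_pos hB, if_pos ((h m).mpr (Or.inr hB))]
    · rw [if_neg hB, if_neg]
      intro hC
      rcases (h m).mp hC with h1 | h1
      · exact hA h1
      · exact hB h1

omit [Fintype ι] in
theorem mul_swap_left (x : Perm ι) (i j : ι) : (x * swap i j) i = x j := by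
  rw [Perm.mul_apply, swap_apply_left]

omit [Fintype ι] in
theorem mul_swap_right (x : Perm ι) (i j : ι) : (x * swap i j) j = x i := by
  rw [Perm.mul_apply, swap_apply_right]

omit [Fintype ι] in
theorem mul_swap_ne (x : Perm ι) (i j k : ι) (h1 : k ≠ i) (h2 : k ≠ j) :
    (x * swap i j) k = x k := by
  rw [Perm.mul_apply, swap_apply_of_ne_of_ne h1 h2]

theorem col (G : MG ι M α β R) (_hu : Injective G.u) (hv : Injective G.v) (hc : ColZero G)
    (x : Perm ι) (i j : ι) : Wt G x i j * Wt G (x * swap i j) i j = 0 := by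
  unfold Wt
  by_cases h1 : i ≠ j ∧ Emp G x i j
  · rw [if_pos h1]
    by_cases h2 : i ≠ j ∧ Emp G (x * swap i j) i j
    · rw [if_pos h2]
      obtain ⟨hij, e1⟩ := h1
      obtain ⟨-, e2⟩ := h2
      have hxij : G.v (x i) ≠ G.v (x j) := fun h => hij (x.injective (hv h))
      have hk : ∀ k, ¬ cyc (G.u i) (G.u k) (G.u j) := by
        intro k hk
        have hki : k ≠ i := by
          rintro rfl
          exact (cyc_ne hk).1 rfl
        have hkj : k ≠ j := by
          rintro rfl
          exact (cyc_ne hk).2.1 rfl
        have a1 : G.v (x i) ≠ G.v (x k) := fun h => hki (x.injective (hv h)).symm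
        have a2 : G.v (x k) ≠ G.v (x j) := fun h => hkj (x.injective (hv h))
        rcases cyc_total a1 a2 hxij with h | h
        · exact e1 k ⟨hk, h⟩
        · refine e2 k ⟨hk, ?_⟩
          rw [mul_swap_left, mul_swap_right, mul_swap_ne x i j k hki hkj]
          exact cyc_rot.mp h
      rw [prod_split G.w (Ins G x i j) (Ins G (x * swap i j) i j)
        (fun m => ico (G.u i) (G.p m) (G.u j))]
      · exact hc i j hij hk
      · intro m
        unfold Ins
        rw [mul_swap_left, mul_swap_right]
        have h := ico_compl (x := G.q m) hxij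
        by_cases hq : ico (G.v (x i)) (G.q m) (G.v (x j))
        · exact ⟨fun hp => Or.inl ⟨hp, hq⟩, fun hp => hp.elim (fun a => a.1) (fun a => a.1)⟩
        · have hq' : ico (G.v (x j)) (G.q m) (G.v (x i)) := by
            by_contra hq'
            exact hq (h.mpr hq')
          exact ⟨fun hp => Or.inr ⟨hp, hq'⟩, fun hp => hp.elim (fun a => a.1) (fun a => a.1)⟩
      · intro m
        unfold Ins
        rw [mul_swap_left, mul_swap_right]
        rintro ⟨⟨-, h1⟩, -, h2⟩
        exact (ico_compl (x := G.q m) hxij).mp h1 h2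
    · rw [if_neg h2, mul_zero]
  · rw [if_neg h1, zero_mul]

theorem row (G : MG ι M α β R) (hu : Injective G.u) (_hv : Injective G.v) (hr : RowZero G)
    (x : Perm ι) (i j : ι) : Wt G x i j * Wt G (x * swap i j) j i = 0 := by
  unfold Wt
  by_cases h1 : i ≠ j ∧ Emp G x i j
  · rw [if_pos h1]
    by_cases h2 : j ≠ i ∧ Emp G (x * swap i j) j i
    · rw [if_pos h2]
      obtain ⟨hij, e1⟩ := h1
      obtain ⟨-, e2⟩ := h2
      have hxij : x i ≠ x j := fun h => hij (x.injective h)
      have huij : G.u i ≠ G.u j := fun h => hij (hu h)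
      have hk : ∀ k, ¬ cyc (G.v (x i)) (G.v k) (G.v (x j)) := by
        intro k' hk
        obtain ⟨k, rfl⟩ := x.surjective k'
        have hki : k ≠ i := by
          rintro rfl
          exact (cyc_ne hk).1 rfl
        have hkj : k ≠ j := by
          rintro rfl
          exact (cyc_ne hk).2.1 rfl
        have a1 : G.u i ≠ G.u k := fun h => hki (hu h).symm
        have a2 : G.u k ≠ G.u j := fun h => hkj (hu h)
        rcases cyc_total a1 a2 huij with h | h
        · exact e1 k ⟨h, hk⟩
        · refine e2 k ⟨cyc_rot.mp h, ?_⟩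
          rw [mul_swap_left, mul_swap_right, mul_swap_ne x i j k hki hkj]
          exact hk
      rw [prod_split G.w (Ins G x i j) (Ins G (x * swap i j) j i)
        (fun m => ico (G.v (x i)) (G.q m) (G.v (x j)))]
      · exact hr (x i) (x j) hxij hk
      · intro m
        unfold Ins
        rw [mul_swap_left, mul_swap_right]
        have h := ico_compl (x := G.p m) huij
        by_cases hq : ico (G.u i) (G.p m) (G.u j)
        · exact ⟨fun hp => Or.inl ⟨hq, hp⟩, fun hp => hp.elim (fun a => a.2) (fun a => a.2)⟩
        · have hq' : ico (G.u j) (G.p m) (G.u i) := by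
            by_contra hq'
            exact hq (h.mpr hq')
          exact ⟨fun hp => Or.inr ⟨hq', hp⟩, fun hp => hp.elim (fun a => a.2) (fun a => a.2)⟩
      · intro m
        unfold Ins
        rw [mul_swap_left, mul_swap_right]
        rintro ⟨⟨h1, -⟩, h2, -⟩
        exact (ico_compl (x := G.p m) huij).mp h1 h2
    · rw [if_neg h2, mul_zero]
  · rw [if_neg h1, zero_mul]

end WT2

/-- Module WT2. -/
theorem t_WT2 : Stmt_WT2 := by
  intro ι M α β R _ _ _ _ _ _ G hu hv hc hr x i j
  exact ⟨WT2.col G hu hv hc x i j, WT2.row G hu hv hr x i j⟩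

end LG
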