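import Pool.Agent.LG.BLK
import Pool.Agent.LG.COL
import Pool.Agent.LG.DD
import Pool.Agent.LG.EPS
import Pool.Agent.LG.LCOL
import Pool.Agent.LG.LEQ
import Pool.Agent.LG.LISO
import Pool.Agent.LG.LNEG
import Pool.Agent.LG.LROT
import Pool.Agent.LG.LROW
import Pool.Agent.LG.LSC
import Pool.Agent.LG.LSR
import Pool.Agent.LG.LTRN
import Pool.Agent.LG.LWR
import Pool.Agent.LG.PC
import Pool.Agent.LG.PT0
import Pool.Agent.LG.PT1
import Pool.Agent.LG.PT2
import Pool.Agent.LG.REL
import Pool.Agent.LG.ROW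
import Pool.Agent.LG.SB0
import Pool.Agent.LG.SB1
import Pool.Agent.LG.SB2
import Pool.Agent.LG.SR1
import Pool.Agent.LG.SR2
import Pool.Agent.LG.STB
import Pool.Agent.LG.TRN
import Pool.Agent.LG.WR
import Pool.Agent.LG.WT0
import Pool.Agent.LG.WT1
import Pool.Agent.LG.WT2

/-!
# Part D: assembly
-/

namespace LG

theorem p_DD : P_DD := t_DD t_WT0 t_WT1 t_WT2

theorem p_PC : P_PC := t_PC t_PT0 t_PT1 t_PT2

theorem p_COL : P_COL := t_COL p_PC

theorem p_ROW : P_ROW := t_ROW p_COL t_TRN

theorem p_EPS : P_EPS := t_EPS p_DD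

theorem p_STB : P_STB := t_STB p_EPS t_SB0 t_SB1 t_SB2

theorem p_SR : P_SR := by
  intro ι κ α β _ _ _ _ _ _ c r a b l k m n h h'
  rcases h' with ⟨h1, h2⟩ | ⟨h1, h2⟩
  · exact t_SR1 p_ROW p_STB t_REL ι κ α β c r a b l k m n h h1 h2
  · exact t_SR2 p_ROW p_STB t_REL t_TRN ι κ α β c r a b l k m n h h1 h2

theorem p_WR : P_WR := t_WR p_ROW t_BLK

theorem p_LTRN : ∀ L : List (ℝ × ℝ), VL L ↔ VL (L.map Prod.swap).reverse := t_LTRN t_TRN t_REL

theorem p_MV (L L' : List (ℝ × ℝ)) (h : Mv L L') : Inv L L' := by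
  cases h with
  | rot A B => exact t_LROT t_REL A B
  | iso L f g h hf hg =>
    have hc : ∀ p ∈ L, ∀ q ∈ L, (f p.1 < f q.1 ↔ p.1 < q.1) := by
      intro p hp q hq
      refine ⟨fun hlt => ?_, hf p hp q hq⟩
      by_contra hn
      rcases lt_or_eq_of_le (not_lt.1 hn) with h1 | h1
      · exact absurd (hf q hq p hp h1) (not_lt.2 hlt.le)
      · rw [h1] at hlt; exact lt_irrefl _ hlt
    have hr : ∀ p ∈ L, ∀ q ∈ L, (g p.2 < g q.2 ↔ p.2 < q.2) := by
      intro p hp q hq
      refine ⟨fun hlt => ?_, hg p hp q hq⟩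
      by_contra hn
      rcases lt_or_eq_of_le (not_lt.1 hn) with h1 | h1
      · exact absurd (hg q hq p hp h1) (not_lt.2 hlt.le)
      · rw [h1] at hlt; exact lt_irrefl _ hlt
    have key : ∀ i : Fin L.length,
        (L.map fun p => (f p.1, g p.2)).get (i.cast (by simp)) = (f (L.get i).1, g (L.get i).2) := by
      intro i; simp
    refine t_LISO t_REL L _ h ?_ (by simp) ?_ ?_
    · constructor
      · rw [List.map_map]
        have := h.1
        rw [List.nodup_map_iff_inj_on (List.Nodup.of_map _ this)] at this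
        rw [List.nodup_map_iff_inj_on (List.Nodup.of_map _ h.1)]
        intro x hx y hy hxy
        refine this x hx y hy ?_
        have h1 := hc x hx y hy
        have h2 := hc y hy x hx
        simp only [Function.comp_apply] at hxy
        rw [hxy] at h1 h2
        simp only [lt_self_iff_false, false_iff, not_lt] at h1 h2
        exact le_antisymm h2 h1
      · rw [List.map_map]
        have := h.2
        rw [List.nodup_map_iff_inj_on (List.Nodup.of_map _ this)] at this
        rw [List.nodup_map_iff_inj_on (List.Nodup.of_map _ h.2)]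
        intro x hx y hy hxy
        refine this x hx y hy ?_
        have h1 := hr x hx y hy
        have h2 := hr y hy x hx
        simp only [Function.comp_apply] at hxy
        rw [hxy] at h1 h2
        simp only [lt_self_iff_false, false_iff, not_lt] at h1 h2
        exact le_antisymm h2 h1
    · intro i j k
      rw [key i, key j, key k]
      unfold cyc
      simp only [hc _ (List.get_mem L i) _ (List.get_mem L j),
        hc _ (List.get_mem L j) _ (List.get_mem L k), hc _ (List.get_mem L k) _ (List.get_mem L i)]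
    · intro i j k
      rw [key i, key j, key k]
      unfold cyc
      simp only [hr _ (List.get_mem L i) _ (List.get_mem L j),
        hr _ (List.get_mem L j) _ (List.get_mem L k), hr _ (List.get_mem L k) _ (List.get_mem L i)]
  | col c r t B z h ht hu => exact t_LCOL p_COL t_REL c r t B z h ht hu
  | row c r t z B h ht hu =>
    exact t_LROW t_LCOL p_COL t_REL t_TRN t_LTRN t_LROT c r t z B h ht hu
  | srow c₁ r₁ c₂ r₂ B z h ha => exact t_LSR p_SR t_REL c₁ r₁ c₂ r₂ B z h ha
  | scol c₁ r₁ c₂ r₂ z B h ha =>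
    exact t_LSC t_LSR p_SR t_REL t_TRN t_LTRN t_LROT c₁ r₁ c₂ r₂ z B h ha

theorem p_LEQ : P_LEQ := t_LEQ p_MV t_LNEG

end LG
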