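import Pool.Agent.LG.Stmts

namespace LG

open Equiv Finset Function

namespace BLK

section

variable {ι κ α β : Type} [Fintype ι] [DecidableEq ι] [Fintype κ] [LinearOrder α] [LinearOrder β]
  {c : ι → α} {r : ι → β} {a : κ → α} {b : κ → β}

theorem wt_zero (x : Perm ι) (i j : ι) (m : ι ⊕ κ) (h : Ins (gm c r a b) x i j m) :
    Wt (gm c r a b) x i j = 0 := by
  unfold Wt
  split_ifs
  · apply Finset.prod_eq_zero (mem_univ m)
    rw [if_pos h]
    rfl
  · rfl

theorem wt (hG : Gd c r a b) {l k : ι} {m : κ} (hlk : l ≠ k) (ham : a m = c k) (hbm : b m = r l)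
    (hc : ∀ i, ¬ cyc (c l) (c i) (c k)) (hr : ∀ i, ¬ cyc (r k) (r i) (r l))
    (hn : ∀ n, a n = c l → b n ≠ r k) (i j : ι) :
    Wt (gm c r a b) (swap l k) i j = if i = l ∧ j = k then 1 else 0 := by
  have hclk : c l ≠ c k := fun h => hlk (hG.ci h)
  have hrlk : r l ≠ r k := fun h => hlk (hG.ri h)
  by_cases hij : i = j
  · subst hij
    rw [if_neg (by rintro ⟨h1, h2⟩; exact hlk (h1.symm.trans h2))]
    unfold Wt
    rw [if_neg (by rintro ⟨h, -⟩; exact h rfl)]
  by_cases hil : i = l
  · subst hil
    by_cases hjk : j = k
    · subst hjk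
      rw [if_pos ⟨rfl, rfl⟩]
      unfold Wt
      rw [if_pos]
      · apply Finset.prod_eq_one
        intro m' _
        rw [if_neg]
        rintro ⟨h1, h2⟩
        have h2' : ico (r j) ((gm c r a b).q m') (r i) := by
          have := h2
          simp only [swap_apply_left, swap_apply_right] at this
          exact this
        have h1' : ico (c i) ((gm c r a b).p m') (c j) := h1
        rcases m' with k' | n'
        · have e1 : c k' = c i := by
            rcases h1' with h | h
            · exact h
            · exact absurd h (hc k')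
          have e1' : k' = i := hG.ci e1
          subst e1'
          rcases h2' with h | h
          · exact hrlk h
          · exact (cyc_ne h).2.1 rfl
        · obtain ⟨k1, hk1⟩ := hG.ac n'
          obtain ⟨k2, hk2⟩ := hG.br n'
          have e1 : a n' = c i := by
            rcases h1' with h | h
            · exact h
            · exfalso
              apply hc k1
              rw [← hk1]
              exact h
          have e2 : b n' = r j := by
            rcases h2' with h | h
            · exact h
            · exfalso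
              apply hr k2
              rw [← hk2]
              exact h
          exact hn n' e1 e2
      · refine ⟨hlk, fun k' h => hc k' h.1⟩
    · rw [if_neg (by rintro ⟨-, h⟩; exact hjk h)]
      apply wt_zero _ _ _ (Sum.inl k)
      refine ⟨Or.inr ?_, Or.inl ?_⟩
      · show cyc (c i) (c k) (c j)
        have h3 : c k ≠ c j := fun h => hjk (hG.ci h).symm
        have h4 : c i ≠ c j := fun h => hij (hG.ci h)
        rcases cyc_total hclk h3 h4 with h | h
        · exact h
        · exact absurd h (hc j)
      · show r k = r (swap i k i)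
        rw [swap_apply_left]
  · rw [if_neg (by rintro ⟨h, -⟩; exact hil h)]
    by_cases hik : i = k
    · subst hik
      apply wt_zero _ _ _ (Sum.inr m)
      refine ⟨Or.inl ham, Or.inl ?_⟩
      show b m = r (swap l i i)
      rw [swap_apply_right, hbm]
    · apply wt_zero _ _ _ (Sum.inl i)
      refine ⟨Or.inl rfl, Or.inl ?_⟩
      show r i = r (swap l k i)
      rw [swap_apply_of_ne_of_ne hil hik]

theorem main (hG : Gd c r a b) {l k : ι} {m : κ} (hlk : l ≠ k) (ham : a m = c k) (hbm : b m = r l)
    (hc : ∀ i, ¬ cyc (c l) (c i) (c k)) (hr : ∀ i, ¬ cyc (r k) (r i) (r l))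
    (hn : ∀ n, a n = c l → b n ≠ r k) : V c r a b := by
  refine ⟨Pi.single (Equiv.swap l k) 1, ?_⟩
  funext y
  unfold bd del
  have key : ∀ i j : ι, (Pi.single (Equiv.swap l k) (1 : ZMod 2) : Perm ι → ZMod 2) (y * Equiv.swap i j) *
      Wt (gm c r a b) (y * Equiv.swap i j) i j = if i = l ∧ j = k ∧ y = 1 then 1 else 0 := by
    intro i j
    by_cases h : y * Equiv.swap i j = Equiv.swap l k
    · rw [h, Pi.single_eq_same, one_mul, wt hG hlk ham hbm hc hr hn]
      by_cases h2 : i = l ∧ j = k
      · rw [if_pos h2, if_pos]
        refine ⟨h2.1, h2.2, ?_⟩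
        rw [h2.1, h2.2] at h
        exact mul_eq_right.mp h
      · rw [if_neg h2, if_neg]
        rintro ⟨h3, h4, -⟩
        exact h2 ⟨h3, h4⟩
    · rw [Pi.single_eq_of_ne h, zero_mul, if_neg]
      rintro ⟨h3, h4, h5⟩
      apply h
      rw [h3, h4, h5, one_mul]
  simp only [key]
  by_cases hy : y = 1
  · subst hy
    rw [Pi.single_eq_same]
    rw [Finset.sum_eq_single l]
    · rw [Finset.sum_eq_single k]
      · simp
      · intro j _ hj
        rw [if_neg]
        rintro ⟨-, h, -⟩
        exact hj h
      · intro h
        exact absurd (mem_univ k) h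
    · intro i _ hi
      apply Finset.sum_eq_zero
      intro j _
      rw [if_neg]
      rintro ⟨h, -, -⟩
      exact hi h
    · intro h
      exact absurd (mem_univ l) h
  · rw [Pi.single_eq_of_ne hy]
    apply Finset.sum_eq_zero
    intro i _
    apply Finset.sum_eq_zero
    intro j _
    rw [if_neg]
    rintro ⟨-, -, h⟩
    exact hy h

end

end BLK

/-- BLK, corrected statement: the fourth square of the block carries no `O` mark. -/
theorem t_BLK :
    ∀ (ι κ α β : Type) [Fintype ι] [DecidableEq ι] [Fintype κ] [LinearOrder α] [LinearOrder β]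
    (c : ι → α) (r : ι → β) (a : κ → α) (b : κ → β), Gd c r a b →
    ∀ (l k : ι) (m : κ), l ≠ k → a m = c k → b m = r l → (∀ i, ¬ cyc (c l) (c i) (c k)) →
      (∀ i, ¬ cyc (r k) (r i) (r l)) → (∀ n, a n = c l → b n ≠ r k) → V c r a b := by
  intro ι κ α β _ _ _ _ _ c r a b hG l k m hlk ham hbm hc hr hn
  exact BLK.main hG hlk ham hbm hc hr hn

end LG
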