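import Mathlib

/-!
# Fully blocked grid homology of toroidal grid diagrams over a ring of characteristic two

Definitions for part D of the solution of MP_093788_gt.
-/

namespace LG

open Equiv Finset

/-! ### cyclic order -/

section Cyc

variable {α : Type*} [LinearOrder α]

/-- `b` lies strictly between `a` and `c` in the cyclic order. -/
def cyc (a b c : α) : Prop := (a < b ∧ b < c) ∨ (b < c ∧ c < a) ∨ (c < a ∧ a < b)

/-- `b` lies in the half open cyclic interval `[a, c)` (used only for `a ≠ c`). -/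
def ico (a b c : α) : Prop := b = a ∨ cyc a b c

instance (a b c : α) : Decidable (cyc a b c) := by unfold cyc; infer_instance

instance (a b c : α) : Decidable (ico a b c) := by unfold ico; infer_instance

theorem cyc_rot {a b c : α} : cyc a b c ↔ cyc b c a := by unfold cyc; tauto

theorem cyc_ne {a b c : α} (h : cyc a b c) : a ≠ b ∧ b ≠ c ∧ a ≠ c := by
  unfold cyc at h; grind

theorem cyc_asymm {a b c : α} (h : cyc a b c) : ¬ cyc a c b := by
  unfold cyc at *; grind

theorem cyc_total {a b c : α} (h₁ : a ≠ b) (h₂ : b ≠ c) (h₃ : a ≠ c) : cyc a b c ∨ cyc a c b := by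
  unfold cyc; grind

theorem cyc_trans {a b c d : α} (h : cyc a b c) (h' : cyc a c d) : cyc a b d := by
  unfold cyc at *; grind

theorem cyc_split {a b c x : α} (h : cyc a b c) :
    cyc a x c ↔ cyc a x b ∨ x = b ∨ cyc b x c := by
  unfold cyc at *; grind

theorem ico_split {a b c x : α} (h : cyc a b c) : ico a x c ↔ ico a x b ∨ ico b x c := by
  unfold ico cyc at *; grind

theorem ico_disj {a b c x : α} (h : cyc a b c) : ¬ (ico a x b ∧ ico b x c) := by
  unfold ico cyc at *; grind

theorem ico_compl {a b x : α} (h : a ≠ b) : ico a x b ↔ ¬ ico b x a := by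
  unfold ico cyc at *; grind

/-- The pairs `{a, b}` and `{c, d}` have no common element and do not separate each other on the
circle. -/
def Unl (a b c d : α) : Prop :=
  a ≠ c ∧ a ≠ d ∧ b ≠ c ∧ b ≠ d ∧ (cyc a c b ↔ cyc a d b)

end Cyc

/-! ### marked toroidal grids -/

/-- A marked toroidal grid: the vertical circles `ι` at the positions `u`, the horizontal circles
`ι` at the positions `v`, and marks `m : M` at the points `(p m, q m)` with weights `w m`. A mark
whose position agrees with the position of a circle lies immediately to the right of (above) it. -/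
structure MG (ι M α β R : Type) where
  u : ι → α
  v : ι → β
  p : M → α
  q : M → β
  w : M → R

section Grid

variable {ι M α β R : Type} [Fintype ι] [DecidableEq ι] [Fintype M] [LinearOrder α]
  [LinearOrder β] [CommRing R]

/-- A state is a permutation of `ι`: it has the points `(u i, v (x i))`. The rectangle `(i, j)` of
`x` has the lower left corner `(u i, v (x i))` and the upper right corner `(u j, v (x j))`, and
goes from `x` to `x * swap i j`. It is empty if it has no point of `x` in its interior. -/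
def Emp (G : MG ι M α β R) (x : Perm ι) (i j : ι) : Prop :=
  ∀ k, ¬ (cyc (G.u i) (G.u k) (G.u j) ∧ cyc (G.v (x i)) (G.v (x k)) (G.v (x j)))

/-- The mark `m` lies in the rectangle `(i, j)` of the state `x`. -/
def Ins (G : MG ι M α β R) (x : Perm ι) (i j : ι) (m : M) : Prop :=
  ico (G.u i) (G.p m) (G.u j) ∧ ico (G.v (x i)) (G.q m) (G.v (x j))

instance (G : MG ι M α β R) (x : Perm ι) (i j : ι) : Decidable (Emp G x i j) := by
  unfold Emp; infer_instance

instance (G : MG ι M α β R) (x : Perm ι) (i j : ι) (m : M) : Decidable (Ins G x i j m) := by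
  unfold Ins; infer_instance

/-- The weight of the rectangle `(i, j)` of the state `x`. -/
def Wt (G : MG ι M α β R) (x : Perm ι) (i j : ι) : R :=
  if i ≠ j ∧ Emp G x i j then ∏ m, (if Ins G x i j m then G.w m else 1) else 0

/-- The differential. -/
def del (G : MG ι M α β R) (f : Perm ι → R) (y : Perm ι) : R :=
  ∑ i, ∑ j, f (y * swap i j) * Wt G (y * swap i j) i j

/-- Every vertical annulus between two adjacent circles has weight zero. -/
def ColZero (G : MG ι M α β R) : Prop :=
  ∀ i j, i ≠ j → (∀ k, ¬ cyc (G.u i) (G.u k) (G.u j)) →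
    ∏ m, (if ico (G.u i) (G.p m) (G.u j) then G.w m else 1) = 0

/-- Every horizontal annulus between two adjacent circles has weight zero. -/
def RowZero (G : MG ι M α β R) : Prop :=
  ∀ i j, i ≠ j → (∀ k, ¬ cyc (G.v i) (G.v k) (G.v j)) →
    ∏ m, (if ico (G.v i) (G.q m) (G.v j) then G.w m else 1) = 0

/-! ### the pentagon map -/

/-- Data of an exchange of two columns: the circle `i0` with its neighbours `i1` (before) and `i2`
(after), a height `a`; the marks `L` of the column before `i0` move to the column after `i0`, and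
the marks `K` of the column after `i0` move to the column before `i0`. -/
structure PD (G : MG ι M α β R) where
  i0 : ι
  i1 : ι
  i2 : ι
  n1 : i1 ≠ i0
  n2 : i2 ≠ i0
  adj1 : ∀ k, ¬ cyc (G.u i1) (G.u k) (G.u i0)
  adj2 : ∀ k, ¬ cyc (G.u i0) (G.u k) (G.u i2)
  a : β
  av : ∀ k, G.v k ≠ a
  aq : ∀ m, G.q m ≠ a
  L : M → Prop
  K : M → Prop
  decL : DecidablePred L
  decK : DecidablePred K
  p' : M → α
  hL : ∀ m, L m ↔ ico (G.u i1) (G.p m) (G.u i0)
  hK : ∀ m, K m ↔ ico (G.u i0) (G.p m) (G.u i2)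
  disj : ∀ m, ¬ (L m ∧ K m)
  mL : ∀ m, L m → ico (G.u i0) (p' m) (G.u i2)
  mK : ∀ m, K m → ico (G.u i1) (p' m) (G.u i0)
  mO : ∀ m, ¬ L m → ¬ K m → p' m = G.p m

attribute [instance] PD.decL PD.decK

/-- The grid after the exchange. -/
def PD.G' {G : MG ι M α β R} (D : PD G) : MG ι M α β R := { G with p := D.p' }

/-- The mark `m` lies in the pentagon `(i, j)` of the state `x`. -/
def PIns {G : MG ι M α β R} (D : PD G) (x : Perm ι) (i j : ι) (m : M) : Prop :=
  if D.K m then ico (G.v (x i)) (G.q m) D.a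
  else if D.L m then cyc D.a (G.q m) (G.v (x j))
  else Ins G x i j m

instance {G : MG ι M α β R} (D : PD G) (x : Perm ι) (i j : ι) (m : M) :
    Decidable (PIns D x i j m) := by unfold PIns; infer_instance

/-- The weight of the pentagon `(i, j)` of the state `x`. -/
def Pw {G : MG ι M α β R} (D : PD G) (x : Perm ι) (i j : ι) : R :=
  if i ≠ j ∧ (i = D.i0 ∨ j = D.i0) ∧ Emp G x i j ∧ cyc (G.v (x i)) D.a (G.v (x j)) then
    ∏ m, (if PIns D x i j m then G.w m else 1) else 0

/-- The pentagon map. -/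
def pent {G : MG ι M α β R} (D : PD G) (f : Perm ι → R) (y : Perm ι) : R :=
  ∑ i, ∑ j, f (y * swap i j) * Pw D (y * swap i j) i j

end Grid

/-! ### grid diagrams -/

section Diagram

variable {ι κ α β : Type} [Fintype ι] [DecidableEq ι] [Fintype κ] [LinearOrder α] [LinearOrder β]

/-- The marked grid of a grid diagram with the marks `X_k = (c k, r k)`, `k : ι`, and
`O_m = (a m, b m)`, `m : κ`. The vertical circle `k` runs immediately to the left of the mark
`X_k`, the horizontal circle `k` immediately below it. -/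
def gm (c : ι → α) (r : ι → β) (a : κ → α) (b : κ → β) : MG ι (ι ⊕ κ) α β (ZMod 2) where
  u := c
  v := r
  p := Sum.elim c a
  q := Sum.elim r b
  w := fun _ => 0

/-- The fully blocked differential. -/
def bd (c : ι → α) (r : ι → β) (a : κ → α) (b : κ → β) (f : Perm ι → ZMod 2) :
    Perm ι → ZMod 2 := del (gm c r a b) f

/-- The state whose points are the lower left corners of the `X` marks is a boundary in the fully
blocked grid complex: the Legendrian invariant `λ⁻` of the diagram vanishes. -/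
def V (c : ι → α) (r : ι → β) (a : κ → α) (b : κ → β) : Prop :=
  ∃ f : Perm ι → ZMod 2, bd c r a b f = Pi.single 1 1

/-- The marks of a genuine grid diagram: one `X` and one `O` in every row and column. -/
structure Gd (c : ι → α) (r : ι → β) (a : κ → α) (b : κ → β) : Prop where
  ci : Function.Injective c
  ri : Function.Injective r
  ai : Function.Injective a
  bi : Function.Injective b
  ac : ∀ m, ∃ k, a m = c k
  ca : ∀ k, ∃ m, c k = a m
  br : ∀ m, ∃ k, b m = r k
  rb : ∀ k, ∃ m, r k = b m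
  ne : ∀ k m, ¬ (c k = a m ∧ r k = b m)

/-- Number modulo two of the rectangles whose set of marks is exactly `S`. -/
def bdS [DecidableEq κ] (c : ι → α) (r : ι → β) (a : κ → α) (b : κ → β) (S : Finset (ι ⊕ κ))
    (f : Perm ι → ZMod 2) (y : Perm ι) : ZMod 2 :=
  ∑ i, ∑ j, f (y * swap i j) *
    (if i ≠ j ∧ Emp (gm c r a b) (y * swap i j) i j ∧
        (univ.filter fun m => Ins (gm c r a b) (y * swap i j) i j m) = S then 1 else 0)

end Diagram

/-! ### knots as cyclic lists -/

/-- A grid diagram of a knot as a cyclic list: the knot runs through the column `c₁`, the row `r₁`,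
the column `c₂`, the row `r₂`, ... The `X` marks are `(cᵢ, rᵢ)`, the `O` marks `(cᵢ₊₁, rᵢ)`. -/
def nx (L : List (ℝ × ℝ)) (i : Fin L.length) : Fin L.length :=
  ⟨(i.1 + 1) % L.length, Nat.mod_lt _ (Nat.lt_of_le_of_lt (Nat.zero_le _) i.2)⟩

/-- `λ⁻` vanishes for the diagram `L`. -/
def VL (L : List (ℝ × ℝ)) : Prop :=
  V (fun i : Fin L.length => (L.get i).1) (fun i => (L.get i).2)
    (fun i : Fin L.length => (L.get (nx L i)).1) (fun i => (L.get i).2)

/-- Rotation by the angle `π`. -/
def neg (L : List (ℝ × ℝ)) : List (ℝ × ℝ) := L.map fun p => (-p.1, -p.2)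

/-- `λ⁺` vanishes for the diagram `L`. -/
def VP (L : List (ℝ × ℝ)) : Prop := VL (neg L)

/-- The columns and the rows are different. -/
def Nd (L : List (ℝ × ℝ)) : Prop := (L.map Prod.fst).Nodup ∧ (L.map Prod.snd).Nodup

/-- Elementary Legendrian moves of cyclic lists. -/
inductive Mv : List (ℝ × ℝ) → List (ℝ × ℝ) → Prop
  /-- rotation of the list -/
  | rot (A B) : Mv (A ++ B) (B ++ A)
  /-- order isomorphism -/
  | iso (L : List (ℝ × ℝ)) (f g : ℝ → ℝ) (h : Nd L)
      (hf : ∀ p ∈ L, ∀ q ∈ L, p.1 < q.1 → f p.1 < f q.1)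
      (hg : ∀ p ∈ L, ∀ q ∈ L, p.2 < q.2 → g p.2 < g q.2) :
      Mv L (L.map fun p => (f p.1, g p.2))
  /-- the column `c` of the first entry moves to `t`; `z` is the last entry (it comes before the
  first one). The column `c` has its marks in the rows `z.2` and `r`. -/
  | col (c r t : ℝ) (B : List (ℝ × ℝ)) (z : ℝ × ℝ) (h : Nd ((c, r) :: (B ++ [z])))
      (ht : t ∉ ((c, r) :: (B ++ [z])).map Prod.fst)
      (hu : ∀ (B₁ B₂ : List (ℝ × ℝ)) (y x : ℝ × ℝ), (c, r) :: (B ++ [z]) = B₁ ++ y :: x :: B₂ →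
        (c < x.1 ∧ x.1 < t ∨ t < x.1 ∧ x.1 < c) → Unl z.2 r y.2 x.2) :
      Mv ((c, r) :: (B ++ [z])) ((t, r) :: (B ++ [z]))
  /-- the row `r` of the first entry moves to `t`; `z` is the second entry. The row `r` has its
  marks in the columns `c` and `z.1`. -/
  | row (c r t : ℝ) (z : ℝ × ℝ) (B : List (ℝ × ℝ)) (h : Nd ((c, r) :: z :: B))
      (ht : t ∉ ((c, r) :: z :: B).map Prod.snd)
      (hu : ∀ (B₁ B₂ : List (ℝ × ℝ)) (x y : ℝ × ℝ), (c, r) :: z :: B ++ [(c, r)] = B₁ ++ x :: y :: B₂ →
        (r < x.2 ∧ x.2 < t ∨ t < x.2 ∧ x.2 < r) → Unl c z.1 x.1 y.1) :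
      Mv ((c, r) :: z :: B) ((c, t) :: z :: B)
  /-- removal of the short row `r₁` between the adjacent columns `c₁`, `c₂`; `r₀` is the row of
  the last entry. -/
  | srow (c₁ r₁ c₂ r₂ : ℝ) (B : List (ℝ × ℝ)) (z : ℝ × ℝ)
      (h : Nd ((c₁, r₁) :: (c₂, r₂) :: (B ++ [z])))
      (ha : (∀ d ∈ ((c₁, r₁) :: (c₂, r₂) :: (B ++ [z])).map Prod.fst, ¬ cyc c₁ d c₂) ∧ cyc r₁ r₂ z.2 ∨
        (∀ d ∈ ((c₁, r₁) :: (c₂, r₂) :: (B ++ [z])).map Prod.fst, ¬ cyc c₂ d c₁) ∧ cyc z.2 r₂ r₁) :
      Mv ((c₁, r₁) :: (c₂, r₂) :: (B ++ [z])) ((c₂, r₂) :: (B ++ [z]))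
  /-- removal of the short column `c₂` between the adjacent rows `r₁`, `r₂`; `c₃` is the next
  column. -/
  | scol (c₁ r₁ c₂ r₂ : ℝ) (z : ℝ × ℝ) (B : List (ℝ × ℝ))
      (h : Nd ((c₁, r₁) :: (c₂, r₂) :: z :: B))
      (ha : (∀ d ∈ ((c₁, r₁) :: (c₂, r₂) :: z :: B).map Prod.snd, ¬ cyc r₁ d r₂) ∧ cyc z.1 c₁ c₂ ∨
        (∀ d ∈ ((c₁, r₁) :: (c₂, r₂) :: z :: B).map Prod.snd, ¬ cyc r₂ d r₁) ∧ cyc c₂ c₁ z.1) :
      Mv ((c₁, r₁) :: (c₂, r₂) :: z :: B) ((c₁, r₁) :: z :: B)

/-- Legendrian equivalence of cyclic lists. -/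
def LEq : List (ℝ × ℝ) → List (ℝ × ℝ) → Prop := Relation.EqvGen Mv

end LG
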