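import Pool.Agent.LG.Crt

/-!
# CRT: soundness of the checker
-/

namespace LG

open Equiv Finset

namespace CRT

/-- The list of the values of a permutation. -/
def enc {n : ℕ} (y : Perm (Fin n)) : List ℕ := List.ofFn fun k => (y k).val

theorem length_enc {n : ℕ} (y : Perm (Fin n)) : (enc y).length = n := by simp [enc]

theorem getD_enc {n : ℕ} (y : Perm (Fin n)) (k : Fin n) : (enc y).getD k.val 0 = (y k).val := by
  rw [List.getD_eq_getElem _ _ (by rw [length_enc]; exact k.2)]
  simp [enc]

theorem enc_one (n : ℕ) : enc (1 : Perm (Fin n)) = List.range n := by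
  unfold enc
  apply List.ext_getElem
  · simp
  · intro k h1 h2
    simp

theorem ext_getD {s t : List ℕ} (hl : s.length = t.length)
    (h : ∀ k < s.length, s.getD k 0 = t.getD k 0) : s = t := by
  apply List.ext_getElem hl
  intro k h1 h2
  have := h k h1
  rwa [List.getD_eq_getElem _ _ h1, List.getD_eq_getElem _ _ h2] at this

theorem length_swb (s : List ℕ) (i j : ℕ) : (swb s i j).length = s.length := by simp [swb]

theorem getD_swb (s : List ℕ) (i j k : ℕ) (hk : k < s.length) :
    (swb s i j).getD k 0 =
      if j = k then s.getD i 0 else if i = k then s.getD j 0 else s.getD k 0 := by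
  rw [List.getD_eq_getElem _ _ (by rw [length_swb]; exact hk)]
  unfold swb
  rw [List.getElem_set]
  split_ifs with h1 h2
  · rfl
  · rw [List.getElem_set, if_pos h2]
  · rw [List.getElem_set, if_neg h2, List.getD_eq_getElem _ _ hk]

theorem swb_swb (s : List ℕ) (i j : ℕ) (hi : i < s.length) (hj : j < s.length) :
    swb (swb s i j) i j = s := by
  apply ext_getD (by rw [length_swb, length_swb])
  intro k hk
  rw [length_swb, length_swb] at hk
  rw [getD_swb _ _ _ _ (by rw [length_swb]; exact hk), getD_swb _ _ _ _ hi, getD_swb _ _ _ _ hj,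
    getD_swb _ _ _ _ hk]
  split_ifs <;> simp_all

theorem swb_enc {n : ℕ} (x : Perm (Fin n)) (i j : Fin n) :
    swb (enc x) i.val j.val = enc (x * swap i j) := by
  apply ext_getD (by rw [length_swb, length_enc, length_enc])
  intro k hk
  rw [length_swb, length_enc] at hk
  rw [getD_swb _ _ _ _ (by rw [length_enc]; exact hk)]
  have e : k = (⟨k, hk⟩ : Fin n).val := rfl
  rw [getD_enc, getD_enc]
  conv_lhs => rw [e]
  conv_rhs => rw [e]
  rw [getD_enc, getD_enc, Perm.mul_apply]
  by_cases h1 : j = ⟨k, hk⟩
  · rw [if_pos (congrArg Fin.val h1), ← h1, swap_apply_right]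
  · rw [if_neg (fun h => h1 (Fin.ext h))]
    by_cases h2 : i = ⟨k, hk⟩
    · rw [if_pos (congrArg Fin.val h2), ← h2, swap_apply_left]
    · rw [if_neg (fun h => h2 (Fin.ext h)), swap_apply_of_ne_of_ne (Ne.symm h2) (Ne.symm h1)]

theorem nodup_of_ndb {α : Type} [DecidableEq α] : ∀ l : List α, ndb l = true → l.Nodup := by
  intro l
  induction l with
  | nil => intro _; exact List.nodup_nil
  | cons a l ih =>
      intro h
      unfold ndb at h
      rw [Bool.and_eq_true] at h
      rw [List.nodup_cons]
      refine ⟨?_, ih h.2⟩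
      intro hm
      have h1 := h.1
      rw [Bool.not_eq_true', ← Bool.not_eq_true] at h1
      exact h1 (by simpa using hm)

theorem cycb_iff (a b c : ℕ) : cycb a b c = true ↔ cyc (a : ℝ) b c := by
  unfold cycb cyc
  simp only [Bool.or_eq_true, Bool.and_eq_true, decide_eq_true_eq, Nat.cast_lt]
  tauto

theorem icob_iff (a b c : ℕ) : icob a b c = true ↔ ico (a : ℝ) b c := by
  unfold icob ico
  rw [Bool.or_eq_true, cycb_iff]
  simp

/-- The condition of the checker. -/
def cnd (L : List (ℕ × ℕ)) (x : List ℕ) (i j : ℕ) : Bool :=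
  i != j && (empb L x i j && mrkb L x i j)

section Main

variable {L : List (ℕ × ℕ)} {c r a b : Fin L.length → ℝ}

theorem cnd_iff (hc : ∀ i, c i = (gc L i.val : ℝ)) (hr : ∀ i, r i = (gr L i.val : ℝ))
    (ha : ∀ i, a i = (gc L ((i.val + 1) % L.length) : ℝ)) (hb : ∀ i, b i = (gr L i.val : ℝ))
    (x : Perm (Fin L.length)) (i j : Fin L.length) :
    cnd L (enc x) i.val j.val = true ↔
      (i ≠ j ∧ Emp (gm c r a b) x i j) ∧ ∀ m, ¬ Ins (gm c r a b) x i j m := by
  have hE : empb L (enc x) i.val j.val = true ↔ Emp (gm c r a b) x i j := by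
    unfold empb Emp
    rw [List.all_eq_true]
    constructor
    · intro h k
      have h1 := h k.val (List.mem_range.mpr k.2)
      rw [getD_enc, getD_enc, getD_enc, Bool.not_eq_true', ← Bool.not_eq_true, Bool.and_eq_true,
        cycb_iff, cycb_iff] at h1
      simpa only [gm, hc, hr] using h1
    · intro h k hk
      have hk' := List.mem_range.mp hk
      have h1 := h ⟨k, hk'⟩
      have e : k = (⟨k, hk'⟩ : Fin L.length).val := rfl
      rw [e, getD_enc, getD_enc, getD_enc, Bool.not_eq_true', ← Bool.not_eq_true,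
        Bool.and_eq_true, cycb_iff, cycb_iff]
      simpa only [gm, hc, hr] using h1
  have hM : mrkb L (enc x) i.val j.val = true ↔ ∀ m, ¬ Ins (gm c r a b) x i j m := by
    unfold mrkb
    rw [List.all_eq_true, Sum.forall]
    constructor
    · intro h
      constructor
      · intro k hk
        have h1 := h k.val (List.mem_range.mpr k.2)
        rw [getD_enc, getD_enc, Bool.not_eq_true', ← Bool.not_eq_true, Bool.and_eq_true,
          Bool.or_eq_true, icob_iff, icob_iff, icob_iff] at h1
        apply h1
        simp only [Ins, gm, hc, hr, Sum.elim_inl] at hk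
        exact ⟨Or.inl hk.1, hk.2⟩
      · intro k hk
        have h1 := h k.val (List.mem_range.mpr k.2)
        rw [getD_enc, getD_enc, Bool.not_eq_true', ← Bool.not_eq_true, Bool.and_eq_true,
          Bool.or_eq_true, icob_iff, icob_iff, icob_iff] at h1
        apply h1
        simp only [Ins, gm, hc, hr, ha, hb, Sum.elim_inr] at hk
        exact ⟨Or.inr hk.1, hk.2⟩
    · rintro ⟨h1, h2⟩ k hk
      have hk' := List.mem_range.mp hk
      have h3 := h1 ⟨k, hk'⟩
      have h4 := h2 ⟨k, hk'⟩
      have e : k = (⟨k, hk'⟩ : Fin L.length).val := rfl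
      rw [getD_enc, getD_enc, Bool.not_eq_true', ← Bool.not_eq_true, Bool.and_eq_true,
          Bool.or_eq_true, icob_iff, icob_iff, icob_iff]
      simp only [Ins, gm, hc, hr, Sum.elim_inl] at h3
      simp only [Ins, gm, hc, hr, ha, hb, Sum.elim_inr] at h4
      rintro ⟨h5 | h5, h6⟩
      · exact h3 ⟨h5, h6⟩
      · exact h4 ⟨h5, h6⟩
  unfold cnd
  rw [Bool.and_eq_true, Bool.and_eq_true, hE, hM, and_assoc]
  have : ((i.val != j.val) = true) ↔ i ≠ j := by
    rw [bne_iff_ne, ne_eq, ne_eq, Fin.ext_iff]
  rw [this]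

theorem Wt_eq (hc : ∀ i, c i = (gc L i.val : ℝ)) (hr : ∀ i, r i = (gr L i.val : ℝ))
    (ha : ∀ i, a i = (gc L ((i.val + 1) % L.length) : ℝ)) (hb : ∀ i, b i = (gr L i.val : ℝ))
    (x : Perm (Fin L.length)) (i j : Fin L.length) :
    Wt (gm c r a b) x i j = if cnd L (enc x) i.val j.val = true then 1 else 0 := by
  unfold Wt
  by_cases h : i ≠ j ∧ Emp (gm c r a b) x i j
  · rw [if_pos h]
    by_cases h2 : ∀ m, ¬ Ins (gm c r a b) x i j m
    · rw [if_pos ((cnd_iff hc hr ha hb x i j).mpr ⟨h, h2⟩)]
      apply Finset.prod_eq_one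
      intro m _
      rw [if_neg (h2 m)]
    · rw [if_neg (fun h3 => h2 ((cnd_iff hc hr ha hb x i j).mp h3).2)]
      push Not at h2
      obtain ⟨m, hm⟩ := h2
      apply Finset.prod_eq_zero (mem_univ m)
      rw [if_pos hm]
      rfl
  · rw [if_neg h, if_neg (fun h3 => h ((cnd_iff hc hr ha hb x i j).mp h3).1)]

end Main

theorem sum_range_eq (n : ℕ) (f : ℕ → ℕ) :
    ((List.range n).map f).sum = ∑ i : Fin n, f i.val := by
  rw [Fin.sum_univ_eq_sum_range (fun i => f i) n]
  rfl

theorem count_preb (L : List (ℕ × ℕ)) (S : List (List ℕ)) (hS : S.Nodup)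
    (hl : ∀ s ∈ S, s.length = L.length) (x : Perm (Fin L.length)) :
    (preb L S).count (enc x) = ∑ i : Fin L.length, ∑ j : Fin L.length,
      if cnd L (enc x) i.val j.val = true then (if enc (x * swap i j) ∈ S then 1 else 0) else 0 := by
  unfold preb
  rw [List.count_flatMap]
  have h1 : ∀ s ∈ S, (List.count (enc x) ∘ fun y => (List.range L.length).flatMap fun i =>
      (List.range L.length).flatMap fun j =>
      if i != j && (empb L (swb y i j) i j && mrkb L (swb y i j) i j) then [swb y i j] else []) s =
      ∑ i : Fin L.length, ∑ j : Fin L.length,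
        if cnd L (enc x) i.val j.val = true then (if s = enc (x * swap i j) then 1 else 0)
          else 0 := by
    intro s hs
    simp only [Function.comp_apply]
    rw [List.count_flatMap, sum_range_eq]
    apply Finset.sum_congr rfl
    intro i _
    simp only [Function.comp_apply]
    rw [List.count_flatMap, sum_range_eq]
    apply Finset.sum_congr rfl
    intro j _
    simp only [Function.comp_apply]
    have hi : i.val < s.length := by rw [hl s hs]; exact i.2
    have hj : j.val < s.length := by rw [hl s hs]; exact j.2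
    by_cases h2 : s = enc (x * swap i j)
    · have h3 : swb s i.val j.val = enc x := by
        rw [h2, ← swb_enc, swb_swb _ _ _ (by rw [length_enc]; exact i.2)
          (by rw [length_enc]; exact j.2)]
      rw [h3, if_pos h2]
      change List.count (enc x) (if cnd L (enc x) i.val j.val = true then [enc x] else []) = _
      split_ifs <;> simp
    · have h3 : swb s i.val j.val ≠ enc x := by
        intro h4
        apply h2
        rw [← swb_enc, ← h4, swb_swb _ _ _ hi hj]
      rw [if_neg h2, ite_self]
      split_ifs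
      · rw [List.count_singleton, if_neg]
        simpa using h3
      · simp
  rw [List.map_congr_left h1, ← List.sum_toFinset _ hS, Finset.sum_comm]
  apply Finset.sum_congr rfl
  intro i _
  rw [Finset.sum_comm]
  apply Finset.sum_congr rfl
  intro j _
  by_cases h2 : cnd L (enc x) i.val j.val = true
  · simp only [if_pos h2]
    rw [Finset.sum_ite_eq']
    simp only [List.mem_toFinset]
  · simp only [if_neg h2]
    exact Finset.sum_const_zero

theorem core {L : List (ℕ × ℕ)} {c r a b : Fin L.length → ℝ} (S : List (List ℕ))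
    (hc : ∀ i, c i = (gc L i.val : ℝ)) (hr : ∀ i, r i = (gr L i.val : ℝ))
    (ha : ∀ i, a i = (gc L ((i.val + 1) % L.length) : ℝ)) (hb : ∀ i, b i = (gr L i.val : ℝ))
    (h : chkb L S = true) : ¬ V c r a b := by
  rintro ⟨f, hf⟩
  unfold chkb at h
  simp only [Bool.and_eq_true] at h
  obtain ⟨⟨⟨⟨⟨_, _⟩, hS⟩, h1⟩, h2⟩, h3⟩ := h
  have hS' : S.Nodup := nodup_of_ndb S hS
  have hl : ∀ s ∈ S, s.length = L.length := by
    intro s hs
    have := (List.all_eq_true.mp h2) s hs
    simp only [Bool.and_eq_true] at this
    exact beq_iff_eq.mp this.1.1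
  have h1' : enc (1 : Perm (Fin L.length)) ∈ S := by
    rw [enc_one]
    simpa using h1
  have hev : ∀ x : Perm (Fin L.length), (((preb L S).count (enc x) : ℕ) : ZMod 2) = 0 := by
    intro x
    rw [ZMod.natCast_eq_zero_iff]
    by_cases hx : enc x ∈ preb L S
    · have := (List.all_eq_true.mp h3) _ hx
      exact Nat.dvd_of_mod_eq_zero (beq_iff_eq.mp this)
    · rw [List.count_eq_zero_of_not_mem hx]
      exact dvd_zero 2
  have key : ∀ x : Perm (Fin L.length), ∑ i, ∑ j,
      (if enc (x * swap i j) ∈ S then (1 : ZMod 2) else 0) * Wt (gm c r a b) x i j = 0 := by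
    intro x
    refine Eq.trans ?_ (hev x)
    rw [count_preb L S hS' hl x]
    push_cast
    apply Finset.sum_congr rfl
    intro i _
    apply Finset.sum_congr rfl
    intro j _
    rw [Wt_eq hc hr ha hb]
    split_ifs <;> simp
  have e1 : ∑ y : Perm (Fin L.length), (if enc y ∈ S then (1 : ZMod 2) else 0) *
      bd c r a b f y = 1 := by
    rw [hf]
    rw [Finset.sum_eq_single (1 : Perm (Fin L.length))]
    · rw [if_pos h1', Pi.single_eq_same, one_mul]
    · intro y _ hy
      rw [Pi.single_eq_of_ne hy, mul_zero]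
    · intro h
      exact absurd (mem_univ _) h
  have e2 : ∑ y : Perm (Fin L.length), (if enc y ∈ S then (1 : ZMod 2) else 0) *
      bd c r a b f y = 0 := by
    unfold bd del
    simp only [Finset.mul_sum]
    rw [Finset.sum_comm]
    have e3 : ∀ i j : Fin L.length, ∑ y : Perm (Fin L.length),
        (if enc y ∈ S then (1 : ZMod 2) else 0) *
          (f (y * swap i j) * Wt (gm c r a b) (y * swap i j) i j) =
        ∑ x : Perm (Fin L.length), (if enc (x * swap i j) ∈ S then (1 : ZMod 2) else 0) *
          (f x * Wt (gm c r a b) x i j) := by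
      intro i j
      rw [← Equiv.sum_comp (Equiv.mulRight (swap i j))]
      apply Finset.sum_congr rfl
      intro x _
      have e6 : x * swap i j * swap i j = x := by rw [mul_assoc, swap_mul_self, mul_one]
      change (if enc (x * swap i j) ∈ S then (1 : ZMod 2) else 0) *
          (f (x * swap i j * swap i j) * Wt (gm c r a b) (x * swap i j * swap i j) i j) = _
      rw [e6]
    have e4 : ∀ i : Fin L.length, ∑ y : Perm (Fin L.length), ∑ j : Fin L.length,
        (if enc y ∈ S then (1 : ZMod 2) else 0) *
          (f (y * swap i j) * Wt (gm c r a b) (y * swap i j) i j) =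
        ∑ x : Perm (Fin L.length), ∑ j : Fin L.length,
          (if enc (x * swap i j) ∈ S then (1 : ZMod 2) else 0) *
          (f x * Wt (gm c r a b) x i j) := by
      intro i
      rw [Finset.sum_comm, Finset.sum_congr rfl (fun j _ => e3 i j), Finset.sum_comm]
    rw [Finset.sum_congr rfl (fun i _ => e4 i), Finset.sum_comm]
    apply Finset.sum_eq_zero
    intro x _
    have e5 : ∑ i : Fin L.length, ∑ j : Fin L.length,
        (if enc (x * swap i j) ∈ S then (1 : ZMod 2) else 0) * (f x * Wt (gm c r a b) x i j) =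
        f x * ∑ i : Fin L.length, ∑ j : Fin L.length,
        (if enc (x * swap i j) ∈ S then (1 : ZMod 2) else 0) * Wt (gm c r a b) x i j := by
      rw [Finset.mul_sum]
      apply Finset.sum_congr rfl
      intro i _
      rw [Finset.mul_sum]
      apply Finset.sum_congr rfl
      intro j _
      ring
    rw [e5, key x, mul_zero]
  rw [e1] at e2
  exact one_ne_zero e2

theorem core' {L : List (ℕ × ℕ)} {n : ℕ} (hn : n = L.length) {c r a b : Fin n → ℝ}
    (S : List (List ℕ))
    (hc : ∀ i, c i = (gc L i.val : ℝ)) (hr : ∀ i, r i = (gr L i.val : ℝ))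
    (ha : ∀ i, a i = (gc L ((i.val + 1) % n) : ℝ)) (hb : ∀ i, b i = (gr L i.val : ℝ))
    (h : chkb L S = true) : ¬ V c r a b := by
  subst hn
  exact core S hc hr ha hb h

end CRT

theorem t_CRT : Stmt_CRT := by
  intro L S h
  unfold VL
  have hl : (L.map fun p => ((p.1 : ℝ), (p.2 : ℝ))).length = L.length := List.length_map _
  have hg : ∀ k : Fin (L.map fun p => ((p.1 : ℝ), (p.2 : ℝ))).length,
      (L.map fun p => ((p.1 : ℝ), (p.2 : ℝ))).get k = ((gc L k.val : ℝ), (gr L k.val : ℝ)) := by
    intro k
    have hk : k.val < L.length := hl ▸ k.2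
    rw [List.get_eq_getElem, List.getElem_map]
    unfold gc gr
    rw [List.getD_eq_getElem _ _ hk]
  apply CRT.core' hl S _ _ _ _ h
  · intro i; rw [hg]
  · intro i; rw [hg]
  · intro i; rw [hg]; rfl
  · intro i; rw [hg]

end LG
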