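import Pool.Agent.LG.Crt

/-!
# The certificates for the grid `LJ`
-/

namespace LG

/-- The cocycle for `λ⁻`. -/
def SJ : List (List ℕ) :=
  [[0, 1, 2, 3, 4, 5, 6, 7, 8, 9, 10, 11],
   [5, 1, 2, 0, 4, 3, 6, 7, 8, 9, 10, 11],
   [2, 1, 11, 3, 4, 5, 6, 7, 8, 9, 10, 0],
   [5, 1, 2, 0, 4, 11, 6, 7, 8, 3, 10, 9],
   [2, 1, 7, 3, 4, 11, 6, 5, 8, 9, 10, 0],
   [2, 1, 11, 0, 4, 5, 3, 7, 8, 9, 10, 6],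
   [5, 1, 2, 0, 9, 11, 4, 7, 8, 3, 10, 6],
   [2, 1, 7, 0, 4, 11, 3, 5, 8, 9, 10, 6],
   [2, 9, 11, 0, 4, 5, 1, 7, 8, 3, 10, 6],
   [5, 2, 4, 0, 9, 11, 1, 7, 8, 3, 10, 6],
   [5, 1, 4, 0, 9, 11, 10, 7, 8, 3, 2, 6],
   [2, 9, 7, 0, 4, 11, 1, 5, 8, 3, 10, 6],
   [2, 7, 9, 0, 4, 5, 1, 11, 8, 3, 10, 6],
   [2, 8, 4, 0, 9, 11, 1, 7, 5, 3, 10, 6],
   [5, 7, 4, 0, 9, 2, 1, 11, 8, 3, 10, 6],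
   [2, 7, 4, 0, 9, 8, 1, 11, 5, 3, 10, 6],
   [2, 7, 4, 0, 9, 5, 1, 8, 11, 3, 10, 6],
   [2, 7, 4, 11, 9, 5, 1, 0, 8, 3, 10, 6],
   [2, 7, 4, 3, 9, 5, 1, 0, 8, 6, 10, 11],
   [2, 7, 4, 3, 1, 5, 6, 0, 8, 9, 10, 11]]

/-- The cocycle for `λ⁺`. -/
def SJn : List (List ℕ) :=
  [[0, 1, 2, 3, 4, 5, 6, 7, 8, 9, 10, 11],
   [0, 1, 2, 6, 4, 5, 11, 7, 8, 9, 10, 3],
   [0, 1, 10, 3, 4, 5, 2, 7, 8, 9, 6, 11],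
   [0, 1, 2, 6, 4, 5, 11, 8, 3, 9, 10, 7],
   [0, 1, 2, 6, 4, 8, 11, 7, 3, 9, 10, 5],
   [0, 1, 5, 3, 4, 7, 2, 10, 8, 9, 6, 11],
   [0, 1, 2, 6, 8, 5, 11, 10, 3, 9, 4, 7],
   [0, 1, 5, 3, 4, 9, 2, 10, 8, 11, 6, 7],
   [0, 1, 2, 9, 8, 5, 11, 10, 3, 4, 6, 7],
   [0, 1, 5, 3, 2, 9, 11, 10, 8, 4, 6, 7]]

theorem chk_LJ : chkb LJ SJ = true := by decide +kernel

theorem chk_LJn : chkb LJn SJn = true := by decide +kernel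

end LG
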