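import Pool.Agent.LG.Base

/-!
# Certificates for the nonvanishing of `λ⁻`
-/

namespace LG

/-- Cyclic order of natural numbers. -/
def cycb (a b c : ℕ) : Bool := (a < b && b < c) || (b < c && c < a) || (c < a && a < b)

/-- Half open cyclic interval. -/
def icob (a b c : ℕ) : Bool := b == a || cycb a b c

/-- The column of the entry `i`. -/
def gc (L : List (ℕ × ℕ)) (i : ℕ) : ℕ := (L.getD i (0, 0)).1

/-- The row of the entry `i`. -/
def gr (L : List (ℕ × ℕ)) (i : ℕ) : ℕ := (L.getD i (0, 0)).2

/-- The rectangle `(i, j)` of the state `x` is empty. -/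
def empb (L : List (ℕ × ℕ)) (x : List ℕ) (i j : ℕ) : Bool :=
  (List.range L.length).all fun k =>
    !(cycb (gc L i) (gc L k) (gc L j) &&
      cycb (gr L (x.getD i 0)) (gr L (x.getD k 0)) (gr L (x.getD j 0)))

/-- The rectangle `(i, j)` of the state `x` has no marks. -/
def mrkb (L : List (ℕ × ℕ)) (x : List ℕ) (i j : ℕ) : Bool :=
  (List.range L.length).all fun m =>
    !((icob (gc L i) (gc L m) (gc L j) || icob (gc L i) (gc L ((m + 1) % L.length)) (gc L j)) &&
      icob (gr L (x.getD i 0)) (gr L m) (gr L (x.getD j 0)))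

/-- Exchange of two values. -/
def swb (x : List ℕ) (i j : ℕ) : List ℕ := (x.set i (x.getD j 0)).set j (x.getD i 0)

/-- The states with rectangles into the set `S`, with multiplicities. -/
def preb (L : List (ℕ × ℕ)) (S : List (List ℕ)) : List (List ℕ) :=
  S.flatMap fun y => (List.range L.length).flatMap fun i => (List.range L.length).flatMap fun j =>
    if i != j && (empb L (swb y i j) i j && mrkb L (swb y i j) i j) then [swb y i j] else []

/-- Distinct elements. -/
def ndb {α : Type} [DecidableEq α] : List α → Bool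
  | [] => true
  | a :: l => !(l.contains a) && ndb l

/-- The checker: `S` is a cocycle which contains the state `1`. -/
def chkb (L : List (ℕ × ℕ)) (S : List (List ℕ)) : Bool :=
  ndb (L.map Prod.fst) && ndb (L.map Prod.snd) && ndb S && S.contains (List.range L.length) &&
    (S.all fun y => y.length == L.length && ndb y && y.all fun k => k < L.length) &&
    (preb L S).all fun x => (preb L S).count x % 2 == 0

/-- CRT: soundness of the checker. -/
def Stmt_CRT : Prop :=
  ∀ (L : List (ℕ × ℕ)) (S : List (List ℕ)), chkb L S = true →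
    ¬ VL (L.map fun p => ((p.1 : ℝ), (p.2 : ℝ)))

/-- The grid with small certificates. -/
def LJ : List (ℕ × ℕ) :=
  [(11, 0), (2, 7), (4, 11), (10, 3), (6, 9), (1, 4), (9, 10), (5, 5), (0, 1), (8, 6), (3, 8), (7, 2)]

/-- The same grid, rotated by the angle `π`. -/
def LJn : List (ℕ × ℕ) :=
  [(0, 11), (9, 4), (7, 0), (1, 8), (5, 2), (10, 7), (2, 1), (6, 6), (11, 10), (3, 5), (8, 3), (4, 9)]

end LG
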