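import Pool.Agent.LG.Stmts

/-!
# ROW: exchange of two adjacent unlinked rows
-/

namespace LG

open Equiv Finset Function

namespace ROW

theorem gd_transpose {ι κ α β : Type} [LinearOrder α] [LinearOrder β] {c : ι → α} {r : ι → β}
    {a : κ → α} {b : κ → β} (h : Gd c r a b) : Gd r c b a :=
  ⟨h.ri, h.ci, h.bi, h.ai, h.br, h.rb, h.ac, h.ca, fun k m h' => h.ne k m ⟨h'.2, h'.1⟩⟩

end ROW

theorem t_ROW : Stmt_ROW := by
  intro hC hT ι κ α β _ _ _ _ _ c r a b hG j k m n hjk hadj hbm hbn hU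
  rw [hT ι κ α β c r a b,
    hT ι κ α β c (swap (r j) (r k) ∘ r) a (swap (r j) (r k) ∘ b)]
  exact hC ι κ β α r c b a (ROW.gd_transpose hG) j k m n hjk hadj hbm hbn hU

end LG
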