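import Pool.Agent.LG.Base

/-!
# Part D: statements
-/

namespace LG

open Equiv Finset Function

/-! ### the square of the differential -/

/-- WT0: rectangles without common vertical circles commute. -/
def Stmt_WT0 : Prop :=
  ∀ (ι M α β R : Type) [Fintype ι] [DecidableEq ι] [Fintype M] [LinearOrder α] [LinearOrder β]
    [CommRing R] (G : MG ι M α β R), Injective G.u → Injective G.v →
    ∀ (x : Perm ι) (i j k l : ι), i ≠ k → i ≠ l → j ≠ k → j ≠ l →
      Wt G x i j * Wt G (x * swap i j) k l = Wt G x k l * Wt G (x * swap k l) i j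

/-- Both rectangles between the circles `p` and `q`. -/
def W2 {ι M α β R : Type} [Fintype ι] [DecidableEq ι] [Fintype M] [LinearOrder α] [LinearOrder β]
    [CommRing R] (G : MG ι M α β R) (x : Perm ι) (p q : ι) : R := Wt G x p q + Wt G x q p

/-- WT1: composites of two rectangles with exactly one common vertical circle. -/
def Stmt_WT1 : Prop :=
  ∀ (ι M α β R : Type) [Fintype ι] [DecidableEq ι] [Fintype M] [LinearOrder α] [LinearOrder β]
    [CommRing R] (G : MG ι M α β R), (2 : R) = 0 → Injective G.u → Injective G.v →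
    ∀ (x : Perm ι) (p q r : ι), p ≠ q → q ≠ r → p ≠ r →
      W2 G x p q * W2 G (x * swap p q) p r + W2 G x q r * W2 G (x * swap q r) q p +
        W2 G x r p * W2 G (x * swap r p) r q = 0

/-- WT2: composites of two rectangles with the same vertical circles. -/
def Stmt_WT2 : Prop :=
  ∀ (ι M α β R : Type) [Fintype ι] [DecidableEq ι] [Fintype M] [LinearOrder α] [LinearOrder β]
    [CommRing R] (G : MG ι M α β R), Injective G.u → Injective G.v → ColZero G → RowZero G →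
    ∀ (x : Perm ι) (i j : ι), Wt G x i j * Wt G (x * swap i j) i j = 0 ∧
      Wt G x i j * Wt G (x * swap i j) j i = 0

/-- The square of the differential vanishes. -/
def P_DD : Prop :=
  ∀ (ι M α β R : Type) [Fintype ι] [DecidableEq ι] [Fintype M] [LinearOrder α] [LinearOrder β]
    [CommRing R] (G : MG ι M α β R), (2 : R) = 0 → Injective G.u → Injective G.v →
    ColZero G → RowZero G → ∀ f : Perm ι → R, del G (del G f) = 0

/-- DD -/
def Stmt_DD : Prop := Stmt_WT0 → Stmt_WT1 → Stmt_WT2 → P_DD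

/-! ### the pentagon map is a chain map -/

/-- PT0: a pentagon and a rectangle without common vertical circles. -/
def Stmt_PT0 : Prop :=
  ∀ (ι M α β R : Type) [Fintype ι] [DecidableEq ι] [Fintype M] [LinearOrder α] [LinearOrder β]
    [CommRing R] (G : MG ι M α β R) (D : PD G), Injective G.u → Injective G.v →
    ∀ (x : Perm ι) (i j k l : ι), i ≠ k → i ≠ l → j ≠ k → j ≠ l →
      Pw D x i j * Wt D.G' (x * swap i j) k l = Wt G x k l * Pw D (x * swap k l) i j

/-- Both pentagons between the circles `p` and `q`. -/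
def P2 {ι M α β R : Type} [Fintype ι] [DecidableEq ι] [Fintype M] [LinearOrder α] [LinearOrder β]
    [CommRing R] {G : MG ι M α β R} (D : PD G) (x : Perm ι) (p q : ι) : R :=
  Pw D x p q + Pw D x q p

/-- PT1: a pentagon and a rectangle with exactly one common vertical circle. -/
def Stmt_PT1 : Prop :=
  ∀ (ι M α β R : Type) [Fintype ι] [DecidableEq ι] [Fintype M] [LinearOrder α] [LinearOrder β]
    [CommRing R] (G : MG ι M α β R) (D : PD G), (2 : R) = 0 → Injective G.u → Injective G.v →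
    ∀ (x : Perm ι) (p q r : ι), p = D.i0 → p ≠ q → q ≠ r → p ≠ r →
      P2 D x p q * W2 D.G' (x * swap p q) p r + W2 G x p q * P2 D (x * swap p q) p r +
        W2 G x q r * P2 D (x * swap q r) q p + P2 D x r p * W2 D.G' (x * swap r p) r q = 0

/-- PT2: a pentagon and a rectangle with the same vertical circles. -/
def Stmt_PT2 : Prop :=
  ∀ (ι M α β R : Type) [Fintype ι] [DecidableEq ι] [Fintype M] [LinearOrder α] [LinearOrder β]
    [CommRing R] (G : MG ι M α β R) (D : PD G), (2 : R) = 0 → Injective G.u → Injective G.v →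
    ∀ x : Perm ι, ∑ j ∈ univ.erase D.i0,
      (P2 D x D.i0 j * W2 D.G' (x * swap D.i0 j) D.i0 j +
        W2 G x D.i0 j * P2 D (x * swap D.i0 j) D.i0 j) = 0

/-- The pentagon map is a chain map. -/
def P_PC : Prop :=
  ∀ (ι M α β R : Type) [Fintype ι] [DecidableEq ι] [Fintype M] [LinearOrder α] [LinearOrder β]
    [CommRing R] (G : MG ι M α β R) (D : PD G), (2 : R) = 0 → Injective G.u → Injective G.v →
    ∀ f : Perm ι → R, del D.G' (pent D f) = pent D (del G f)

/-- PC -/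
def Stmt_PC : Prop := Stmt_PT0 → Stmt_PT1 → Stmt_PT2 → P_PC

/-! ### invariance of `V` -/

/-- REL: `V` depends only on the cyclic order of the positions, up to relabelling. -/
def Stmt_REL : Prop :=
  ∀ (ι κ ι' κ' α β α' β' : Type) [Fintype ι] [DecidableEq ι] [Fintype κ] [Fintype ι']
    [DecidableEq ι'] [Fintype κ'] [LinearOrder α] [LinearOrder β] [LinearOrder α']
    [LinearOrder β'] (c : ι → α) (r : ι → β) (a : κ → α) (b : κ → β) (c' : ι' → α') (r' : ι' → β')
    (a' : κ' → α') (b' : κ' → β') (e : ι ≃ ι') (e' : κ ≃ κ'),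
    (∀ x y z : ι ⊕ κ, cyc (Sum.elim c a x) (Sum.elim c a y) (Sum.elim c a z) ↔
      cyc (Sum.elim c' a' (Equiv.sumCongr e e' x)) (Sum.elim c' a' (Equiv.sumCongr e e' y))
        (Sum.elim c' a' (Equiv.sumCongr e e' z))) →
    (∀ x y : ι ⊕ κ, Sum.elim c a x = Sum.elim c a y ↔
      Sum.elim c' a' (Equiv.sumCongr e e' x) = Sum.elim c' a' (Equiv.sumCongr e e' y)) →
    (∀ x y z : ι ⊕ κ, cyc (Sum.elim r b x) (Sum.elim r b y) (Sum.elim r b z) ↔
      cyc (Sum.elim r' b' (Equiv.sumCongr e e' x)) (Sum.elim r' b' (Equiv.sumCongr e e' y))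
        (Sum.elim r' b' (Equiv.sumCongr e e' z))) →
    (∀ x y : ι ⊕ κ, Sum.elim r b x = Sum.elim r b y ↔
      Sum.elim r' b' (Equiv.sumCongr e e' x) = Sum.elim r' b' (Equiv.sumCongr e e' y)) →
    (V c r a b ↔ V c' r' a' b')

/-- TRN: transposition. -/
def Stmt_TRN : Prop :=
  ∀ (ι κ α β : Type) [Fintype ι] [DecidableEq ι] [Fintype κ] [LinearOrder α] [LinearOrder β]
    (c : ι → α) (r : ι → β) (a : κ → α) (b : κ → β), V c r a b ↔ V r c b a

/-- Exchange of two adjacent unlinked columns. -/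
def P_COL : Prop :=
  ∀ (ι κ α β : Type) [Fintype ι] [DecidableEq ι] [Fintype κ] [LinearOrder α] [LinearOrder β]
    (c : ι → α) (r : ι → β) (a : κ → α) (b : κ → β), Gd c r a b →
    ∀ (j k : ι) (m n : κ), j ≠ k → (∀ i, ¬ cyc (c j) (c i) (c k)) → a m = c j → a n = c k →
      Unl (r j) (b m) (r k) (b n) →
      (V c r a b ↔ V (swap (c j) (c k) ∘ c) r (swap (c j) (c k) ∘ a) b)

/-- COL -/
def Stmt_COL : Prop := P_PC → P_COL

/-- Exchange of two adjacent unlinked rows. -/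
def P_ROW : Prop :=
  ∀ (ι κ α β : Type) [Fintype ι] [DecidableEq ι] [Fintype κ] [LinearOrder α] [LinearOrder β]
    (c : ι → α) (r : ι → β) (a : κ → α) (b : κ → β), Gd c r a b →
    ∀ (j k : ι) (m n : κ), j ≠ k → (∀ i, ¬ cyc (r j) (r i) (r k)) → b m = r j → b n = r k →
      Unl (c j) (a m) (c k) (a n) →
      (V c r a b ↔ V c (swap (r j) (r k) ∘ r) a (swap (r j) (r k) ∘ b))

/-- ROW -/
def Stmt_ROW : Prop := P_COL → Stmt_TRN → P_ROW

/-- EPS: the rectangles through one mark. -/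
def P_EPS : Prop :=
  ∀ (ι κ α β : Type) [Fintype ι] [DecidableEq ι] [Fintype κ] [DecidableEq κ] [LinearOrder α]
    [LinearOrder β] (c : ι → α) (r : ι → β) (a : κ → α) (b : κ → β), Gd c r a b →
    ∀ (m : ι ⊕ κ) (f : Perm ι → ZMod 2),
      bdS c r a b {m} (bdS c r a b ∅ f) = bdS c r a b ∅ (bdS c r a b {m} f) ∧
      bdS c r a b ∅ f = bd c r a b f

/-- EPS -/
def Stmt_EPS : Prop := P_DD → P_EPS

/-- The geometry of a stabilisation: `X_l`, `O_m`, `X_k` are in the lower left, lower right and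
upper right square of a two by two block. -/
structure Blk {ι κ α β : Type} [LinearOrder α] [LinearOrder β] (c : ι → α) (r : ι → β)
    (a : κ → α) (b : κ → β) (l k : ι) (m : κ) : Prop where
  gd : Gd c r a b
  ne : l ≠ k
  ca : ∀ i, ¬ cyc (c l) (c i) (c k)
  ra : ∀ i, ¬ cyc (r l) (r i) (r k)
  am : a m = c k
  bm : b m = r l

/-- SB0: the block structure of the differential for a stabilisation. -/
def Stmt_SB0 : Prop :=
  ∀ (ι κ α β : Type) [Fintype ι] [DecidableEq ι] [Fintype κ] [DecidableEq κ] [LinearOrder α]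
    [LinearOrder β] (c : ι → α) (r : ι → β) (a : κ → α) (b : κ → β) (l k : ι) (m : κ),
    Blk c r a b l k m → ∀ (x : Perm ι) (i j : ι), i ≠ j → Emp (gm c r a b) x i j →
      ((univ.filter fun m' => Ins (gm c r a b) x i j m') = ∅ → x k = k → (x * swap i j) k = k) ∧
      ((univ.filter fun m' => Ins (gm c r a b) x i j m') = {Sum.inl k} →
        (x * swap i j) k ≠ k) ∧
      ((univ.filter fun m' => Ins (gm c r a b) x i j m') = {Sum.inr m} →
        x k ≠ k ∧ (x * swap i j) k = k)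

/-- SB1: the composite of the two special maps is the identity on the states through the centre
of the block. -/
def Stmt_SB1 : Prop :=
  ∀ (ι κ α β : Type) [Fintype ι] [DecidableEq ι] [Fintype κ] [DecidableEq κ] [LinearOrder α]
    [LinearOrder β] (c : ι → α) (r : ι → β) (a : κ → α) (b : κ → β) (l k : ι) (m : κ),
    Blk c r a b l k m → ∀ f : Perm ι → ZMod 2, (∀ x, x k ≠ k → f x = 0) →
      bdS c r a b {Sum.inr m} (bdS c r a b {Sum.inl k} f) = f

/-- SB2: the complex of the states through the centre of the block is the complex of the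
destabilised diagram. -/
def Stmt_SB2 : Prop :=
  ∀ (ι κ α β : Type) [Fintype ι] [DecidableEq ι] [Fintype κ] [DecidableEq κ] [LinearOrder α]
    [LinearOrder β] (c : ι → α) (r : ι → β) (a : κ → α) (b : κ → β) (l k : ι) (m : κ),
    Blk c r a b l k m →
      (V (fun i : {i // i ≠ k} => c i) (fun i : {i // i ≠ k} => r i)
          (fun n : {n // n ≠ m} => a n) (fun n : {n // n ≠ m} => if b n = r k then r l else b n) ↔
        ∃ f : Perm ι → ZMod 2, (∀ x, x k ≠ k → f x = 0) ∧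
          ∀ y : Perm ι, y k = k → bd c r a b f y = (Pi.single 1 1 : Perm ι → ZMod 2) y)

/-- Destabilisation does not change `V`. -/
def P_STB : Prop :=
  ∀ (ι κ α β : Type) [Fintype ι] [DecidableEq ι] [Fintype κ] [DecidableEq κ] [LinearOrder α]
    [LinearOrder β] (c : ι → α) (r : ι → β) (a : κ → α) (b : κ → β) (l k : ι) (m : κ),
    Blk c r a b l k m →
      (V c r a b ↔ V (fun i : {i // i ≠ k} => c i) (fun i : {i // i ≠ k} => r i)
        (fun n : {n // n ≠ m} => a n) (fun n : {n // n ≠ m} => if b n = r k then r l else b n))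

/-- STB -/
def Stmt_STB : Prop := P_EPS → Stmt_SB0 → Stmt_SB1 → Stmt_SB2 → P_STB

/-- BLK: a block with the steps right and down kills `λ⁻`. -/
def Stmt_BLK : Prop :=
  ∀ (ι κ α β : Type) [Fintype ι] [DecidableEq ι] [Fintype κ] [LinearOrder α] [LinearOrder β]
    (c : ι → α) (r : ι → β) (a : κ → α) (b : κ → β), Gd c r a b →
    ∀ (l k : ι) (m : κ), l ≠ k → a m = c k → b m = r l → (∀ i, ¬ cyc (c l) (c i) (c k)) →
      (∀ i, ¬ cyc (r k) (r i) (r l)) → (∀ n, a n = c l → b n ≠ r k) → V c r a b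

/-- A short row: the marks `X_l` and `O_m` of the row `r l` are in the columns `c l`, `c k`; the
column `c k` has the other mark `X_k`, the column `c l` has the other mark `O_n`. -/
structure Srt {ι κ α β : Type} [LinearOrder α] [LinearOrder β] (c : ι → α) (r : ι → β)
    (a : κ → α) (b : κ → β) (l k : ι) (m n : κ) : Prop where
  gd : Gd c r a b
  ne : l ≠ k
  am : a m = c k
  bm : b m = r l
  an : a n = c l

/-- Removal of a short row of Legendrian type. -/
def P_SR : Prop :=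
  ∀ (ι κ α β : Type) [Fintype ι] [DecidableEq ι] [Fintype κ] [DecidableEq κ] [LinearOrder α]
    [LinearOrder β] (c : ι → α) (r : ι → β) (a : κ → α) (b : κ → β) (l k : ι) (m n : κ),
    Srt c r a b l k m n →
    ((∀ i, ¬ cyc (c l) (c i) (c k)) ∧ cyc (r l) (r k) (b n) ∨
      (∀ i, ¬ cyc (c k) (c i) (c l)) ∧ cyc (b n) (r k) (r l)) →
      (V c r a b ↔ V (fun i : {i // i ≠ l} => c i) (fun i : {i // i ≠ l} => r i)
        (fun n' : {n' // n' ≠ m} => if a n' = c l then c k else a n')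
        (fun n' : {n' // n' ≠ m} => b n'))

/-- SR1: short rows with the step to the right. -/
def Stmt_SR1 : Prop :=
  P_ROW → P_STB → Stmt_REL →
  ∀ (ι κ α β : Type) [Fintype ι] [DecidableEq ι] [Fintype κ] [DecidableEq κ] [LinearOrder α]
    [LinearOrder β] (c : ι → α) (r : ι → β) (a : κ → α) (b : κ → β) (l k : ι) (m n : κ),
    Srt c r a b l k m n → (∀ i, ¬ cyc (c l) (c i) (c k)) → cyc (r l) (r k) (b n) →
      (V c r a b ↔ V (fun i : {i // i ≠ l} => c i) (fun i : {i // i ≠ l} => r i)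
        (fun n' : {n' // n' ≠ m} => if a n' = c l then c k else a n')
        (fun n' : {n' // n' ≠ m} => b n'))

/-- SR2: short rows with the step to the left. -/
def Stmt_SR2 : Prop :=
  P_ROW → P_STB → Stmt_REL → Stmt_TRN →
  ∀ (ι κ α β : Type) [Fintype ι] [DecidableEq ι] [Fintype κ] [DecidableEq κ] [LinearOrder α]
    [LinearOrder β] (c : ι → α) (r : ι → β) (a : κ → α) (b : κ → β) (l k : ι) (m n : κ),
    Srt c r a b l k m n → (∀ i, ¬ cyc (c k) (c i) (c l)) → cyc (b n) (r k) (r l) →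
      (V c r a b ↔ V (fun i : {i // i ≠ l} => c i) (fun i : {i // i ≠ l} => r i)
        (fun n' : {n' // n' ≠ m} => if a n' = c l then c k else a n')
        (fun n' : {n' // n' ≠ m} => b n'))

/-- A short row of the wrong type kills `λ⁻`. -/
def P_WR : Prop :=
  ∀ (ι κ α β : Type) [Fintype ι] [DecidableEq ι] [Fintype κ] [DecidableEq κ] [LinearOrder α]
    [LinearOrder β] (c : ι → α) (r : ι → β) (a : κ → α) (b : κ → β) (l k : ι) (m n : κ),
    Srt c r a b l k m n → (∀ i, ¬ cyc (c l) (c i) (c k)) → cyc (r l) (b n) (r k) → V c r a b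

/-- WR -/
def Stmt_WR : Prop := P_ROW → Stmt_BLK → P_WR

/-! ### lists -/

/-- LROT -/
def Stmt_LROT : Prop := Stmt_REL → ∀ A B : List (ℝ × ℝ), VL (A ++ B) ↔ VL (B ++ A)

/-- LISO: cyclic order isomorphism of lists. -/
def Stmt_LISO : Prop :=
  Stmt_REL → ∀ L L' : List (ℝ × ℝ), Nd L → Nd L' → ∀ h : L.length = L'.length,
    (∀ i j k : Fin L.length, cyc (L.get i).1 (L.get j).1 (L.get k).1 ↔
      cyc (L'.get (i.cast h)).1 (L'.get (j.cast h)).1 (L'.get (k.cast h)).1) →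
    (∀ i j k : Fin L.length, cyc (L.get i).2 (L.get j).2 (L.get k).2 ↔
      cyc (L'.get (i.cast h)).2 (L'.get (j.cast h)).2 (L'.get (k.cast h)).2) →
    (VL L ↔ VL L')

/-- LTRN: transposition of lists. -/
def Stmt_LTRN : Prop :=
  Stmt_TRN → Stmt_REL → ∀ L : List (ℝ × ℝ), VL L ↔ VL (L.map Prod.swap).reverse

/-- The conclusion for one move. -/
def Inv (L L' : List (ℝ × ℝ)) : Prop := VL L ↔ VL L'

/-- LCOL: the move `Mv.col`. -/
def Stmt_LCOL : Prop :=
  P_COL → Stmt_REL → ∀ (c r t : ℝ) (B : List (ℝ × ℝ)) (z : ℝ × ℝ), Nd ((c, r) :: (B ++ [z])) →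
    t ∉ ((c, r) :: (B ++ [z])).map Prod.fst →
    (∀ (B₁ B₂ : List (ℝ × ℝ)) (y x : ℝ × ℝ), (c, r) :: (B ++ [z]) = B₁ ++ y :: x :: B₂ →
      (c < x.1 ∧ x.1 < t ∨ t < x.1 ∧ x.1 < c) → Unl z.2 r y.2 x.2) →
    Inv ((c, r) :: (B ++ [z])) ((t, r) :: (B ++ [z]))

/-- LROW: the move `Mv.row`. -/
def Stmt_LROW : Prop :=
  Stmt_LCOL → P_COL → Stmt_REL → Stmt_TRN → Stmt_LTRN → Stmt_LROT →
  ∀ (c r t : ℝ) (z : ℝ × ℝ) (B : List (ℝ × ℝ)), Nd ((c, r) :: z :: B) →
    t ∉ ((c, r) :: z :: B).map Prod.snd →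
    (∀ (B₁ B₂ : List (ℝ × ℝ)) (x y : ℝ × ℝ), (c, r) :: z :: B ++ [(c, r)] = B₁ ++ x :: y :: B₂ →
      (r < x.2 ∧ x.2 < t ∨ t < x.2 ∧ x.2 < r) → Unl c z.1 x.1 y.1) →
    Inv ((c, r) :: z :: B) ((c, t) :: z :: B)

/-- LSR: the move `Mv.srow`. -/
def Stmt_LSR : Prop :=
  P_SR → Stmt_REL → ∀ (c₁ r₁ c₂ r₂ : ℝ) (B : List (ℝ × ℝ)) (z : ℝ × ℝ),
    Nd ((c₁, r₁) :: (c₂, r₂) :: (B ++ [z])) →
    ((∀ d ∈ ((c₁, r₁) :: (c₂, r₂) :: (B ++ [z])).map Prod.fst, ¬ cyc c₁ d c₂) ∧ cyc r₁ r₂ z.2 ∨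
      (∀ d ∈ ((c₁, r₁) :: (c₂, r₂) :: (B ++ [z])).map Prod.fst, ¬ cyc c₂ d c₁) ∧ cyc z.2 r₂ r₁) →
    Inv ((c₁, r₁) :: (c₂, r₂) :: (B ++ [z])) ((c₂, r₂) :: (B ++ [z]))

/-- LSC: the move `Mv.scol`. -/
def Stmt_LSC : Prop :=
  Stmt_LSR → P_SR → Stmt_REL → Stmt_TRN → Stmt_LTRN → Stmt_LROT →
  ∀ (c₁ r₁ c₂ r₂ : ℝ) (z : ℝ × ℝ) (B : List (ℝ × ℝ)), Nd ((c₁, r₁) :: (c₂, r₂) :: z :: B) →
    ((∀ d ∈ ((c₁, r₁) :: (c₂, r₂) :: z :: B).map Prod.snd, ¬ cyc r₁ d r₂) ∧ cyc z.1 c₁ c₂ ∨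
      (∀ d ∈ ((c₁, r₁) :: (c₂, r₂) :: z :: B).map Prod.snd, ¬ cyc r₂ d r₁) ∧ cyc c₂ c₁ z.1) →
    Inv ((c₁, r₁) :: (c₂, r₂) :: z :: B) ((c₁, r₁) :: z :: B)

/-- LNEG: the moves are compatible with the rotation by the angle `π`. -/
def Stmt_LNEG : Prop := ∀ L L' : List (ℝ × ℝ), Mv L L' → Mv (neg L) (neg L')

/-- Legendrian equivalence preserves the vanishing of `λ⁻` and of `λ⁺`. -/
def P_LEQ : Prop := ∀ L L' : List (ℝ × ℝ), LEq L L' → (VL L ↔ VL L') ∧ (VP L ↔ VP L')

/-- LEQ: assembly (all four list moves and the negation). -/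
def Stmt_LEQ : Prop :=
  (∀ L L' : List (ℝ × ℝ), Mv L L' → Inv L L') → Stmt_LNEG → P_LEQ

/-- LWR: a list with a short row of the wrong type has vanishing `λ⁻`. -/
def Stmt_LWR : Prop :=
  P_WR → ∀ (c₁ r₁ c₂ r₂ : ℝ) (B : List (ℝ × ℝ)) (z : ℝ × ℝ),
    Nd ((c₁, r₁) :: (c₂, r₂) :: (B ++ [z])) →
    (∀ d ∈ ((c₁, r₁) :: (c₂, r₂) :: (B ++ [z])).map Prod.fst, ¬ cyc c₁ d c₂) → cyc r₁ z.2 r₂ →
    VL ((c₁, r₁) :: (c₂, r₂) :: (B ++ [z]))

end LG
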